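import Pool.Agent.LSG.St

/-!
# LS, geometry block: module Adj
-/

set_option autoImplicit false
set_option linter.unusedVariables false

namespace Pool.LSG

open Pool.Agent.ARB Pool.Agent.Helper2 Pool.ALT Pool.LSP

theorem adj_ev {κ : Type} {e : Bool} {a : Cr κ} {x y : κ} (h : Ev e a x y) :
    Ev e (Rt.r a) x y := by
  obtain ⟨p, l, b, r, t⟩ := a
  rcases h with ⟨h1, h2⟩ | ⟨h1, h2⟩
  · refine Or.inr ⟨?_, h2⟩
    intro h3
    have h4 : (!p) = e := h3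
    have h5 : p = e := h1
    subst h5
    cases p <;> simp at h4
  · refine Or.inl ⟨?_, ?_⟩
    · show (!p) = e
      have h5 : ¬ p = e := h1
      cases p <;> cases e <;> simp_all
    · rcases h2 with ⟨h3, h4⟩ | ⟨h3, h4⟩
      · exact Or.inr ⟨h4, h3⟩
      · exact Or.inl ⟨h4, h3⟩

/-- the isotopy of the undecorated words -/
theorem adj_iso (hFl : St_Fl) (e : Bool) (A B : Word) (hA : Ok A 4 0) (hB : Ok B 4 0) :
    Iso 0 (IW e ++ ([pU 2, pU 4, pX 3 (!e)] ++ (A ++ B)))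
      (pU 0 :: pU 1 :: (flw 2 (pU 2 :: pU 3 :: A) ++ B)) := by
  have hA2 : Ok (pU 2 :: pU 3 :: A) 2 2 := by
    refine ⟨by decide, by decide, ?_⟩
    exact (hA.add 2)
  -- first part: the lower crossing
  have s1 : Iso 0 [pU 0, pU 2, pX 1 e] [pU 0, pU 1, pX 0 (!e)] := by
    have t1 : Iso 0 [pU 0, pU 2] [pU 0, pU 0] := Iso.swap (n := 0) .U .U 0 0 (by decide) (by decide)
    have t2 : Iso 0 [pU 0, pU 2, pX 1 e] [pU 0, pU 0, pX 1 e] := t1.right [pX 1 e]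
    have t3 : Iso 2 [pU 1, pX 0 (!e)] [pU 0, pX 1 (!(!e))] := Iso.slU (!e) (by decide)
    rw [Bool.not_not] at t3
    have t4 : Iso 0 ([pU 0] ++ [pU 1, pX 0 (!e)]) ([pU 0] ++ [pU 0, pX 1 e]) :=
      Iso.left (k := 2) ⟨by decide, rfl⟩ t3
    exact t2.trans t4.symm
  -- second part: the upper crossing, on four strands
  have s2 : Iso 4 [pU 2, pU 4, pX 3 (!e)] [pU 2, pU 3, pX 4 e] := by
    have t1 : Iso 6 [pU 4, pX 3 (!e)] [pU 3, pX 4 (!(!e))] := Iso.slU (!e) (by decide)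
    rw [Bool.not_not] at t1
    exact Iso.left (z := [pU 2]) (k := 6) ⟨by decide, rfl⟩ t1
  -- the crossing commutes with `A`
  have s3 : Iso 8 ([pX 4 e] ++ A) (A ++ [pX 0 e]) := by
    have t1 := thm_Comm A [pX 0 e] 4 0 4 4 hA ⟨by show 0 + 2 ≤ 4; omega, rfl⟩
    exact t1.symm
  have s4 : Iso 4 ([pU 2, pU 4, pX 3 (!e)] ++ (A ++ B))
      ((pU 2 :: pU 3 :: A) ++ ([pX 0 e] ++ B)) := by
    have t1 : Iso 4 ([pU 2, pU 4, pX 3 (!e)] ++ (A ++ B)) ([pU 2, pU 3, pX 4 e] ++ (A ++ B)) :=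
      s2.right _
    have t2 : Iso 4 ([pU 2, pU 3] ++ (([pX 4 e] ++ A) ++ B)) ([pU 2, pU 3] ++ ((A ++ [pX 0 e]) ++ B)) :=
      Iso.mid (k := 8) [pU 2, pU 3] B ⟨by decide, by decide, rfl⟩ s3
    have e1 : [pU 2, pU 3] ++ (([pX 4 e] ++ A) ++ B) = [pU 2, pU 3, pX 4 e] ++ (A ++ B) := by simp
    have e2 : [pU 2, pU 3] ++ ((A ++ [pX 0 e]) ++ B) =
        (pU 2 :: pU 3 :: A) ++ ([pX 0 e] ++ B) := by simp
    rw [e1, e2] at t2
    exact t1.trans t2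
  -- the flype
  have s5 : Iso 2 ((pU 2 :: pU 3 :: A) ++ [pX 0 e]) ([pX 0 e] ++ flw 2 (pU 2 :: pU 3 :: A)) := by
    have t1 := (hFl (pU 2 :: pU 3 :: A) 2 2 hA2).2.2.2.2 (le_refl 2) (le_refl 2) e
    simpa [dl2] using t1
  have s6 : Iso 2 ([pX 0 (!e)] ++ ((pU 2 :: pU 3 :: A) ++ [pX 0 e]))
      (flw 2 (pU 2 :: pU 3 :: A)) := by
    have t1 : Iso 2 ([pX 0 (!e)] ++ ((pU 2 :: pU 3 :: A) ++ [pX 0 e]))
        ([pX 0 (!e)] ++ ([pX 0 e] ++ flw 2 (pU 2 :: pU 3 :: A))) :=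
      Iso.left (k := 2) ⟨by show 0 + 2 ≤ 2; omega, rfl⟩ s5
    have t2 : Iso 2 ([pX 0 (!e), pX 0 e] ++ flw 2 (pU 2 :: pU 3 :: A))
        ([] ++ flw 2 (pU 2 :: pU 3 :: A)) := (Iso.r2' (n := 2) (i := 0) e (le_refl 2)).right _
    exact t1.trans t2
  have s7 : Iso 4 (([pX 0 (!e)] ++ ((pU 2 :: pU 3 :: A) ++ [pX 0 e])) ++ B)
      (flw 2 (pU 2 :: pU 3 :: A) ++ B) := (s6.le (by decide)).right B
  -- together
  have u1 : Iso 0 (IW e ++ ([pU 2, pU 4, pX 3 (!e)] ++ (A ++ B)))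
      ([pU 0, pU 1, pX 0 (!e)] ++ ([pU 2, pU 4, pX 3 (!e)] ++ (A ++ B))) := s1.right _
  have u2 : Iso 0 ([pU 0, pU 1, pX 0 (!e)] ++ ([pU 2, pU 4, pX 3 (!e)] ++ (A ++ B)))
      ([pU 0, pU 1, pX 0 (!e)] ++ ((pU 2 :: pU 3 :: A) ++ ([pX 0 e] ++ B))) :=
    Iso.left (k := 4) ⟨by decide, by decide, by show 0 + 2 ≤ 4; omega, rfl⟩ s4
  have u3 : Iso 0 ([pU 0, pU 1] ++ (([pX 0 (!e)] ++ ((pU 2 :: pU 3 :: A) ++ [pX 0 e])) ++ B))
      ([pU 0, pU 1] ++ (flw 2 (pU 2 :: pU 3 :: A) ++ B)) :=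
    Iso.left (k := 4) ⟨by decide, by decide, rfl⟩ s7
  have e3 : [pU 0, pU 1] ++ (([pX 0 (!e)] ++ ((pU 2 :: pU 3 :: A) ++ [pX 0 e])) ++ B) =
      [pU 0, pU 1, pX 0 (!e)] ++ ((pU 2 :: pU 3 :: A) ++ ([pX 0 e] ++ B)) := by simp
  rw [e3] at u3
  exact u1.trans (u2.trans u3)

theorem thm_Adj (hSL : St_SL) (hMp : St_Mp) (hFa : St_Fa) (hIsl : St_Isl) (hT1 : St_T1)
    (hFl : St_Fl) (hSC : St_SC) (hK2 : St_K2) : St_Adj := by
  intro κ e pr c W hD hF hne hex hun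
  obtain ⟨a, ha, hev⟩ := hex
  -- the crossing is pulled to the gap 2
  have hcor : a.l = c 2 ∨ a.b = c 2 ∨ a.r = c 2 ∨ a.t = c 2 := by
    rcases hev with ⟨-, h | h⟩ | ⟨-, h | h⟩
    · exact Or.inr (Or.inr (Or.inl h.2))
    · exact Or.inl h.1
    · exact Or.inr (Or.inr (Or.inr h.2))
    · exact Or.inr (Or.inl h.1)
  obtain ⟨a', V, hb, hrot, hV, hiso⟩ := hT1 W 4 c (c 2) hD.ok hD.vl (hF _) 2 (by decide) rfl a ha
    hcor
  have hev' : Ev e a' (c 0) (c 2) := by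
    rcases hrot with h | h | h | h
    · rw [h]; exact hev
    · rw [h]; exact adj_ev hev
    · rw [h]; exact adj_ev (adj_ev hev)
    · rw [h]; exact adj_ev (adj_ev (adj_ev hev))
  have hD2 : Dec e pr c 4 (isl 2 a' ++ V) := hFa.2.1 e pr c 4 W _ hiso hD
  obtain ⟨hDV, -, -, hp⟩ := hIsl.2.1 e pr c 4 2 a' V (by decide) hD2
  have hp' : a'.p ≠ e := by
    intro h
    have := hp.1 h
    omega
  have hpe : a'.p = !e := by
    revert hp'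
    cases a'.p <;> cases e <;> simp
  have ht : a'.t = c 0 := by
    rcases hev' with ⟨h, -⟩ | ⟨-, h | h⟩
    · exact absurd h hp'
    · exact absurd (h.1.symm.trans hb) hne
    · exact h.2
  -- cut along the region `c 0`
  have hFa2 : Fa (c 0) c 4 (isl 2 a' ++ V) := hFa.2.2.1 (c 0) c 4 W _ hiso (hF _)
  have hFaV : Fa (c 0) (isc 2 a' c) 8 V :=
    hIsl.2.2.1 (c 0) c 4 2 a' V (by decide) hV hFa2 hb (by rw [hb]; exact Ne.symm hne)
  have hrel : Rel V 0 4 := by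
    refine hFa.2.2.2.1 (c 0) (isc 2 a' c) 8 V hV hDV.vl hFaV 0 4 (by decide) (by decide) ?_ ?_
    · simp [isc]
    · simp [isc, ht]
  obtain ⟨A, B, hA, hB, -, hAB⟩ := hSL.1 V 8 hV 0 4 (by decide) (by decide) hrel
  rw [shd_zero] at hAB
  have hisoW : PIso 4 W (isl 2 a' ++ (A ++ B)) := by
    refine hiso.trans (PIso.left (k := 8) ?_ hAB)
    exact ⟨by show 2 + 0 ≤ 4; omega, by show 4 + 0 ≤ 6; omega, by show 3 + 2 ≤ 8; omega, rfl⟩
  have hD3 : Dec e pr c 4 (isl 2 a' ++ (A ++ B)) := hFa.2.1 e pr c 4 W _ hisoW hD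
  -- forget the colours
  obtain ⟨-, hMpI, hMpF, -⟩ := hMp
  obtain ⟨fapp, fsh, fok, -, fx⟩ := hMpF (κ := κ)
  have hOA : Ok (fgt A) 4 0 := (fok A 4 0).1 hA
  have hOB : Ok (fgt B) 4 0 := (fok B 4 0).1 hB
  have hfisl : fgt (isl 2 a') = [pU 2, pU 4, pX 3 (!e)] := by
    simp [fgt, isl, hpe]
  have hIW : Iso 4 (fgt W) ([pU 2, pU 4, pX 3 (!e)] ++ (fgt A ++ fgt B)) := by
    have := hMpI 4 W _ hisoW
    rwa [fapp, fapp, hfisl] at this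
  have hIWo : Ok (IW e) 0 4 := ⟨by decide, by decide, by show 1 + 2 ≤ 4; omega, rfl⟩
  have h0 : Iso 0 (IW e ++ fgt W)
      (pU 0 :: pU 1 :: (flw 2 (pU 2 :: pU 3 :: fgt A) ++ fgt B)) :=
    (Iso.left hIWo hIW).trans (adj_iso hFl e (fgt A) (fgt B) hOA hOB)
  -- alternation
  have hA2 : Ok (pU 2 :: pU 3 :: fgt A) 2 2 := ⟨by decide, by decide, hOA.add 2⟩
  have hfl := hFl (pU 2 :: pU 3 :: fgt A) 2 2 hA2
  have haltA : AltW e (pU 2 :: pU 3 :: fgt A) := by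
    intro p i hpi
    have h1 : pX i p ∈ fgt A := by
      simpa using hpi
    obtain ⟨b, rfl, hb2⟩ := (fx A p i).1 h1
    exact hD3.al i b (by simp [hb2])
  have haltB : AltW e (fgt B) := by
    intro p i hpi
    obtain ⟨b, rfl, hb2⟩ := (fx B p i).1 hpi
    exact hD3.al i b (by simp [hb2])
  have halt : AltW e (pU 1 :: (flw 2 (pU 2 :: pU 3 :: fgt A) ++ fgt B)) := by
    intro p i hpi
    have h1 : pX i p ∈ flw 2 (pU 2 :: pU 3 :: fgt A) ∨ pX i p ∈ fgt B := by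
      simpa using hpi
    rcases h1 with h1 | h1
    · exact hfl.2.2.2.1 (by decide) e haltA p i h1
    · exact haltB p i h1
  have hokA' : Ok (pU 1 :: (flw 2 (pU 2 :: pU 3 :: fgt A) ++ fgt B)) 2 0 := by
    refine ⟨by decide, ?_⟩
    exact (hfl.1.add 2).append hOB
  -- conclusion
  have hOW : Ok (fgt W) 4 0 := (fok W 4 0).1 hD.ok
  have hun2 := hSC.1 (IW e ++ fgt W) _ (hIWo.append hOW) (by simp [IW]) h0 hun
  have hk := hK2 e _ hokA' halt hun2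
  have hfin : Iso 0 (pU 0 :: (pU 1 :: (flw 2 (pU 2 :: pU 3 :: fgt A) ++ fgt B))) O1 :=
    Iso.left (z := [pU 0]) (k := 2) ⟨by decide, rfl⟩ hk
  exact h0.trans hfin

end Pool.LSG
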