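import Pool.Agent.LSG.St

/-!
# LS, geometry block: module Adj2
-/

set_option autoImplicit false

namespace Pool.LSG

open Pool.Agent.ARB Pool.Agent.Helper2 Pool.ALT Pool.LSP

private theorem adj2_ev {κ : Type} (e : Bool) (a : Cr κ) (x y : κ) :
    Ev e (Rt.r a) x y ↔ Ev e a x y := by
  obtain ⟨p, l, b, r, t⟩ := a
  show Ev e (Cr.rot ⟨p, l, b, r, t⟩) x y ↔ _
  simp only [Ev, Cr.rot]
  cases p <;> cases e <;> simp <;> tauto

private theorem adj2_ev4 {κ : Type} (e : Bool) (a a' : Cr κ) (x y : κ)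
    (h : a' = a ∨ a' = Rt.r a ∨ a' = Rt.r (Rt.r a) ∨ a' = Rt.r (Rt.r (Rt.r a)))
    (he : Ev e a x y) : Ev e a' x y := by
  rcases h with rfl | rfl | rfl | rfl
  · exact he
  · exact (adj2_ev _ _ _ _).mpr he
  · exact (adj2_ev _ _ _ _).mpr ((adj2_ev _ _ _ _).mpr he)
  · exact (adj2_ev _ _ _ _).mpr ((adj2_ev _ _ _ _).mpr ((adj2_ev _ _ _ _).mpr he))

private theorem adj2_IWok (e : Bool) : Ok (IW e) 0 4 := by
  cases e <;> exact ⟨by decide, by decide, by decide, rfl⟩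

private theorem adj2_X (i n : ℕ) (e : Bool) (h : i + 2 ≤ n) : Ok [pX i e] n n :=
  ⟨h, by show n - 2 + 2 = n; omega⟩

/-- the island in another form -/
private theorem adj2_isl (e : Bool) :
    Iso 4 [pU 1, pU 3, pX 2 e] [pU 1, pU 2, pX 1 (!e)] := by
  have h1 : Iso 4 [pU 1, pU 3] [pU 1, pU 1] :=
    Iso.swap (n := 4) .U .U 1 1 (by decide) (by decide)
  have h2 : Iso 4 ([pU 1, pU 3] ++ [pX 2 e]) ([pU 1, pU 1] ++ [pX 2 e]) := h1.right _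
  have h3 : Iso 6 [pU 1, pX 2 e] [pU 2, pX 1 (!e)] := by
    have h4 := (Iso.slU (n := 6) (i := 1) (!e) (by decide)).symm
    rw [Bool.not_not] at h4
    exact h4
  have h5 : Iso 4 ([pU 1] ++ [pU 1, pX 2 e]) ([pU 1] ++ [pU 2, pX 1 (!e)]) :=
    Iso.left (k := 6) ⟨by decide, rfl⟩ h3
  exact h2.trans h5

/-- the isotopy of words without decorations -/
private theorem adj2_iso (hFl : St_Fl) (e : Bool) (A B : Word) (hA : Ok A 4 0) (_hB : Ok B 4 0) :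
    Iso 0 (IW e ++ ([pU 1, pU 3, pX 2 e] ++ (Pool.Agent.ARB.sh 3 A ++ B)))
      (pU 0 :: (pU 2 :: (Pool.Agent.ARB.sh 1 (flw 2 (pU 0 :: pU 1 :: Pool.Agent.ARB.sh 2 A)) ++
        B))) := by
  set T : Word := pU 0 :: pU 1 :: Pool.Agent.ARB.sh 2 A with hT
  have hTok : Ok T 2 2 := ⟨by decide, by decide, hA.sh 2⟩
  have h1 : Iso 0 (IW e ++ ([pU 1, pU 3, pX 2 e] ++ (Pool.Agent.ARB.sh 3 A ++ B)))
      (IW e ++ ([pU 1, pU 2, pX 1 (!e)] ++ (Pool.Agent.ARB.sh 3 A ++ B))) :=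
    Iso.mid (k := 4) _ _ (adj2_IWok e) (adj2_isl e)
  -- the crossing goes up
  have h2 : Iso 8 ([pX 1 (!e)] ++ Pool.Agent.ARB.sh 3 A) (Pool.Agent.ARB.sh 3 A ++ [pX 1 (!e)]) :=
    (thm_Comm [pX 1 (!e)] A 3 3 4 0 (adj2_X 1 3 _ (by decide)) hA).add 1
  have h3 : Iso 0 ((IW e ++ [pU 1, pU 2]) ++ (([pX 1 (!e)] ++ Pool.Agent.ARB.sh 3 A) ++ B))
      ((IW e ++ [pU 1, pU 2]) ++ ((Pool.Agent.ARB.sh 3 A ++ [pX 1 (!e)]) ++ B)) :=
    Iso.mid (k := 8) _ _ ((adj2_IWok e).append ⟨by decide, by decide, rfl⟩) h2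
  have h4 : Iso 2 ([pX 0 e] ++ (T ++ [pX 0 (!e)])) ([] ++ flw 2 T) := by
    have h5 : Iso 2 (T ++ [pX 0 (!e)]) ([pX 0 (!e)] ++ flw 2 T) :=
      (hFl T 2 2 hTok).2.2.2.2 (by decide) (by decide) (!e)
    have h6 : Iso 2 ([pX 0 e] ++ (T ++ [pX 0 (!e)])) ([pX 0 e] ++ ([pX 0 (!e)] ++ flw 2 T)) :=
      Iso.left (k := 2) (adj2_X 0 2 e (by decide)) h5
    have h7 : Iso 2 ([pX 0 e, pX 0 (!e)] ++ flw 2 T) ([] ++ flw 2 T) :=
      (Iso.r2 (n := 2) (i := 0) e (by decide)).right _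
    exact h6.trans h7
  have h8 : Iso 4 (Pool.Agent.ARB.sh 1 ([pX 0 e] ++ (T ++ [pX 0 (!e)])))
      (Pool.Agent.ARB.sh 1 (flw 2 T)) := (h4.sh 1).add 1
  have h9 : Iso 0 ([pU 0, pU 2] ++ (Pool.Agent.ARB.sh 1 ([pX 0 e] ++ (T ++ [pX 0 (!e)])) ++ B))
      ([pU 0, pU 2] ++ (Pool.Agent.ARB.sh 1 (flw 2 T) ++ B)) :=
    Iso.mid (k := 4) _ _ ⟨by decide, by decide, rfl⟩ h8
  have e1 : (IW e ++ [pU 1, pU 2]) ++ (([pX 1 (!e)] ++ Pool.Agent.ARB.sh 3 A) ++ B) =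
      IW e ++ ([pU 1, pU 2, pX 1 (!e)] ++ (Pool.Agent.ARB.sh 3 A ++ B)) := by
    simp [List.append_assoc]
  have e2 : (IW e ++ [pU 1, pU 2]) ++ ((Pool.Agent.ARB.sh 3 A ++ [pX 1 (!e)]) ++ B) =
      [pU 0, pU 2] ++ (Pool.Agent.ARB.sh 1 ([pX 0 e] ++ (T ++ [pX 0 (!e)])) ++ B) := by
    have e3 : Pool.Agent.ARB.sh 3 A = Pool.Agent.ARB.sh 1 (Pool.Agent.ARB.sh 2 A) := by
      rw [sh_sh]
    rw [e3, hT]
    simp [IW, sh_append, sh_cons, sh_nil, List.append_assoc]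
  rw [e1, e2] at h3
  exact h1.trans (h3.trans h9)

theorem thm_Adj2 (hSL : St_SL) (hMp : St_Mp) (hFa : St_Fa) (hIsl : St_Isl) (hT1 : St_T1)
    (hFl : St_Fl) (hSC : St_SC) (hK2 : St_K2) : St_Adj2 := by
  intro κ e pr c W hD hF hne ⟨a, haL, haE⟩
  -- the island
  have hcor : a.l = c 1 ∨ a.b = c 1 ∨ a.r = c 1 ∨ a.t = c 1 := by
    rcases haE with ⟨_, h | h⟩ | ⟨_, h | h⟩
    · exact Or.inl h.1
    · exact Or.inr (Or.inr (Or.inl h.2))
    · exact Or.inr (Or.inl h.1)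
    · exact Or.inr (Or.inr (Or.inr h.2))
  obtain ⟨a', V, hb, hrot, hVok, hiso⟩ :=
    hT1 W 4 c (c 1) hD.ok hD.vl (hF (c 1)) 1 (by decide) rfl a haL hcor
  have hE' : Ev (!e) a' (c 1) (c 3) := adj2_ev4 _ _ _ _ _ hrot haE
  have hD1 : Dec e pr c 4 (isl 1 a' ++ V) := hFa.2.1 e pr c 4 W _ hiso hD
  obtain ⟨hD2, _, _, hp⟩ := hIsl.2.1 e pr c 4 1 a' V (by decide) hD1
  have hp' : a'.p = e := hp.mpr (by decide)
  have ht : a'.t = c 3 := by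
    rcases hE' with ⟨h, _⟩ | ⟨_, h | h⟩
    · rw [hp'] at h
      cases e <;> simp at h
    · exact h.2
    · exact absurd (hb.symm.trans h.1) hne
  have hF1 : Fa (c 3) c 4 (isl 1 a' ++ V) := hFa.2.2.1 (c 3) c 4 W _ hiso (hF (c 3))
  have hF2 : Fa (c 3) (isc 1 a' c) (4 + 4) V :=
    hIsl.2.2.1 (c 3) c 4 1 a' V (by decide) hVok hF1 hb (by rw [hb]; exact hne)
  have hrel : Rel V 3 7 := by
    refine hFa.2.2.2.1 (c 3) (isc 1 a' c) (4 + 4) V hVok hD2.vl hF2 3 7 (by decide) (by decide)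
      ?_ ?_
    · show (if 3 ≤ 1 then c 3 else if 3 = 1 + 1 then a'.l else if 3 = 1 + 2 then a'.t else
        if 3 = 1 + 3 then a'.r else c (3 - 4)) = c 3
      simpa using ht
    · show (if 7 ≤ 1 then c 7 else if 7 = 1 + 1 then a'.l else if 7 = 1 + 2 then a'.t else
        if 7 = 1 + 3 then a'.r else c (7 - 4)) = c 3
      simp
  obtain ⟨A, B, hA, hB, _, hiso2⟩ := hSL.1 V (4 + 4) hVok 3 7 (by decide) (by decide) hrel
  have hA' : Okd A 4 0 := hA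
  have hB' : Okd B 4 0 := hB
  have hD3 : Dec e pr (isc 1 a' c) (4 + 4) (shd 3 A ++ B) := hFa.2.1 e pr _ _ V _ hiso2 hD2
  -- forget the colours
  have hislok : Okd (isl 1 a') 4 8 := ⟨by show 1 + 0 ≤ 4; omega, by show 1 + 2 + 0 ≤ 4 - 0 + 2; omega,
    by show 1 + 1 + 2 ≤ 4 - 0 + 2 - 0 + 2; omega, rfl⟩
  have hiso3 : PIso 4 W (isl 1 a' ++ (shd 3 A ++ B)) := hiso.trans (PIso.left hislok hiso2)
  have hiso4 : Iso 4 (fgt W) (fgt (isl 1 a' ++ (shd 3 A ++ B))) := hMp.2.1 4 _ _ hiso3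
  obtain ⟨hfapp, hfsh, hfok, hfnX, hflet⟩ := hMp.2.2.1 (κ := κ)
  have hfi : fgt (isl 1 a') = [pU 1, pU 3, pX 2 e] := by
    show [pU 1, pU 3, pX 2 a'.p] = _
    rw [hp']
  rw [hfapp, hfapp, hfsh, hfi] at hiso4
  have hAok : Ok (fgt A) 4 0 := (hfok _ _ _).mp hA'
  have hBok : Ok (fgt B) 4 0 := (hfok _ _ _).mp hB'
  have hWok : Ok (fgt W) 4 0 := (hfok _ _ _).mp hD.ok
  -- alternation
  have hAalt : AltW (!e) (fgt A) := by
    intro p i hi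
    obtain ⟨b, hb1, hb2⟩ := (hflet A p i).mp hi
    have h1 : cX (i + 3) b ∈ shd 3 A ++ B := by
      apply List.mem_append_left
      exact List.mem_map.mpr ⟨_, hb2, rfl⟩
    have h2 := hD3.al _ _ h1
    rw [hb1] at h2
    have h3 : (i + 3) % 2 = 0 ↔ ¬ (i % 2 = 0) := by omega
    rw [h3] at h2
    cases p <;> cases e <;> simp_all
  have hBalt : AltW e (fgt B) := by
    intro p i hi
    obtain ⟨b, hb1, hb2⟩ := (hflet B p i).mp hi
    have h1 : cX i b ∈ shd 3 A ++ B := List.mem_append_right _ hb2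
    have h2 := hD3.al _ _ h1
    rw [hb1] at h2
    exact h2
  set T : Word := pU 0 :: pU 1 :: Pool.Agent.ARB.sh 2 (fgt A) with hT
  have hTok : Ok T 2 2 := ⟨by decide, by decide, hAok.sh 2⟩
  have hTalt : AltW (!e) T := by
    intro p i hi
    rw [hT] at hi
    simp only [List.mem_cons, Piece.mk.injEq, reduceCtorEq, false_and, false_or] at hi
    obtain ⟨s, hs, hs2⟩ := List.mem_map.mp hi
    obtain ⟨k, i0⟩ := s
    simp only [Piece.mk.injEq] at hs2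
    obtain ⟨rfl, rfl⟩ := hs2
    have h1 := hAalt p i0 hs
    rw [h1]
    omega
  obtain ⟨hFok, _, _, hFalt, _⟩ := hFl T 2 2 hTok
  have hFalt' := hFalt (by decide) (!e) hTalt
  have hA1ok : Ok (pU 2 :: (Pool.Agent.ARB.sh 1 (flw 2 T) ++ fgt B)) 2 0 :=
    ⟨by decide, ((hFok.sh 1).add 1).append hBok⟩
  have hA1alt : AltW e (pU 2 :: (Pool.Agent.ARB.sh 1 (flw 2 T) ++ fgt B)) := by
    intro p i hi
    simp only [List.mem_cons, Piece.mk.injEq, reduceCtorEq, false_and, false_or,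
      List.mem_append] at hi
    rcases hi with hi | hi
    · obtain ⟨s, hs, hs2⟩ := List.mem_map.mp hi
      obtain ⟨k, i0⟩ := s
      simp only [Piece.mk.injEq] at hs2
      obtain ⟨rfl, rfl⟩ := hs2
      have h1 := hFalt' p i0 hs
      have h3 : (i0 + 1) % 2 = 0 ↔ ¬ (i0 % 2 = 0) := by omega
      rw [h3, ← h1]
      cases p <;> cases e <;> simp
    · exact hBalt p i hi
  -- the end
  intro hUn
  have hIWok : Ok (IW e) 0 4 := adj2_IWok e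
  have hfin : Iso 0 (IW e ++ fgt W)
      (pU 0 :: (pU 2 :: (Pool.Agent.ARB.sh 1 (flw 2 T) ++ fgt B))) :=
    (Iso.left hIWok hiso4).trans (adj2_iso hFl e (fgt A) (fgt B) hAok hBok)
  have hUn2 := hSC.1 _ _ (hIWok.append hWok) (by simp [IW]) hfin hUn
  have hK := hK2 e _ hA1ok hA1alt hUn2
  exact hfin.trans (Iso.left (z := [pU 0]) (k := 2) ⟨by decide, rfl⟩ hK)

end Pool.LSG
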