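import Pool.Agent.LSG.St

/-!
# LS, geometry block: the two paths of length two cross in a common letter
-/

set_option autoImplicit false

namespace Pool.LSG

open Pool.Agent.ARB Pool.Agent.Helper2 Pool.ALT Pool.LSP

theorem cor_ev {κ : Type} (e : Bool) (x y : κ) (a : Cr κ) : Ev e (Rt.r a) x y ↔ Ev e a x y := by
  obtain ⟨p, l, b, r, t⟩ := a
  show (((!p) = e ∧ ((t = x ∧ b = y) ∨ (t = y ∧ b = x))) ∨
    ((!p) ≠ e ∧ ((l = x ∧ r = y) ∨ (l = y ∧ r = x)))) ↔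
    ((p = e ∧ ((l = x ∧ r = y) ∨ (l = y ∧ r = x))) ∨
    (p ≠ e ∧ ((b = x ∧ t = y) ∨ (b = y ∧ t = x))))
  cases p <;> cases e <;> simp <;> tauto

theorem cor_rot {κ : Type} (P : Cr κ → Prop) (hP : ∀ b, P (Rt.r b) ↔ P b) {a a' : Cr κ}
    (h : a' = a ∨ a' = Rt.r a ∨ a' = Rt.r (Rt.r a) ∨ a' = Rt.r (Rt.r (Rt.r a))) (ha : P a) :
    P a' := by
  rcases h with h | h | h | h
  · rw [h]; exact ha
  · rw [h]; exact (hP _).2 ha
  · rw [h]; exact (hP _).2 ((hP _).2 ha)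
  · rw [h]; exact (hP _).2 ((hP _).2 ((hP _).2 ha))

theorem cor_corner {κ : Type} {f : Bool} {a : Cr κ} {z u : κ} (h : Ev f a z u) :
    a.l = z ∨ a.b = z ∨ a.r = z ∨ a.t = z := by
  rcases h with ⟨_, h | h⟩ | ⟨_, h | h⟩
  · exact Or.inl h.1
  · exact Or.inr (Or.inr (Or.inl h.2))
  · exact Or.inr (Or.inl h.1)
  · exact Or.inr (Or.inr (Or.inr h.2))

theorem cor_comm {κ : Type} {f : Bool} {a : Cr κ} {z u : κ} (h : Ev f a z u) : Ev f a u z := by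
  rcases h with ⟨h0, h | h⟩ | ⟨h0, h | h⟩
  · exact Or.inl ⟨h0, Or.inr h⟩
  · exact Or.inl ⟨h0, Or.inl h⟩
  · exact Or.inr ⟨h0, Or.inr h⟩
  · exact Or.inr ⟨h0, Or.inl h⟩

theorem cor_lt {κ : Type} {a a' : Cr κ} {g : ℕ} {V : Wd (Cr κ)} (h : Lt a (isl g a' ++ V)) :
    a = a' ∨ Lt a V := by
  obtain ⟨i, hi⟩ := h
  rcases List.mem_append.1 hi with h1 | h1
  · left
    simp only [isl, List.mem_cons, List.not_mem_nil, or_false, Pc.mk.injEq] at h1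
    rcases h1 with ⟨h2, _⟩ | ⟨h2, _⟩ | ⟨h2, _⟩
    · exact absurd h2 (by simp)
    · exact absurd h2 (by simp)
    · simpa using h2
  · exact Or.inr ⟨i, h1⟩

/-- parity of the colours -/
theorem cor_par {κ : Type} {e : Bool} {pr : κ → Bool} {a : Cr κ} {z u : κ} (hg : Gl e pr a) :
    (Ev e a z u → pr z = true ∧ pr u = true) ∧ (Ev (!e) a z u → pr z = false ∧ pr u = false) := by
  obtain ⟨p, l, b, r, t⟩ := a
  obtain ⟨h1, h2, h3, h4⟩ := hg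
  constructor
  · rintro (⟨h0, ⟨h5, h6⟩ | ⟨h5, h6⟩⟩ | ⟨h0, ⟨h5, h6⟩ | ⟨h5, h6⟩⟩) <;> subst h5 <;> subst h6 <;>
      simp_all
  · rintro (⟨h0, ⟨h5, h6⟩ | ⟨h5, h6⟩⟩ | ⟨h0, ⟨h5, h6⟩ | ⟨h5, h6⟩⟩) <;> subst h5 <;> subst h6 <;>
      cases p <;> cases e <;> simp_all

/-- the opposite corner -/
theorem cor_opp {κ : Type} {f : Bool} {a : Cr κ} {z u : κ} (hp : a.p ≠ f) (hb : a.b = z)
    (hE : Ev f a z u) (hu : u ≠ z) : a.t = u := by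
  rcases hE with ⟨h0, _⟩ | ⟨_, h | h⟩
  · exact absurd h0 hp
  · exact h.2
  · exact absurd (h.1.symm.trans hb) hu

/-- no other pair -/
theorem cor_no {κ : Type} {f : Bool} {a : Cr κ} {z u v : κ} (hp : a.p ≠ f) (hb : a.b = z)
    (hu : u ≠ z) (hv : v ≠ z) : ¬ Ev f a u v := by
  rintro (⟨h0, _⟩ | ⟨_, h | h⟩)
  · exact hp h0
  · exact hu (h.1.symm.trans hb)
  · exact hv (h.1.symm.trans hb)

/-- one step: pull a crossing to the boundary -/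
theorem cor_step (hMp : St_Mp) (hFa : St_Fa) (hIsl : St_Isl) (hT1 : St_T1) {κ : Type} (e : Bool)
    (pr : κ → Bool) (c : ℕ → κ) (N g : ℕ) (w : Wd (Cr κ)) (z u : κ) (a : Cr κ) (f : Bool)
    (hD : Dec e pr c N w) (hg : g ≤ N) (hc : c g = z) (hF : Fa z c N w) (ha : Lt a w)
    (hE : Ev f a z u) (hu : u ≠ z)
    (hf : (f = e ∧ (g + 1) % 2 ≠ 0) ∨ (f = !e ∧ (g + 1) % 2 = 0)) :
    ∃ (a' : Cr κ) (V : Wd (Cr κ)), a'.b = z ∧ a'.t = u ∧ a'.p ≠ f ∧ Ev f a' z u ∧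
      Dec e pr (isc g a' c) (N + 4) V ∧
      (∀ z', z' ≠ z → Fa z' c N w → Fa z' (isc g a' c) (N + 4) V) ∧
      (∀ P : Cr κ → Prop, (∀ b, P (Rt.r b) ↔ P b) → ¬ P a' → (∃ b, Lt b w ∧ P b) →
        ∃ b, Lt b V ∧ P b) := by
  obtain ⟨a', V, hb, hrot, hV, hI⟩ := hT1 w N c z hD.ok hD.vl hF g hg hc a ha (cor_corner hE)
  have hE' : Ev f a' z u := cor_rot (fun b => Ev f b z u) (fun b => cor_ev f z u b) hrot hE
  obtain ⟨hDV, hb', hG, hpos⟩ := hIsl.2.1 e pr c N g a' V hg (hFa.2.1 e pr c N w _ hI hD)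
  have hp : a'.p ≠ f := by
    rcases hf with ⟨h1, h2⟩ | ⟨h1, h2⟩
    · intro h3
      exact h2 (hpos.1 (h3.trans h1))
    · intro h3
      have h4 := hpos.2 h2
      rw [h1, h4] at h3
      cases e <;> simp at h3
  refine ⟨a', V, hb, cor_opp hp hb hE' hu, hp, hE', hDV, ?_, ?_⟩
  · intro z' hz hF'
    refine hIsl.2.2.1 z' c N g a' V hg hV (hFa.2.2.1 z' c N w _ hI hF') hb' ?_
    rw [hb]
    exact hz.symm
  · intro P hP hn hex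
    obtain ⟨b, h1, h2⟩ := hMp.2.2.2.2.1 P hP N w _ hI hex
    rcases cor_lt h1 with h3 | h3
    · rw [h3] at h2
      exact absurd h2 hn
    · exact ⟨b, h3, h2⟩

theorem thm_Cor (_hRel : St_Rel) (_hRelI : St_RelI) (hSL : St_SL) (hMp : St_Mp) (hFa : St_Fa)
    (hIsl : St_Isl) (hT1 : St_T1) : St_Cor := by
  intro κ e pr c W x y r q s p hD hF h02 h13 hy0 hy2 hx1 hx3 hr hq hs hp Er Eq Es Ep
  by_contra hcon
  have hcon' : ∀ a, Lt a W → (Ev e a (c 0) y ∨ Ev e a y (c 2)) →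
      ¬ (Ev (!e) a (c 1) x ∨ Ev (!e) a x (c 3)) := fun a h1 h2 h3 => hcon ⟨a, h1, h2, h3⟩
  have py : pr y = true := ((cor_par (hD.gl r hr)).1 Er).2
  have px : pr x = false := ((cor_par (hD.gl s hs)).2 Es).2
  have p0 : pr (c 0) = true := by have := hD.pc 0 (by omega); simpa using this
  have p1 : pr (c 1) = false := by have := hD.pc 1 (by omega); simpa using this
  have p2 : pr (c 2) = true := by have := hD.pc 2 (by omega); simpa using this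
  have p3 : pr (c 3) = false := by have := hD.pc 3 (by omega); simpa using this
  have ne : ∀ u v : κ, pr u = true → pr v = false → u ≠ v := by
    intro u v h1 h2 h3
    rw [h3, h2] at h1
    exact absurd h1 (by simp)
  -- r at gap 0
  obtain ⟨r', W₁, rb, rt, rp, rE, D1, F1, L1⟩ := cor_step hMp hFa hIsl hT1 e pr c 4 0 W (c 0) y r e
    hD (by omega) rfl (hF _) hr Er hy0 (Or.inl ⟨rfl, by omega⟩)
  obtain ⟨q₁, hq₁, Eq₁⟩ := L1 (fun b => Ev e b y (c 2)) (fun b => cor_ev e y (c 2) b)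
    (cor_no rp rb hy0 h02.symm) ⟨q, hq, Eq⟩
  have Ps : ∀ b : Cr κ, (Ev (!e) (Rt.r b) (c 1) x ∧ ¬ (Ev e (Rt.r b) (c 0) y ∨ Ev e (Rt.r b) y (c 2))) ↔
      (Ev (!e) b (c 1) x ∧ ¬ (Ev e b (c 0) y ∨ Ev e b y (c 2))) := by
    intro b
    rw [cor_ev, cor_ev, cor_ev]
  have Pp : ∀ b : Cr κ, (Ev (!e) (Rt.r b) x (c 3) ∧ ¬ (Ev e (Rt.r b) (c 0) y ∨ Ev e (Rt.r b) y (c 2))) ↔
      (Ev (!e) b x (c 3) ∧ ¬ (Ev e b (c 0) y ∨ Ev e b y (c 2))) := by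
    intro b
    rw [cor_ev, cor_ev, cor_ev]
  have S1 := L1 (fun b => Ev (!e) b (c 1) x ∧ ¬ (Ev e b (c 0) y ∨ Ev e b y (c 2))) Ps
    (fun h => h.2 (Or.inl rE)) ⟨s, hs, Es, fun h => hcon' s hs h (Or.inl Es)⟩
  have P1 := L1 (fun b => Ev (!e) b x (c 3) ∧ ¬ (Ev e b (c 0) y ∨ Ev e b y (c 2))) Pp
    (fun h => h.2 (Or.inl rE)) ⟨p, hp, Ep, fun h => hcon' p hp h (Or.inr Ep)⟩
  -- q at gap 6
  obtain ⟨q', W₂, qb, qt, qp, qE, D2, F2, L2⟩ := cor_step hMp hFa hIsl hT1 e pr (isc 0 r' c) 8 6 W₁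
    (c 2) y q₁ e D1 (by omega) (by simp [isc]) (F1 _ h02.symm (hF _)) hq₁ (cor_comm Eq₁) hy2
    (Or.inl ⟨rfl, by omega⟩)
  obtain ⟨s₁, hs₁, Es₁⟩ := L2 _ Ps (fun h => h.2 (Or.inr (cor_comm qE))) S1
  have P2 := L2 _ Pp (fun h => h.2 (Or.inr (cor_comm qE))) P1
  -- s at gap 5
  obtain ⟨s', W₃, sb, st, sp, sE, D3, F3, L3⟩ := cor_step hMp hFa hIsl hT1 e pr
    (isc 6 q' (isc 0 r' c)) 12 5 W₂ (c 1) x s₁ (!e) D2 (by omega) (by simp [isc])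
    (F2 _ (ne _ _ p2 p1).symm (F1 _ (ne _ _ p0 p1).symm (hF _))) hs₁ Es₁.1 hx1
    (Or.inr ⟨rfl, by omega⟩)
  obtain ⟨p₂, hp₂, Ep₂⟩ := L3 _ Pp (fun h => cor_no sp sb hx1 h13.symm h.1) P2
  -- p at gap 15
  obtain ⟨p', W₄, pb, pt, pp, pE, D4, F4, L4⟩ := cor_step hMp hFa hIsl hT1 e pr
    (isc 5 s' (isc 6 q' (isc 0 r' c))) 16 15 W₃ (c 3) x p₂ (!e) D3 (by omega) (by simp [isc])
    (F3 _ h13.symm (F2 _ (ne _ _ p2 p3).symm (F1 _ (ne _ _ p0 p3).symm (hF _)))) hp₂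
    (cor_comm Ep₂.1) hx3 (Or.inr ⟨rfl, by omega⟩)
  have Fy := F4 y (ne _ _ py p3) (F3 y (ne _ _ py p1) (F2 y hy2 (F1 y hy0 (hF y))))
  have Fx := F4 x hx3 (F3 x hx1 (F2 x (ne _ _ p2 px).symm (F1 x (ne _ _ p0 px).symm (hF x))))
  have R1 := hFa.2.2.2.1 y _ _ W₄ D4.ok D4.vl Fy 2 12 (by omega) (by omega)
    (by simp [isc, rt]) (by simp [isc, qt])
  have R2 := hFa.2.2.2.1 x _ _ W₄ D4.ok D4.vl Fx 7 17 (by omega) (by omega)
    (by simp [isc, st]) (by simp [isc, pt])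
  have R3 := hSL.2 W₄ 20 D4.ok 2 7 12 17 (by omega) (by omega) (by omega) (by omega) R1 R2
  have R4 := hFa.2.2.2.2.1 _ _ W₄ D4.ok D4.vl 2 7 (by omega) (by omega) R3
  have R5 : y = x := by simpa [isc, rt, st] using R4
  exact ne _ _ py px R5

end Pool.LSG
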