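import Pool.Agent.LSG.St

/-!
# LS, geometry block: decorated words (module Fa)
-/

set_option autoImplicit false

namespace Pool.LSG

open Pool.Agent.ARB Pool.Agent.Helper2 Pool.ALT Pool.LSP

/-! ### rotations -/

theorem fa_rotP_Pd {κ : Type} : RotP (Pd (κ := κ)) := by
  intro l b r t a
  constructor
  · rintro ⟨h1, h2, h3, h4⟩
    exact ⟨h4, h1, h2, h3⟩
  · rintro ⟨h1, h2, h3, h4⟩
    exact ⟨h2, h3, h4, h1⟩

theorem fa_rot_CrB {κ : Type} (x : κ) (β : Bool) (a : Cr (κ × Bool)) :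
    CrB x β (Rt.r a) ↔ CrB x β a := by
  constructor
  · rintro ⟨h1, h2, h3, h4⟩
    exact ⟨h2, h3, h4, h1⟩
  · rintro ⟨h1, h2, h3, h4⟩
    exact ⟨h4, h1, h2, h3⟩

theorem fa_rot_Gl {κ : Type} (e : Bool) (pr : κ → Bool) (a : Cr κ) :
    Gl e pr (Rt.r a) ↔ Gl e pr a := by
  have h : decide ((!a.p) = e) = !decide (a.p = e) := by
    cases a.p <;> cases e <;> rfl
  have h' : (!decide ((!a.p) = e)) = decide (a.p = e) := by
    rw [h, Bool.not_not]
  constructor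
  · rintro ⟨h1, h2, h3, h4⟩
    have g1 : pr a.t = decide ((!a.p) = e) := h1
    have g2 : pr a.b = decide ((!a.p) = e) := h2
    have g3 : pr a.l = !decide ((!a.p) = e) := h3
    have g4 : pr a.r = !decide ((!a.p) = e) := h4
    exact ⟨g3.trans h', g4.trans h', g2.trans h, g1.trans h⟩
  · rintro ⟨h1, h2, h3, h4⟩
    exact ⟨h4.trans h.symm, h3.trans h.symm, h1.trans h'.symm, h2.trans h'.symm⟩

/-! ### monotonicity -/

theorem fa_Va_mono {κ α : Type} (P P' : κ → κ → κ → κ → α → Prop)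
    (hP : ∀ l b r t a, P l b r t a → P' l b r t a) (w : Wd α) :
    ∀ c c' : ℕ → κ, Va P c w c' → Va P' c w c' := by
  induction w with
  | nil => exact fun c c' h => h
  | cons s w ih =>
    obtain ⟨k, i⟩ := s
    cases k with
    | U =>
      rintro c c' ⟨t, h⟩
      exact ⟨t, ih _ _ h⟩
    | N =>
      rintro c c' ⟨h1, h2⟩
      exact ⟨h1, ih _ _ h2⟩
    | X a =>
      rintro c c' ⟨t, h1, h2⟩
      exact ⟨t, hP _ _ _ _ _ h1, ih _ _ h2⟩

theorem fa_Vl_VU {κ : Type} {c : ℕ → κ} {w : Wd (Cr κ)} (h : Vl c w) : VU c w := by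
  obtain ⟨c', h'⟩ := h
  exact ⟨c', fa_Va_mono _ _ (fun _ _ _ _ _ _ => trivial) w c c' h'⟩

/-! ### refinement by bits -/

theorem fa_insC {κ : Type} (i : ℕ) (s : κ) (t : Bool) (c : ℕ → κ) (β : ℕ → Bool) :
    insC i (s, t) (fun j => (c j, β j)) = fun j => (insC i s c j, insC i t β j) := by
  funext j
  unfold insC
  split_ifs <;> rfl

theorem fa_delC {κ : Type} (i : ℕ) (c : ℕ → κ) (β : ℕ → Bool) :
    delC i (fun j => (c j, β j)) = fun j => (delC i c j, delC i β j) := by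
  funext j
  unfold delC
  split_ifs <;> rfl

theorem fa_updC {κ : Type} (i : ℕ) (s : κ) (t : Bool) (c : ℕ → κ) (β : ℕ → Bool) :
    updC i (s, t) (fun j => (c j, β j)) = fun j => (updC i s c j, updC i t β j) := by
  funext j
  unfold updC
  split_ifs <;> rfl

theorem fa_refine {κ : Type} (w : Wd (Cr κ)) : ∀ (c : ℕ → κ) (β : ℕ → Bool), VU β w → Vl c w →
    ∃ w1, mp (Cr.map Prod.fst) w1 = w ∧ Vl (fun j => (c j, β j)) w1 := by
  induction w with
  | nil => exact fun c β _ _ => ⟨[], rfl, _, rfl⟩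
  | cons s w ih =>
    obtain ⟨k, i⟩ := s
    cases k with
    | U =>
      rintro c β ⟨β', t, h1⟩ ⟨c', s, h2⟩
      obtain ⟨w1, e1, c1, h3⟩ := ih _ _ ⟨β', h1⟩ ⟨c', h2⟩
      refine ⟨cU i :: w1, ?_, c1, (s, t), ?_⟩
      · show cU i :: mp (Cr.map Prod.fst) w1 = _
        rw [e1]
      · rw [fa_insC]
        exact h3
    | N =>
      rintro c β ⟨β', g1, h1⟩ ⟨c', g2, h2⟩
      obtain ⟨w1, e1, c1, h3⟩ := ih _ _ ⟨β', h1⟩ ⟨c', h2⟩
      refine ⟨cN i :: w1, ?_, c1, ?_, ?_⟩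
      · show cN i :: mp (Cr.map Prod.fst) w1 = _
        rw [e1]
      · show (c i, β i) = (c (i + 2), β (i + 2))
        rw [g1, g2]
      · rw [fa_delC]
        exact h3
    | X a =>
      rintro c β ⟨β', t, -, h1⟩ ⟨c', s, ⟨g1, g2, g3, g4⟩, h2⟩
      obtain ⟨w1, e1, c1, h3⟩ := ih _ _ ⟨β', h1⟩ ⟨c', h2⟩
      refine ⟨cX i ⟨a.p, (c i, β i), (c (i + 1), β (i + 1)), (c (i + 2), β (i + 2)), (s, t)⟩ :: w1,
        ?_, c1, (s, t), ⟨rfl, rfl, rfl, rfl⟩, ?_⟩
      · show cX i (⟨a.p, c i, c (i + 1), c (i + 2), s⟩ : Cr κ) :: mp (Cr.map Prod.fst) w1 = _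
        rw [e1, ← g1, ← g2, ← g3, ← g4]
      · rw [fa_updC]
        exact h3

/-! ### the module -/

theorem thm_Fa (hVaI : St_VaI) (hRel : St_Rel) (hMp : St_Mp) : St_Fa := by
  have p1 : ∀ {κ : Type} (n : ℕ) (w w' : Wd (Cr κ)), PIso n w w' → ∀ c : ℕ → κ, Vl c w →
      Vl c w' := by
    rintro κ n w w' h c ⟨c', h'⟩
    exact ⟨c', (hVaI.2 Pd fa_rotP_Pd n w w' h c c').mp h'⟩
  refine ⟨p1, ?_, ?_, ?_, ?_, fun c β w h1 h2 => fa_refine w c β h1 h2⟩
  · intro κ e pr c N w w' h hd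
    refine ⟨h.ok hd.ok, p1 N w w' h c hd.vl, ?_, ?_, hd.pc⟩
    · have h1 := (hMp.2.2.2.1 (fun (b : Bool) (a : Cr κ) => (a.p = e ↔ b = true)) (by
        intro b a
        have h2 : (Rt.r a : Cr κ).p = !a.p := rfl
        show ((Rt.r a : Cr κ).p = e ↔ (!b) = true) ↔ (a.p = e ↔ b = true)
        rw [h2]
        cases a.p <;> cases b <;> cases e <;> simp) N w w' h).mp (by
          intro i a hm
          have h3 := hd.al i a hm
          show a.p = e ↔ decide (i % 2 = 0) = true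
          rw [decide_eq_true_iff]
          exact h3)
      intro i a hm
      have h3 := h1 i a hm
      have h4 : a.p = e ↔ decide (i % 2 = 0) = true := h3
      rw [decide_eq_true_iff] at h4
      exact h4
    · have h1 := (hMp.2.2.2.1 (fun (_ : Bool) (a : Cr κ) => Gl e pr a)
        (fun b a => fa_rot_Gl e pr a) N w w' h).mp (fun i a hm => hd.gl a ⟨i, hm⟩)
      rintro a ⟨i, hm⟩
      exact h1 i a hm
  · intro κ x c N w w' h hf c1 w1 hc hw1 hv
    have h1 := (hMp.1 (Cr.map (Prod.fst : κ × Bool → κ)) (fun a => rfl)).2 N w1 w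
      (by rw [hw1]; exact h.symm)
    obtain ⟨w1', h2, h3⟩ := h1
    obtain ⟨β, h4, h5⟩ := hf c1 w1' hc h2 (p1 N w1 w1' h3 c1 hv)
    refine ⟨β, h4, ?_⟩
    have h6 := (hMp.2.2.2.1 (fun (_ : Bool) (a : Cr (κ × Bool)) => CrB x β a)
      (fun b a => fa_rot_CrB x β a) N w1 w1' h3).mpr (fun i a hm => h5 a ⟨i, hm⟩)
    rintro a ⟨i, hm⟩
    exact h6 i a hm
  · intro κ x c N w hok hv hf g g' hg hg' hcg hcg'
    classical
    obtain ⟨r1, r2, r3, r4, -, -⟩ := hRel w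
    have h1 : VU (fun j => decide (Rel w g j)) w := by
      refine (r4 N _ hok).mpr ?_
      intro y z hy hz hyz
      have h2 : Rel w g y ↔ Rel w g z :=
        ⟨fun h => r3 _ _ _ h hyz, fun h => r3 _ _ _ h (r2 _ _ hyz)⟩
      exact decide_eq_decide.mpr h2
    obtain ⟨w1, e1, h2⟩ := fa_refine w c _ h1 hv
    obtain ⟨β, h3, -⟩ := hf _ w1 (fun j => rfl) e1 h2
    have h4 : decide (Rel w g g) = β := h3 g hg hcg
    have h5 : decide (Rel w g g') = β := h3 g' hg' hcg'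
    have h6 : decide (Rel w g g) = true := decide_eq_true (r1 g)
    rw [← h5, h6] at h4
    exact of_decide_eq_true h4.symm
  · intro κ c N w hok hv g g' hg hg' hr
    obtain ⟨-, -, -, r4, -, -⟩ := hRel w
    exact (r4 N c hok).mp (fa_Vl_VU hv) g g' hg hg' hr

end Pool.LSG
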