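import Pool.Agent.LSG.St

/-!
# LS, module [Fl]: rotation of a word around a vertical axis
-/

set_option autoImplicit false

namespace Pool.LSG

open Pool.Agent.ARB Pool.ALT Pool.LSP

/-- the half twist on `n` strands -/
def fl_D (p : Bool) : ℕ → Word
  | 0 => []
  | n + 1 => ov p n ++ fl_D p n

/-- the two leftmost strands cross the `n` others (and each other) -/
def fl_C (p : Bool) (n : ℕ) : Word := ov p (n + 1) ++ ov p n

theorem fl_ov_succ (p : Bool) (n : ℕ) : ov p (n + 1) = ov p n ++ [pX n p] := by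
  unfold ov
  rw [List.range_succ, List.map_append]
  rfl

theorem fl_okX {n i : ℕ} (p : Bool) (h : i + 2 ≤ n) : Ok [pX i p] n n := by
  refine ⟨h, ?_⟩
  show n - 2 + 2 = n
  omega

theorem fl_ok_ov (p : Bool) (n : ℕ) : Ok (ov p n) (n + 1) (n + 1) := by
  induction n with
  | zero => rfl
  | succ n ih =>
    rw [fl_ov_succ]
    exact (ih.add 1).append (fl_okX p (by omega))

theorem fl_ok_D (p : Bool) (n : ℕ) : Ok (fl_D p n) n n := by
  induction n with
  | zero => rfl
  | succ n ih => exact (fl_ok_ov p n).append (ih.add 1)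

theorem fl_ok_C (p : Bool) (n : ℕ) : Ok (fl_C p n) (n + 2) (n + 2) :=
  (fl_ok_ov p (n + 1)).append ((fl_ok_ov p n).add 1)

theorem fl_D_two (p : Bool) (n : ℕ) : fl_D p (n + 2) = fl_C p n ++ fl_D p n := by
  show ov p (n + 1) ++ (ov p n ++ fl_D p n) = (ov p (n + 1) ++ ov p n) ++ fl_D p n
  rw [List.append_assoc]

theorem fl_D_dl2 (p : Bool) (n : ℕ) (h : n ≤ 2) : fl_D p n = dl2 p n := by
  rcases n with _ | _ | _ | n
  · rfl
  · rfl
  · rfl
  · omega

/-- one more strand -/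
theorem fl_C_succ (p : Bool) (n : ℕ) :
    Iso (n + 3) (fl_C p (n + 1)) (fl_C p n ++ [pX (n + 1) p, pX n p]) := by
  have h1 : Iso (n + 1 + 2) (ov p n ++ sh (n + 1) [pX 0 p]) (sh (n + 1) [pX 0 p] ++ ov p n) :=
    thm_Comm _ _ _ _ _ _ (fl_ok_ov p n) (fl_okX p (le_refl 2))
  have e1 : sh (n + 1) [pX 0 p] = [pX (n + 1) p] := by
    show [(⟨.X p, 0 + (n + 1)⟩ : Piece)] = _
    rw [Nat.zero_add]
  rw [e1] at h1
  have h2 : Iso (n + 3) (ov p (n + 1) ++ (([pX (n + 1) p] ++ ov p n) ++ [pX n p]))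
      (ov p (n + 1) ++ ((ov p n ++ [pX (n + 1) p]) ++ [pX n p])) :=
    Iso.mid _ _ ((fl_ok_ov p (n + 1)).add 1) h1.symm
  have e2 : fl_C p (n + 1) = ov p (n + 1) ++ (([pX (n + 1) p] ++ ov p n) ++ [pX n p]) := by
    unfold fl_C
    rw [fl_ov_succ p (n + 1)]
    conv_lhs => rw [fl_ov_succ p n]
    rw [fl_ov_succ p n]
    simp only [List.append_assoc]
  have e3 : fl_C p n ++ [pX (n + 1) p, pX n p] =
      ov p (n + 1) ++ ((ov p n ++ [pX (n + 1) p]) ++ [pX n p]) := by
    unfold fl_C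
    simp
  rw [e2, e3]
  exact h2

/-- the local identity for a crossing -/
theorem fl_locX (p q : Bool) (n : ℕ) : Iso (n + 3) [pX n q, pX (n + 1) p, pX n p]
    [pX (n + 1) p, pX n p, pX (n + 1) q] := by
  have h3 := Iso.r3 (n := n + 3) (i := n) p (le_refl _)
  by_cases hq : q = p
  · subst hq
    exact h3
  · have hq' : q = !p := by
      cases q <;> cases p <;> simp at hq ⊢
    subst hq'
    -- X0' X1 X0 ~ X0' X1 X0 X1 X1' ~ X0' X0 X1 X0 X1' ~ X1 X0 X1'
    have a1 : Iso (n + 3) ([pX n (!p), pX (n + 1) p, pX n p] ++ [pX (n + 1) p, pX (n + 1) (!p)])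
        ([pX n (!p), pX (n + 1) p, pX n p] ++ []) :=
      Iso.left (((fl_okX (!p) (by omega)).append (fl_okX p (by omega))).append
        (fl_okX p (by omega))) (Iso.r2 (i := n + 1) p (by omega))
    have a2 : Iso (n + 3) ([pX n (!p)] ++ ([pX n p, pX (n + 1) p, pX n p] ++ [pX (n + 1) (!p)]))
        ([pX n (!p)] ++ ([pX (n + 1) p, pX n p, pX (n + 1) p] ++ [pX (n + 1) (!p)])) :=
      Iso.mid _ _ (fl_okX (!p) (by omega)) h3
    have a3 : Iso (n + 3) ([pX n (!p), pX n p] ++ [pX (n + 1) p, pX n p, pX (n + 1) (!p)])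
        ([] ++ [pX (n + 1) p, pX n p, pX (n + 1) (!p)]) :=
      (Iso.r2' (i := n) p (by omega)).right _
    exact a1.symm.trans (a2.symm.trans a3)

theorem fl_X (p q : Bool) (n : ℕ) : Iso (n + 2) ([pX 0 q] ++ fl_C p n) (fl_C p n ++ [pX n q]) := by
  induction n with
  | zero =>
    show Iso 2 [pX 0 q, pX 0 p] [pX 0 p, pX 0 q]
    by_cases hq : q = p
    · subst hq
      exact Iso.refl _ _
    · have hq' : q = !p := by
        cases q <;> cases p <;> simp at hq ⊢
      subst hq'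
      exact (Iso.r2' p (le_refl 2)).trans (Iso.r2 p (le_refl 2)).symm
  | succ n ih =>
    have hX : Ok [pX 0 q] (n + 3) (n + 3) := fl_okX q (by omega)
    have b1 : Iso (n + 3) ([pX 0 q] ++ fl_C p (n + 1))
        ([pX 0 q] ++ (fl_C p n ++ [pX (n + 1) p, pX n p])) := Iso.left hX (fl_C_succ p n)
    have b2 : Iso (n + 3) (([pX 0 q] ++ fl_C p n) ++ [pX (n + 1) p, pX n p])
        ((fl_C p n ++ [pX n q]) ++ [pX (n + 1) p, pX n p]) := (ih.add 1).right _
    have b3 : Iso (n + 3) (fl_C p n ++ [pX n q, pX (n + 1) p, pX n p])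
        (fl_C p n ++ [pX (n + 1) p, pX n p, pX (n + 1) q]) :=
      Iso.left ((fl_ok_C p n).add 1) (fl_locX p q n)
    have b4 : Iso (n + 3) ((fl_C p n ++ [pX (n + 1) p, pX n p]) ++ [pX (n + 1) q])
        (fl_C p (n + 1) ++ [pX (n + 1) q]) := (fl_C_succ p n).symm.right _
    rw [← List.append_assoc] at b1
    have e1 : (fl_C p n ++ [pX n q]) ++ [pX (n + 1) p, pX n p] =
        fl_C p n ++ [pX n q, pX (n + 1) p, pX n p] := by simp
    have e2 : (fl_C p n ++ [pX (n + 1) p, pX n p]) ++ [pX (n + 1) q] =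
        fl_C p n ++ [pX (n + 1) p, pX n p, pX (n + 1) q] := by simp
    rw [e1] at b2
    rw [e2] at b4
    exact b1.trans (b2.trans (b3.trans b4))

theorem fl_U (p : Bool) (n : ℕ) : Iso n ([pU 0] ++ fl_C p n) [pU n] := by
  induction n with
  | zero =>
    show Iso 0 [pU 0, pX 0 p] [pU 0]
    exact Iso.r1U p (le_refl 0)
  | succ n ih =>
    have hU : Ok [pU 0] (n + 1) (n + 3) := ⟨by show 0 + 0 ≤ n + 1; omega, rfl⟩
    have b1 : Iso (n + 1) ([pU 0] ++ fl_C p (n + 1))
        ([pU 0] ++ (fl_C p n ++ [pX (n + 1) p, pX n p])) := Iso.left hU (fl_C_succ p n)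
    have b2 : Iso (n + 1) (([pU 0] ++ fl_C p n) ++ [pX (n + 1) p, pX n p])
        ([pU n] ++ [pX (n + 1) p, pX n p]) := (ih.add 1).right _
    have b3 : Iso (n + 1) ([pU n, pX (n + 1) p] ++ [pX n p]) ([pU (n + 1), pX n (!p)] ++ [pX n p]) := by
      have h := Iso.slU (n := n + 1) (i := n) (!p) (le_refl _)
      rw [Bool.not_not] at h
      exact h.symm.right _
    have b4 : Iso (n + 1) ([pU (n + 1)] ++ [pX n (!p), pX n p]) ([pU (n + 1)] ++ []) :=
      Iso.left (k := n + 3) ⟨by show n + 1 + 0 ≤ n + 1; omega, rfl⟩ (Iso.r2' p (by omega))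
    rw [← List.append_assoc] at b1
    exact b1.trans (b2.trans (b3.trans b4))

theorem fl_N (p : Bool) (n : ℕ) : Iso (n + 2) (fl_C p n ++ [pN n]) [pN 0] := by
  induction n with
  | zero =>
    show Iso 2 [pX 0 p, pN 0] [pN 0]
    exact Iso.r1N p (le_refl 2)
  | succ n ih =>
    have b1 : Iso (n + 3) (fl_C p (n + 1) ++ [pN (n + 1)])
        ((fl_C p n ++ [pX (n + 1) p, pX n p]) ++ [pN (n + 1)]) := (fl_C_succ p n).right _
    have b2 : Iso (n + 3) ((fl_C p n ++ [pX (n + 1) p]) ++ [pX n p, pN (n + 1)])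
        ((fl_C p n ++ [pX (n + 1) p]) ++ [pX (n + 1) (!p), pN n]) :=
      Iso.left (((fl_ok_C p n).add 1).append (fl_okX p (by omega))) (Iso.slN p (le_refl _))
    have b3 : Iso (n + 3) (fl_C p n ++ ([pX (n + 1) p, pX (n + 1) (!p)] ++ [pN n]))
        (fl_C p n ++ ([] ++ [pN n])) :=
      Iso.mid _ _ ((fl_ok_C p n).add 1) (Iso.r2 p (by omega))
    have e1 : (fl_C p n ++ [pX (n + 1) p, pX n p]) ++ [pN (n + 1)] =
        (fl_C p n ++ [pX (n + 1) p]) ++ [pX n p, pN (n + 1)] := by simp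
    have e2 : (fl_C p n ++ [pX (n + 1) p]) ++ [pX (n + 1) (!p), pN n] =
        fl_C p n ++ ([pX (n + 1) p, pX (n + 1) (!p)] ++ [pN n]) := by simp
    rw [e1] at b1
    rw [e2] at b2
    exact b1.trans (b2.trans (b3.trans (ih.add 1)))

/-- a piece at position `0` -/
theorem fl_zero (p : Bool) (k : Kind) (r : ℕ) :
    Iso (r + k.inn) ([⟨k, 0⟩] ++ fl_D p (r + k.out)) (fl_D p (r + k.inn) ++ [⟨k, r⟩]) := by
  have hc : Iso (r + k.inn) (fl_D p r ++ [⟨k, r⟩]) ([⟨k, r⟩] ++ fl_D p r) := by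
    have h := thm_Comm (fl_D p r) [⟨k, 0⟩] r r k.inn k.out (fl_ok_D p r)
      ⟨by show 0 + k.inn ≤ k.inn; omega, by show k.inn - k.inn + k.out = k.out; omega⟩
    have e : sh r [(⟨k, 0⟩ : Piece)] = [⟨k, r⟩] := by
      show [(⟨k, 0 + r⟩ : Piece)] = _
      rw [Nat.zero_add]
    rw [e] at h
    exact h
  cases k with
  | U =>
    show Iso r ([pU 0] ++ fl_D p (r + 2)) (fl_D p r ++ [pU r])
    rw [fl_D_two, ← List.append_assoc]
    exact ((fl_U p r).right _).trans hc.symm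
  | N =>
    show Iso (r + 2) ([pN 0] ++ fl_D p r) (fl_D p (r + 2) ++ [pN r])
    rw [fl_D_two, List.append_assoc]
    have h1 : Iso (r + 2) ((fl_C p r ++ [pN r]) ++ fl_D p r) ([pN 0] ++ fl_D p r) :=
      (fl_N p r).right _
    have h2 : Iso (r + 2) (fl_C p r ++ (fl_D p r ++ [pN r])) (fl_C p r ++ ([pN r] ++ fl_D p r)) :=
      Iso.left (fl_ok_C p r) hc
    rw [List.append_assoc] at h1
    exact (h2.trans h1).symm
  | X q =>
    show Iso (r + 2) ([pX 0 q] ++ fl_D p (r + 2)) (fl_D p (r + 2) ++ [pX r q])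
    rw [fl_D_two, ← List.append_assoc [pX 0 q], List.append_assoc (fl_C p r) (fl_D p r)]
    have h1 : Iso (r + 2) (([pX 0 q] ++ fl_C p r) ++ fl_D p r) ((fl_C p r ++ [pX r q]) ++ fl_D p r) :=
      (fl_X p q r).right _
    have h2 : Iso (r + 2) (fl_C p r ++ (fl_D p r ++ [pX r q])) (fl_C p r ++ ([pX r q] ++ fl_D p r)) :=
      Iso.left (fl_ok_C p r) hc
    rw [List.append_assoc (fl_C p r) [pX r q]] at h1
    exact h1.trans h2.symm

/-- one piece -/
theorem fl_piece (p : Bool) (k : Kind) : ∀ i n : ℕ, i + k.inn ≤ n →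
    Iso n ([⟨k, i⟩] ++ fl_D p (n - k.inn + k.out)) (fl_D p n ++ [⟨k, n - k.inn - i⟩]) := by
  intro i
  induction i with
  | zero =>
    intro n h
    obtain ⟨r, rfl⟩ : ∃ r, n = r + k.inn := ⟨n - k.inn, by omega⟩
    have h1 := fl_zero p k r
    have e1 : r + k.inn - k.inn + k.out = r + k.out := by omega
    have e2 : r + k.inn - k.inn - 0 = r := by omega
    rw [e1, e2]
    exact h1
  | succ i ih =>
    intro n h
    obtain ⟨n, rfl⟩ : ∃ n', n = n' + 1 := ⟨n - 1, by omega⟩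
    have e1 : n + 1 - k.inn + k.out = (n - k.inn + k.out) + 1 := by omega
    have e2 : n + 1 - k.inn - (i + 1) = n - k.inn - i := by omega
    rw [e1, e2]
    have h0 : i + k.inn ≤ n := by omega
    have hs : Ok [(⟨k, i⟩ : Piece)] n (n - k.inn + k.out) := ⟨h0, rfl⟩
    have h1 : Iso (n + 1) (ov p n ++ [⟨k, i⟩]) ([⟨k, i + 1⟩] ++ ov p (n - k.inn + k.out)) :=
      all_Nat p [⟨k, i⟩] _ _ hs
    have h2 : Iso (n + 1) (([⟨k, i + 1⟩] ++ ov p (n - k.inn + k.out)) ++ fl_D p (n - k.inn + k.out))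
        ((ov p n ++ [⟨k, i⟩]) ++ fl_D p (n - k.inn + k.out)) := h1.symm.right _
    have h3 : Iso (n + 1) (ov p n ++ ([⟨k, i⟩] ++ fl_D p (n - k.inn + k.out)))
        (ov p n ++ (fl_D p n ++ [⟨k, n - k.inn - i⟩])) :=
      Iso.left (fl_ok_ov p n) ((ih n h0).add 1)
    show Iso (n + 1) ([⟨k, i + 1⟩] ++ (ov p (n - k.inn + k.out) ++ fl_D p (n - k.inn + k.out)))
      ((ov p n ++ fl_D p n) ++ [⟨k, n - k.inn - i⟩])
    rw [List.append_assoc] at h2
    rw [List.append_assoc] at h2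
    rw [List.append_assoc]
    exact h2.trans h3

theorem fl_main (p : Bool) : ∀ (T : Word) (n m : ℕ), Ok T n m →
    Iso n (T ++ fl_D p m) (fl_D p n ++ flw n T) := by
  intro T
  induction T with
  | nil =>
    intro n m h
    have h1 : n = m := h
    subst h1
    show Iso n (fl_D p n) (fl_D p n ++ [])
    rw [List.append_nil]
    exact Iso.refl _ _
  | cons s w ih =>
    intro n m h
    obtain ⟨k, i⟩ := s
    obtain ⟨h1, h2⟩ := h
    have i1 := ih _ _ h2
    have hs : Ok [(⟨k, i⟩ : Piece)] n (n - k.inn + k.out) := ⟨h1, rfl⟩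
    have a1 : Iso n ([⟨k, i⟩] ++ (w ++ fl_D p m))
        ([⟨k, i⟩] ++ (fl_D p (n - k.inn + k.out) ++ flw (n - k.inn + k.out) w)) :=
      Iso.left hs i1
    have a2 : Iso n (([⟨k, i⟩] ++ fl_D p (n - k.inn + k.out)) ++ flw (n - k.inn + k.out) w)
        ((fl_D p n ++ [⟨k, n - k.inn - i⟩]) ++ flw (n - k.inn + k.out) w) :=
      (fl_piece p k i n h1).right _
    show Iso n ([⟨k, i⟩] ++ (w ++ fl_D p m))
      (fl_D p n ++ ([⟨k, n - k.inn - i⟩] ++ flw (n - k.inn + k.out) w))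
    rw [← List.append_assoc] at a1
    rw [List.append_assoc (fl_D p n)] at a2
    exact a1.trans a2

theorem fl_ok : ∀ (T : Word) (n m : ℕ), Ok T n m → Ok (flw n T) n m := by
  intro T
  induction T with
  | nil => intro n m h; exact h
  | cons s w ih =>
    intro n m h
    refine ⟨?_, ih _ _ h.2⟩
    show n - s.k.inn - s.i + s.k.inn ≤ n
    have := h.1
    omega

theorem fl_nX : ∀ (T : Word) (n : ℕ), nX (flw n T) = nX T := by
  intro T
  induction T with
  | nil => intro n; rfl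
  | cons s w ih =>
    intro n
    obtain ⟨k, i⟩ := s
    cases k with
    | U => exact ih _
    | N => exact ih _
    | X q => exact congrArg (· + 1) (ih _)

theorem fl_inv : ∀ (T : Word) (n m : ℕ), Ok T n m → flw n (flw n T) = T := by
  intro T
  induction T with
  | nil => intro n m _; rfl
  | cons s w ih =>
    intro n m h
    have h1 := h.1
    show (⟨s.k, n - s.k.inn - (n - s.k.inn - s.i)⟩ : Piece) ::
      flw (n - s.k.inn + s.k.out) (flw (n - s.k.inn + s.k.out) w) = s :: w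
    rw [ih _ _ h.2]
    have e : n - s.k.inn - (n - s.k.inn - s.i) = s.i := by omega
    rw [e]

theorem fl_alt (e : Bool) : ∀ (T : Word) (n m : ℕ), Ok T n m → n % 2 = 0 → AltW e T →
    AltW e (flw n T) := by
  intro T
  induction T with
  | nil => intro n m _ _ h; exact h
  | cons s w ih =>
    intro n m h hn ha p i hm
    have h1 := h.1
    obtain ⟨k, j⟩ := s
    have hk : (n - k.inn + k.out) % 2 = 0 := by
      cases k with
      | U => show (n - 0 + 2) % 2 = 0; omega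
      | N => change j + 2 ≤ n at h1; show (n - 2 + 0) % 2 = 0; omega
      | X q => change j + 2 ≤ n at h1; show (n - 2 + 2) % 2 = 0; omega
    have hw : AltW e w := fun p' i' h' => ha p' i' (List.mem_cons_of_mem _ h')
    have hm' : pX i p ∈ (⟨k, n - k.inn - j⟩ : Piece) :: flw (n - k.inn + k.out) w := hm
    rcases List.mem_cons.mp hm' with h2 | h2
    · have h3 : Kind.X p = k := congrArg Piece.k h2
      have h4 : i = n - k.inn - j := congrArg Piece.i h2
      subst h3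
      change j + 2 ≤ n at h1
      have h5 : i = n - 2 - j := h4
      have h6 := ha p j (List.mem_cons_self ..)
      rw [h6]
      omega
    · exact ih _ _ h.2 hk hw p i h2

theorem thm_Fl : St_Fl := by
  intro T n m h
  refine ⟨fl_ok T n m h, fl_nX T n, fl_inv T n m h, fun hn e ha => fl_alt e T n m h hn ha, ?_⟩
  intro hn hm p
  have h1 := fl_main p T n m h
  rw [fl_D_dl2 p m hm, fl_D_dl2 p n hn] at h1
  exact h1

end Pool.LSG
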