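import Pool.Agent.LSG.St

/-!
# LS, geometry block: words on four strands and closures
-/

set_option autoImplicit false

namespace Pool.LSG

open Pool.Agent.ARB Pool.Agent.Helper2 Pool.ALT Pool.LSP

private theorem iwn_okX (p : Bool) (i n : ℕ) (h : i + 2 ≤ n) : Ok [pX i p] n n := by
  refine ⟨h, ?_⟩
  show n - 2 + 2 = n
  omega

private theorem iwn_top (p : Bool) : Iso 4 [pX 0 p, pN 1, pN 0] [pX 2 p, pN 1, pN 0] := by
  have h1 : Iso 4 ([pX 0 p, pN 1] ++ [pN 0]) ([pX 1 (!p), pN 0] ++ [pN 0]) :=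
    (Iso.slN p (by decide)).right _
  have h2 : Iso 4 ([pX 1 (!p)] ++ [pN 0, pN 0]) ([pX 1 (!p)] ++ [pN 2, pN 0]) := by
    refine Iso.left (k := 4) (iwn_okX _ _ _ (by decide)) ?_
    exact Iso.swap (n := 4) .N .N 0 2 (by decide) (by decide)
  have h3 : Iso 4 ([pX 1 (!p), pN 2] ++ [pN 0]) ([pX 2 p, pN 1] ++ [pN 0]) := by
    have h4 := (Iso.slN (n := 4) (i := 1) (!p) (by decide)).right [pN 0]
    rw [Bool.not_not] at h4
    exact h4
  exact (h1.trans h2).trans h3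

theorem thm_IWN : St_IWN := by
  refine ⟨fun V hV => ⟨⟨by decide, by decide, hV.add 2⟩, ?_⟩, fun w p hw => ?_, fun A hA =>
    ⟨⟨by decide, hA.add 2⟩, ?_⟩⟩
  · -- the caps go down through the word
    have h1 : Iso 8 (V ++ [pN 1, pN 0]) ([pN 5, pN 4] ++ V) := by
      have h2 := thm_Comm V [pN 1, pN 0] 4 0 4 0 hV ⟨by decide, by decide, rfl⟩
      rw [Pool.Agent.ARB.sh_zero] at h2
      exact h2
    have h3 : Iso 4 ([pU 2, pU 3] ++ (V ++ [pN 1, pN 0])) ([pU 2, pU 3] ++ ([pN 5, pN 4] ++ V)) :=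
      Iso.left (k := 8) ⟨by decide, by decide, rfl⟩ h1
    have h4 : Iso 4 [pU 2, pU 3, pN 5, pN 4] [] := by
      have h5 : Iso 6 [pU 3, pN 5] [pN 3, pU 3] :=
        (Iso.swap (n := 6) .U .N 3 3 (by decide) (by decide))
      have h6 : Iso 4 ([pU 2] ++ ([pU 3, pN 5] ++ [pN 4])) ([pU 2] ++ ([pN 3, pU 3] ++ [pN 4])) :=
        Iso.mid [pU 2] [pN 4] (k := 6) ⟨by decide, rfl⟩ h5
      have h7 : Iso 4 ([pU 2, pN 3] ++ [pU 3, pN 4]) ([] ++ [pU 3, pN 4]) :=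
        (Iso.zig (by decide)).right _
      have h8 : Iso 4 [pU 3, pN 4] [] := Iso.zig (by decide)
      exact h6.trans (h7.trans h8)
    exact h3.trans (h4.right V)
  · have h1 : Iso 4 (w ++ [pX 0 p, pN 1, pN 0]) (w ++ [pX 2 p, pN 1, pN 0]) :=
      Iso.left (hw.add 2) (iwn_top p)
    have h2 : Iso 4 (w ++ [pX 2 p]) ([pX 2 p] ++ w) := by
      have h3 := thm_Comm w [pX 0 p] 2 2 2 2 hw (iwn_okX p 0 2 (by decide))
      exact h3
    have h3 : Iso 4 ((w ++ [pX 2 p]) ++ [pN 1, pN 0]) (([pX 2 p] ++ w) ++ [pN 1, pN 0]) := h2.right _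
    rw [List.append_assoc, List.append_assoc] at h3
    have h4 : Iso 0 ([pU 0, pU 1] ++ (w ++ [pX 0 p, pN 1, pN 0]))
        ([pU 0, pU 1] ++ ([pX 2 p] ++ (w ++ [pN 1, pN 0]))) :=
      Iso.left (k := 4) ⟨by decide, by decide, rfl⟩ (h1.trans h3)
    have h5 : Iso 0 [pU 0, pU 1, pX 2 p] [pU 0, pU 2, pX 1 (!p)] := by
      have h6 := Iso.slU (n := 2) (i := 1) (!p) (by decide)
      rw [Bool.not_not] at h6
      exact Iso.left (z := [pU 0]) (k := 2) ⟨by decide, rfl⟩ h6.symm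
    have h6 := h4.trans (h5.right (w ++ [pN 1, pN 0]))
    have e1 : NW (w ++ [pX 0 p]) = [pU 0, pU 1] ++ (w ++ [pX 0 p, pN 1, pN 0]) := by
      show pU 0 :: pU 1 :: ((w ++ [pX 0 p]) ++ [pN 1, pN 0]) = _
      rw [List.append_assoc]
      rfl
    rw [e1]
    exact h6
  · have h1 : Iso 4 (A ++ [pN 0]) ([pN 2] ++ A) := by
      have h2 := thm_Comm A [pN 0] 2 0 2 0 hA ⟨by decide, rfl⟩
      rw [Pool.Agent.ARB.sh_zero] at h2
      exact h2
    have h2 : Iso 2 ([pU 1, pN 2] ++ A) ([] ++ A) := (Iso.zig (by decide)).right _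
    have h3 : Iso 2 ([pU 1] ++ (A ++ [pN 0])) ([pU 1] ++ ([pN 2] ++ A)) :=
      Iso.left (k := 4) ⟨by decide, rfl⟩ h1
    exact Iso.left (z := [pU 0]) (k := 2) ⟨by decide, rfl⟩ (h3.trans h2)

end Pool.LSG
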