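import Pool.Agent.LSG.St

/-!
# LS, geometry block, module Is: explicit isotopies with one crossing
-/

set_option autoImplicit false

namespace Pool.LSG

open Pool.Agent.ARB

variable {α : Type}

theorem is_shd_isl (j g : ℕ) (a : α) : shd j (isl g a) = isl (g + j) a := by
  have h1 : g + 2 + j = g + j + 2 := by omega
  have h2 : g + 1 + j = g + j + 1 := by omega
  show ([⟨.U, g + j⟩, ⟨.U, g + 2 + j⟩, ⟨.X a, g + 1 + j⟩] : Wd α) = _
  rw [h1, h2]
  rfl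

theorem is_okd_isl (n g : ℕ) (a : α) (h : g ≤ n) : Okd (isl g a) n (n + 4) := by
  simp only [isl, Okd, Kd.inn, Kd.out]
  omega

variable [Rt α]

theorem is_3 (a : α) : Rt.r (Rt.r (Rt.r (Rt.r a))) = a := Rt.r4 a

theorem PIso.cast_l {n n' : ℕ} {w w' : Wd α} (h : PIso n w w') (hn : n = n') : PIso n' w w' := by
  subst hn
  exact h

/-- (2), first half -/
theorem is_2a (n g : ℕ) (a : α) (h : g ≤ n) :
    PIso n (isl g a) [cU g, cU (g + 1), cX (g + 2) (Rt.r a)] := by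
  have h1 : PIso (n + 2) ([cU (g + 2), cX (g + 1) a] : Wd α) [cU (g + 1), cX (g + 2) (Rt.r a)] :=
    PIso.slU (i := g + 1) a (by omega)
  have h2 : Okd ([cU g] : Wd α) n (n + 2) := by
    simp only [Okd, Kd.inn, Kd.out]
    omega
  exact PIso.left h2 h1

/-- (2), second half -/
theorem is_2b (n g : ℕ) (a : α) (h : g ≤ n) :
    PIso n (isl g (Rt.r a)) [cU g, cU (g + 1), cX g a] := by
  have h1 : PIso n ([cU g, cU (g + 2)] : Wd α) [cU g, cU g] := by
    have h2 := PIso.swap (α := α) (n := n) .U .U g g (by simp only [Kd.inn]; omega)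
      (by simp only [Kd.inn]; omega)
    exact h2
  have h3 : PIso n (isl g (Rt.r a)) [cU g, cU g, cX (g + 1) (Rt.r a)] :=
    PIso.right h1 [cX (g + 1) (Rt.r a)]
  have h4 : PIso (n + 2) ([cU g, cX (g + 1) (Rt.r a)] : Wd α) [cU (g + 1), cX g a] :=
    (PIso.slU (i := g) a (by omega)).symm
  have h5 : Okd ([cU g] : Wd α) n (n + 2) := by
    simp only [Okd, Kd.inn, Kd.out]
    omega
  exact h3.trans (PIso.left h5 h4)

/-- interchange of a crossing or a cap with a piece on the right, up to arithmetic -/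
theorem is_sw {n : ℕ} (s t : Kd α) (i j j' : ℕ) (h1 : i + s.inn ≤ j) (h2 : j + t.inn ≤ n)
    (h3 : j' = j - s.inn + s.out) :
    PIso n [⟨s, i⟩, ⟨t, j'⟩] [⟨t, j⟩, ⟨s, i⟩] := by
  subst h3
  exact PIso.swap s t i j h1 h2

/-- (1), bottom corner -/
theorem is_1a (n i : ℕ) (a : α) (h : i + 2 ≤ n) :
    PIso n [cX i a] (isl (i + 1) a ++ [cN i, cN (i + 2)]) := by
  -- from the right side to the left side
  have h1 : PIso n ([cU (i + 1), cU (i + 3)] ++ ([cX (i + 2) a, cN i] ++ [cN (i + 2)]))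
      ([cU (i + 1), cU (i + 3)] ++ ([cN i, cX i a] ++ [cN (i + 2)])) := by
    refine PIso.mid (k := n + 4) _ _ (by simp only [Okd, Kd.inn, Kd.out]; omega) ?_
    exact (is_sw .N (.X a) i (i + 2) i (by simp only [Kd.inn]; omega)
      (by simp only [Kd.inn]; omega) (by simp only [Kd.inn, Kd.out]; omega)).symm
  have h2 : PIso n ([cU (i + 1)] ++ ([cU (i + 3), cN i] ++ [cX i a, cN (i + 2)]))
      ([cU (i + 1)] ++ ([cN i, cU (i + 1)] ++ [cX i a, cN (i + 2)])) := by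
    refine PIso.mid (k := n + 2) _ _ (by simp only [Okd, Kd.inn, Kd.out]; omega) ?_
    exact (is_sw .N .U i (i + 3) (i + 1) (by simp only [Kd.inn]; omega)
      (by simp only [Kd.inn]; omega) (by simp only [Kd.inn, Kd.out]; omega)).symm
  have h3 : PIso n ([] ++ ([cU (i + 1), cN i] ++ [cU (i + 1), cX i a, cN (i + 2)]))
      ([] ++ ([] ++ [cU (i + 1), cX i a, cN (i + 2)])) :=
    PIso.mid (k := n) _ _ rfl (PIso.zag (by omega))
  have h4 : PIso n ([cU (i + 1)] ++ ([cX i a, cN (i + 2)] ++ []))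
      ([cU (i + 1)] ++ ([cN (i + 2), cX i a] ++ [])) := by
    refine PIso.mid (k := n + 2) _ _ (by simp only [Okd, Kd.inn, Kd.out]; omega) ?_
    exact is_sw (.X a) .N i (i + 2) (i + 2) (by simp only [Kd.inn]; omega)
      (by simp only [Kd.inn]; omega) (by simp only [Kd.inn, Kd.out]; omega)
  have h5 : PIso n ([] ++ ([cU (i + 1), cN (i + 2)] ++ [cX i a])) ([] ++ ([] ++ [cX i a])) :=
    PIso.mid (k := n) _ _ rfl (PIso.zig (by omega))
  exact (h1.trans (h2.trans (h3.trans (h4.trans h5)))).symm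

/-- (1), left corner -/
theorem is_1b (n i : ℕ) (a : α) (h : i + 2 ≤ n) :
    PIso n [cX i a] (isl i (Rt.r a) ++ [cN (i + 3), cN (i + 2)]) := by
  have h0 : PIso n (isl i (Rt.r a) ++ [cN (i + 3), cN (i + 2)])
      ([cU i, cU (i + 1), cX i a] ++ [cN (i + 3), cN (i + 2)]) := (is_2b n i a (by omega)).right _
  have h1 : PIso n ([cU i, cU (i + 1)] ++ ([cX i a, cN (i + 3)] ++ [cN (i + 2)]))
      ([cU i, cU (i + 1)] ++ ([cN (i + 3), cX i a] ++ [cN (i + 2)])) := by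
    refine PIso.mid (k := n + 4) _ _ (by simp only [Okd, Kd.inn, Kd.out]; omega) ?_
    exact is_sw (.X a) .N i (i + 3) (i + 3) (by simp only [Kd.inn]; omega)
      (by simp only [Kd.inn]; omega) (by simp only [Kd.inn, Kd.out]; omega)
  have h2 : PIso n ([cU i, cU (i + 1), cN (i + 3)] ++ ([cX i a, cN (i + 2)] ++ []))
      ([cU i, cU (i + 1), cN (i + 3)] ++ ([cN (i + 2), cX i a] ++ [])) := by
    refine PIso.mid (k := n + 2) _ _ (by simp only [Okd, Kd.inn, Kd.out]; omega) ?_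
    exact is_sw (.X a) .N i (i + 2) (i + 2) (by simp only [Kd.inn]; omega)
      (by simp only [Kd.inn]; omega) (by simp only [Kd.inn, Kd.out]; omega)
  have h3 : PIso n ([cU i] ++ ([cU (i + 1), cN (i + 3)] ++ [cN (i + 2), cX i a]))
      ([cU i] ++ ([cN (i + 1), cU (i + 1)] ++ [cN (i + 2), cX i a])) := by
    refine PIso.mid (k := n + 2) _ _ (by simp only [Okd, Kd.inn, Kd.out]; omega) ?_
    exact is_sw .U .N (i + 1) (i + 1) (i + 3) (by simp only [Kd.inn]; omega)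
      (by simp only [Kd.inn]; omega) (by simp only [Kd.inn, Kd.out]; omega)
  have h4 : PIso n ([] ++ ([cU i, cN (i + 1)] ++ [cU (i + 1), cN (i + 2), cX i a]))
      ([] ++ ([] ++ [cU (i + 1), cN (i + 2), cX i a])) :=
    PIso.mid (k := n) _ _ rfl (PIso.zig (by omega))
  have h5 : PIso n ([] ++ ([cU (i + 1), cN (i + 2)] ++ [cX i a])) ([] ++ ([] ++ [cX i a])) :=
    PIso.mid (k := n) _ _ rfl (PIso.zig (by omega))
  exact (h0.trans (h1.trans (h2.trans (h3.trans (h4.trans h5))))).symm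

/-- (1), right corner -/
theorem is_1c (n i : ℕ) (a : α) (h : i + 2 ≤ n) :
    PIso n [cX i a] (isl (i + 2) (Rt.r (Rt.r (Rt.r a))) ++ [cN (i + 1), cN i]) := by
  have h0 : PIso n (isl (i + 2) (Rt.r (Rt.r (Rt.r a))) ++ [cN (i + 1), cN i])
      ([cU (i + 2), cU (i + 3), cX (i + 4) a] ++ [cN (i + 1), cN i]) := by
    have h1 := (is_2a n (i + 2) (Rt.r (Rt.r (Rt.r a))) (by omega)).right [cN (i + 1), cN i]
    rw [is_3] at h1
    exact h1
  have h1 : PIso n ([cU (i + 2), cU (i + 3)] ++ ([cX (i + 4) a, cN (i + 1)] ++ [cN i]))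
      ([cU (i + 2), cU (i + 3)] ++ ([cN (i + 1), cX (i + 2) a] ++ [cN i])) := by
    refine PIso.mid (k := n + 4) _ _ (by simp only [Okd, Kd.inn, Kd.out]; omega) ?_
    exact (is_sw .N (.X a) (i + 1) (i + 4) (i + 2) (by simp only [Kd.inn]; omega)
      (by simp only [Kd.inn]; omega) (by simp only [Kd.inn, Kd.out]; omega)).symm
  have h2 : PIso n ([cU (i + 2), cU (i + 3), cN (i + 1)] ++ ([cX (i + 2) a, cN i] ++ []))
      ([cU (i + 2), cU (i + 3), cN (i + 1)] ++ ([cN i, cX i a] ++ [])) := by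
    refine PIso.mid (k := n + 2) _ _ (by simp only [Okd, Kd.inn, Kd.out]; omega) ?_
    exact (is_sw .N (.X a) i (i + 2) i (by simp only [Kd.inn]; omega)
      (by simp only [Kd.inn]; omega) (by simp only [Kd.inn, Kd.out]; omega)).symm
  have h3 : PIso n ([cU (i + 2)] ++ ([cU (i + 3), cN (i + 1)] ++ [cN i, cX i a]))
      ([cU (i + 2)] ++ ([cN (i + 1), cU (i + 1)] ++ [cN i, cX i a])) := by
    refine PIso.mid (k := n + 2) _ _ (by simp only [Okd, Kd.inn, Kd.out]; omega) ?_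
    exact (is_sw .N .U (i + 1) (i + 3) (i + 1) (by simp only [Kd.inn]; omega)
      (by simp only [Kd.inn]; omega) (by simp only [Kd.inn, Kd.out]; omega)).symm
  have h4 : PIso n ([] ++ ([cU (i + 2), cN (i + 1)] ++ [cU (i + 1), cN i, cX i a]))
      ([] ++ ([] ++ [cU (i + 1), cN i, cX i a])) :=
    PIso.mid (k := n) _ _ rfl (PIso.zag (i := i + 1) (by omega))
  have h5 : PIso n ([] ++ ([cU (i + 1), cN i] ++ [cX i a])) ([] ++ ([] ++ [cX i a])) :=
    PIso.mid (k := n) _ _ rfl (PIso.zag (by omega))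
  exact (h0.trans (h1.trans (h2.trans (h3.trans (h4.trans h5))))).symm


/-- on three strands -/
theorem is_3l (a : α) :
    PIso 3 (isl 0 (Rt.r (Rt.r a)) ++ [cN 3, cN 2, cN 1]) [cX 1 a, cN 0] := by
  have h1 := (is_1b 3 0 (Rt.r a) (by omega)).symm.right [cN 1]
  exact PIso.trans (w' := [cX 0 (Rt.r a)] ++ [cN 1]) h1 (PIso.slN (i := 0) a (by omega))

/-- on three strands, on the other side -/
theorem is_3r (a : α) :
    PIso 3 (isl 3 (Rt.r (Rt.r a)) ++ [cN 2, cN 1, cN 0]) [cX 0 a, cN 1] := by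
  have h1 := (is_1c 3 1 (Rt.r (Rt.r (Rt.r a))) (by omega)).symm.right [cN 0]
  have h2 := PIso.slN (n := 3) (i := 0) (Rt.r (Rt.r (Rt.r a))) (by omega)
  rw [is_3] at h1 h2
  exact PIso.trans (w' := [cX 1 (Rt.r (Rt.r (Rt.r a)))] ++ [cN 0]) h1 h2.symm

/-- (3) -/
theorem is_p3 (m : ℕ) (a : α) (A : Wd α) (hA : Okd A (m + 1) 0) : ∃ C, Okd C (m + 2 + 4) 1 ∧
    PIso (m + 2) (cX m a :: A) (isl 0 (Rt.r (Rt.r a)) ++ C) := by
  refine ⟨cU (m + 4) :: (shd 4 A ++ [cN 3, cN 2, cN 1]), ?_, ?_⟩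
  · have h1 : Okd (shd 4 A) (m + 2 + 4 + 2) 7 :=
      ((hA.sh 4).add 3).cast (by omega) (by omega)
    refine ⟨by show m + 4 + 0 ≤ m + 2 + 4; omega, ?_⟩
    refine Okd.append (k := 7) (h1.cast (by simp only [Kd.inn, Kd.out]; omega) rfl) ?_
    simp [Okd, Kd.inn, Kd.out]
  · -- the island passes `U m :: A`
    have hw : Okd (cU m :: A) (m + 2) 3 := by
      refine ⟨by show m + 0 ≤ m + 2; omega, ?_⟩
      exact (hA.add 3).cast (by show m + 1 + 3 = m + 2 - 0 + 2; omega) (by omega)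
    have hi : Okd (isl 0 (Rt.r (Rt.r a))) 0 4 := is_okd_isl 0 0 _ (by omega)
    have h1 : PIso (m + 2) (isl 0 (Rt.r (Rt.r a)) ++ shd 4 (cU m :: A))
        (shd 0 (cU m :: A) ++ isl 0 (Rt.r (Rt.r a))) := by
      have h2 := PIso.comm (isl 0 (Rt.r (Rt.r a))) (cU m :: A) 0 4 (m + 2) 3 hi hw
      rw [Nat.zero_add] at h2
      exact h2
    have h3 : PIso (m + 2) (isl 0 (Rt.r (Rt.r a)) ++ (cU (m + 4) :: (shd 4 A ++ [cN 3, cN 2, cN 1])))
        ((cU m :: A) ++ (isl 0 (Rt.r (Rt.r a)) ++ [cN 3, cN 2, cN 1])) := by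
      have h4 := h1.right [cN 3, cN 2, cN 1]
      rw [shd_zero, List.append_assoc, List.append_assoc, shd_cons, List.cons_append] at h4
      exact h4
    have h5 : PIso (m + 2) ((cU m :: A) ++ (isl 0 (Rt.r (Rt.r a)) ++ [cN 3, cN 2, cN 1]))
        ((cU m :: A) ++ [cX 1 a, cN 0]) := PIso.left hw (is_3l a)
    -- the crossing goes down
    have h6 : PIso (m + 2 + 2) (A ++ [cX 1 a, cN 0]) ([cX (m + 2) a, cN (m + 1)] ++ A) := by
      have h7 := (PIso.comm A [cX 1 a, cN 0] (m + 1) 0 3 1 hA (by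
        simp [Okd, Kd.inn, Kd.out])).cast_l (n' := m + 2 + 2) (by omega)
      rw [shd_zero] at h7
      have e1 : shd (m + 1) ([cX 1 a, cN 0] : Wd α) = [cX (m + 2) a, cN (m + 1)] := by
        show ([⟨.X a, 1 + (m + 1)⟩, ⟨.N, 0 + (m + 1)⟩] : Wd α) = _
        have e2 : 1 + (m + 1) = m + 2 := by omega
        have e3 : 0 + (m + 1) = m + 1 := by omega
        rw [e2, e3]
      rw [e1] at h7
      exact h7
    have h8 : PIso (m + 2) ([cU m] ++ (A ++ [cX 1 a, cN 0]))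
        ([cU m] ++ ([cX (m + 2) a, cN (m + 1)] ++ A)) :=
      PIso.left (by simp only [Okd, Kd.inn, Kd.out]; omega) h6
    have h9 : PIso (m + 2) ([] ++ ([cU m, cX (m + 2) a] ++ ([cN (m + 1)] ++ A)))
        ([] ++ ([cX m a, cU m] ++ ([cN (m + 1)] ++ A))) := by
      refine PIso.mid (k := m + 2) _ _ rfl ?_
      exact is_sw .U (.X a) m m (m + 2) (by simp only [Kd.inn]; omega)
        (by simp only [Kd.inn]; omega) (by simp only [Kd.inn, Kd.out]; omega)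
    have h10 : PIso (m + 2) ([cX m a] ++ ([cU m, cN (m + 1)] ++ A))
        ([cX m a] ++ ([] ++ A)) := by
      refine PIso.mid (k := m + 2) _ _ (by simp only [Okd, Kd.inn, Kd.out]; omega) ?_
      exact PIso.zig (by omega)
    exact (h3.trans (h5.trans (h8.trans (h9.trans h10)))).symm


/-- (4) -/
theorem is_p4 (m : ℕ) (a : α) (A : Wd α) (hA : Okd A (m + 1) 0) : ∃ C, Okd C (m + 2 + 4) 1 ∧
    PIso (m + 2) (cX 0 a :: shd 1 A) (isl (m + 2) (Rt.r (Rt.r a)) ++ C) := by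
  have hA3 : Okd (shd 3 A) (m + 4) 3 := (hA.sh 3).cast (by omega) (by omega)
  refine ⟨cU 2 :: (shd 3 A ++ [cN 2, cN 1, cN 0]), ?_, ?_⟩
  · have h1 : Okd (shd 3 A) (m + 2 + 4 - 0 + 2) 7 :=
      (hA3.add 4).cast (by omega) (by omega)
    refine ⟨by show 2 + 0 ≤ m + 2 + 4; omega, ?_⟩
    refine Okd.append (k := 7) h1 ?_
    simp [Okd, Kd.inn, Kd.out]
  · -- the island goes down
    have hi : Okd (isl 0 (Rt.r (Rt.r a))) 0 4 := is_okd_isl 0 0 _ (by omega)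
    have hU : Okd ([cU 2] : Wd α) (m + 2) (m + 4) := by
      simp only [Okd, Kd.inn, Kd.out]; omega
    have h1 : PIso (m + 4) (shd 3 A ++ isl 3 (Rt.r (Rt.r a)))
        (isl (m + 4) (Rt.r (Rt.r a)) ++ shd 3 A) := by
      have h2 := PIso.comm (shd 3 A) (isl 0 (Rt.r (Rt.r a))) (m + 4) 3 0 4 hA3 hi
      rw [is_shd_isl, is_shd_isl, Nat.zero_add, Nat.zero_add] at h2
      exact h2
    have h2 : PIso (m + 2) ([cU 2] ++ isl (m + 4) (Rt.r (Rt.r a)))
        (isl (m + 2) (Rt.r (Rt.r a)) ++ [cU 2]) := by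
      have h3 := PIso.comm ([cU 2] : Wd α) (isl 0 (Rt.r (Rt.r a))) (m + 2) (m + 4) 0 4 hU hi
      rw [is_shd_isl, is_shd_isl, Nat.zero_add, Nat.zero_add] at h3
      exact h3
    have h3 : PIso (m + 2) ([cU 2] ++ (shd 3 A ++ isl 3 (Rt.r (Rt.r a))))
        ((isl (m + 2) (Rt.r (Rt.r a)) ++ [cU 2]) ++ shd 3 A) := by
      refine (PIso.left hU h1).trans ?_
      rw [← List.append_assoc]
      exact h2.right _
    have h4 : PIso (m + 2) (([cU 2] ++ (shd 3 A ++ isl 3 (Rt.r (Rt.r a)))) ++ [cN 2, cN 1, cN 0])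
        (isl (m + 2) (Rt.r (Rt.r a)) ++ (cU 2 :: (shd 3 A ++ [cN 2, cN 1, cN 0]))) := by
      have h5 := h3.right [cN 2, cN 1, cN 0]
      rw [List.append_assoc, List.append_assoc (isl (m + 2) _) [cU 2]] at h5
      exact h5
    have h6 : PIso (m + 2) (([cU 2] ++ shd 3 A) ++ (isl 3 (Rt.r (Rt.r a)) ++ [cN 2, cN 1, cN 0]))
        (([cU 2] ++ shd 3 A) ++ [cX 0 a, cN 1]) := PIso.left (hU.append hA3) (is_3r a)
    -- the crossing goes down
    have hX : Okd ([cX 0 a, cN 1] : Wd α) 3 1 := by simp [Okd, Kd.inn, Kd.out]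
    have h7 : PIso (m + 4) (shd 3 A ++ [cX 0 a, cN 1]) ([cX 0 a, cN 1] ++ shd 1 A) :=
      ((PIso.comm [cX 0 a, cN 1] A 3 1 (m + 1) 0 hX hA).cast_l (by omega)).symm
    have h8 : PIso (m + 2) ([cU 2] ++ (shd 3 A ++ [cX 0 a, cN 1]))
        ([cU 2] ++ ([cX 0 a, cN 1] ++ shd 1 A)) := PIso.left hU h7
    have h9 : PIso (m + 2) ([] ++ ([cU 2, cX 0 a] ++ ([cN 1] ++ shd 1 A)))
        ([] ++ ([cX 0 a, cU 2] ++ ([cN 1] ++ shd 1 A))) := by
      refine PIso.mid (k := m + 2) _ _ rfl ?_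
      exact (is_sw (.X a) .U 0 2 2 (by simp [Kd.inn])
        (by simp only [Kd.inn]; omega) (by simp [Kd.inn, Kd.out])).symm
    have h10 : PIso (m + 2) ([cX 0 a] ++ ([cU 2, cN 1] ++ shd 1 A))
        ([cX 0 a] ++ ([] ++ shd 1 A)) := by
      refine PIso.mid (k := m + 2) _ _ (by simp only [Okd, Kd.inn, Kd.out]; omega) ?_
      exact PIso.zag (i := 1) (by omega)
    have h11 : PIso (m + 2) (cX 0 a :: shd 1 A)
        (([cU 2] ++ shd 3 A) ++ (isl 3 (Rt.r (Rt.r a)) ++ [cN 2, cN 1, cN 0])) := by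
      refine PIso.symm (h6.trans ?_)
      rw [List.append_assoc]
      exact h8.trans (h9.trans h10)
    refine h11.trans ?_
    have e1 : ([cU 2] ++ shd 3 A) ++ (isl 3 (Rt.r (Rt.r a)) ++ [cN 2, cN 1, cN 0]) =
        ([cU 2] ++ (shd 3 A ++ isl 3 (Rt.r (Rt.r a)))) ++ [cN 2, cN 1, cN 0] := by
      simp only [List.append_assoc]
    rw [e1]
    exact h4

/-- four nested cups -/
def is_cups (α : Type) : Wd α := [cU 0, cU 1, cU 2, cU 3]

/-- four nested caps -/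
def is_caps (α : Type) : Wd α := [cN 3, cN 2, cN 1, cN 0]

/-- an island moves through four nested cups from left to the inside: nothing changes -/
theorem is_c5 (a : α) : PIso 0 (is_cups α ++ (isl 4 a ++ is_caps α)) (isl 0 a) := by
  have h1 : PIso 4 (isl 4 a ++ [cN 3, cN 2]) [cX 2 (Rt.r a)] := by
    have h2 := (is_1c 4 2 (Rt.r a) (by omega)).symm
    rw [is_3] at h2
    exact h2
  have h2 : PIso 0 (is_cups α ++ ((isl 4 a ++ [cN 3, cN 2]) ++ [cN 1, cN 0]))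
      (is_cups α ++ ([cX 2 (Rt.r a)] ++ [cN 1, cN 0])) := by
    refine PIso.mid (k := 8) _ _ (by simp [is_cups, Okd, Kd.inn, Kd.out]) ?_
    exact h1.add 4
  have h3 : PIso 0 ([cU 0, cU 1, cU 2] ++ ([cU 3, cX 2 (Rt.r a)] ++ [cN 1, cN 0]))
      ([cU 0, cU 1, cU 2] ++ ([cU 2, cX 3 (Rt.r (Rt.r a))] ++ [cN 1, cN 0])) := by
    refine PIso.mid (k := 6) _ _ (by simp [Okd, Kd.inn, Kd.out]) ?_
    exact PIso.slU (i := 2) (Rt.r a) (by omega)
  have h4 : PIso 0 ([cU 0, cU 1, cU 2, cU 2] ++ ([cX 3 (Rt.r (Rt.r a)), cN 1] ++ [cN 0]))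
      ([cU 0, cU 1, cU 2, cU 2] ++ ([cN 1, cX 1 (Rt.r (Rt.r a))] ++ [cN 0])) := by
    refine PIso.mid (k := 8) _ _ (by simp [Okd, Kd.inn, Kd.out]) ?_
    exact (is_sw .N (.X (Rt.r (Rt.r a))) 1 3 1 (by simp [Kd.inn])
        (by simp [Kd.inn]) (by simp [Kd.inn, Kd.out])).symm
  have h5 : PIso 0 ([cU 0, cU 1, cU 2] ++ ([cU 2, cN 1] ++ [cX 1 (Rt.r (Rt.r a)), cN 0]))
      ([cU 0, cU 1, cU 2] ++ ([] ++ [cX 1 (Rt.r (Rt.r a)), cN 0])) := by
    refine PIso.mid (k := 6) _ _ (by simp [Okd, Kd.inn, Kd.out]) ?_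
    exact PIso.zag (i := 1) (by omega)
  have h6 : PIso 0 ([cU 0, cU 1] ++ ([cU 2, cX 1 (Rt.r (Rt.r a))] ++ [cN 0]))
      ([cU 0, cU 1] ++ ([cU 1, cX 2 (Rt.r (Rt.r (Rt.r a)))] ++ [cN 0])) := by
    refine PIso.mid (k := 4) _ _ (by simp [Okd, Kd.inn, Kd.out]) ?_
    exact PIso.slU (i := 1) (Rt.r (Rt.r a)) (by omega)
  have h7 : PIso 0 ([cU 0, cU 1, cU 1] ++ ([cX 2 (Rt.r (Rt.r (Rt.r a))), cN 0] ++ []))
      ([cU 0, cU 1, cU 1] ++ ([cN 0, cX 0 (Rt.r (Rt.r (Rt.r a)))] ++ [])) := by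
    refine PIso.mid (k := 6) _ _ (by simp [Okd, Kd.inn, Kd.out]) ?_
    exact (is_sw .N (.X (Rt.r (Rt.r (Rt.r a)))) 0 2 0 (by simp [Kd.inn])
        (by simp [Kd.inn]) (by simp [Kd.inn, Kd.out])).symm
  have h8 : PIso 0 ([cU 0, cU 1] ++ ([cU 1, cN 0] ++ [cX 0 (Rt.r (Rt.r (Rt.r a)))]))
      ([cU 0, cU 1] ++ ([] ++ [cX 0 (Rt.r (Rt.r (Rt.r a)))])) := by
    refine PIso.mid (k := 4) _ _ (by simp [Okd, Kd.inn, Kd.out]) ?_
    exact PIso.zag (i := 0) (by omega)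
  have h9 : PIso 0 ([cU 0, cU 1, cX 0 (Rt.r (Rt.r (Rt.r a)))] : Wd α) (isl 0 a) := by
    have h10 := (is_2b 0 0 (Rt.r (Rt.r (Rt.r a))) (by omega)).symm
    rw [is_3] at h10
    exact h10
  exact h2.trans (h3.trans (h4.trans (h5.trans (h6.trans (h7.trans (h8.trans h9))))))

/-- the mirror image -/
theorem is_c6 (a : α) : PIso 0 (is_cups α ++ (isl 4 a ++ [cN 7, cN 6, cN 5, cN 4])) (isl 0 a) := by
  have h1 : PIso 8 (isl 4 a ++ [cN 7, cN 6]) [cX 4 (Rt.r (Rt.r (Rt.r a)))] := by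
    have h2 := (is_1b 8 4 (Rt.r (Rt.r (Rt.r a))) (by omega)).symm
    rw [is_3] at h2
    exact h2
  have h2 : PIso 0 (is_cups α ++ ((isl 4 a ++ [cN 7, cN 6]) ++ [cN 5, cN 4]))
      (is_cups α ++ ([cX 4 (Rt.r (Rt.r (Rt.r a)))] ++ [cN 5, cN 4])) := by
    refine PIso.mid (k := 8) _ _ (by simp [is_cups, Okd, Kd.inn, Kd.out]) ?_
    exact h1
  have h3 : PIso 0 ([cU 0, cU 1, cU 2] ++ ([cU 3, cX 4 (Rt.r (Rt.r (Rt.r a)))] ++ [cN 5, cN 4]))
      ([cU 0, cU 1, cU 2] ++ ([cU 4, cX 3 (Rt.r (Rt.r a))] ++ [cN 5, cN 4])) := by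
    refine PIso.mid (k := 6) _ _ (by simp [Okd, Kd.inn, Kd.out]) ?_
    exact (PIso.slU (i := 3) (Rt.r (Rt.r a)) (by omega)).symm
  have h4 : PIso 0 ([cU 0, cU 1, cU 2, cU 4] ++ ([cX 3 (Rt.r (Rt.r a)), cN 5] ++ [cN 4]))
      ([cU 0, cU 1, cU 2, cU 4] ++ ([cN 5, cX 3 (Rt.r (Rt.r a))] ++ [cN 4])) := by
    refine PIso.mid (k := 8) _ _ (by simp [Okd, Kd.inn, Kd.out]) ?_
    exact is_sw (.X (Rt.r (Rt.r a))) .N 3 5 5 (by simp [Kd.inn])
        (by simp [Kd.inn]) (by simp [Kd.inn, Kd.out])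
  have h5 : PIso 0 ([cU 0, cU 1, cU 2] ++ ([cU 4, cN 5] ++ [cX 3 (Rt.r (Rt.r a)), cN 4]))
      ([cU 0, cU 1, cU 2] ++ ([] ++ [cX 3 (Rt.r (Rt.r a)), cN 4])) := by
    refine PIso.mid (k := 6) _ _ (by simp [Okd, Kd.inn, Kd.out]) ?_
    exact PIso.zig (i := 4) (by omega)
  have h6 : PIso 0 ([cU 0, cU 1] ++ ([cU 2, cX 3 (Rt.r (Rt.r a))] ++ [cN 4]))
      ([cU 0, cU 1] ++ ([cU 3, cX 2 (Rt.r a)] ++ [cN 4])) := by
    refine PIso.mid (k := 4) _ _ (by simp [Okd, Kd.inn, Kd.out]) ?_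
    exact (PIso.slU (i := 2) (Rt.r a) (by omega)).symm
  have h7 : PIso 0 ([cU 0, cU 1, cU 3] ++ ([cX 2 (Rt.r a), cN 4] ++ []))
      ([cU 0, cU 1, cU 3] ++ ([cN 4, cX 2 (Rt.r a)] ++ [])) := by
    refine PIso.mid (k := 6) _ _ (by simp [Okd, Kd.inn, Kd.out]) ?_
    exact is_sw (.X (Rt.r a)) .N 2 4 4 (by simp [Kd.inn])
        (by simp [Kd.inn]) (by simp [Kd.inn, Kd.out])
  have h8 : PIso 0 ([cU 0, cU 1] ++ ([cU 3, cN 4] ++ [cX 2 (Rt.r a)]))
      ([cU 0, cU 1] ++ ([] ++ [cX 2 (Rt.r a)])) := by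
    refine PIso.mid (k := 4) _ _ (by simp [Okd, Kd.inn, Kd.out]) ?_
    exact PIso.zig (i := 3) (by omega)
  have h9 : PIso 0 ([cU 0, cU 1, cX 2 (Rt.r a)] : Wd α) (isl 0 a) :=
    (is_2a 0 0 a (by omega)).symm
  exact h2.trans (h3.trans (h4.trans (h5.trans (h6.trans (h7.trans (h8.trans h9))))))


/-- (5) -/
theorem is_p5 (m : ℕ) (a : α) (A : Wd α) (hA : Okd A (m + 4) 0) : ∃ A', Okd A' (m + 4) 0 ∧
    PIso m (isl 0 a ++ A) (isl m a ++ A') := by
  have hcu : Okd (is_cups α) 0 8 := by simp [is_cups, Okd, Kd.inn, Kd.out]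
  have hca : Okd (is_caps α) 8 0 := by simp [is_caps, Okd, Kd.inn, Kd.out]
  have hA4 : Okd (shd 4 A) (m + 8) 4 := (hA.sh 4).cast (by omega) (by omega)
  have hu : Okd (is_cups α ++ shd 4 A) m 4 :=
    ((hcu.add m).cast (by omega) rfl).append (hA4.cast (by omega) rfl)
  refine ⟨(is_cups α ++ shd 4 A) ++ is_caps α, (hu.add 4).append hca, ?_⟩
  have hi : Okd (isl 0 a) 0 4 := is_okd_isl 0 0 _ (by omega)
  -- the island goes up
  have h1 : PIso m (isl m a ++ (is_cups α ++ shd 4 A)) ((is_cups α ++ shd 4 A) ++ isl 4 a) := by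
    have h2 := (PIso.comm (is_cups α ++ shd 4 A) (isl 0 a) m 4 0 4 hu hi).symm
    rw [is_shd_isl, is_shd_isl, Nat.zero_add, Nat.zero_add, Nat.add_zero] at h2
    exact h2
  have h2 : PIso m (isl m a ++ ((is_cups α ++ shd 4 A) ++ is_caps α))
      (is_cups α ++ (shd 4 A ++ (isl 4 a ++ is_caps α))) := by
    have h3 := h1.right (is_caps α)
    simp only [List.append_assoc] at h3 ⊢
    exact h3
  have hw : Okd (isl 4 a ++ is_caps α) 4 0 := (is_okd_isl 4 4 a (by omega)).append hca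
  have h3 : PIso (m + 8) (shd 4 A ++ (isl 4 a ++ is_caps α)) ((isl 4 a ++ is_caps α) ++ A) := by
    have h4 := (PIso.comm (isl 4 a ++ is_caps α) A 4 0 (m + 4) 0 hw hA).symm
    rw [shd_zero] at h4
    exact h4.cast_l (by omega)
  have h4 : PIso m (is_cups α ++ (shd 4 A ++ (isl 4 a ++ is_caps α)))
      (is_cups α ++ ((isl 4 a ++ is_caps α) ++ A)) :=
    PIso.left ((hcu.add m).cast (by omega) (by omega)) h3
  have h5 : PIso m (is_cups α ++ ((isl 4 a ++ is_caps α) ++ A)) (isl 0 a ++ A) := by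
    rw [← List.append_assoc]
    exact ((is_c5 a).le (by omega)).right A
  exact (h2.trans (h4.trans h5)).symm

/-- (6) -/
theorem is_p6 (m : ℕ) (a : α) (A : Wd α) (hA : Okd A (m + 4) 0) : ∃ A', Okd A' (m + 4) 0 ∧
    PIso m (isl m a ++ A) (isl 0 a ++ A') := by
  have hcu : Okd (is_cups α) 0 8 := by simp [is_cups, Okd, Kd.inn, Kd.out]
  have hca : Okd (is_caps α) 8 0 := by simp [is_caps, Okd, Kd.inn, Kd.out]
  have hcm : Okd (shd m (is_cups α)) m (m + 8) := (hcu.sh m).cast (by omega) (by omega)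
  have hu : Okd (shd m (is_cups α) ++ A) m 4 :=
    hcm.append ((hA.add 4).cast (by omega) (by omega))
  have hi : Okd (isl 0 a) 0 4 := is_okd_isl 0 0 _ (by omega)
  refine ⟨shd 4 (shd m (is_cups α) ++ A) ++ is_caps α, ?_, ?_⟩
  · exact (hu.sh 4).append hca
  have h1 : PIso m (isl 0 a ++ shd 4 (shd m (is_cups α) ++ A))
      ((shd m (is_cups α) ++ A) ++ isl 0 a) := by
    have h2 := PIso.comm (isl 0 a) (shd m (is_cups α) ++ A) 0 4 m 4 hi hu
    rw [shd_zero, Nat.zero_add] at h2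
    exact h2
  have h2 : PIso m (isl 0 a ++ (shd 4 (shd m (is_cups α) ++ A) ++ is_caps α))
      (shd m (is_cups α) ++ (A ++ (isl 0 a ++ is_caps α))) := by
    have h3 := h1.right (is_caps α)
    simp only [List.append_assoc] at h3 ⊢
    exact h3
  have hw : Okd (isl 0 a ++ is_caps α) 4 0 := (is_okd_isl 4 0 a (by omega)).append hca
  have h3 : PIso (m + 8) (A ++ (isl 0 a ++ is_caps α)) (shd (m + 4) (isl 0 a ++ is_caps α) ++ A) := by
    have h4 := PIso.comm A (isl 0 a ++ is_caps α) (m + 4) 0 4 0 hA hw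
    rw [shd_zero] at h4
    exact h4.cast_l (by omega)
  have h4 : PIso m (shd m (is_cups α) ++ (A ++ (isl 0 a ++ is_caps α)))
      (shd m (is_cups α) ++ (shd (m + 4) (isl 0 a ++ is_caps α) ++ A)) := PIso.left hcm h3
  have h5 : PIso m (shd m (is_cups α) ++ (shd (m + 4) (isl 0 a ++ is_caps α) ++ A))
      (isl m a ++ A) := by
    have e1 : shd m (is_cups α) ++ (shd (m + 4) (isl 0 a ++ is_caps α) ++ A) =
        shd m (is_cups α ++ (isl 4 a ++ [cN 7, cN 6, cN 5, cN 4])) ++ A := by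
      rw [← shd_shd m 4, ← List.append_assoc, ← shd_append]
      rfl
    have e3 : isl m a = shd m (isl 0 a) := by rw [is_shd_isl, Nat.zero_add]
    rw [e1, e3]
    exact (((is_c6 a).sh m).cast_l (by omega)).right A
  exact (h2.trans (h4.trans h5)).symm

/-- (7) -/
theorem is_p7 (n g : ℕ) (a : α) (s : Pc α) (hs : s.i + s.k.inn ≤ n)
    (hg : g ≤ n - s.k.inn + s.k.out) :
    (g ≤ s.i → PIso n (s :: isl g a) (isl g a ++ [⟨s.k, s.i + 4⟩])) ∧
    (s.i + s.k.out ≤ g → PIso n (s :: isl g a) (isl (g - s.k.out + s.k.inn) a ++ [s])) := by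
  constructor
  · intro h
    have h1 : Okd ([⟨s.k, s.i - g⟩] : Wd α) (n - g) (n - g - s.k.inn + s.k.out) :=
      Okd.single (s := ⟨s.k, s.i - g⟩) (by show s.i - g + s.k.inn ≤ n - g; omega)
    have h2 := PIso.comm (isl g a) [⟨s.k, s.i - g⟩] g (g + 4) (n - g) _
      (is_okd_isl g g a (by omega)) h1
    have e1 : shd (g + 4) ([⟨s.k, s.i - g⟩] : Wd α) = [⟨s.k, s.i + 4⟩] := by
      show ([⟨s.k, s.i - g + (g + 4)⟩] : Wd α) = _
      have e2 : s.i - g + (g + 4) = s.i + 4 := by omega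
      rw [e2]
    have e3 : shd g ([⟨s.k, s.i - g⟩] : Wd α) = [s] := by
      show ([⟨s.k, s.i - g + g⟩] : Wd α) = _
      have e2 : s.i - g + g = s.i := by omega
      rw [e2]
    rw [e1, e3] at h2
    exact (h2.cast_l (by omega)).symm
  · intro h
    have h1 : Okd ([s] : Wd α) (g - s.k.out + s.k.inn) g :=
      (Okd.single (s := s) (n := g - s.k.out + s.k.inn) (by omega)).cast rfl (by omega)
    have h2 := PIso.comm [s] (isl 0 a) (g - s.k.out + s.k.inn) g (n - (g - s.k.out + s.k.inn))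
      (n - (g - s.k.out + s.k.inn) + 4) h1 (is_okd_isl _ 0 a (by omega))
    rw [is_shd_isl, is_shd_isl, Nat.zero_add, Nat.zero_add] at h2
    exact h2.cast_l (by omega)

/-- [Is] explicit isotopies with one crossing -/
theorem thm_Is : St_Is := by
  intro α _
  exact ⟨fun n i a h => ⟨is_1a n i a h, is_1b n i a h, is_1c n i a h⟩,
    fun n g a h => ⟨is_2a n g a h, is_2b n g a h⟩,
    fun m a A hA => is_p3 m a A hA, fun m a A hA => is_p4 m a A hA,
    fun m a A hA => is_p5 m a A hA, fun m a A hA => is_p6 m a A hA,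
    fun n g a s hs hg => is_p7 n g a s hs hg⟩

end Pool.LSG
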