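import Pool.Agent.LSG.St

/-!
# LS, geometry block: colours at an island (module Isl)
-/

set_option autoImplicit false

namespace Pool.LSG

open Pool.Agent.ARB Pool.Agent.Helper2 Pool.ALT Pool.LSP

private theorem isl_row {κ : Type} (g : ℕ) (c : ℕ → κ) (t t' t'' : κ) :
    updC (g + 2) t'' (insC (g + 2) t' (insC g t c)) =
      fun j => if j ≤ g then c j else if j = g + 1 then t else if j = g + 2 then t'' else
        if j = g + 3 then t' else c (j - 4) := by
  funext j
  simp only [updC, insC]
  split_ifs <;> first | rfl | (exfalso; omega)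

private theorem isl_vl {κ : Type} (g : ℕ) (a : Cr κ) (c : ℕ → κ) (V : Wd (Cr κ)) :
    Vl c (isl g a ++ V) ↔ a.b = c g ∧ Vl (isc g a c) V := by
  constructor
  · rintro ⟨c', t, t', t'', ⟨h1, h2, h3, h4⟩, h5⟩
    have e1 : insC (g + 2) t' (insC g t c) (g + 1) = t := by
      simp only [insC]
      split_ifs <;> first | rfl | (exfalso; omega)
    have e2 : insC (g + 2) t' (insC g t c) (g + 1 + 1) = c g := by
      simp only [insC]
      split_ifs <;> first | rfl | (exfalso; omega)
    have e3 : insC (g + 2) t' (insC g t c) (g + 1 + 2) = t' := by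
      simp only [insC]
      split_ifs <;> first | rfl | (exfalso; omega)
    rw [e1] at h1
    rw [e2] at h2
    rw [e3] at h3
    refine ⟨h2, c', ?_⟩
    have h6 : updC (g + 1 + 1) t'' (insC (g + 2) t' (insC g t c)) = isc g a c := by
      have h7 : g + 1 + 1 = g + 2 := by omega
      rw [h7, isl_row, ← h1, ← h3, ← h4]
      rfl
    rw [← h6]
    exact h5
  · rintro ⟨h1, c', h2⟩
    refine ⟨c', a.l, a.r, a.t, ?_, ?_⟩
    · have e1 : insC (g + 2) a.r (insC g a.l c) (g + 1) = a.l := by
        simp only [insC]
        split_ifs <;> first | rfl | (exfalso; omega)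
      have e2 : insC (g + 2) a.r (insC g a.l c) (g + 1 + 1) = c g := by
        simp only [insC]
        split_ifs <;> first | rfl | (exfalso; omega)
      have e3 : insC (g + 2) a.r (insC g a.l c) (g + 1 + 2) = a.r := by
        simp only [insC]
        split_ifs <;> first | rfl | (exfalso; omega)
      exact ⟨e1.symm, by rw [h1]; exact e2.symm, e3.symm, rfl⟩
    · have h6 : updC (g + 1 + 1) a.t (insC (g + 2) a.r (insC g a.l c)) = isc g a c := by
        have h7 : g + 1 + 1 = g + 2 := by omega
        rw [h7, isl_row]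
        rfl
      rw [h6]
      exact h2

/-- a colouring above an island with equal colours at the ends extends -/
private theorem isl_ext {κ : Type} (g : ℕ) (p : Bool) (c1 : ℕ → κ) (w1 : Wd (Cr κ))
    (h : Vl c1 w1) (he : c1 (g + 4) = c1 g) :
    Vl (fun j => if j ≤ g then c1 j else c1 (j + 4))
      (isl g ⟨p, c1 (g + 1), c1 g, c1 (g + 3), c1 (g + 2)⟩ ++ w1) := by
  rw [isl_vl]
  refine ⟨?_, ?_⟩
  · show c1 g = if g ≤ g then c1 g else c1 (g + 4)
    rw [if_pos le_rfl]
  · have h1 : isc g ⟨p, c1 (g + 1), c1 g, c1 (g + 3), c1 (g + 2)⟩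
        (fun j => if j ≤ g then c1 j else c1 (j + 4)) = c1 := by
      funext j
      unfold isc
      by_cases h1 : j ≤ g
      · rw [if_pos h1]
        show (if j ≤ g then c1 j else c1 (j + 4)) = c1 j
        rw [if_pos h1]
      · rw [if_neg h1]
        by_cases h2 : j = g + 1
        · rw [if_pos h2, h2]
        · rw [if_neg h2]
          by_cases h3 : j = g + 2
          · rw [if_pos h3, h3]
          · rw [if_neg h3]
            by_cases h4 : j = g + 3
            · rw [if_pos h4, h4]
            · rw [if_neg h4]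
              show (if j - 4 ≤ g then c1 (j - 4) else c1 (j - 4 + 4)) = c1 j
              by_cases h5 : j = g + 4
              · subst h5
                have h6 : g + 4 - 4 = g := by omega
                rw [h6, if_pos le_rfl, he]
              · rw [if_neg (by omega)]
                have h6 : j - 4 + 4 = j := by omega
                rw [h6]
    rw [h1]
    exact h

private theorem isl_mp_append {α β : Type} (f : α → β) (u v : Wd α) :
    mp f (u ++ v) = mp f u ++ mp f v := List.map_append

private theorem isl_mp_mp {α β γ : Type} (f : α → β) (h : β → γ) (u : Wd α) :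
    mp h (mp f u) = mp (fun a => h (f a)) u := by
  induction u with
  | nil => rfl
  | cons s u ih =>
    have h1 : mp h (mp f (s :: u)) = ⟨(s.k.mp f).mp h, s.i⟩ :: mp h (mp f u) := rfl
    have h2 : mp (fun a => h (f a)) (s :: u) =
      ⟨s.k.mp (fun a => h (f a)), s.i⟩ :: mp (fun a => h (f a)) u := rfl
    rw [h1, h2, ih]
    rcases s with ⟨k, i⟩
    cases k <;> rfl

private theorem isl_lt_mp {α β : Type} (f : α → β) (u : Wd α) (a : α) (h : Lt a u) :
    Lt (f a) (mp f u) := by
  obtain ⟨i, hi⟩ := h
  exact ⟨i, List.mem_map_of_mem (f := fun s : Pc α => (⟨s.k.mp f, s.i⟩ : Pc β)) hi⟩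

theorem thm_Isl (hVaC : St_VaC) (hRel : St_Rel) (hFa : St_Fa) : St_Isl := by
  refine ⟨?_, ?_, ?_, ?_⟩
  · intro κ g a c V
    exact isl_vl g a c V
  · intro κ e pr c N g a V hg hD
    have hok := hD.ok
    have hok' : Okd V (N + 4) 0 := by
      have h1 := hok.2.2.2
      have h2 : N - (Kd.U : Kd (Cr κ)).inn + (Kd.U : Kd (Cr κ)).out -
        (Kd.U : Kd (Cr κ)).inn + (Kd.U : Kd (Cr κ)).out - (Kd.X a).inn + (Kd.X a).out =
          N + 4 := by
        show N - 0 + 2 - 0 + 2 - 2 + 2 = N + 4
        omega
      exact Okd.cast h1 h2 rfl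
    have hvl := (isl_vl g a c V).mp hD.vl
    have hmem : cX (g + 1) a ∈ isl g a ++ V := by
      simp [isl]
    have hgl : Gl e pr a := hD.gl a ⟨g + 1, hmem⟩
    have hal : a.p = e ↔ (g + 1) % 2 = 0 := hD.al (g + 1) a hmem
    refine ⟨⟨hok', hvl.2, ?_, ?_, ?_⟩, hvl.1, hgl, hal⟩
    · intro i b hb
      exact hD.al i b (List.mem_append_right _ hb)
    · rintro b ⟨i, hb⟩
      exact hD.gl b ⟨i, List.mem_append_right _ hb⟩
    · intro j hj
      obtain ⟨g1, g2, g3, g4⟩ := hgl
      unfold isc
      by_cases h1 : j ≤ g
      · rw [if_pos h1]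
        exact hD.pc j (by omega)
      · rw [if_neg h1]
        by_cases h2 : j = g + 1
        · rw [if_pos h2, g1, h2]
          exact decide_eq_decide.mpr hal
        · rw [if_neg h2]
          by_cases h3 : j = g + 2
          · rw [if_pos h3, g4, h3, ← decide_not]
            refine decide_eq_decide.mpr ?_
            rw [hal]
            omega
          · rw [if_neg h3]
            by_cases h4 : j = g + 3
            · rw [if_pos h4, g2, h4]
              refine decide_eq_decide.mpr ?_
              rw [hal]
              omega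
            · rw [if_neg h4, hD.pc (j - 4) (by omega)]
              refine decide_eq_decide.mpr ?_
              omega
  · intro κ x c N g a V hg hok hfa hab hax c1 w1 hc1 hw1 hv1
    classical
    let f : κ × Bool → κ × Bool := fun z => if z.1 = x then z else (z.1, false)
    have hf1 : ∀ z, (f z).1 = z.1 := by
      intro z
      by_cases h : z.1 = x
      · simp [f, h]
      · simp [f, h]
    have hfx : ∀ z, z.1 = x → f z = z := by
      intro z h
      simp [f, h]
    have hfn : ∀ z, z.1 ≠ x → f z = (z.1, false) := by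
      intro z h
      simp [f, h]
    have hv2 : Vl (fun j => f (c1 j)) (mp (Cr.map f) w1) := by
      obtain ⟨c', hc'⟩ := hv1
      refine ⟨fun j => f (c' j), ?_⟩
      refine (hVaC (κ := κ × Bool) (κ' := κ × Bool) (α := Cr (κ × Bool))
        (β := Cr (κ × Bool))).2.2.2.2.1 Pd Pd f (Cr.map f) ?_ w1 c1 c' hc'
      rintro l b r t b' ⟨k1, k2, k3, k4⟩
      exact ⟨congrArg f k1, congrArg f k2, congrArg f k3, congrArg f k4⟩
    have hcg : isc g a c g = c g := by
      unfold isc
      rw [if_pos le_rfl]
    have hcg4 : isc g a c (g + 4) = c g := by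
      unfold isc
      rw [if_neg (by omega), if_neg (by omega), if_neg (by omega), if_neg (by omega)]
      have h6 : g + 4 - 4 = g := by omega
      rw [h6]
    have hcne : c g ≠ x := by rw [← hab]; exact hax
    have he1 : f (c1 g) = (c g, false) := by
      have h1 : (c1 g).1 = c g := by rw [hc1, hcg]
      rw [hfn _ (by rw [h1]; exact hcne), h1]
    have he2 : f (c1 (g + 4)) = (c g, false) := by
      have h1 : (c1 (g + 4)).1 = c g := by rw [hc1, hcg4]
      rw [hfn _ (by rw [h1]; exact hcne), h1]
    have hext := isl_ext g a.p (fun j => f (c1 j)) (mp (Cr.map f) w1) hv2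
      (by show f (c1 (g + 4)) = f (c1 g); rw [he1, he2])
    have hrow : ∀ j, ((fun j => if j ≤ g then f (c1 j) else f (c1 (j + 4))) j : κ × Bool).1 =
        c j := by
      intro j
      show (if j ≤ g then f (c1 j) else f (c1 (j + 4))).1 = c j
      by_cases h1 : j ≤ g
      · rw [if_pos h1, hf1, hc1]
        unfold isc
        rw [if_pos h1]
      · rw [if_neg h1, hf1, hc1]
        unfold isc
        rw [if_neg (by omega), if_neg (by omega), if_neg (by omega), if_neg (by omega)]
        have h6 : j + 4 - 4 = j := by omega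
        rw [h6]
    have hl1 : isc g a c (g + 1) = a.l := by
      unfold isc
      rw [if_neg (by omega), if_pos rfl]
    have hl2 : isc g a c (g + 2) = a.t := by
      unfold isc
      rw [if_neg (by omega), if_neg (by omega), if_pos rfl]
    have hl3 : isc g a c (g + 3) = a.r := by
      unfold isc
      rw [if_neg (by omega), if_neg (by omega), if_neg (by omega), if_pos rfl]
    have hmp : mp (Cr.map Prod.fst) (isl g (⟨a.p, f (c1 (g + 1)), f (c1 g), f (c1 (g + 3)),
        f (c1 (g + 2))⟩ : Cr (κ × Bool)) ++ mp (Cr.map f) w1) = isl g a ++ V := by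
      rw [isl_mp_append, isl_mp_mp]
      have h1 : (fun b : Cr (κ × Bool) => Cr.map Prod.fst (Cr.map f b)) = Cr.map Prod.fst := by
        funext b
        show (⟨b.p, (f b.l).1, (f b.b).1, (f b.r).1, (f b.t).1⟩ : Cr κ) =
          ⟨b.p, b.l.1, b.b.1, b.r.1, b.t.1⟩
        rw [hf1, hf1, hf1, hf1]
      rw [h1, hw1]
      have h2 : (⟨a.p, (f (c1 (g + 1))).1, (f (c1 g)).1, (f (c1 (g + 3))).1,
          (f (c1 (g + 2))).1⟩ : Cr κ) = a := by
        rw [hf1, hf1, hf1, hf1, hc1, hc1, hc1, hc1, hl1, hl2, hl3, hcg, ← hab]
      have h3 : mp (Cr.map Prod.fst) (isl g (⟨a.p, f (c1 (g + 1)), f (c1 g), f (c1 (g + 3)),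
        f (c1 (g + 2))⟩ : Cr (κ × Bool))) = isl g (⟨a.p, (f (c1 (g + 1))).1, (f (c1 g)).1,
          (f (c1 (g + 3))).1, (f (c1 (g + 2))).1⟩ : Cr κ) := rfl
      rw [h3, h2]
    obtain ⟨β, hβ1, hβ2⟩ := hfa _ _ hrow hmp hext
    have hisl := hβ2 _ ⟨g + 1, show cX (g + 1) (⟨a.p, f (c1 (g + 1)), f (c1 g),
      f (c1 (g + 3)), f (c1 (g + 2))⟩ : Cr (κ × Bool)) ∈ _ by simp [isl]⟩
    refine ⟨β, ?_, ?_⟩
    · intro j hj hjx
      have hcx : (c1 j).1 = x := by rw [hc1, hjx]
      have hfj : f (c1 j) = c1 j := hfx _ hcx
      by_cases h1 : j ≤ g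
      · have h2 := hβ1 j (by omega) (by
          have h3 : isc g a c j = c j := by
            unfold isc
            rw [if_pos h1]
          rw [← h3]
          exact hjx)
        have h4 : (if j ≤ g then f (c1 j) else f (c1 (j + 4))).2 = β := h2
        rw [if_pos h1, hfj] at h4
        exact h4
      · by_cases h2 : j = g + 1
        · subst h2
          have h3 := hisl.1
          have h4 : (f (c1 (g + 1))).1 = x → (f (c1 (g + 1))).2 = β := h3
          rw [hfj] at h4
          exact h4 hcx
        · by_cases h3 : j = g + 2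
          · subst h3
            have h4 : (f (c1 (g + 2))).1 = x → (f (c1 (g + 2))).2 = β := hisl.2.2.2
            rw [hfj] at h4
            exact h4 hcx
          · by_cases h4 : j = g + 3
            · subst h4
              have h5 : (f (c1 (g + 3))).1 = x → (f (c1 (g + 3))).2 = β := hisl.2.2.1
              rw [hfj] at h5
              exact h5 hcx
            · by_cases h5 : j = g + 4
              · exfalso
                subst h5
                rw [hcg4] at hjx
                exact hcne hjx
              · have h6 := hβ1 (j - 4) (by omega) (by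
                  have h7 : isc g a c j = c (j - 4) := by
                    unfold isc
                    rw [if_neg h1, if_neg h2, if_neg h3, if_neg h4]
                  rw [← h7]
                  exact hjx)
                have h8 : (if j - 4 ≤ g then f (c1 (j - 4)) else f (c1 (j - 4 + 4))).2 = β := h6
                have h9 : j - 4 + 4 = j := by omega
                rw [if_neg (by omega), h9, hfj] at h8
                exact h8
    · intro b hb
      have h1 : Lt (Cr.map f b) (isl g (⟨a.p, f (c1 (g + 1)), f (c1 g), f (c1 (g + 3)),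
          f (c1 (g + 2))⟩ : Cr (κ × Bool)) ++ mp (Cr.map f) w1) := by
        obtain ⟨i, hi⟩ := isl_lt_mp (Cr.map f) w1 b hb
        exact ⟨i, List.mem_append_right _ hi⟩
      obtain ⟨k1, k2, k3, k4⟩ := hβ2 _ h1
      have key : ∀ z : κ × Bool, ((f z).1 = x → (f z).2 = β) → z.1 = x → z.2 = β := by
        intro z hz hx
        rw [hfx z hx] at hz
        exact hz hx
      exact ⟨key _ k1, key _ k2, key _ k3, key _ k4⟩
  · intro κ x c N g a V hg hok hvl hfa hab hat
    classical
    by_contra hcon
    push Not at hcon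
    obtain ⟨hn1, hn2⟩ := hcon
    obtain ⟨hr, hs, ht, hcomp, -, -⟩ := hRel V
    have hab' := (isl_vl g a c V).mp hvl
    let β : ℕ → Bool := fun j => decide (Rel V (g + 2) j)
    have hVU : VU β V := by
      rw [hcomp (N + 4) β hok]
      intro y z _ _ hyz
      refine decide_eq_decide.mpr ⟨fun h => ht _ _ _ h hyz, fun h => ht _ _ _ h (hs _ _ hyz)⟩
    obtain ⟨w1, hw1, hv1⟩ := hFa.2.2.2.2.2 (isc g a c) β V hVU hab'.2
    have hcg : isc g a c g = c g := by
      unfold isc
      rw [if_pos le_rfl]
    have hcg4 : isc g a c (g + 4) = c g := by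
      unfold isc
      rw [if_neg (by omega), if_neg (by omega), if_neg (by omega), if_neg (by omega)]
      have h6 : g + 4 - 4 = g := by omega
      rw [h6]
    have hb1 : β g = false := decide_eq_false (fun h => hn1 (hs _ _ h))
    have hb2 : β (g + 4) = false := decide_eq_false hn2
    have hb3 : β (g + 2) = true := decide_eq_true (hr _)
    have hext := isl_ext g a.p (fun j => (isc g a c j, β j)) w1 hv1 (by
      show (isc g a c (g + 4), β (g + 4)) = (isc g a c g, β g)
      rw [hcg, hcg4, hb1, hb2])
    have hrow : ∀ j, ((fun j => if j ≤ g then (isc g a c j, β j) else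
        (isc g a c (j + 4), β (j + 4))) j : κ × Bool).1 = c j := by
      intro j
      show (if j ≤ g then (isc g a c j, β j) else (isc g a c (j + 4), β (j + 4))).1 = c j
      by_cases h1 : j ≤ g
      · rw [if_pos h1]
        show isc g a c j = c j
        unfold isc
        rw [if_pos h1]
      · rw [if_neg h1]
        show isc g a c (j + 4) = c j
        unfold isc
        rw [if_neg (by omega), if_neg (by omega), if_neg (by omega), if_neg (by omega)]
        have h6 : j + 4 - 4 = j := by omega
        rw [h6]
    have hl1 : isc g a c (g + 1) = a.l := by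
      unfold isc
      rw [if_neg (by omega), if_pos rfl]
    have hl2 : isc g a c (g + 2) = a.t := by
      unfold isc
      rw [if_neg (by omega), if_neg (by omega), if_pos rfl]
    have hl3 : isc g a c (g + 3) = a.r := by
      unfold isc
      rw [if_neg (by omega), if_neg (by omega), if_neg (by omega), if_pos rfl]
    have hmp : mp (Cr.map Prod.fst) (isl g (⟨a.p, (isc g a c (g + 1), β (g + 1)),
        (isc g a c g, β g), (isc g a c (g + 3), β (g + 3)), (isc g a c (g + 2), β (g + 2))⟩ :
          Cr (κ × Bool)) ++ w1) = isl g a ++ V := by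
      rw [isl_mp_append, hw1]
      have h2 : (⟨a.p, isc g a c (g + 1), isc g a c g, isc g a c (g + 3),
          isc g a c (g + 2)⟩ : Cr κ) = a := by
        rw [hl1, hl2, hl3, hcg, ← hab'.1]
      have h3 : mp (Cr.map Prod.fst) (isl g (⟨a.p, (isc g a c (g + 1), β (g + 1)),
        (isc g a c g, β g), (isc g a c (g + 3), β (g + 3)), (isc g a c (g + 2), β (g + 2))⟩ :
          Cr (κ × Bool))) = isl g (⟨a.p, isc g a c (g + 1), isc g a c g, isc g a c (g + 3),
          isc g a c (g + 2)⟩ : Cr κ) := rfl
      rw [h3, h2]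
    obtain ⟨β0, hβ1, hβ2⟩ := hfa _ _ hrow hmp hext
    have h1 := hβ1 g hg (by rw [← hab'.1]; exact hab)
    have h2 : (if g ≤ g then (isc g a c g, β g) else (isc g a c (g + 4), β (g + 4))).2 = β0 := h1
    rw [if_pos le_rfl] at h2
    have h3 : β g = β0 := h2
    have hisl := hβ2 _ ⟨g + 1, show cX (g + 1) (⟨a.p, (isc g a c (g + 1), β (g + 1)),
        (isc g a c g, β g), (isc g a c (g + 3), β (g + 3)), (isc g a c (g + 2), β (g + 2))⟩ :
          Cr (κ × Bool)) ∈ _ by simp [isl]⟩
    have h4 : isc g a c (g + 2) = x → β (g + 2) = β0 := hisl.2.2.2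
    have h5 := h4 (by rw [hl2, hat])
    rw [← h3, hb1, hb3] at h5
    exact absurd h5 (by decide)

end Pool.LSG
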