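import Pool.Agent.LSG.St

/-!
# LS, geometry block [Mp]: functions on decorations and planar isotopies
-/

set_option autoImplicit false

namespace Pool.LSG

open Pool.Agent.ARB Pool.Agent.Helper2 Pool.ALT Pool.LSP

section lemmas

variable {α β : Type}

private theorem mp_append (f : α → β) (u v : Wd α) : mp f (u ++ v) = mp f u ++ mp f v :=
  List.map_append

private theorem mp_inn (f : α → β) (k : Kd α) : (k.mp f).inn = k.inn := by cases k <;> rfl

private theorem mp_out (f : α → β) (k : Kd α) : (k.mp f).out = k.out := by cases k <;> rfl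

private theorem mp_okd (f : α → β) (u : Wd α) (n m : ℕ) : Okd (mp f u) n m ↔ Okd u n m := by
  induction u generalizing n with
  | nil => exact Iff.rfl
  | cons s u ih =>
    show s.i + (s.k.mp f).inn ≤ n ∧ Okd (mp f u) (n - (s.k.mp f).inn + (s.k.mp f).out) m ↔
      s.i + s.k.inn ≤ n ∧ Okd u (n - s.k.inn + s.k.out) m
    rw [mp_inn, mp_out, ih]

private theorem mp_U {f : α → β} {k : Kd α} (h : k.mp f = .U) : k = .U := by
  cases k with
  | U => rfl
  | N => cases h
  | X a => cases h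

private theorem mp_N {f : α → β} {k : Kd α} (h : k.mp f = .N) : k = .N := by
  cases k with
  | U => cases h
  | N => rfl
  | X a => cases h

private theorem mp_X {f : α → β} {k : Kd α} {b : β} (h : k.mp f = .X b) :
    ∃ a, k = .X a ∧ f a = b := by
  cases k with
  | U => cases h
  | N => cases h
  | X a =>
    refine ⟨a, rfl, ?_⟩
    injection h

private theorem mp_pair {f : α → β} {a : Wd α} {k l : Kd β} {i j : ℕ}
    (h : mp f a = [⟨k, i⟩, ⟨l, j⟩]) :
    ∃ k' l' : Kd α, a = [⟨k', i⟩, ⟨l', j⟩] ∧ k'.mp f = k ∧ l'.mp f = l := by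
  match a, h with
  | [x, y], h =>
    have h1 : (⟨x.k.mp f, x.i⟩ : Pc β) = ⟨k, i⟩ := (List.cons.inj h).1
    have h2 : (⟨y.k.mp f, y.i⟩ : Pc β) = ⟨l, j⟩ := (List.cons.inj (List.cons.inj h).2).1
    injection h1 with h3 h4
    injection h2 with h5 h6
    subst h4
    subst h6
    exact ⟨x.k, y.k, rfl, h3, h5⟩
  | [], h => cases h
  | [x], h => exact absurd (List.cons.inj h).2 (by intro h'; cases h')
  | x :: y :: z :: t, h =>
    exact absurd (List.cons.inj (List.cons.inj h).2).2 (by intro h'; cases h')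

private theorem mp_nil {f : α → β} {a : Wd α} (h : mp f a = []) : a = [] := by
  cases a with
  | nil => rfl
  | cons x a => cases h

variable [Rt α] [Rt β]

private theorem mp_PL {f : α → β} (hf : ∀ a, f (Rt.r a) = Rt.r (f a)) {a b : Wd α} (h : PL a b) :
    PL (mp f a) (mp f b) := by
  cases h with
  | swap s t i k =>
    have h1 := PL.swap (s.mp f) (t.mp f) i k
    rw [mp_inn, mp_out] at h1
    exact h1
  | zig i => exact PL.zig i
  | zag i => exact PL.zag i
  | slU i a =>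
    show PL [cU (i + 1), cX i (f a)] [cU i, cX (i + 1) (f (Rt.r a))]
    rw [hf]
    exact PL.slU i (f a)
  | slN i a =>
    show PL [cX i (f (Rt.r a)), cN (i + 1)] [cX (i + 1) (f a), cN i]
    rw [hf]
    exact PL.slN i (f a)

private theorem lift1 {f : α → β} (hf : ∀ a, f (Rt.r a) = Rt.r (f a)) {a1 : Wd α} {a b : Wd β}
    (ha : mp f a1 = a) (h : PL a b) : ∃ b1, mp f b1 = b ∧ PL a1 b1 := by
  cases h with
  | swap s t i k =>
    obtain ⟨k', l', rfl, rfl, rfl⟩ := mp_pair ha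
    refine ⟨[⟨l', i + k'.inn + k⟩, ⟨k', i⟩], ?_, ?_⟩
    · rw [mp_inn]
      rfl
    · rw [mp_out]
      exact PL.swap k' l' i k
  | zig i =>
    obtain ⟨k', l', rfl, h1, h2⟩ := mp_pair ha
    obtain rfl := mp_U h1
    obtain rfl := mp_N h2
    exact ⟨[], rfl, PL.zig i⟩
  | zag i =>
    obtain ⟨k', l', rfl, h1, h2⟩ := mp_pair ha
    obtain rfl := mp_U h1
    obtain rfl := mp_N h2
    exact ⟨[], rfl, PL.zag i⟩
  | slU i c =>
    obtain ⟨k', l', rfl, h1, h2⟩ := mp_pair ha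
    obtain rfl := mp_U h1
    obtain ⟨c', rfl, rfl⟩ := mp_X h2
    refine ⟨[cU i, cX (i + 1) (Rt.r c')], ?_, PL.slU i c'⟩
    rw [← hf]
    rfl
  | slN i c =>
    obtain ⟨k', l', rfl, h1, h2⟩ := mp_pair ha
    obtain ⟨c', rfl, hc⟩ := mp_X h1
    obtain rfl := mp_N h2
    refine ⟨[cX (i + 1) (Rt.r (Rt.r (Rt.r c'))), cN i], ?_, ?_⟩
    · show [cX (i + 1) (f (Rt.r (Rt.r (Rt.r c')))), cN i] = [cX (i + 1) c, cN i]
      rw [hf, hf, hf, hc, Rt.r4]
    · have h3 := PL.slN i (Rt.r (Rt.r (Rt.r c')))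
      rw [Rt.r4] at h3
      exact h3

private theorem lift2 {f : α → β} (hf : ∀ a, f (Rt.r a) = Rt.r (f a)) {a1 : Wd α} {a b : Wd β}
    (ha : mp f a1 = a) (h : PL b a) : ∃ b1, mp f b1 = b ∧ PL b1 a1 := by
  cases h with
  | swap s t i k =>
    obtain ⟨k', l', rfl, rfl, rfl⟩ := mp_pair ha
    refine ⟨[⟨l', i⟩, ⟨k', i + l'.out + k⟩], ?_, ?_⟩
    · rw [mp_out]
      rfl
    · rw [mp_inn]
      exact PL.swap l' k' i k
  | zig i =>
    obtain rfl := mp_nil ha
    exact ⟨[cU i, cN (i + 1)], rfl, PL.zig i⟩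
  | zag i =>
    obtain rfl := mp_nil ha
    exact ⟨[cU (i + 1), cN i], rfl, PL.zag i⟩
  | slU i c =>
    obtain ⟨k', l', rfl, h1, h2⟩ := mp_pair ha
    obtain rfl := mp_U h1
    obtain ⟨c', rfl, hc⟩ := mp_X h2
    refine ⟨[cU (i + 1), cX i (Rt.r (Rt.r (Rt.r c')))], ?_, ?_⟩
    · show [cU (i + 1), cX i (f (Rt.r (Rt.r (Rt.r c'))))] = [cU (i + 1), cX i c]
      rw [hf, hf, hf, hc, Rt.r4]
    · have h3 := PL.slU i (Rt.r (Rt.r (Rt.r c')))
      rw [Rt.r4] at h3
      exact h3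
  | slN i c =>
    obtain ⟨k', l', rfl, h1, h2⟩ := mp_pair ha
    obtain ⟨c', rfl, rfl⟩ := mp_X h1
    obtain rfl := mp_N h2
    refine ⟨[cX i (Rt.r c'), cN (i + 1)], ?_, PL.slN i c'⟩
    rw [← hf]
    rfl

private theorem lift_step {f : α → β} (hf : ∀ a, f (Rt.r a) = Rt.r (f a)) {n : ℕ} {w1 : Wd α}
    {w' : Wd β} (h : PStep n (mp f w1) w') : ∃ w1', mp f w1' = w' ∧ PStep n w1 w1' := by
  obtain ⟨u, a, b, v, k, l, h1, rfl, h3, h4, h5, h6⟩ := h
  obtain ⟨u1, t1, rfl, rfl, h7⟩ := List.map_eq_append_iff.1 h1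
  obtain ⟨a1, v1, rfl, ha, rfl⟩ := List.map_eq_append_iff.1 h7
  have ha' : mp f a1 = a := ha
  have hb : ∃ b1, mp f b1 = b ∧ (PL a1 b1 ∨ PL b1 a1) := by
    rcases h6 with h6 | h6
    · obtain ⟨b1, h8, h9⟩ := lift1 hf ha' h6
      exact ⟨b1, h8, Or.inl h9⟩
    · obtain ⟨b1, h8, h9⟩ := lift2 hf ha' h6
      exact ⟨b1, h8, Or.inr h9⟩
  obtain ⟨b1, rfl, h8⟩ := hb
  refine ⟨u1 ++ (b1 ++ v1), ?_, u1, a1, b1, v1, k, l, rfl, rfl, (mp_okd f u1 _ _).1 h3, ?_,
    (mp_okd f b1 _ _).1 h5, h8⟩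
  · rw [mp_append, mp_append]
    rfl
  · rw [← ha'] at h4
    exact (mp_okd f a1 _ _).1 h4

end lemmas

/-! ### forgetting the colours -/

section forget

variable {κ : Type}

private theorem fgt_append (u v : Wd (Cr κ)) : fgt (u ++ v) = fgt u ++ fgt v := List.map_append

private theorem fgt_shd (j : ℕ) (u : Wd (Cr κ)) : fgt (shd j u) = Pool.Agent.ARB.sh j (fgt u) := by
  induction u with
  | nil => rfl
  | cons s u ih =>
    obtain ⟨k, i⟩ := s
    cases k with
    | U =>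
      show pU (i + j) :: fgt (shd j u) = pU (i + j) :: Pool.Agent.ARB.sh j (fgt u)
      rw [ih]
    | N =>
      show pN (i + j) :: fgt (shd j u) = pN (i + j) :: Pool.Agent.ARB.sh j (fgt u)
      rw [ih]
    | X a =>
      show pX (i + j) a.p :: fgt (shd j u) = pX (i + j) a.p :: Pool.Agent.ARB.sh j (fgt u)
      rw [ih]

private theorem fgt_ok (u : Wd (Cr κ)) (n m : ℕ) : Okd u n m ↔ Ok (fgt u) n m := by
  induction u generalizing n with
  | nil => exact Iff.rfl
  | cons s u ih =>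
    obtain ⟨k, i⟩ := s
    cases k with
    | U =>
      show i + 0 ≤ n ∧ Okd u (n - 0 + 2) m ↔ i + 0 ≤ n ∧ Ok (fgt u) (n - 0 + 2) m
      rw [ih]
    | N =>
      show i + 2 ≤ n ∧ Okd u (n - 2 + 0) m ↔ i + 2 ≤ n ∧ Ok (fgt u) (n - 2 + 0) m
      rw [ih]
    | X a =>
      show i + 2 ≤ n ∧ Okd u (n - 2 + 2) m ↔ i + 2 ≤ n ∧ Ok (fgt u) (n - 2 + 2) m
      rw [ih]

private theorem fgt_nX (u : Wd (Cr κ)) : nX (fgt u) = nXd u := by
  induction u with
  | nil => rfl
  | cons s u ih =>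
    obtain ⟨k, i⟩ := s
    cases k with
    | U =>
      show nX (fgt u) = nXd u
      exact ih
    | N =>
      show nX (fgt u) = nXd u
      exact ih
    | X a =>
      show nX (fgt u) + 1 = nXd u + 1
      rw [ih]

private theorem fgt_mem (u : Wd (Cr κ)) (p : Bool) (i : ℕ) :
    pX i p ∈ fgt u ↔ ∃ a : Cr κ, a.p = p ∧ cX i a ∈ u := by
  rw [fgt, List.mem_map]
  constructor
  · rintro ⟨⟨k, j⟩, hs, h⟩
    cases k with
    | U => simp at h
    | N => simp at h
    | X a =>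
      simp only [Piece.mk.injEq, Kind.X.injEq] at h
      obtain ⟨h1, rfl⟩ := h
      exact ⟨a, h1, hs⟩
  · rintro ⟨a, rfl, ha⟩
    exact ⟨_, ha, rfl⟩

private theorem fgt_PL {a b : Wd (Cr κ)} (h : PL a b) : Loc (fgt a) (fgt b) := by
  cases h with
  | swap s t i k =>
    cases s <;> cases t <;> exact Loc.swap _ _ i k
  | zig i => exact Loc.zig i
  | zag i => exact Loc.zag i
  | slU i a => exact Loc.slU i a.p
  | slN i a =>
    have h1 := Loc.slN i (!a.p)
    rw [Bool.not_not] at h1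
    exact h1

private theorem fgt_step {n : ℕ} {w w' : Wd (Cr κ)} (h : PStep n w w') :
    Step n (fgt w) (fgt w') := by
  obtain ⟨u, a, b, v, k, l, rfl, rfl, h3, h4, h5, h6⟩ := h
  refine ⟨fgt u, fgt a, fgt b, fgt v, k, l, ?_, ?_, (fgt_ok _ _ _).1 h3, (fgt_ok _ _ _).1 h4,
    (fgt_ok _ _ _).1 h5, h6.imp fgt_PL fgt_PL⟩
  · rw [fgt_append, fgt_append]
  · rw [fgt_append, fgt_append]

end forget

/-! ### letters -/

section letters

variable {α : Type}

private def QQ (Q : Bool → α → Prop) (s : Pc α) : Prop :=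
  ∀ a, s.k = .X a → Q (decide (s.i % 2 = 0)) a

private theorem QQ_iff (Q : Bool → α → Prop) (w : Wd α) :
    (∀ i a, cX i a ∈ w → Q (decide (i % 2 = 0)) a) ↔ ∀ s ∈ w, QQ Q s := by
  constructor
  · rintro h ⟨k, i⟩ hs a rfl
    exact h i a hs
  · intro h i a ha
    exact h _ ha a rfl

private theorem QQ_par (Q : Bool → α → Prop) (t : Kd α) {i j : ℕ} (h : i % 2 = j % 2) :
    QQ Q ⟨t, i⟩ ↔ QQ Q ⟨t, j⟩ := by
  unfold QQ
  simp only [h]

variable [Rt α]

private theorem QQ_rot {Q : Bool → α → Prop} (hQ : ∀ b a, Q (!b) (Rt.r a) ↔ Q b a) (i : ℕ) (a : α) :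
    QQ Q (cX i a) ↔ QQ Q (cX (i + 1) (Rt.r a)) := by
  have e : decide ((i + 1) % 2 = 0) = !decide (i % 2 = 0) := by
    rcases Nat.mod_two_eq_zero_or_one i with h | h
    · have h1 : (i + 1) % 2 = 1 := by omega
      simp [h, h1]
    · have h1 : (i + 1) % 2 = 0 := by omega
      simp [h, h1]
  constructor
  · intro h b hb
    have hb' : b = Rt.r a := by
      injection hb with hb'
      exact hb'.symm
    subst hb'
    show Q (decide ((i + 1) % 2 = 0)) (Rt.r a)
    rw [e, hQ]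
    exact h a rfl
  · intro h b hb
    have hb' : b = a := by
      injection hb with hb'
      exact hb'.symm
    subst hb'
    have h1 : Q (decide ((i + 1) % 2 = 0)) (Rt.r b) := h _ rfl
    rw [e, hQ] at h1
    exact h1

private theorem QQ_rot' {Q : Bool → α → Prop} (hQ : ∀ b a, Q (!b) (Rt.r a) ↔ Q b a) (i : ℕ)
    (a : α) : QQ Q (cX i (Rt.r a)) ↔ QQ Q (cX (i + 1) a) := by
  have h1 := QQ_rot hQ (i + 1) a
  rw [h1]
  exact QQ_par Q _ (by omega)

private theorem QQ_PL {Q : Bool → α → Prop} (hQ : ∀ b a, Q (!b) (Rt.r a) ↔ Q b a) {a b : Wd α}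
    (h : PL a b) : (∀ s ∈ a, QQ Q s) ↔ ∀ s ∈ b, QQ Q s := by
  cases h with
  | swap s t i k =>
    have h1 : QQ Q ⟨t, i + s.out + k⟩ ↔ QQ Q ⟨t, i + s.inn + k⟩ := by
      refine QQ_par Q t ?_
      cases s <;> simp only [Kd.out, Kd.inn] <;> omega
    simp only [List.mem_cons, List.not_mem_nil, or_false, forall_eq_or_imp, forall_eq, h1]
    exact and_comm
  | zig i =>
    simp [QQ]
  | zag i =>
    simp [QQ]
  | slU i a =>
    have h1 := QQ_rot hQ i a
    have h2 : ∀ j, QQ Q (cU j) := fun j b hb => by cases hb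
    simp only [List.mem_cons, List.not_mem_nil, or_false, forall_eq_or_imp, forall_eq, h1, h2,
      true_and]
  | slN i a =>
    have h1 := QQ_rot' hQ i a
    have h2 : ∀ j, QQ Q (cN j) := fun j b hb => by cases hb
    simp only [List.mem_cons, List.not_mem_nil, or_false, forall_eq_or_imp, forall_eq, h1, h2,
      and_true]

private theorem QQ_step {Q : Bool → α → Prop} (hQ : ∀ b a, Q (!b) (Rt.r a) ↔ Q b a) {n : ℕ}
    {w w' : Wd α} (h : PStep n w w') : (∀ s ∈ w, QQ Q s) ↔ ∀ s ∈ w', QQ Q s := by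
  obtain ⟨u, a, b, v, k, l, rfl, rfl, -, -, -, h6⟩ := h
  have h7 : (∀ s ∈ a, QQ Q s) ↔ ∀ s ∈ b, QQ Q s := by
    rcases h6 with h6 | h6
    · exact QQ_PL hQ h6
    · exact (QQ_PL hQ h6).symm
  simp only [List.forall_mem_append, h7]

private theorem QQ_iso {Q : Bool → α → Prop} (hQ : ∀ b a, Q (!b) (Rt.r a) ↔ Q b a) {n : ℕ}
    {w w' : Wd α} (h : PIso n w w') : ((∀ i a, cX i a ∈ w → Q (decide (i % 2 = 0)) a) ↔
      ∀ i a, cX i a ∈ w' → Q (decide (i % 2 = 0)) a) := by
  rw [QQ_iff, QQ_iff]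
  induction h with
  | refl => exact Iff.rfl
  | tail _ hs ih => exact ih.trans (QQ_step hQ hs)

omit [Rt α] in
private theorem nXd_append (u v : Wd α) : nXd (u ++ v) = nXd u + nXd v := by
  induction u with
  | nil =>
    show nXd v = 0 + nXd v
    rw [zero_add]
  | cons s u ih =>
    obtain ⟨k, i⟩ := s
    cases k with
    | U => exact ih
    | N => exact ih
    | X a =>
      show nXd (u ++ v) + 1 = nXd u + 1 + nXd v
      rw [ih]
      ring

private theorem nXd_PL {a b : Wd α} (h : PL a b) : nXd a = nXd b := by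
  cases h with
  | swap s t i k => cases s <;> cases t <;> rfl
  | zig i => rfl
  | zag i => rfl
  | slU i a => rfl
  | slN i a => rfl

private theorem nXd_step {n : ℕ} {w w' : Wd α} (h : PStep n w w') : nXd w = nXd w' := by
  obtain ⟨u, a, b, v, k, l, rfl, rfl, -, -, -, h6⟩ := h
  have h7 : nXd a = nXd b := by
    rcases h6 with h6 | h6
    · exact nXd_PL h6
    · exact (nXd_PL h6).symm
  rw [nXd_append, nXd_append, nXd_append, nXd_append, h7]

end letters

theorem thm_Mp : St_Mp := by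
  refine ⟨?_, ?_, ?_, ?_, ?_, ?_⟩
  · intro α β _ _ f hf
    constructor
    · intro n w w' h
      induction h with
      | refl => exact PIso.refl _ _
      | tail _ hs ih =>
        refine Relation.ReflTransGen.tail ih ?_
        obtain ⟨u, a, b, v, k, l, rfl, rfl, h3, h4, h5, h6⟩ := hs
        refine ⟨mp f u, mp f a, mp f b, mp f v, k, l, ?_, ?_, (mp_okd f _ _ _).2 h3,
          (mp_okd f _ _ _).2 h4, (mp_okd f _ _ _).2 h5, h6.imp (mp_PL hf) (mp_PL hf)⟩
        · rw [mp_append, mp_append]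
        · rw [mp_append, mp_append]
    · intro n w1 w' h
      induction h with
      | refl => exact ⟨w1, rfl, PIso.refl _ _⟩
      | tail _ hs ih =>
        obtain ⟨w2, rfl, h2⟩ := ih
        obtain ⟨w3, h3, h4⟩ := lift_step hf hs
        exact ⟨w3, h3, Relation.ReflTransGen.tail h2 h4⟩
  · intro κ n w w' h
    induction h with
    | refl => exact Relation.ReflTransGen.refl
    | tail _ hs ih => exact Relation.ReflTransGen.tail ih (fgt_step hs)
  · intro κ
    exact ⟨fgt_append, fgt_shd, fgt_ok, fgt_nX, fgt_mem⟩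
  · intro α _ Q hQ n w w' h
    exact QQ_iso hQ h
  · intro α _ P hP n w w' h ⟨a, ⟨i, ha⟩, hPa⟩
    by_contra hcon
    push Not at hcon
    have h1 := (QQ_iso (Q := fun _ a => ¬ P a) (fun b a => not_congr (hP a)) h).2
      (fun j b hb => hcon b ⟨j, hb⟩)
    exact h1 i a ha hPa
  · intro α _ n w w' h
    induction h with
    | refl => rfl
    | tail _ hs ih => exact ih.trans (nXd_step hs)

end Pool.LSG
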