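import Pool.Agent.LSG.T1

/-!
# LS, geometry block, module NL: a nugatory crossing can be removed
-/

set_option autoImplicit false

namespace Pool.LSG

open Pool.Agent.ARB Pool.Agent.Helper2 Pool.ALT Pool.LSP

variable {κ : Type}

/-! ### refinements above the first piece -/

/-- the normal form of a bit with respect to the colour `x` -/
private noncomputable def nl_f (x : κ) (k : κ × Bool) : κ × Bool := by
  classical
  exact (k.1, k.2 && decide (k.1 = x))

private theorem nl_f1 (x : κ) (k : κ × Bool) : (nl_f x k).1 = k.1 := rfl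

private theorem nl_fx (x : κ) {k : κ × Bool} (h : k.1 = x) : nl_f x k = k := by
  classical
  refine Prod.ext rfl ?_
  show (k.2 && decide (k.1 = x)) = k.2
  rw [decide_eq_true h, Bool.and_true]

private theorem nl_fn (x : κ) {k : κ × Bool} (h : k.1 ≠ x) : nl_f x k = (k.1, false) := by
  classical
  refine Prod.ext rfl ?_
  show (k.2 && decide (k.1 = x)) = false
  rw [decide_eq_false h, Bool.and_false]

private theorem nl_crb {x : κ} {β : Bool} {a : Cr (κ × Bool)} (h : CrB x β (Cr.map (nl_f x) a)) :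
    CrB x β a := by
  have h1 : ∀ k : κ × Bool, k.1 = x → ((nl_f x k).1 = x → (nl_f x k).2 = β) → k.2 = β := by
    intro k hk h2
    have h3 := h2 hk
    rw [nl_fx x hk] at h3
    exact h3
  obtain ⟨q1, q2, q3, q4⟩ := h
  exact ⟨fun h => h1 _ h q1, fun h => h1 _ h q2, fun h => h1 _ h q3, fun h => h1 _ h q4⟩

private theorem nl_okd {κ' : Type} (f : κ → κ') (w : Wd (Cr κ)) : ∀ n m : ℕ,
    Okd (mp (Cr.map f) w) n m ↔ Okd w n m := by
  induction w with
  | nil => intro n m; exact Iff.rfl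
  | cons s w ih =>
    intro n m
    obtain ⟨k, i⟩ := s
    cases k with
    | U => exact and_congr Iff.rfl (ih _ _)
    | N => exact and_congr Iff.rfl (ih _ _)
    | X a => exact and_congr Iff.rfl (ih _ _)

/-- the letters determine the image of a word -/
private theorem nl_mp_congr {κ' : Type} {f g : κ → κ'} (w : Wd (Cr κ))
    (h : ∀ a, Lt a w → Cr.map f a = Cr.map g a) : mp (Cr.map f) w = mp (Cr.map g) w := by
  refine List.map_congr_left ?_
  rintro ⟨k, i⟩ hs
  cases k with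
  | U => rfl
  | N => rfl
  | X a =>
    show (⟨Kd.X (Cr.map f a), i⟩ : Pc (Cr κ')) = ⟨Kd.X (Cr.map g a), i⟩
    rw [h a ⟨i, hs⟩]

/-- only the colours of the gaps below the word matter -/
private theorem nl_row (hVaC : St_VaC) {c d : ℕ → κ} {n m : ℕ} {w : Wd (Cr κ)} (hok : Okd w n m)
    (h : ∀ j ≤ n, d j = c j) (hv : Vl c w) : Vl d w := by
  obtain ⟨c', hv⟩ := hv
  obtain ⟨-, -, -, hrow, -, -⟩ := hVaC (κ := κ) (κ' := κ) (α := Cr κ) (β := Cr κ)
  obtain ⟨d', hd, -⟩ := hrow Pd w n m c d c' hok h hv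
  exact ⟨d', hd⟩

/-- a refinement above the first piece gives a refinement of the word -/
private theorem nl_lift (hVaC : St_VaC) {x : κ} {c : ℕ → κ} {N : ℕ} {s : Pc (Cr κ)}
    {w : Wd (Cr κ)} (h : Fa x c N (s :: w)) (hok : Okd (s :: w) N 0)
    {d1 : ℕ → κ × Bool} {w1 : Wd (Cr (κ × Bool))}
    (hw : mp (Cr.map Prod.fst) w1 = w) (hv : Vl d1 w1)
    {e1 e2 : ℕ → κ × Bool} {s1 : Pc (Cr (κ × Bool))} (hs : T1.pmp Prod.fst s1 = s)
    (he : ∀ j, (e1 j).1 = c j) (hab : T1.Ab e1 s1 e2)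
    (hrow : ∀ j ≤ N - s.k.inn + s.k.out, e2 j = nl_f x (d1 j)) :
    ∃ β : Bool, (∀ a, Lt a w1 → CrB x β a) ∧ ∀ a i, s1 = cX i a → CrB x β a := by
  have h1 := T1.Vl.map (nl_f x) hv
  have h2 : Okd (mp (Cr.map (nl_f x)) w1) (N - s.k.inn + s.k.out) 0 := by
    rw [nl_okd]
    have h3 := hok.2
    rw [← hw, nl_okd] at h3
    exact h3
  have h3 := nl_row hVaC h2 hrow h1
  have h4 : Vl e1 (s1 :: mp (Cr.map (nl_f x)) w1) := (T1.vl_cons _ _ _).2 ⟨_, hab, h3⟩
  have h5 : mp (Cr.map Prod.fst) (s1 :: mp (Cr.map (nl_f x)) w1) = s :: w := by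
    rw [T1.mp_cons, T1.mp_map_comp, hs]
    show s :: mp (Cr.map Prod.fst) w1 = s :: w
    rw [hw]
  obtain ⟨β, -, h6⟩ := h e1 _ he h5 h4
  refine ⟨β, fun a ha => nl_crb (h6 _ ?_), fun a i hi => h6 a ⟨i, ?_⟩⟩
  · obtain ⟨i, hi⟩ := T1.lt_mp (nl_f x) ha
    exact ⟨i, List.mem_cons_of_mem _ hi⟩
  · rw [hi]
    exact List.mem_cons_self

private theorem nl_pmp_id (s : Pc (Cr κ)) :
    T1.pmp Prod.fst (T1.pmp (fun k => (k, false)) s) = s := by
  obtain ⟨k, i⟩ := s
  cases k <;> rfl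

/-- `Fa` above the first piece if the colour `x` does not occur above it -/
private theorem nl_no (hVaC : St_VaC) {x : κ} {c c₁ : ℕ → κ} {N : ℕ} {s : Pc (Cr κ)}
    {w : Wd (Cr κ)} (h : Fa x c N (s :: w)) (hok : Okd (s :: w) N 0) (hab : T1.Ab c s c₁)
    (hx : ∀ j ≤ N - s.k.inn + s.k.out, c₁ j ≠ x) : Fa x c₁ (N - s.k.inn + s.k.out) w := by
  intro d1 w1 h1 h2 h3
  obtain ⟨β, h4, -⟩ := nl_lift hVaC h hok h2 h3 (nl_pmp_id s) (e1 := fun j => (c j, false))
    (fun j => rfl) (hab.map (fun k => (k, false))) (fun j hj => by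
      rw [nl_fn x (by rw [h1 j]; exact hx j hj), h1 j])
  exact ⟨β, fun j hj hjx => absurd hjx (hx j hj), h4⟩

/-- `Fa` above a crossing if the colour `x` does not occur below it -/
private theorem nl_X (hVaC : St_VaC) {x : κ} {c : ℕ → κ} {N i : ℕ} {a₀ : Cr κ} {t : κ}
    {w : Wd (Cr κ)} (h : Fa x c N (cX i a₀ :: w)) (hok : Okd (cX i a₀ :: w) N 0)
    (hp : Pd (c i) (c (i + 1)) (c (i + 2)) t a₀) (hx : ∀ j ≤ N, c j ≠ x) :
    Fa x (updC (i + 1) t c) (N - 2 + 2) w := by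
  have hi : i + 2 ≤ N := hok.1
  intro d1 w1 h1 h2 h3
  obtain ⟨e1, e2, e3, e4⟩ := hp
  have ht : (d1 (i + 1)).1 = t := by
    rw [h1]
    exact if_pos rfl
  obtain ⟨β, h4, h5⟩ := nl_lift hVaC h hok h2 h3 (e1 := fun j => (c j, false))
    (e2 := updC (i + 1) (nl_f x (d1 (i + 1))) (fun j => (c j, false)))
    (s1 := cX i ⟨a₀.p, (a₀.l, false), (a₀.b, false), (a₀.r, false), nl_f x (d1 (i + 1))⟩)
    (by
      show (⟨Kd.X ⟨a₀.p, a₀.l, a₀.b, a₀.r, (d1 (i + 1)).1⟩, i⟩ : Pc (Cr κ)) = ⟨Kd.X a₀, i⟩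
      rw [ht, ← e4])
    (fun j => rfl)
    ⟨nl_f x (d1 (i + 1)), ⟨Prod.ext e1 rfl, Prod.ext e2 rfl, Prod.ext e3 rfl, rfl⟩, rfl⟩
    (fun j hj => by
      have hj' : j ≤ N := by
        have h6 : j ≤ N - 2 + 2 := hj
        omega
      show (if j = i + 1 then nl_f x (d1 (i + 1)) else (c j, false)) = nl_f x (d1 j)
      by_cases hji : j = i + 1
      · rw [if_pos hji, hji]
      · rw [if_neg hji]
        have h6 : (d1 j).1 = c j := by
          rw [h1]
          exact if_neg hji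
        rw [nl_fn x (by rw [h6]; exact hx j hj'), h6])
  refine ⟨β, fun j hj hjx => ?_, h4⟩
  have hj' : j ≤ N := by omega
  have hjx' : (if j = i + 1 then t else c j) = x := hjx
  by_cases hji : j = i + 1
  · rw [if_pos hji] at hjx'
    have h6 := (h5 _ i rfl).2.2.2
    have h7 : (nl_f x (d1 (i + 1))).2 = β := h6 (by rw [nl_f1, ht]; exact hjx')
    rw [nl_fx x (by rw [ht]; exact hjx')] at h7
    rw [hji]
    exact h7
  · rw [if_neg hji] at hjx'
    exact absurd hjx' (hx j hj')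

/-- `Fa` above a cup whose inner region is forced to have the colour `x` -/
private theorem nl_U (hVaC : St_VaC) {x : κ} {c : ℕ → κ} {N i : ℕ} {w : Wd (Cr κ)}
    (h : Fa x c N (cU i :: w)) (hok : Okd (cU i :: w) N 0) (hx : ∀ j ≤ N, c j ≠ x)
    (hall : ∀ t, Vl (insC i t c) w → t = x) :
    Fa x (insC i x c) (N + 2) w := by
  classical
  have hi : i ≤ N := hok.1
  have hins : ∀ j, j ≤ N + 2 → j ≠ i + 1 → insC i x c j ≠ x := by
    intro j hj hji
    show (if j ≤ i then c j else if j = i + 1 then x else c (j - 2)) ≠ x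
    by_cases h1 : j ≤ i
    · rw [if_pos h1]
      exact hx j (by omega)
    · rw [if_neg h1, if_neg hji]
      exact hx (j - 2) (by omega)
  have hi1 : insC i x c (i + 1) = x := by
    show (if i + 1 ≤ i then c (i + 1) else if i + 1 = i + 1 then x else c (i + 1 - 2)) = x
    rw [if_neg (by omega), if_pos rfl]
  intro d1 w1 h1 h2 h3
  have ht : (d1 (i + 1)).1 = x := by rw [h1, hi1]
  obtain ⟨β, h4, -⟩ := nl_lift hVaC h hok h2 h3 (e1 := fun j => (c j, false))
    (e2 := insC i (d1 (i + 1)) (fun j => (c j, false))) (s1 := cU i) rfl (fun j => rfl)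
    ⟨d1 (i + 1), rfl⟩
    (fun j hj => by
      have hj' : j ≤ N + 2 := by
        have h6 : j ≤ N - 0 + 2 := hj
        omega
      by_cases hji : j = i + 1
      · rw [hji, nl_fx x ht]
        show (if i + 1 ≤ i then (c (i + 1), false) else if i + 1 = i + 1 then d1 (i + 1) else
          (c (i + 1 - 2), false)) = d1 (i + 1)
        rw [if_neg (by omega), if_pos rfl]
      · have h5 : (d1 j).1 ≠ x := by
          rw [h1]
          exact hins j hj' hji
        rw [nl_fn x h5, h1]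
        show (if j ≤ i then (c j, false) else if j = i + 1 then d1 (i + 1) else
          (c (j - 2), false)) = ((if j ≤ i then c j else if j = i + 1 then x else c (j - 2)), false)
        by_cases h6 : j ≤ i
        · rw [if_pos h6, if_pos h6]
        · rw [if_neg h6, if_neg h6, if_neg hji, if_neg hji])
  refine ⟨β, fun j hj hjx => ?_, h4⟩
  have hji : j = i + 1 := by
    by_contra hji
    exact hins j hj hji hjx
  subst hji
  by_contra hβ
  have hfun : ∃ f : κ × Bool → κ, ∀ y, f y = if y.1 = x ∧ y.2 ≠ β then c 0 else y.1 :=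
    ⟨_, fun y => rfl⟩
  obtain ⟨f, hf⟩ := hfun
  have h5 := T1.Vl.map f h3
  have h6 : mp (Cr.map f) w1 = w := by
    rw [← h2]
    refine nl_mp_congr w1 ?_
    intro a ha
    obtain ⟨q1, q2, q3, q4⟩ := h4 a ha
    have h7 : ∀ y : κ × Bool, (y.1 = x → y.2 = β) → f y = y.1 := by
      intro y hy
      rw [hf, if_neg]
      rintro ⟨h8, h9⟩
      exact h9 (hy h8)
    show (⟨a.p, f a.l, f a.b, f a.r, f a.t⟩ : Cr κ) = ⟨a.p, a.l.1, a.b.1, a.r.1, a.t.1⟩
    rw [h7 _ q1, h7 _ q2, h7 _ q3, h7 _ q4]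
  rw [h6] at h5
  have h7 : Vl (insC i (c 0) c) w := by
    refine nl_row hVaC (n := N + 2) (m := 0) (hok.2.cast (by show N - 0 + 2 = N + 2; omega) rfl) ?_ h5
    intro j hj
    rw [hf]
    by_cases hji : j = i + 1
    · rw [hji, if_pos ⟨ht, hβ⟩]
      show (if i + 1 ≤ i then c (i + 1) else if i + 1 = i + 1 then c 0 else c (i + 1 - 2)) = c 0
      rw [if_neg (by omega), if_pos rfl]
    · rw [if_neg (fun h8 => hins j hj hji (by rw [← h1]; exact h8.1)), h1]
      show (if j ≤ i then c j else if j = i + 1 then c 0 else c (j - 2)) =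
        (if j ≤ i then c j else if j = i + 1 then x else c (j - 2))
      by_cases h6 : j ≤ i
      · rw [if_pos h6, if_pos h6]
      · rw [if_neg h6, if_neg h6, if_neg hji, if_neg hji]
  exact hx 0 (Nat.zero_le N) (hall (c 0) h7)

/-! ### the region `x` comes to the boundary -/

/-- (A) a level at which the region `x` is visible, with the letter `a` above it -/
private theorem nl_A (hVaC : St_VaC) {x : κ} {a : Cr κ}
    (ha2 : (a.l = x ∧ a.r = x) ∨ (a.b = x ∧ a.t = x)) (w : Wd (Cr κ)) : ∀ (N : ℕ) (c : ℕ → κ),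
    Okd w N 0 → Vl c w → Fa x c N w → Lt a w →
    ∃ (u v : Wd (Cr κ)) (k : ℕ) (d : ℕ → κ) (g : ℕ), w = u ++ v ∧ Okd u N k ∧ Okd v k 0 ∧
      Vl d v ∧ Fa x d k v ∧ g ≤ k ∧ d g = x ∧ Lt a v := by
  induction w with
  | nil =>
    rintro N c - - - ⟨i, hi⟩
    exact absurd hi List.not_mem_nil
  | cons s w ih =>
    intro N c hok hvl hF ha
    by_cases hg : ∃ g ≤ N, c g = x
    · obtain ⟨g, hg, hcg⟩ := hg
      exact ⟨[], s :: w, N, c, g, rfl, rfl, hok, hvl, hF, hg, hcg, ha⟩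
    push Not at hg
    -- the letter is above the first piece
    have ha1 : Lt a w := by
      obtain ⟨i, hi⟩ := ha
      rcases List.mem_cons.1 hi with hi | hi
      · exfalso
        subst hi
        have hi2 : i + 2 ≤ N := hok.1
        obtain ⟨c₁, ⟨t, ⟨h1, h2, -, -⟩, -⟩, -⟩ := (T1.vl_cons c _ w).1 hvl
        rcases ha2 with ⟨h3, -⟩ | ⟨h3, -⟩
        · exact hg i (by omega) (h1.symm.trans h3)
        · exact hg (i + 1) (by omega) (h2.symm.trans h3)
      · exact ⟨i, hi⟩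
    -- reduction to the word above the first piece
    have hstep : ∀ c₁ : ℕ → κ, Vl c₁ w → Fa x c₁ (N - s.k.inn + s.k.out) w →
        ∃ (u v : Wd (Cr κ)) (k : ℕ) (d : ℕ → κ) (g : ℕ), s :: w = u ++ v ∧ Okd u N k ∧
          Okd v k 0 ∧ Vl d v ∧ Fa x d k v ∧ g ≤ k ∧ d g = x ∧ Lt a v := by
      intro c₁ h1 h2
      obtain ⟨u, v, k, d, g, h3, h4, h5⟩ := ih _ c₁ hok.2 h1 h2 ha1
      exact ⟨s :: u, v, k, d, g, by rw [h3]; rfl, ⟨hok.1, h4⟩, h5⟩
    obtain ⟨k, i⟩ := s
    cases k with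
    | U =>
      have hi : i ≤ N := hok.1
      by_cases ht : ∃ t, t ≠ x ∧ Vl (insC i t c) w
      · obtain ⟨t, ht, hv⟩ := ht
        refine hstep _ hv (nl_no hVaC hF hok ⟨t, rfl⟩ ?_)
        intro j hj
        have hj' : j ≤ N - 0 + 2 := hj
        show (if j ≤ i then c j else if j = i + 1 then t else c (j - 2)) ≠ x
        split_ifs
        · exact hg j (by omega)
        · exact ht
        · exact hg (j - 2) (by omega)
      · have hall : ∀ t, Vl (insC i t c) w → t = x := by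
          intro t hv
          by_contra h
          exact ht ⟨t, h, hv⟩
        obtain ⟨c₁, ⟨t, rfl⟩, hv⟩ := (T1.vl_cons c _ w).1 hvl
        have ht' : t = x := hall t hv
        subst ht'
        refine ⟨[cU i], w, N + 2, insC i t c, i + 1, rfl, ⟨hok.1, by show N - 0 + 2 = N + 2; omega⟩,
          hok.2.cast (by show N - 0 + 2 = N + 2; omega) rfl, hv, nl_U hVaC hF hok hg hall, by omega,
          ?_, ha1⟩
        show (if i + 1 ≤ i then c (i + 1) else if i + 1 = i + 1 then t else c (i + 1 - 2)) = t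
        rw [if_neg (by omega), if_pos rfl]
    | N =>
      have hi : i + 2 ≤ N := hok.1
      obtain ⟨c₁, ⟨h1, rfl⟩, hv⟩ := (T1.vl_cons c _ w).1 hvl
      refine hstep _ hv (nl_no hVaC hF hok ⟨h1, rfl⟩ ?_)
      intro j hj
      have hj' : j ≤ N - 2 + 0 := hj
      show (if j ≤ i then c j else c (j + 2)) ≠ x
      split_ifs
      · exact hg j (by omega)
      · exact hg (j + 2) (by omega)
    | X a₀ =>
      have hi : i + 2 ≤ N := hok.1
      obtain ⟨c₁, ⟨t, h1, rfl⟩, hv⟩ := (T1.vl_cons c _ w).1 hvl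
      exact hstep _ hv (nl_X hVaC hF hok h1 hg)

/-! ### rotations of the letter -/

private theorem nl_gl (e : Bool) (pr : κ → Bool) {a : Cr κ} (h : Gl e pr a) : Gl e pr (Rt.r a) := by
  obtain ⟨p, l, b, r, t⟩ := a
  obtain ⟨h1, h2, h3, h4⟩ := h
  have h1' : pr l = decide (p = e) := h1
  have h2' : pr r = decide (p = e) := h2
  have h3' : pr b = !decide (p = e) := h3
  have h4' : pr t = !decide (p = e) := h4
  have h5 : (!decide (p = e)) = decide ((!p) = e) := by cases p <;> cases e <;> rfl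
  have h6 : decide (p = e) = !decide ((!p) = e) := by cases p <;> cases e <;> rfl
  exact ⟨h4'.trans h5, h3'.trans h5, h1'.trans h6, h2'.trans h6⟩

/-- opposite corners of the colour `x` -/
private def nl_op (x : κ) (a : Cr κ) : Prop := (a.l = x ∧ a.r = x) ∨ (a.b = x ∧ a.t = x)

private theorem nl_op_rot {x : κ} {a : Cr κ} (h : nl_op x a) : nl_op x (Rt.r a) := by
  rcases h with ⟨h1, h2⟩ | ⟨h1, h2⟩
  · exact Or.inr ⟨h1, h2⟩
  · exact Or.inl ⟨h2, h1⟩

private theorem nl_op_ev {e : Bool} {x : κ} {a : Cr κ} (h : Ev e a x x) : nl_op x a := by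
  rcases h with ⟨-, h | h⟩ | ⟨-, h | h⟩
  · exact Or.inl h
  · exact Or.inl h
  · exact Or.inr h
  · exact Or.inr h

private theorem nl_top {e : Bool} {pr : κ → Bool} {x : κ} {a : Cr κ} (hg : Gl e pr a)
    (h : nl_op x a) (hb : a.b = x) : a.t = x := by
  rcases h with ⟨h1, -⟩ | ⟨-, h2⟩
  · exfalso
    obtain ⟨h3, -, h4, -⟩ := hg
    rw [h1] at h3
    rw [hb, h3] at h4
    cases hd : decide (a.p = e) <;> rw [hd] at h4 <;> simp at h4
  · exact h2

/-! ### (C) the crossing on the left of a word on two strands -/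

private theorem nl_C (hSL : St_SL) (hIs : St_Is) {k g : ℕ} {a : Cr κ} {v V : Wd (Cr κ)}
    (hg : g ≤ k) (hV : Okd V (k + 4) 0) (hI : PIso k v (isl g a ++ V))
    (hrel : Rel V g (g + 2) ∨ Rel V (g + 2) (g + 4)) :
    ∃ (J B : Wd (Cr κ)) (b : Cr κ), Okd J 0 2 ∧ Okd B (k + 2) 0 ∧
      PIso k v (shd g J ++ (cX g b :: B)) := by
  obtain ⟨-, his, -⟩ := hIs (α := Cr κ)
  have hislok : Okd (isl g a) k (k + 4) := T1.isl_ok a hg
  have hUU : Okd ([cU g, cU (g + 1)] : Wd (Cr κ)) k (k + 4) :=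
    ⟨by show g + 0 ≤ k; omega, by show g + 1 + 0 ≤ k - 0 + 2; omega,
      by show k - 0 + 2 - 0 + 2 = k + 4; omega⟩
  rcases hrel with hrel | hrel
  · obtain ⟨A, B, hA, hB, -, hAB⟩ := hSL.1 V (k + 4) hV g (g + 2) (by omega) (by omega) hrel
    have hA' : Okd A 2 0 := hA.cast (by omega) rfl
    have hB' : Okd B (k + 2) 0 := hB.cast (by omega) rfl
    refine ⟨cU 0 :: cU 1 :: A, B, Rt.r a, ⟨by show 0 + 0 ≤ 0; omega,
      by show 1 + 0 ≤ 0 - 0 + 2; omega, hA'.add 2⟩, hB', ?_⟩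
    have h1 : PIso k v (isl g a ++ (shd g A ++ B)) := hI.trans (PIso.left hislok hAB)
    have h2 : PIso k (isl g a ++ (shd g A ++ B))
        ([cU g, cU (g + 1), cX (g + 2) (Rt.r a)] ++ (shd g A ++ B)) := (his k g a hg).1.right _
    have h3 : PIso 4 ([cX 2 (Rt.r a)] ++ A) (A ++ [cX 0 (Rt.r a)]) := by
      have h4 := PIso.comm A [cX 0 (Rt.r a)] 2 0 2 2 hA' ⟨by show 0 + 2 ≤ 2; omega, rfl⟩
      exact h4.symm
    have h4 : PIso (k + 4) ([cX (g + 2) (Rt.r a)] ++ shd g A) (shd g A ++ [cX g (Rt.r a)]) := by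
      have h5 := (h3.sh g).le (show 4 + g ≤ k + 4 by omega)
      rw [shd_append, shd_append] at h5
      have e1 : shd g ([cX 2 (Rt.r a)] : Wd (Cr κ)) = [cX (g + 2) (Rt.r a)] := by
        show [cX (2 + g) (Rt.r a)] = _
        rw [Nat.add_comm 2 g]
      have e2 : shd g ([cX 0 (Rt.r a)] : Wd (Cr κ)) = [cX g (Rt.r a)] := by
        show [cX (0 + g) (Rt.r a)] = _
        rw [Nat.zero_add]
      rw [e1, e2] at h5
      exact h5
    have h5 := PIso.mid [cU g, cU (g + 1)] B hUU h4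
    have e3 : ([cU g, cU (g + 1)] : Wd (Cr κ)) ++ (([cX (g + 2) (Rt.r a)] ++ shd g A) ++ B) =
        [cU g, cU (g + 1), cX (g + 2) (Rt.r a)] ++ (shd g A ++ B) := by simp
    have e4 : ([cU g, cU (g + 1)] : Wd (Cr κ)) ++ ((shd g A ++ [cX g (Rt.r a)]) ++ B) =
        shd g (cU 0 :: cU 1 :: A) ++ (cX g (Rt.r a) :: B) := by
      rw [shd_cons, shd_cons, Nat.zero_add, Nat.add_comm 1 g]
      simp
    rw [e3, e4] at h5
    exact h1.trans (h2.trans h5)
  · obtain ⟨A, B, hA, hB, -, hAB⟩ := hSL.1 V (k + 4) hV (g + 2) (g + 4) (by omega) (by omega) hrel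
    have hA' : Okd A 2 0 := hA.cast (by omega) rfl
    have hB' : Okd B (k + 2) 0 := hB.cast (by omega) rfl
    have hA2 : Okd (shd 2 A) 4 2 := (hA'.sh 2).cast (by omega) (by omega)
    obtain ⟨b, hb⟩ : ∃ b : Cr κ, Rt.r b = a := ⟨Rt.r (Rt.r (Rt.r a)), Rt.r4 a⟩
    refine ⟨cU 0 :: cU 1 :: shd 2 A, B, b, ⟨by show 0 + 0 ≤ 0; omega,
      by show 1 + 0 ≤ 0 - 0 + 2; omega, hA2⟩, hB', ?_⟩
    have h1 : PIso k v (isl g a ++ (shd (g + 2) A ++ B)) := hI.trans (PIso.left hislok hAB)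
    have h2 : PIso k (isl g a ++ (shd (g + 2) A ++ B))
        ([cU g, cU (g + 1), cX g b] ++ (shd (g + 2) A ++ B)) := by
      have h3 := (his k g b hg).2
      rw [hb] at h3
      exact h3.right _
    have h3 : PIso 4 ([cX 0 b] ++ shd 2 A) (shd 2 A ++ [cX 0 b]) :=
      PIso.comm [cX 0 b] A 2 2 2 0 ⟨by show 0 + 2 ≤ 2; omega, rfl⟩ hA'
    have h4 : PIso (k + 4) ([cX g b] ++ shd (g + 2) A) (shd (g + 2) A ++ [cX g b]) := by
      have h5 := (h3.sh g).le (show 4 + g ≤ k + 4 by omega)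
      rw [shd_append, shd_append, shd_shd] at h5
      have e2 : shd g ([cX 0 b] : Wd (Cr κ)) = [cX g b] := by
        show [cX (0 + g) b] = _
        rw [Nat.zero_add]
      rw [e2] at h5
      exact h5
    have h5 := PIso.mid [cU g, cU (g + 1)] B hUU h4
    have e3 : ([cU g, cU (g + 1)] : Wd (Cr κ)) ++ (([cX g b] ++ shd (g + 2) A) ++ B) =
        [cU g, cU (g + 1), cX g b] ++ (shd (g + 2) A ++ B) := by simp
    have e4 : ([cU g, cU (g + 1)] : Wd (Cr κ)) ++ ((shd (g + 2) A ++ [cX g b]) ++ B) =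
        shd g (cU 0 :: cU 1 :: shd 2 A) ++ (cX g b :: B) := by
      rw [shd_cons, shd_cons, shd_shd, Nat.zero_add, Nat.add_comm 1 g]
      simp
    rw [e3, e4] at h5
    exact h1.trans (h2.trans h5)

/-! ### the word without the crossing -/

private theorem nl_nX_append (u v : Word) : nX (u ++ v) = nX u + nX v := by
  induction u with
  | nil =>
    show nX v = 0 + nX v
    rw [zero_add]
  | cons s u ih =>
    obtain ⟨k, i⟩ := s
    cases k with
    | U => exact ih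
    | N => exact ih
    | X p =>
      show nX (u ++ v) + 1 = nX u + 1 + nX v
      rw [ih]
      omega

private theorem nl_nX_sh (j : ℕ) (u : Word) : nX (Pool.Agent.ARB.sh j u) = nX u := by
  induction u with
  | nil => rfl
  | cons s u ih =>
    obtain ⟨k, i⟩ := s
    rw [sh_cons]
    cases k with
    | U => exact ih
    | N => exact ih
    | X p => exact congrArg (· + 1) ih

/-- letters of a shifted word -/
private theorem nl_mem_sh {j i : ℕ} {p : Bool} {u : Word} (h : pX i p ∈ Pool.Agent.ARB.sh j u) :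
    ∃ i', i = i' + j ∧ pX i' p ∈ u := by
  induction u with
  | nil => exact absurd h List.not_mem_nil
  | cons s u ih =>
    rw [sh_cons] at h
    rcases List.mem_cons.1 h with h | h
    · obtain ⟨k, i₀⟩ := s
      injection h with h1 h2
      subst h1
      exact ⟨i₀, h2, List.mem_cons_self⟩
    · obtain ⟨i', h1, h2⟩ := ih h
      exact ⟨i', h1, List.mem_cons_of_mem _ h2⟩

private theorem nl_sh_mem {j i : ℕ} {p : Bool} {u : Word} (h : pX i p ∈ u) :
    pX (i + j) p ∈ Pool.Agent.ARB.sh j u := by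
  induction u with
  | nil => exact absurd h List.not_mem_nil
  | cons s u ih =>
    rw [sh_cons]
    rcases List.mem_cons.1 h with h | h
    · rw [← h]
      exact List.mem_cons_self
    · exact List.mem_cons_of_mem _ (ih h)

private theorem nl_fin (hMp : St_Mp) (hFa : St_Fa) (hFl : St_Fl) {e : Bool} {pr : κ → Bool}
    {c : ℕ → κ} {N k g : ℕ} {w u v J B : Wd (Cr κ)} {b : Cr κ} (hD : Dec e pr c N w)
    (hw : w = u ++ v) (hu : Okd u N k) (hg : g ≤ k) (hJ : Okd J 0 2) (hB : Okd B (k + 2) 0)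
    (hI : PIso k v (shd g J ++ (cX g b :: B))) :
    ∃ V' : Word, Ok V' N 0 ∧ AltW e V' ∧ nX V' + 1 = nX (fgt w) ∧ Iso N (fgt w) V' := by
  subst hw
  have hI' : PIso N (u ++ v) (u ++ (shd g J ++ (cX g b :: B))) := PIso.left hu hI
  have hD' := hFa.2.1 e pr c N _ _ hI' hD
  obtain ⟨-, hfI, hfg, -, -, hnX⟩ := hMp
  obtain ⟨fapp, fsh, fok, fnX, fmem⟩ := hfg (κ := κ)
  have hfJ : Ok (fgt J) 0 2 := (fok J 0 2).1 hJ
  have hfB : Ok (fgt B) (k + 2) 0 := (fok B (k + 2) 0).1 hB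
  have hfu : Ok (fgt u) N k := (fok u N k).1 hu
  have hcons : fgt (cX g b :: B) = [pX g b.p] ++ fgt B := rfl
  have hfword : fgt (u ++ (shd g J ++ (cX g b :: B))) =
      fgt u ++ (Pool.Agent.ARB.sh g (fgt J) ++ ([pX g b.p] ++ fgt B)) := by
    rw [fapp, fapp, fsh, hcons]
  obtain ⟨fl1, fl2, -, fl4, fl5⟩ := hFl (fgt J) 0 2 hfJ
  -- the isotopy
  have hiso1 : Iso N (fgt (u ++ v)) (fgt u ++ (Pool.Agent.ARB.sh g (fgt J) ++
      ([pX g b.p] ++ fgt B))) := by
    have h1 := hfI N _ _ hI'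
    rw [hfword] at h1
    exact h1
  have hiso2 : Iso k (Pool.Agent.ARB.sh g (fgt J) ++ [pX g b.p])
      (Pool.Agent.ARB.sh g (flw 0 (fgt J))) := by
    have h1 : Iso 0 (fgt J ++ [pX 0 b.p]) (flw 0 (fgt J)) :=
      fl5 (Nat.zero_le 2) (le_refl 2) b.p
    have h2 := (h1.sh g).le (show 0 + g ≤ k by omega)
    rw [sh_append] at h2
    have e1 : Pool.Agent.ARB.sh g [pX 0 b.p] = [pX g b.p] := by
      show [pX (0 + g) b.p] = _
      rw [Nat.zero_add]
    rw [e1] at h2
    exact h2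
  have hiso3 : Iso N (fgt u ++ (Pool.Agent.ARB.sh g (fgt J) ++ ([pX g b.p] ++ fgt B)))
      (fgt u ++ (Pool.Agent.ARB.sh g (flw 0 (fgt J)) ++ fgt B)) := by
    have h1 := Iso.mid (fgt u) (fgt B) hfu hiso2
    rw [List.append_assoc] at h1
    exact h1
  refine ⟨fgt u ++ (Pool.Agent.ARB.sh g (flw 0 (fgt J)) ++ fgt B), ?_, ?_, ?_, hiso1.trans hiso3⟩
  · have h1 : Ok (Pool.Agent.ARB.sh g (flw 0 (fgt J))) (0 + g + (k - g)) (2 + g + (k - g)) :=
      (fl1.sh g).add (k - g)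
    have e1 : 0 + g + (k - g) = k := by omega
    have e2 : 2 + g + (k - g) = k + 2 := by omega
    rw [e1, e2] at h1
    exact hfu.append (h1.append hfB)
  · -- alternation
    have halt : ∀ (i : ℕ) (p : Bool), pX i p ∈ fgt u ++ (Pool.Agent.ARB.sh g (fgt J) ++
        ([pX g b.p] ++ fgt B)) → (p = e ↔ i % 2 = 0) := by
      intro i p h
      rw [← hfword] at h
      obtain ⟨a, rfl, h2⟩ := (fmem _ p i).1 h
      exact hD'.al i a h2
    obtain ⟨e', he'⟩ : ∃ e' : Bool, ∀ p : Bool, ∀ i : ℕ,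
        ((p = e ↔ (i + g) % 2 = 0) ↔ (p = e' ↔ i % 2 = 0)) := by
      by_cases hg2 : g % 2 = 0
      · refine ⟨e, fun p i => ?_⟩
        have h1 : (i + g) % 2 = 0 ↔ i % 2 = 0 := by omega
        rw [h1]
      · refine ⟨!e, fun p i => ?_⟩
        have h1 : (i + g) % 2 = 0 ↔ ¬ i % 2 = 0 := by omega
        have h2 : (p = !e) ↔ ¬ p = e := by cases p <;> cases e <;> simp
        rw [h1, h2]
        exact ⟨fun h => ⟨fun h3 => by by_contra h4; exact h3 (h.2 h4), fun h3 h4 => (h.1 h4) h3⟩,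
          fun h => ⟨fun h3 h4 => (h.2 h4) h3, fun h3 => by by_contra h4; exact h3 (h.1 h4)⟩⟩
    have hJalt : AltW e' (fgt J) := by
      intro p i h
      refine (he' p i).1 (halt (i + g) p ?_)
      exact List.mem_append_right _ (List.mem_append_left _ (nl_sh_mem h))
    have hJalt' := fl4 rfl e' hJalt
    intro p i h
    rcases List.mem_append.1 h with h | h
    · exact halt i p (List.mem_append_left _ h)
    · rcases List.mem_append.1 h with h | h
      · obtain ⟨i', rfl, h2⟩ := nl_mem_sh h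
        exact (he' p i').2 (hJalt' p i' h2)
      · exact halt i p (List.mem_append_right _ (List.mem_append_right _
          (List.mem_append_right _ h)))
  · -- number of crossings
    have h1 : nX (fgt (u ++ v)) = nX (fgt (u ++ (shd g J ++ (cX g b :: B)))) := by
      rw [fnX, fnX]
      exact hnX N _ _ hI'
    rw [h1, hfword, nl_nX_append, nl_nX_append, nl_nX_append, nl_nX_append, nl_nX_append,
      nl_nX_sh, nl_nX_sh, fl2]
    have h2 : nX [pX g b.p] = 1 := rfl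
    rw [h2]
    omega

/-- [NL] -/
theorem thm_NL (hVaC : St_VaC) (hSL : St_SL) (hMp : St_Mp) (hFa : St_Fa) (hIsl : St_Isl)
    (hIs : St_Is) (hT1 : St_T1) (hFl : St_Fl) : St_NL := by
  intro κ e pr c N w hD hF hex
  obtain ⟨a, e', x, ha, hev⟩ := hex
  obtain ⟨u, v, k, d, g, hw, hu, hv, hvl, hFx, hg, hdg, hav⟩ :=
    nl_A hVaC (nl_op_ev hev) w N c hD.ok hD.vl (hF x) ha
  have hco : a.l = x ∨ a.b = x ∨ a.r = x ∨ a.t = x := by
    rcases nl_op_ev hev with ⟨h, -⟩ | ⟨h, -⟩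
    · exact Or.inl h
    · exact Or.inr (Or.inl h)
  obtain ⟨a', V, hb, hrot, hV, hI⟩ := hT1 v k d x hv hvl hFx g hg hdg a hav hco
  have hgl : Gl e pr a := hD.gl a ha
  have hop : nl_op x a := nl_op_ev hev
  have hgl' : Gl e pr a' ∧ nl_op x a' := by
    rcases hrot with h | h | h | h <;> rw [h]
    · exact ⟨hgl, hop⟩
    · exact ⟨nl_gl e pr hgl, nl_op_rot hop⟩
    · exact ⟨nl_gl e pr (nl_gl e pr hgl), nl_op_rot (nl_op_rot hop)⟩
    · exact ⟨nl_gl e pr (nl_gl e pr (nl_gl e pr hgl)), nl_op_rot (nl_op_rot (nl_op_rot hop))⟩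
  have ht : a'.t = x := nl_top hgl'.1 hgl'.2 hb
  have hrel := hIsl.2.2.2 x d k g a' V hg hV (hFa.1 k _ _ hI d hvl) (hFa.2.2.1 x d k _ _ hI hFx)
    hb ht
  obtain ⟨J, B, b, hJ, hB, hI'⟩ := nl_C hSL hIs hg hV hI hrel
  exact nl_fin hMp hFa hFl hD hw hu hg hJ hB hI'

end Pool.LSG
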