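import Pool.Agent.LSG.St

/-!
# LS, geometry block: words without crossings (module NX)
-/

set_option autoImplicit false

namespace Pool.LSG

open Pool.Agent.ARB Pool.Agent.Helper2 Pool.ALT Pool.LSP

/-! ### words without crossings -/

private theorem nx_app (u v : Word) : nX (u ++ v) = nX u + nX v := by
  induction u with
  | nil =>
    show nX v = 0 + nX v
    omega
  | cons s u ih =>
    obtain ⟨k, i⟩ := s
    cases k with
    | U => exact ih
    | N => exact ih
    | X p =>
      show nX (u ++ v) + 1 = nX u + 1 + nX v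
      omega

private theorem nx_caps (v : Word) (hv : ∀ s ∈ v, s.k = Kind.N) : nX v = 0 := by
  induction v with
  | nil => rfl
  | cons s v ih =>
    have h1 := hv s (List.mem_cons_self ..)
    obtain ⟨k, i⟩ := s
    have h2 : k = Kind.N := h1
    subst h2
    exact ih (fun t ht => hv t (List.mem_cons_of_mem _ ht))

/-- a word without crossings has only caps, or there are only caps above its last cup -/
private theorem nx_last (A : Word) (hA : nX A = 0) : (∀ s ∈ A, s.k = Kind.N) ∨
    ∃ (u : Word) (i : ℕ) (v : Word), A = u ++ (pU i :: v) ∧ ∀ s ∈ v, s.k = Kind.N := by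
  induction A with
  | nil => exact Or.inl (fun s hs => absurd hs (List.not_mem_nil))
  | cons s A ih =>
    obtain ⟨k, i⟩ := s
    cases k with
    | U =>
      have h1 : nX A = 0 := hA
      rcases ih h1 with h2 | ⟨u, j, v, h2, h3⟩
      · exact Or.inr ⟨[], i, A, rfl, h2⟩
      · exact Or.inr ⟨pU i :: u, j, v, by rw [h2]; rfl, h3⟩
    | N =>
      have h1 : nX A = 0 := hA
      rcases ih h1 with h2 | ⟨u, j, v, h2, h3⟩
      · refine Or.inl (fun s hs => ?_)
        rcases List.mem_cons.1 hs with h4 | h4
        · rw [h4]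
        · exact h2 s h4
      · exact Or.inr ⟨pN i :: u, j, v, by rw [h2]; rfl, h3⟩
    | X p =>
      have h1 : nX A + 1 = 0 := hA
      omega

/-- move a cup up through caps until it cancels -/
private theorem nx_up (hSC : St_SC) (v : Word) : ∀ (u : Word) (n i : ℕ), Ok u 0 n → u ≠ [] → i ≤ n →
    Ok v (n + 2) 0 → (∀ s ∈ v, s.k = Kind.N) → Un (bracket (toD (u ++ (pU i :: v)))) →
    ∃ v' : Word, Iso n (pU i :: v) v' ∧ Ok v' n 0 ∧ (∀ s ∈ v', s.k = Kind.N) ∧
      v'.length + 1 = v.length := by
  induction v with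
  | nil =>
    intro u n i _ _ _ h4 _ _
    have h5 : n + 2 = 0 := h4
    omega
  | cons s v ih =>
    intro u n i h1 h2 h3 h4 h5 h6
    have h7 := h5 s (List.mem_cons_self ..)
    have h8 : ∀ t ∈ v, t.k = Kind.N := fun t ht => h5 t (List.mem_cons_of_mem _ ht)
    obtain ⟨k, j⟩ := s
    have h9 : k = Kind.N := h7
    subst h9
    obtain ⟨h10, h11⟩ := h4
    have h12 : j + 2 ≤ n + 2 := h10
    have h13 : Ok v n 0 := h11
    have h14 : Ok (u ++ (pU i :: pN j :: v)) 0 0 :=
      h1.append ⟨by show i + 0 ≤ n; exact h3, ⟨by show j + 2 ≤ n + 2; exact h12, h13⟩⟩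
    have h15 : u ++ (pU i :: pN j :: v) ≠ [] := fun h => h2 (List.append_eq_nil_iff.1 h).1
    -- the case of two pieces which can be interchanged
    have key : ∀ (i' j' : ℕ), Iso n [pU i, pN j] [pN j', pU i'] → j' + 2 ≤ n → i' ≤ n - 2 →
        ∃ v' : Word, Iso n (pU i :: pN j :: v) v' ∧ Ok v' n 0 ∧ (∀ s ∈ v', s.k = Kind.N) ∧
          v'.length + 1 = (pN j :: v).length := by
      intro i' j' g1 g2 g3
      have g4 : Iso n ([pU i, pN j] ++ v) ([pN j', pU i'] ++ v) := g1.right v
      have g5 : Iso 0 (u ++ (pU i :: pN j :: v)) (u ++ (pN j' :: pU i' :: v)) := Iso.left h1 g4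
      have g6 := hSC.1 _ _ h14 h15 g5 h6
      have g7 : Ok (u ++ [pN j']) 0 (n - 2) := h1.append ⟨g2, rfl⟩
      have e1 : u ++ (pN j' :: pU i' :: v) = (u ++ [pN j']) ++ (pU i' :: v) := by
        rw [List.append_assoc]; rfl
      rw [e1] at g6
      have e2 : n - 2 + 2 = n := by omega
      obtain ⟨v', k1, k2, k3, k4⟩ := ih (u ++ [pN j']) (n - 2) i' g7
        (fun h => h2 (List.append_eq_nil_iff.1 h).1) g3 (by rw [e2]; exact h13) h8 g6
      have g8 : Ok [pN j'] n (n - 2) := ⟨g2, rfl⟩
      have g9 : Iso n ([pN j'] ++ (pU i' :: v)) ([pN j'] ++ v') := Iso.left g8 k1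
      refine ⟨pN j' :: v', g4.trans g9, ⟨g2, k2⟩, ?_, ?_⟩
      · intro t ht
        rcases List.mem_cons.1 ht with h | h
        · rw [h]
        · exact k3 t h
      · show v'.length + 1 + 1 = v.length + 1
        omega
    rcases Nat.lt_or_ge (j + 1) i with c1 | c1
    · -- the cap is on the left
      have g1 := Iso.swap (n := n) Kind.N Kind.U j i (by show j + 2 ≤ i; omega)
        (by show i + 0 ≤ n; exact h3)
      exact key (i - 2) j g1.symm (by omega) (by omega)
    · rcases Nat.lt_or_ge (i + 1) j with c2 | c2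
      · -- the cap is on the right
        have g1 := Iso.swap (n := n) Kind.U Kind.N i (j - 2) (by show i + 0 ≤ j - 2; omega)
          (by show j - 2 + 2 ≤ n; omega)
        have e1 : j - 2 - Kind.U.inn + Kind.U.out = j := by show j - 2 - 0 + 2 = j; omega
        rw [e1] at g1
        exact key i (j - 2) g1 (by omega) (by omega)
      · rcases Nat.lt_trichotomy i j with c3 | c3 | c3
        · have e1 : j = i + 1 := by omega
          subst e1
          have g1 : Iso n ([pU i, pN (i + 1)] ++ v) ([] ++ v) :=
            (Iso.zig (n := n) (i := i) (by omega)).right v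
          exact ⟨v, g1, h13, h8, rfl⟩
        · subst c3
          exact absurd h6 (hSC.2.2 u v n i h1 h3 h13
            (fun h => h2 (List.append_eq_nil_iff.1 h).1))
        · have e1 : i = j + 1 := by omega
          subst e1
          have g1 : Iso n ([pU (j + 1), pN j] ++ v) ([] ++ v) :=
            (Iso.zag (n := n) (i := j) (by omega)).right v
          exact ⟨v, g1, h13, h8, rfl⟩

private theorem nx_main (hSC : St_SC) (l : ℕ) : ∀ A : Word, A.length = l → Ok A 2 0 → nX A = 0 →
    Un (bracket (toD (pU 0 :: A))) → Iso 2 A [pN 0] := by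
  induction l using Nat.strong_induction_on with
  | h l ih =>
    intro A hl h1 h2 h3
    rcases nx_last A h2 with h4 | ⟨u, i, v, h4, h5⟩
    · cases A with
      | nil =>
        have h5 : 2 = 0 := h1
        omega
      | cons s A =>
        have h5 := h4 s (List.mem_cons_self ..)
        obtain ⟨k, j⟩ := s
        have h6 : k = Kind.N := h5
        subst h6
        obtain ⟨h7, h8⟩ := h1
        have h9 : j + 2 ≤ 2 := h7
        have h10 : j = 0 := by omega
        subst h10
        cases A with
        | nil => exact Iso.refl _ _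
        | cons t A =>
          have h11 := h4 t (List.mem_cons_of_mem _ (List.mem_cons_self ..))
          obtain ⟨k, j⟩ := t
          have h12 : k = Kind.N := h11
          subst h12
          have h13 : j + 2 ≤ 0 := h8.1
          omega
    · subst h4
      obtain ⟨n, h6, h7⟩ := h1.split
      have h8 : i + 0 ≤ n := h7.1
      have h9 : Ok v (n + 2) 0 := h7.2
      have h10 : Ok (pU 0 :: u) 0 n := ⟨Nat.le_refl 0, h6⟩
      obtain ⟨v', k1, k2, k3, k4⟩ := nx_up hSC v (pU 0 :: u) n i h10 (List.cons_ne_nil _ _) h8 h9 h5 h3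
      have h11 : Iso 2 (u ++ (pU i :: v)) (u ++ v') := Iso.left h6 k1
      have h12 : Iso 0 ([pU 0] ++ (u ++ (pU i :: v))) ([pU 0] ++ (u ++ v')) :=
        Iso.left (k := 2) ⟨Nat.le_refl 0, rfl⟩ h11
      have h13 : Ok ([pU 0] ++ (u ++ (pU i :: v))) 0 0 := ⟨Nat.le_refl 0, h6.append h7⟩
      have h14 := hSC.1 _ _ h13 (List.cons_ne_nil _ _) h12 h3
      have h15 : (u ++ v').length < l := by
        rw [← hl, List.length_append, List.length_append, List.length_cons]
        omega
      have h16 : nX (u ++ v') = 0 := by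
        have g1 := nx_app u (pU i :: v)
        rw [h2] at g1
        rw [nx_app, nx_caps v' k3]
        omega
      exact h11.trans (ih _ h15 (u ++ v') rfl (h6.append k2) h16 h14)

/-- [NX] words without crossings -/
theorem thm_NX (hSC : St_SC) : St_NX := fun A h1 h2 h3 => nx_main hSC A.length A rfl h1 h2 h3

end Pool.LSG
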