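import Pool.Agent.LSG.St

/-!
# LS, geometry block, module RC: regions of a composite
-/

set_option autoImplicit false

namespace Pool.LSG

open Pool.Agent.ARB

private theorem rc_ok {α : Type} {A B : Wd α} {a m N : ℕ} (hA : Okd A m 0) (hB : Okd B (N - m) 0)
    (h : a + m ≤ N) : Okd (shd a A ++ B) N 0 := by
  have h1 := (hA.sh a).add (N - m - a)
  exact (h1.cast (by omega) (by omega)).append hB

private theorem rc_vu (hVaI : St_VaI) (hVaC : St_VaC) {α κ : Type} (A B : Wd α) (a m : ℕ)
    (hA : Okd A m 0) (c : ℕ → κ) : VU c (shd a A ++ B) ↔ VU (fun j => c (j + a)) A ∧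
      VU (fun j => if j ≤ a then c j else c (j + m)) B := by
  constructor
  · rintro ⟨c'', h⟩
    obtain ⟨c', h1, h2⟩ := (hVaI.1 _ _ _ _ _).1 h
    obtain ⟨h3, h4⟩ := ((hVaC (κ := κ) (κ' := κ) (α := α) (β := α)).2.2.1 _ A a m c c' hA).1 h1
    subst h4
    exact ⟨h3, c'', h2⟩
  · rintro ⟨h1, c'', h2⟩
    refine ⟨c'', (hVaI.1 _ _ _ _ _).2 ⟨_, ?_, h2⟩⟩
    exact ((hVaC (κ := κ) (κ' := κ) (α := α) (β := α)).2.2.1 _ A a m c _ hA).2 ⟨h1, rfl⟩

theorem thm_RC (hVaI : St_VaI) (hVaC : St_VaC) (hRel : St_Rel) (hRelI : St_RelI) : St_RC := by
  intro α A B a m N hA hB haN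
  have hW : Okd (shd a A ++ B) N 0 := rc_ok hA hB haN
  have hA0 : Rel A 0 m := (hRel A).2.2.2.2.1 m hA
  have hcA : ∀ c : ℕ → Prop, VU c A ↔ ∀ x y, x ≤ m → y ≤ m → Rel A x y → c x = c y :=
    fun c => (hRel A).2.2.2.1 m c hA
  have hcB : ∀ c : ℕ → Prop, VU c B ↔ ∀ x y, x ≤ N - m → y ≤ N - m → Rel B x y → c x = c y :=
    fun c => (hRel B).2.2.2.1 (N - m) c hB
  have hu : ∀ c : ℕ → Prop, VU c (shd a A ++ B) ↔ VU (fun j => c (j + a)) A ∧
      VU (fun j => if j ≤ a then c j else c (j + m)) B := fun c => rc_vu hVaI hVaC A B a m hA c
  have hiW : ∀ x y, x ≤ N → y ≤ N → (Rel (shd a A ++ B) x y ↔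
      ∀ c : ℕ → Prop, VU c (shd a A ++ B) → c x = c y) := fun x y hx hy => hRelI.1 _ N x y hW hx hy
  -- extension of a colouring of `A`
  have hext : ∀ d : ℕ → Prop, VU d A →
      VU (fun j => if j ≤ a then d 0 else if j ≤ a + m then d (j - a) else d 0) (shd a A ++ B) := by
    intro d hd
    rw [hu]
    constructor
    · rw [hcA]
      intro x y hx hy hxy
      have h1 := (hcA d).1 hd x y hx hy hxy
      have h2 : ∀ z, z ≤ m → (if z + a ≤ a then d 0 else if z + a ≤ a + m then d (z + a - a)
          else d 0) = d z := by
        intro z hz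
        by_cases h0 : z = 0
        · subst h0
          rw [if_pos (by omega)]
        · rw [if_neg (by omega), if_pos (by omega)]
          have h3 : z + a - a = z := by omega
          rw [h3]
      show (if x + a ≤ a then d 0 else if x + a ≤ a + m then d (x + a - a) else d 0) =
        (if y + a ≤ a then d 0 else if y + a ≤ a + m then d (y + a - a) else d 0)
      rw [h2 x hx, h2 y hy]
      exact h1
    · rw [hcB]
      intro x y _ _ _
      have h2 : ∀ z, (if z ≤ a then (if z ≤ a then d 0 else if z ≤ a + m then d (z - a) else d 0)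
          else (if z + m ≤ a then d 0 else if z + m ≤ a + m then d (z + m - a) else d 0)) = d 0 := by
        intro z
        by_cases h0 : z ≤ a
        · rw [if_pos h0, if_pos h0]
        · rw [if_neg h0, if_neg (by omega), if_neg (by omega)]
      show (if x ≤ a then (if x ≤ a then d 0 else if x ≤ a + m then d (x - a) else d 0)
          else (if x + m ≤ a then d 0 else if x + m ≤ a + m then d (x + m - a) else d 0)) =
        (if y ≤ a then (if y ≤ a then d 0 else if y ≤ a + m then d (y - a) else d 0)
          else (if y + m ≤ a then d 0 else if y + m ≤ a + m then d (y + m - a) else d 0))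
      rw [h2 x, h2 y]
  have hval : ∀ (d : ℕ → Prop) (x : ℕ), a ≤ x → x ≤ a + m →
      (if x ≤ a then d 0 else if x ≤ a + m then d (x - a) else d 0) = d (x - a) := by
    intro d x h1 h2
    by_cases h0 : x ≤ a
    · have h3 : x - a = 0 := by omega
      rw [if_pos h0, h3]
    · rw [if_neg h0, if_pos h2]
  refine ⟨?_, ?_, ?_⟩
  · intro x y hx1 hx2 hy1 hy2
    rw [hiW x y (by omega) (by omega), hRelI.1 A m (x - a) (y - a) hA (by omega) (by omega)]
    constructor
    · intro h d hd
      have h1 := h _ (hext d hd)
      have h2 : (if x ≤ a then d 0 else if x ≤ a + m then d (x - a) else d 0) =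
        (if y ≤ a then d 0 else if y ≤ a + m then d (y - a) else d 0) := h1
      rw [hval d x hx1 hx2, hval d y hy1 hy2] at h2
      exact h2
    · intro h c hc
      have h1 := h _ ((hu c).1 hc).1
      have h2 : c (x - a + a) = c (y - a + a) := h1
      have e1 : x - a + a = x := by omega
      have e2 : y - a + a = y := by omega
      rw [e1, e2] at h2
      exact h2
  · intro x y hx hy hxN hyN
    have hcl : ∀ z, (z ≤ a ∨ a + m ≤ z) → z ≤ N → cl a m z ≤ N - m := by
      intro z hz hzN
      unfold cl
      split_ifs <;> omega
    rw [hiW x y hxN hyN, hRelI.1 B (N - m) _ _ hB (hcl x hx hxN) (hcl y hy hyN)]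
    constructor
    · intro h d hd
      have hc : VU (fun j => if j ≤ a then d j else if j ≤ a + m then d a else d (j - m))
          (shd a A ++ B) := by
        rw [hu]
        constructor
        · rw [hcA]
          intro x' y' hx' hy' _
          have h2 : ∀ z, z ≤ m → (if z + a ≤ a then d (z + a) else if z + a ≤ a + m then d a
              else d (z + a - m)) = d a := by
            intro z hz
            by_cases h0 : z = 0
            · subst h0
              rw [if_pos (by omega), Nat.zero_add]
            · rw [if_neg (by omega), if_pos (by omega)]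
          show (if x' + a ≤ a then d (x' + a) else if x' + a ≤ a + m then d a
              else d (x' + a - m)) = (if y' + a ≤ a then d (y' + a) else if y' + a ≤ a + m then d a
              else d (y' + a - m))
          rw [h2 x' hx', h2 y' hy']
        · have h3 : (fun j => if j ≤ a then (fun j => if j ≤ a then d j else if j ≤ a + m then d a
              else d (j - m)) j else (fun j => if j ≤ a then d j else if j ≤ a + m then d a
              else d (j - m)) (j + m)) = d := by
            funext j
            by_cases h0 : j ≤ a
            · rw [if_pos h0]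
              exact if_pos h0
            · rw [if_neg h0]
              show (if j + m ≤ a then d (j + m) else if j + m ≤ a + m then d a
                else d (j + m - m)) = d j
              rw [if_neg (by omega), if_neg (by omega), Nat.add_sub_cancel]
          rw [h3]
          exact hd
      have h1 := h _ hc
      have h2 : (if x ≤ a then d x else if x ≤ a + m then d a else d (x - m)) =
        (if y ≤ a then d y else if y ≤ a + m then d a else d (y - m)) := h1
      have h3 : ∀ z, (z ≤ a ∨ a + m ≤ z) →
          (if z ≤ a then d z else if z ≤ a + m then d a else d (z - m)) = d (cl a m z) := by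
        intro z hz
        unfold cl
        by_cases h0 : z ≤ a
        · rw [if_pos h0, if_pos h0]
        · rw [if_neg h0, if_neg h0]
          by_cases h4 : z ≤ a + m
          · have h5 : z - m = a := by omega
            rw [if_pos h4, h5]
          · rw [if_neg h4]
      rw [h3 x hx, h3 y hy] at h2
      exact h2
    · intro h c hc
      obtain ⟨hc1, hc2⟩ := (hu c).1 hc
      have h1 := h _ hc2
      have h0m : c (0 + a) = c (m + a) := (hcA _).1 hc1 0 m (by omega) (by omega) hA0
      rw [Nat.zero_add] at h0m
      have h3 : ∀ z, (z ≤ a ∨ a + m ≤ z) →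
          (if cl a m z ≤ a then c (cl a m z) else c (cl a m z + m)) = c z := by
        intro z hz
        unfold cl
        by_cases h0 : z ≤ a
        · rw [if_pos h0, if_pos h0]
        · rw [if_neg h0]
          by_cases h4 : z ≤ a + m
          · have h5 : z - m = a := by omega
            have h6 : z = m + a := by omega
            rw [h5, if_pos (le_refl a), h0m, ← h6]
          · rw [if_neg (by omega)]
            have h5 : z - m + m = z := by omega
            rw [h5]
      have h2 : (if cl a m x ≤ a then c (cl a m x) else c (cl a m x + m)) =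
        (if cl a m y ≤ a then c (cl a m y) else c (cl a m y + m)) := h1
      rw [h3 x hx, h3 y hy] at h2
      exact h2
  · intro x y hx1 hx2 hy hyN hxy
    rw [hRelI.1 A m (x - a) 0 hA (by omega) (by omega)]
    intro d hd
    have h1 := (hiW x y (by omega) hyN).1 hxy _ (hext d hd)
    have h2 : (if x ≤ a then d 0 else if x ≤ a + m then d (x - a) else d 0) =
      (if y ≤ a then d 0 else if y ≤ a + m then d (y - a) else d 0) := h1
    rw [hval d x hx1 hx2] at h2
    have h0m : d 0 = d m := (hcA _).1 hd 0 m (by omega) (by omega) hA0
    have h3 : (if y ≤ a then d 0 else if y ≤ a + m then d (y - a) else d 0) = d 0 := by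
      by_cases h0 : y ≤ a
      · rw [if_pos h0]
      · rw [if_neg h0]
        by_cases h4 : y ≤ a + m
        · have h5 : y - a = m := by omega
          rw [if_pos h4, h5, ← h0m]
        · rw [if_neg h4]
    rw [h3] at h2
    exact h2

end Pool.LSG
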