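import Pool.Agent.LSG.St

/-!
# LS, geometry block, Red: two opposite boundary regions are equal
-/

set_option autoImplicit false

namespace Pool.LSG

open Pool.Agent.ARB Pool.Agent.Helper2 Pool.ALT Pool.LSP

/-- a piece on the right of a word passes it -/
private theorem red_comm (t : Piece) (c : ℕ) (ht : t.i + t.k.inn ≤ c) : ∀ (w : Word) (n m : ℕ),
    Ok w n m → Iso (n + c) (⟨t.k, t.i + n⟩ :: w) (w ++ [⟨t.k, t.i + m⟩]) := by
  intro w
  induction w with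
  | nil =>
    intro n m h
    have h1 : n = m := h
    subst h1
    exact Iso.refl _ _
  | cons s w ih =>
    intro n m h
    have h1 := h.1
    have h2 := Iso.swap (n := n + c) s.k t.k s.i (t.i + n) (by omega) (by omega)
    have e1 : t.i + n - s.k.inn + s.k.out = t.i + (n - s.k.inn + s.k.out) := by omega
    rw [e1] at h2
    have h3 : Iso (n + c) ([(⟨t.k, t.i + n⟩ : Piece), s] ++ w)
        ([s, ⟨t.k, t.i + (n - s.k.inn + s.k.out)⟩] ++ w) := h2.symm.right w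
    have h4 := ih _ _ h.2
    have h5 : Ok [s] (n + c) (n - s.k.inn + s.k.out + c) := by
      refine ⟨by omega, ?_⟩
      show n + c - s.k.inn + s.k.out = n - s.k.inn + s.k.out + c
      omega
    exact h3.trans (Iso.left (z := [s]) h5 h4)

/-- the letters of a word which is planar isotopic to an alternating word -/
private theorem red_al (hMp : St_Mp) {κ : Type} (e : Bool) {n : ℕ} {w w' : Wd (Cr κ)}
    (h : PIso n w w') (hal : ∀ (i : ℕ) (a : Cr κ), cX i a ∈ w → (a.p = e ↔ i % 2 = 0)) :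
    ∀ (i : ℕ) (a : Cr κ), cX i a ∈ w' → (a.p = e ↔ i % 2 = 0) := by
  have h1 := hMp.2.2.2.1 (fun b (a : Cr κ) => (a.p = e ↔ b = true)) (by
    intro b a
    have h2 : (Rt.r a).p = !a.p := rfl
    rw [h2]
    cases b <;> cases a.p <;> cases e <;> simp) n w w' h
  have h3 : ∀ (i : ℕ) (a : Cr κ), cX i a ∈ w → (a.p = e ↔ decide (i % 2 = 0) = true) := by
    intro i a hi
    rw [decide_eq_true_iff]
    exact hal i a hi
  intro i a hi
  have h4 := h1.1 h3 i a hi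
  rw [decide_eq_true_iff] at h4
  exact h4

private theorem red_altW (hMp : St_Mp) {κ : Type} (e : Bool) (w : Wd (Cr κ))
    (h : ∀ (i : ℕ) (a : Cr κ), cX i a ∈ w → (a.p = e ↔ i % 2 = 0)) : AltW e (fgt w) := by
  intro p i hp
  obtain ⟨a, ha, hi⟩ := (hMp.2.2.1.2.2.2.2 w p i).1 hp
  rw [← ha]
  exact h i a hi

/-- the last step: a cup and an alternating word on two strands -/
private theorem red_end (hSC : St_SC) (hK2 : St_K2) (e : Bool) (D B : Word) (hD : Ok D 0 0)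
    (hD0 : D ≠ []) (hB : Ok B 2 0) (hBa : AltW e B) (hu : Un (bracket (toD D)))
    (h : Iso 0 D (pU 0 :: B)) : Iso 0 D O1 := by
  have h1 := hSC.1 D (pU 0 :: B) hD hD0 h hu
  have h2 := hK2 e B hB hBa h1
  exact h.trans (Iso.left (z := [pU 0]) (k := 2) ⟨by decide, rfl⟩ h2)

theorem thm_Red (hSL : St_SL) (hMp : St_Mp) (hFa : St_Fa) (hFl : St_Fl) (hSC : St_SC)
    (hK2 : St_K2) : St_Red := by
  intro κ e pr c W hdec hfa hcc hu
  have hok := hdec.ok
  have hIW : Ok (IW e) 0 4 := ⟨by decide, by decide, (by show 1 + 2 ≤ 4; omega), rfl⟩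
  have hokF : Ok (fgt W) 4 0 := (hMp.2.2.1.2.2.1 W 4 0).1 hok
  have hokD : Ok (IW e ++ fgt W) 0 0 := hIW.append hokF
  have hne : IW e ++ fgt W ≠ [] := by
    unfold IW
    exact List.cons_ne_nil _ _
  rcases hcc with hcc | hcc
  · -- the left and the right region are equal
    have hrel : Rel W 0 2 := hFa.2.2.2.1 (c 0) c 4 W hok hdec.vl (hfa _) 0 2 (by omega) (by omega)
      rfl hcc.symm
    obtain ⟨A, B, hA, hB, -, hiso⟩ := hSL.1 W 4 hok 0 2 (by omega) (by omega) hrel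
    rw [shd_zero] at hiso
    have hal := red_al hMp e hiso hdec.al
    have hA' : Ok (fgt A) 2 0 := (hMp.2.2.1.2.2.1 A 2 0).1 hA
    have hB' : Ok (fgt B) 2 0 := (hMp.2.2.1.2.2.1 B 2 0).1 hB
    have haA : AltW e (fgt A) := red_altW hMp e A fun i a hi =>
      hal i a (List.mem_append_left _ hi)
    have haB : AltW e (fgt B) := red_altW hMp e B fun i a hi =>
      hal i a (List.mem_append_right _ hi)
    obtain ⟨hF1, -, hF3, hF4, -⟩ := hFl (fgt B) 2 0 hB'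
    obtain ⟨-, -, -, -, hF5⟩ := hFl (flw 2 (fgt B)) 2 0 hF1
    have haB2 : AltW e (flw 2 (fgt B)) := hF4 (by omega) e haB
    have hslide : Iso 2 (flw 2 (fgt B)) ([pX 0 (!e)] ++ fgt B) := by
      have h1 := hF5 (by omega) (by omega) (!e)
      rw [hF3] at h1
      have h2 : dl2 (!e) 0 = [] := rfl
      have h3 : dl2 (!e) 2 = [pX 0 (!e)] := rfl
      rw [h2, h3, List.append_nil] at h1
      exact h1
    -- the word without the crossing
    have hI1 : Iso 0 (IW e ++ fgt W) ([pU 0, pU 1] ++ (fgt A ++ flw 2 (fgt B))) := by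
      have h1 : Iso 4 (fgt W) (fgt A ++ fgt B) := by
        have h2 := hMp.2.1 4 W (A ++ B) hiso
        rw [hMp.2.2.1.1] at h2
        exact h2
      have h2 : Iso 0 (IW e ++ fgt W) (IW e ++ (fgt A ++ fgt B)) := Iso.left hIW h1
      have h3 : Iso 2 [pU 2, pX 1 e] [pU 1, pX 2 (!e)] := Iso.slU (n := 2) (i := 1) e (by omega)
      have h4 : Iso 0 ([pU 0] ++ ([pU 2, pX 1 e] ++ (fgt A ++ fgt B)))
          ([pU 0] ++ ([pU 1, pX 2 (!e)] ++ (fgt A ++ fgt B))) :=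
        Iso.left (k := 2) ⟨by decide, rfl⟩ (h3.right _)
      have h5 : Iso 4 (pX 2 (!e) :: fgt A) (fgt A ++ [pX 0 (!e)]) :=
        red_comm (pX 0 (!e)) 2 (by show 0 + 2 ≤ 2; omega) (fgt A) 2 0 hA'
      have h6 : Iso 0 ([pU 0, pU 1] ++ ((pX 2 (!e) :: fgt A) ++ fgt B))
          ([pU 0, pU 1] ++ ((fgt A ++ [pX 0 (!e)]) ++ fgt B)) :=
        Iso.left (k := 4) ⟨by decide, by decide, rfl⟩ (h5.right _)
      have h7 : Iso 4 (fgt A ++ ([pX 0 (!e)] ++ fgt B)) (fgt A ++ flw 2 (fgt B)) :=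
        Iso.left (k := 2) (hA'.add 2) hslide.symm
      have h8 : Iso 0 ([pU 0, pU 1] ++ (fgt A ++ ([pX 0 (!e)] ++ fgt B)))
          ([pU 0, pU 1] ++ (fgt A ++ flw 2 (fgt B))) :=
        Iso.left (k := 4) ⟨by decide, by decide, rfl⟩ h7
      rw [List.append_assoc] at h6
      exact h2.trans (h4.trans (h6.trans h8))
    have hu1 := hSC.1 _ _ hokD hne hI1 hu
    obtain ⟨hu2, -⟩ := hSC.2.1 [pU 0, pU 1] (flw 2 (fgt B)) (fgt A) 0 4
      ⟨by decide, by decide, rfl⟩ (by omega) hA' hF1 (by rw [Pool.Agent.ARB.sh_zero]; exact hu1)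
    have hA1 : Iso 2 (fgt A) [pN 0] := hK2 e (fgt A) hA' haA hu2
    have hI2 : Iso 0 (IW e ++ fgt W) (pU 0 :: flw 2 (fgt B)) := by
      have h1 : Iso 0 ([pU 0, pU 1] ++ (fgt A ++ flw 2 (fgt B)))
          ([pU 0, pU 1] ++ ([pN 0] ++ flw 2 (fgt B))) :=
        Iso.left (k := 4) ⟨by decide, by decide, rfl⟩ ((hA1.add 2).right _)
      have h2 : Iso 2 ([pU 1, pN 0] ++ flw 2 (fgt B)) ([] ++ flw 2 (fgt B)) :=
        (Iso.zag (n := 2) (i := 0) (by omega)).right _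
      have h3 : Iso 0 ([pU 0] ++ ([pU 1, pN 0] ++ flw 2 (fgt B)))
          ([pU 0] ++ ([] ++ flw 2 (fgt B))) :=
        Iso.left (k := 2) ⟨by decide, rfl⟩ h2
      exact hI1.trans (h1.trans h3)
    exact red_end hSC hK2 e _ _ hokD hne hF1 haB2 hu hI2
  · -- the bottom and the top region are equal
    have hrel : Rel W 1 3 := hFa.2.2.2.1 (c 1) c 4 W hok hdec.vl (hfa _) 1 3 (by omega) (by omega)
      rfl hcc.symm
    obtain ⟨A, B, hA, hB, -, hiso⟩ := hSL.1 W 4 hok 1 3 (by omega) (by omega) hrel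
    have hal := red_al hMp e hiso hdec.al
    have hA' : Ok (fgt A) 2 0 := (hMp.2.2.1.2.2.1 A 2 0).1 hA
    have hB' : Ok (fgt B) 2 0 := (hMp.2.2.1.2.2.1 B 2 0).1 hB
    have haA : AltW (!e) (fgt A) := red_altW hMp (!e) A fun i a hi => by
      have h1 : cX (i + 1) a ∈ shd 1 A := List.mem_map.2 ⟨cX i a, hi, rfl⟩
      have h2 := hal (i + 1) a (List.mem_append_left _ h1)
      have h3 : ((i + 1) % 2 = 0) ↔ ¬ (i % 2 = 0) := by omega
      rw [h3] at h2
      cases hp : a.p <;> cases e <;> simp [hp] at h2 ⊢ <;> exact h2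
    have haB : AltW e (fgt B) := red_altW hMp e B fun i a hi =>
      hal i a (List.mem_append_right _ hi)
    obtain ⟨hF1, -, hF3, hF4, -⟩ := hFl (fgt A) 2 0 hA'
    obtain ⟨-, -, -, -, hF5⟩ := hFl (flw 2 (fgt A)) 2 0 hF1
    have haA2 : AltW (!e) (flw 2 (fgt A)) := hF4 (by omega) (!e) haA
    have hslide : Iso 2 (flw 2 (fgt A)) ([pX 0 e] ++ fgt A) := by
      have h1 := hF5 (by omega) (by omega) e
      rw [hF3] at h1
      have h2 : dl2 e 0 = [] := rfl
      have h3 : dl2 e 2 = [pX 0 e] := rfl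
      rw [h2, h3, List.append_nil] at h1
      exact h1
    have hI1 : Iso 0 (IW e ++ fgt W)
        ([pU 0, pU 2] ++ (Pool.Agent.ARB.sh 1 (flw 2 (fgt A)) ++ fgt B)) := by
      have h1 : Iso 4 (fgt W) (Pool.Agent.ARB.sh 1 (fgt A) ++ fgt B) := by
        have h2 := hMp.2.1 4 W (shd 1 A ++ B) hiso
        rw [hMp.2.2.1.1, hMp.2.2.1.2.1] at h2
        exact h2
      have h2 : Iso 0 (IW e ++ fgt W) (IW e ++ (Pool.Agent.ARB.sh 1 (fgt A) ++ fgt B)) :=
        Iso.left hIW h1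
      have h3 : Iso 4 (Pool.Agent.ARB.sh 1 ([pX 0 e] ++ fgt A))
          (Pool.Agent.ARB.sh 1 (flw 2 (fgt A))) := (hslide.symm.sh 1).add 1
      have h4 : Iso 0 ([pU 0, pU 2] ++ (Pool.Agent.ARB.sh 1 ([pX 0 e] ++ fgt A) ++ fgt B))
          ([pU 0, pU 2] ++ (Pool.Agent.ARB.sh 1 (flw 2 (fgt A)) ++ fgt B)) :=
        Iso.left (k := 4) ⟨by decide, by decide, rfl⟩ (h3.right _)
      exact h2.trans h4
    have hu1 := hSC.1 _ _ hokD hne hI1 hu
    obtain ⟨hu2, -⟩ := hSC.2.1 [pU 0, pU 2] (fgt B) (flw 2 (fgt A)) 1 4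
      ⟨by decide, by decide, rfl⟩ (by omega) hF1 hB' hu1
    have hA1 : Iso 2 (flw 2 (fgt A)) [pN 0] := hK2 (!e) _ hF1 haA2 hu2
    have hI2 : Iso 0 (IW e ++ fgt W) (pU 0 :: fgt B) := by
      have h0 : Iso 4 (Pool.Agent.ARB.sh 1 (flw 2 (fgt A))) [pN 1] := (hA1.sh 1).add 1
      have h1 : Iso 0 ([pU 0, pU 2] ++ (Pool.Agent.ARB.sh 1 (flw 2 (fgt A)) ++ fgt B))
          ([pU 0, pU 2] ++ ([pN 1] ++ fgt B)) :=
        Iso.left (k := 4) ⟨by decide, by decide, rfl⟩ (h0.right _)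
      have h2 : Iso 2 ([pU 2, pN 1] ++ fgt B) ([] ++ fgt B) :=
        (Iso.zag (n := 2) (i := 1) (by omega)).right _
      have h3 : Iso 0 ([pU 0] ++ ([pU 2, pN 1] ++ fgt B)) ([pU 0] ++ ([] ++ fgt B)) :=
        Iso.left (k := 2) ⟨by decide, rfl⟩ h2
      exact hI1.trans (h1.trans h3)
    exact red_end hSC hK2 e _ _ hokD hne hB' haB hu hI2

end Pool.LSG
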