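import Pool.Agent.LSG.St

/-!
# LS geometry: the relation of the boundary gaps (module Rel)
-/

set_option autoImplicit false

namespace Pool.LSG

/-! ### equivalence relation -/

/-- the relation obtained by joining two classes at a cup -/
private lemma rel_join_trans {R : ℕ → ℕ → Prop} (hs : ∀ x y, R x y → R y x)
    (ht : ∀ x y z, R x y → R y z → R x z) (a b x y z : ℕ)
    (h1 : R x y ∨ (R x a ∧ R b y) ∨ (R x b ∧ R a y))
    (h2 : R y z ∨ (R y a ∧ R b z) ∨ (R y b ∧ R a z)) :
    R x z ∨ (R x a ∧ R b z) ∨ (R x b ∧ R a z) := by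
  rcases h1 with h1 | ⟨h1, h1'⟩ | ⟨h1, h1'⟩ <;> rcases h2 with h2 | ⟨h2, h2'⟩ | ⟨h2, h2'⟩
  · exact Or.inl (ht _ _ _ h1 h2)
  · exact Or.inr (Or.inl ⟨ht _ _ _ h1 h2, h2'⟩)
  · exact Or.inr (Or.inr ⟨ht _ _ _ h1 h2, h2'⟩)
  · exact Or.inr (Or.inl ⟨h1, ht _ _ _ h1' h2⟩)
  · exact Or.inl (ht _ _ _ h1 (ht _ _ _ (hs _ _ h2) (ht _ _ _ (hs _ _ h1') h2')))
  · exact Or.inl (ht _ _ _ h1 h2')
  · exact Or.inr (Or.inr ⟨h1, ht _ _ _ h1' h2⟩)
  · exact Or.inl (ht _ _ _ h1 h2')
  · exact Or.inl (ht _ _ _ h1 (ht _ _ _ (hs _ _ h2) (ht _ _ _ (hs _ _ h1') h2')))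

private lemma rel_refl {α : Type} (w : Wd α) : ∀ x, Rel w x x := by
  induction w with
  | nil => intro x; rfl
  | cons s w ih =>
    obtain ⟨k, i⟩ := s
    intro x
    cases k with
    | U => exact Or.inl (ih _)
    | N => exact Or.inl rfl
    | X a => exact Or.inl rfl

private lemma rel_symm {α : Type} (w : Wd α) : ∀ x y, Rel w x y → Rel w y x := by
  induction w with
  | nil => intro x y h; exact Eq.symm h
  | cons s w ih =>
    obtain ⟨k, i⟩ := s
    intro x y h
    cases k with
    | U =>
      rcases h with h | ⟨h, h'⟩ | ⟨h, h'⟩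
      · exact Or.inl (ih _ _ h)
      · exact Or.inr (Or.inr ⟨ih _ _ h', ih _ _ h⟩)
      · exact Or.inr (Or.inl ⟨ih _ _ h', ih _ _ h⟩)
    | N =>
      rcases h with h | ⟨h1, h2, h⟩
      · exact Or.inl h.symm
      · exact Or.inr ⟨h2, h1, ih _ _ h⟩
    | X a =>
      rcases h with h | ⟨h1, h2, h⟩
      · exact Or.inl h.symm
      · exact Or.inr ⟨h2, h1, ih _ _ h⟩

private lemma rel_trans {α : Type} (w : Wd α) : ∀ x y z, Rel w x y → Rel w y z → Rel w x z := by
  induction w with
  | nil => intro x y z h h'; exact Eq.trans h h'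
  | cons s w ih =>
    obtain ⟨k, i⟩ := s
    intro x y z h h'
    cases k with
    | U => exact rel_join_trans (R := Rel w) (rel_symm w) ih i (i + 2) _ _ _ h h'
    | N =>
      rcases h with h | ⟨h1, h2, h⟩
      · subst h; exact h'
      · rcases h' with h' | ⟨h3, h4, h'⟩
        · subst h'; exact Or.inr ⟨h1, h2, h⟩
        · exact Or.inr ⟨h1, h4, ih _ _ _ h h'⟩
    | X a =>
      rcases h with h | ⟨h1, h2, h⟩
      · subst h; exact h'
      · rcases h' with h' | ⟨h3, h4, h'⟩
        · subst h'; exact Or.inr ⟨h1, h2, h⟩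
        · exact Or.inr ⟨h1, h4, ih _ _ _ h h'⟩

/-! ### gaps above cups and caps -/

private lemma rel_up_le {i x N : ℕ} (h : x ≤ N) : up i x ≤ N + 2 := by
  unfold up; split_ifs <;> omega

private lemma rel_le_of_up {i y N : ℕ} (hi : i ≤ N) (h : up i y ≤ N + 2) : y ≤ N := by
  unfold up at h; split_ifs at h <;> omega

private lemma rel_dn_le {i x N : ℕ} (hi : i + 2 ≤ N) (h : x ≤ N) : dn i x ≤ N - 2 := by
  unfold dn; split_ifs <;> omega

private lemma rel_le_of_dn {i y N : ℕ} (hi : i + 2 ≤ N) (h : dn i y ≤ N - 2) : y ≤ N := by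
  unfold dn at h; split_ifs at h <;> omega

private lemma rel_up_ne {i x : ℕ} : up i x ≠ i + 1 := by
  unfold up; split_ifs <;> omega

private lemma rel_dn_up {i x : ℕ} : dn i (up i x) = x := by
  unfold dn up; split_ifs <;> omega

private lemma rel_up_dn {i x : ℕ} (h1 : x ≠ i + 1) (h2 : x ≠ i + 2) : up i (dn i x) = x := by
  unfold dn up; split_ifs <;> omega

private lemma rel_up_self (i : ℕ) : up i i = i := by simp [up]

private lemma rel_dn_self (i : ℕ) : dn i i = i := by simp [dn]

private lemma rel_dn_two (i : ℕ) : dn i (i + 2) = i := by simp [dn]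

/-! ### range -/

private lemma rel_range {α : Type} (w : Wd α) :
    ∀ N x y, Okd w N 0 → Rel w x y → x ≤ N → y ≤ N := by
  induction w with
  | nil => intro N x y _ h hx; have h' : x = y := h; omega
  | cons s w ih =>
    obtain ⟨k, i⟩ := s
    intro N x y hok h hx
    cases k with
    | U =>
      have hi : i ≤ N := hok.1
      have hw : Okd w (N + 2) 0 := hok.2
      rcases h with h | ⟨_, h⟩ | ⟨_, h⟩
      · exact rel_le_of_up hi (ih _ _ _ hw h (rel_up_le hx))
      · exact rel_le_of_up hi (ih _ _ _ hw h (by omega))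
      · exact rel_le_of_up hi (ih _ _ _ hw h (by omega))
    | N =>
      have hi : i + 2 ≤ N := hok.1
      have hw : Okd w (N - 2) 0 := hok.2
      rcases h with h | ⟨_, _, h⟩
      · omega
      · exact rel_le_of_dn hi (ih _ _ _ hw h (rel_dn_le hi hx))
    | X a =>
      have hi : i + 2 ≤ N := hok.1
      have hw : Okd w (N - 2 + 2) 0 := hok.2
      have hN : N - 2 + 2 = N := by omega
      rw [hN] at hw
      rcases h with h | ⟨_, _, h⟩
      · omega
      · exact ih _ _ _ hw h hx

/-! ### the outer region -/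

private lemma rel_outer {α : Type} (w : Wd α) : ∀ N, Okd w N 0 → Rel w 0 N := by
  induction w with
  | nil => intro N h; have h' : N = 0 := h; exact h'.symm
  | cons s w ih =>
    obtain ⟨k, i⟩ := s
    intro N hok
    cases k with
    | U =>
      have hi : i ≤ N := hok.1
      have hw : Okd w (N + 2) 0 := hok.2
      have h0 : up i 0 = 0 := by simp [up]
      by_cases hN : N = i
      · subst hN
        refine Or.inr (Or.inr ⟨?_, ?_⟩)
        · rw [h0]; exact ih _ hw
        · rw [rel_up_self]; exact rel_refl w _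
      · have h1 : up i N = N + 2 := by unfold up; split_ifs <;> omega
        refine Or.inl ?_
        rw [h0, h1]; exact ih _ hw
    | N =>
      have hi : i + 2 ≤ N := hok.1
      have hw : Okd w (N - 2) 0 := hok.2
      refine Or.inr ⟨by omega, by omega, ?_⟩
      have h0 : dn i 0 = 0 := by simp [dn]
      have h1 : dn i N = N - 2 := by unfold dn; split_ifs <;> omega
      rw [h0, h1]; exact ih _ hw
    | X a =>
      have hi : i + 2 ≤ N := hok.1
      have hw : Okd w (N - 2 + 2) 0 := hok.2
      have hN : N - 2 + 2 = N := by omega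
      rw [hN] at hw
      exact Or.inr ⟨by omega, by omega, ih _ hw⟩

/-! ### completeness -/

private lemma rel_ins_up {κ : Type} (i : ℕ) (t : κ) (c : ℕ → κ) (x : ℕ) :
    insC i t c (up i x) = c x := by
  unfold insC up
  split_ifs <;> first | rfl | omega

private lemma rel_ins_self {κ : Type} (i : ℕ) (t : κ) (c : ℕ → κ) : insC i t c i = c i := by
  simp [insC]

private lemma rel_ins_two {κ : Type} (i : ℕ) (t : κ) (c : ℕ → κ) : insC i t c (i + 2) = c i := by
  simp [insC]

private lemma rel_ins_ne {κ : Type} (i : ℕ) (t : κ) (c : ℕ → κ) {x : ℕ} (h : x ≠ i + 1) :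
    insC i t c x = c (dn i x) := by
  unfold insC dn
  by_cases h1 : x ≤ i
  · rw [if_pos h1, if_pos h1]
  · rw [if_neg h1, if_neg h, if_neg h1]

private lemma rel_ins_mid {κ : Type} (i : ℕ) (t : κ) (c : ℕ → κ) : insC i t c (i + 1) = t := by
  simp [insC]

private lemma rel_upd_ne {κ : Type} (i : ℕ) (t : κ) (c : ℕ → κ) {x : ℕ} (h : x ≠ i) :
    updC i t c x = c x := by
  simp [updC, h]

private lemma rel_upd_self {κ : Type} (i : ℕ) (t : κ) (c : ℕ → κ) : updC i t c i = t := by
  simp [updC]

/-- choice of the colour of the new gap -/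
private lemma rel_choose {α κ : Type} (w : Wd α) (M j : ℕ) (D : ℕ → κ)
    (hD : ∀ x y, x ≤ M → y ≤ M → x ≠ j → y ≠ j → Rel w x y → D x = D y) :
    ∃ t : κ, ∀ E : ℕ → κ, (∀ x, x ≠ j → E x = D x) → E j = t →
      ∀ x y, x ≤ M → y ≤ M → Rel w x y → E x = E y := by
  by_cases h : ∃ y, y ≤ M ∧ y ≠ j ∧ Rel w j y
  · obtain ⟨y0, hy0, hy0j, hR⟩ := h
    refine ⟨D y0, ?_⟩
    intro E hE hEj x y hx hy hxy
    by_cases h1 : x = j
    · by_cases h2 : y = j
      · rw [h1, h2]
      · subst h1
        rw [hEj, hE y h2]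
        exact hD _ _ hy0 hy hy0j h2 (rel_trans w _ _ _ (rel_symm w _ _ hR) hxy)
    · by_cases h2 : y = j
      · subst h2
        rw [hEj, hE x h1]
        exact hD _ _ hx hy0 h1 hy0j (rel_trans w _ _ _ hxy hR)
      · rw [hE x h1, hE y h2]
        exact hD _ _ hx hy h1 h2 hxy
  · refine ⟨D 0, ?_⟩
    intro E hE _ x y hx hy hxy
    by_cases h1 : x = j
    · by_cases h2 : y = j
      · rw [h1, h2]
      · subst h1
        exact absurd ⟨y, hy, h2, hxy⟩ h
    · by_cases h2 : y = j
      · subst h2
        exact absurd ⟨x, hx, h1, rel_symm w _ _ hxy⟩ h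
      · rw [hE x h1, hE y h2]
        exact hD _ _ hx hy h1 h2 hxy

private lemma rel_vu_U {κ α : Type} (c : ℕ → κ) (i : ℕ) (w : Wd α) :
    VU c (⟨.U, i⟩ :: w) ↔ ∃ t, VU (insC i t c) w := by
  constructor
  · rintro ⟨c', t, h⟩; exact ⟨t, c', h⟩
  · rintro ⟨t, c', h⟩; exact ⟨c', t, h⟩

private lemma rel_vu_N {κ α : Type} (c : ℕ → κ) (i : ℕ) (w : Wd α) :
    VU c (⟨.N, i⟩ :: w) ↔ c i = c (i + 2) ∧ VU (delC i c) w := by
  constructor
  · rintro ⟨c', h1, h⟩; exact ⟨h1, c', h⟩
  · rintro ⟨h1, c', h⟩; exact ⟨c', h1, h⟩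

private lemma rel_vu_X {κ α : Type} (c : ℕ → κ) (i : ℕ) (a : α) (w : Wd α) :
    VU c (⟨.X a, i⟩ :: w) ↔ ∃ t, VU (updC (i + 1) t c) w := by
  constructor
  · rintro ⟨c', t, _, h⟩; exact ⟨t, c', h⟩
  · rintro ⟨t, c', h⟩; exact ⟨c', t, trivial, h⟩

private lemma rel_complete {κ α : Type} (w : Wd α) : ∀ (N : ℕ) (c : ℕ → κ), Okd w N 0 →
    (VU c w ↔ ∀ x y, x ≤ N → y ≤ N → Rel w x y → c x = c y) := by
  induction w with
  | nil =>
    intro N c _
    constructor
    · intro _ x y _ _ h
      have h' : x = y := h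
      rw [h']
    · intro _
      exact ⟨c, rfl⟩
  | cons s w ih =>
    obtain ⟨k, i⟩ := s
    intro N c hok
    cases k with
    | U =>
      have hi : i ≤ N := hok.1
      have hw : Okd w (N + 2) 0 := hok.2
      rw [rel_vu_U]
      constructor
      · rintro ⟨t, ht⟩ x y hx hy h
        have hR := (ih (N + 2) (insC i t c) hw).1 ht
        rcases h with h | ⟨h, h'⟩ | ⟨h, h'⟩
        · have := hR _ _ (rel_up_le hx) (rel_up_le hy) h
          rwa [rel_ins_up, rel_ins_up] at this
        · have e1 := hR _ _ (rel_up_le hx) (by omega) h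
          have e2 := hR _ _ (by omega) (rel_up_le hy) h'
          rw [rel_ins_up, rel_ins_self] at e1
          rw [rel_ins_up, rel_ins_two] at e2
          exact e1.trans e2
        · have e1 := hR _ _ (rel_up_le hx) (by omega) h
          have e2 := hR _ _ (by omega) (rel_up_le hy) h'
          rw [rel_ins_up, rel_ins_two] at e1
          rw [rel_ins_up, rel_ins_self] at e2
          exact e1.trans e2
      · intro hc
        obtain ⟨t, ht⟩ := rel_choose w (N + 2) (i + 1) (fun x => c (dn i x)) (by
          intro x y hx hy hx1 hy1 hxy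
          have hdx : dn i x ≤ N := by unfold dn; split_ifs <;> omega
          have hdy : dn i y ≤ N := by unfold dn; split_ifs <;> omega
          by_cases hx2 : x = i + 2
          · by_cases hy2 : y = i + 2
            · rw [hx2, hy2]
            · refine hc _ _ hdx hdy (Or.inr (Or.inl ⟨?_, ?_⟩))
              · rw [hx2, rel_dn_two, rel_up_self]; exact rel_refl w _
              · rw [rel_up_dn hy1 hy2, ← hx2]; exact hxy
          · by_cases hy2 : y = i + 2
            · refine hc _ _ hdx hdy (Or.inr (Or.inr ⟨?_, ?_⟩))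
              · rw [rel_up_dn hx1 hx2, ← hy2]; exact hxy
              · rw [hy2, rel_dn_two, rel_up_self]; exact rel_refl w _
            · refine hc _ _ hdx hdy (Or.inl ?_)
              rw [rel_up_dn hx1 hx2, rel_up_dn hy1 hy2]; exact hxy)
        refine ⟨t, (ih (N + 2) (insC i t c) hw).2 ?_⟩
        exact ht (insC i t c) (fun x hx => rel_ins_ne i t c hx) (rel_ins_mid i t c)
    | N =>
      have hi : i + 2 ≤ N := hok.1
      have hw : Okd w (N - 2) 0 := hok.2
      rw [rel_vu_N, ih (N - 2) (delC i c) hw]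
      constructor
      · rintro ⟨h0, hR⟩ x y hx hy h
        rcases h with h | ⟨hx1, hy1, h⟩
        · rw [h]
        · have e := hR _ _ (rel_dn_le hi hx) (rel_dn_le hi hy) h
          have key : ∀ z, z ≠ i + 1 → delC i c (dn i z) = c z := by
            intro z hz
            by_cases h1 : z ≤ i
            · have h2 : dn i z = z := by simp [dn, h1]
              rw [h2]
              simp [delC, h1]
            · by_cases h2 : z = i + 2
              · subst h2
                rw [rel_dn_two]
                have h3 : delC i c i = c i := by simp [delC]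
                rw [h3]; exact h0
              · have h3 : dn i z = z - 2 := by simp [dn, h1]
                have h4 : ¬ (z - 2 ≤ i) := by omega
                have h5 : z - 2 + 2 = z := by omega
                rw [h3]
                unfold delC
                rw [if_neg h4, h5]
          rw [key x hx1, key y hy1] at e
          exact e
      · intro hc
        refine ⟨?_, ?_⟩
        · refine hc _ _ (by omega) hi (Or.inr ⟨by omega, by omega, ?_⟩)
          rw [rel_dn_self, rel_dn_two]; exact rel_refl w _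
        · intro x y hx hy h
          have key : ∀ z, c (up i z) = delC i c z := by
            intro z
            unfold up delC
            split_ifs <;> rfl
          rw [← key x, ← key y]
          have hx' : up i x ≤ N := by
            have := rel_up_le (i := i) hx; omega
          have hy' : up i y ≤ N := by
            have := rel_up_le (i := i) hy; omega
          refine hc _ _ hx' hy' (Or.inr ⟨rel_up_ne, rel_up_ne, ?_⟩)
          rw [rel_dn_up, rel_dn_up]; exact h
    | X a =>
      have hi : i + 2 ≤ N := hok.1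
      have hw : Okd w (N - 2 + 2) 0 := hok.2
      have hN : N - 2 + 2 = N := by omega
      rw [hN] at hw
      rw [rel_vu_X]
      constructor
      · rintro ⟨t, ht⟩ x y hx hy h
        have hR := (ih N (updC (i + 1) t c) hw).1 ht
        rcases h with h | ⟨hx1, hy1, h⟩
        · rw [h]
        · have := hR _ _ hx hy h
          rwa [rel_upd_ne _ _ _ hx1, rel_upd_ne _ _ _ hy1] at this
      · intro hc
        obtain ⟨t, ht⟩ := rel_choose w N (i + 1) c (by
          intro x y hx hy hx1 hy1 hxy
          exact hc _ _ hx hy (Or.inr ⟨hx1, hy1, hxy⟩))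
        refine ⟨t, (ih N (updC (i + 1) t c) hw).2 ?_⟩
        exact ht (updC (i + 1) t c) (fun x hx => rel_upd_ne (i + 1) t c hx)
          (rel_upd_self (i + 1) t c)

theorem thm_Rel : St_Rel := by
  intro α w
  exact ⟨rel_refl w, rel_symm w, rel_trans w, fun N c h => rel_complete w N c h, rel_outer w,
    rel_range w⟩

end Pool.LSG
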