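import Pool.Agent.LSG.St

/-!
# LS, geometry block: the relation of the boundary gaps is invariant under planar isotopy
-/

set_option autoImplicit false

namespace Pool.LSG

private theorem reli_one (hRel : St_Rel) {α : Type} (w : Wd α) (N x y : ℕ) (hw : Okd w N 0)
    (hx : x ≤ N) (hy : y ≤ N) :
    Rel w x y ↔ ∀ c : ℕ → Prop, VU c w → c x = c y := by
  obtain ⟨h1, h2, h3, h4, _, _⟩ := hRel w
  constructor
  · intro h c hc
    exact (h4 N c hw).1 hc x y hx hy h
  · intro h
    have h5 : VU (fun z => Rel w x z) w := by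
      rw [h4 N (fun z => Rel w x z) hw]
      intro a b _ _ hab
      exact propext ⟨fun h => h3 _ _ _ h hab, fun h => h3 _ _ _ h (h2 _ _ hab)⟩
    have h6 : Rel w x x = Rel w x y := h _ h5
    rw [← h6]
    exact h1 x

/-- The module RelI. -/
theorem thm_RelI (hVaI : St_VaI) (hRel : St_Rel) : St_RelI := by
  refine ⟨fun {α} w N x y => reli_one hRel w N x y, ?_⟩
  intro α _ w w' N hw hp x y hx hy
  have h1 : ∀ c : ℕ → Prop, VU c w ↔ VU c w' := by
    intro c
    unfold VU
    exact exists_congr fun c' =>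
      hVaI.2 (fun _ _ _ _ _ => True) (fun _ _ _ _ _ => Iff.rfl) N w w' hp c c'
  rw [reli_one hRel w N x y hw hx hy, reli_one hRel w' N x y (hp.ok hw) hx hy]
  exact forall_congr' fun c => by rw [h1 c]

end Pool.LSG
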