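import Pool.Agent.LSG.St

/-!
# LS, geometry block [Rot]: rotation of a word on four strands
-/

set_option autoImplicit false

namespace Pool.LSG

open Pool.Agent.ARB Pool.Agent.Helper2 Pool.ALT Pool.LSP

/-! ### the isotopy -/

private theorem rot_N0 (V : Word) (h : Ok V 4 0) :
    Iso 6 (Agent.ARB.sh 2 V ++ [pN 0]) (pN 0 :: V) := by
  have h1 := thm_Comm [pN 0] V 2 0 4 0 ⟨by decide, rfl⟩ h
  rw [sh_zero] at h1
  exact h1.symm

/-- rotation of a word on four strands, without colours -/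
private def rot_w (V : Word) : Word := pU 0 :: (Agent.ARB.sh 1 V ++ [pN 0])

private theorem rot_ok (V : Word) (h : Ok V 4 0) : Ok (rot_w V) 4 0 := by
  have h1 : Ok (Agent.ARB.sh 1 V ++ [pN 0]) 6 0 := ((h.sh 1).add 1).append ⟨by decide, rfl⟩
  exact ⟨by decide, h1⟩

private theorem rot_okI (e : Bool) (V : Word) (h : Ok V 4 0) : Ok (IW e ++ V) 0 0 := by
  have h1 : Ok (IW e) 0 4 := ⟨by decide, by decide, by show 1 + 2 ≤ 4; omega, rfl⟩
  exact h1.append h

private theorem rot_iso (e : Bool) (V : Word) (h : Ok V 4 0) :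
    Iso 0 (IW (!e) ++ rot_w V) (IW e ++ V) := by
  have hT : Ok ([pU 1, pX 0 e, pU 0] ++ Agent.ARB.sh 1 V) 1 1 := by
    have h1 : Ok [pU 1, pX 0 e, pU 0] 1 5 :=
      ⟨by decide, by show 0 + 2 ≤ 3; omega, by show 0 + 0 ≤ 3; omega, rfl⟩
    exact h1.append (h.sh 1)
  have hB := all_BO _ hT
  have h2 := hB.1.symm
  have h3 : Iso 0 (IW (!e)) [pU 0, pU 1, pX 0 e] := by
    have s1 : Iso 0 ([pU 0, pU 2] ++ [pX 1 (!e)]) ([pU 0, pU 0] ++ [pX 1 (!e)]) :=
      (Iso.swap (n := 0) Kind.U Kind.U 0 0 (by decide) (by decide)).right _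
    have s2 : Iso 0 ([pU 0] ++ [pU 0, pX 1 (!e)]) ([pU 0] ++ [pU 1, pX 0 e]) :=
      Iso.left (k := 2) ⟨by decide, rfl⟩ (Iso.slU (n := 2) (i := 0) e (by decide)).symm
    exact s1.trans s2
  have h4 : Iso 0 (IW (!e) ++ rot_w V) (DW ([pU 1, pX 0 e, pU 0] ++ Agent.ARB.sh 1 V)) := by
    have h5 := h3.right (rot_w V)
    have e1 : DW ([pU 1, pX 0 e, pU 0] ++ Agent.ARB.sh 1 V) = [pU 0, pU 1, pX 0 e] ++ rot_w V := by
      simp [DW, rot_w]
    rw [e1]
    exact h5
  have h6 : Iso 0 (pU 0 :: (Agent.ARB.sh 1 ([pU 1, pX 0 e, pU 0] ++ Agent.ARB.sh 1 V) ++ [pN 0]))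
      (IW e ++ V) := by
    have e1 : pU 0 :: (Agent.ARB.sh 1 ([pU 1, pX 0 e, pU 0] ++ Agent.ARB.sh 1 V) ++ [pN 0]) =
        [pU 0, pU 2, pX 1 e, pU 1] ++ (Agent.ARB.sh 2 V ++ [pN 0]) := by
      rw [sh_append, sh_sh]
      rfl
    rw [e1]
    have s1 : Iso 0 ([pU 0, pU 2, pX 1 e, pU 1] ++ (Agent.ARB.sh 2 V ++ [pN 0]))
        ([pU 0, pU 2, pX 1 e, pU 1] ++ (pN 0 :: V)) :=
      Iso.left (k := 6) ⟨by decide, by decide, by show 1 + 2 ≤ 4; omega,
        by show 1 + 0 ≤ 4; omega, rfl⟩ (rot_N0 V h)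
    have s2 : Iso 0 ([pU 0, pU 2, pX 1 e] ++ ([pU 1, pN 0] ++ V))
        ([pU 0, pU 2, pX 1 e] ++ ([] ++ V)) :=
      Iso.mid (k := 4) _ _ ⟨by decide, by decide, by show 1 + 2 ≤ 4; omega, rfl⟩
        (Iso.zag (n := 4) (i := 0) (by decide))
    exact s1.trans s2
  exact h4.trans (h2.trans h6)

/-! ### words -/

private theorem rot_lt {α : Type} (W : Wd α) (i : ℕ) (a : α) :
    cX i a ∈ rtW W ↔ ∃ i', i = i' + 1 ∧ cX i' a ∈ W := by
  unfold rtW shd
  constructor
  · intro h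
    rcases List.mem_cons.1 h with h | h
    · cases h
    rcases List.mem_append.1 h with h | h
    · obtain ⟨⟨k, j⟩, h1, h2⟩ := List.mem_map.1 h
      cases h2
      exact ⟨j, rfl, h1⟩
    · rcases List.mem_singleton.1 h with h
      cases h
  · rintro ⟨i', rfl, h⟩
    refine List.mem_cons_of_mem _ (List.mem_append_left _ ?_)
    exact List.mem_map.2 ⟨_, h, rfl⟩

private theorem rot_Lt {α : Type} (W : Wd α) (a : α) : Lt a (rtW W) ↔ Lt a W := by
  constructor
  · rintro ⟨i, h⟩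
    obtain ⟨i', -, h⟩ := (rot_lt W i a).1 h
    exact ⟨i', h⟩
  · rintro ⟨i, h⟩
    exact ⟨i + 1, (rot_lt W _ a).2 ⟨i, rfl, h⟩⟩

private theorem rot_okd {α : Type} (W : Wd α) (h : Okd W 4 0) : Okd (rtW W) 4 0 := by
  have h1 : Okd (shd 1 W ++ [cN 0]) 6 0 :=
    ((h.sh 1).add 1).append ⟨by show 0 + 2 ≤ 2; omega, rfl⟩
  exact ⟨by show 0 + 0 ≤ 4; omega, h1⟩

private theorem rot_fgt {κ : Type} (W : Wd (Cr κ)) : fgt (rtW W) = rot_w (fgt W) := by
  unfold rtW rot_w fgt shd Pool.Agent.ARB.sh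
  rw [List.map_cons, List.map_append, List.map_map, List.map_map]
  congr 2
  apply List.map_congr_left
  rintro ⟨k, i⟩ -
  cases k <;> rfl

private theorem rot_nX (V : Word) : nX (rot_w V) = nX V := by
  unfold rot_w
  show nX (Agent.ARB.sh 1 V ++ [pN 0]) = nX V
  induction V with
  | nil => rfl
  | cons s V ih =>
    obtain ⟨k, i⟩ := s
    cases k
    · exact ih
    · exact ih
    · exact congrArg Nat.succ ih

/-- lift of the rotated word along a function of the decorations -/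
private theorem rot_lift_sh {α β : Type} (f : α → β) : ∀ (W : Wd β) (v : Wd α),
    mp f v = shd 1 W → ∃ W1, v = shd 1 W1 ∧ mp f W1 = W := by
  intro W
  induction W with
  | nil =>
    intro v h
    have h1 : v = [] := List.map_eq_nil_iff.1 h
    subst h1
    exact ⟨[], rfl, rfl⟩
  | cons s W ih =>
    intro v h
    rcases v with _ | ⟨⟨k, i⟩, v⟩
    · cases h
    have h1 : (⟨k.mp f, i⟩ : Pc β) = ⟨s.k, s.i + 1⟩ := (List.cons.inj h).1
    have h2 : mp f v = shd 1 W := (List.cons.inj h).2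
    obtain ⟨W1, rfl, h3⟩ := ih v h2
    obtain ⟨k', i'⟩ := s
    injection h1 with h4 h5
    have h6 : i = i' + 1 := h5
    subst h6
    refine ⟨⟨k, i'⟩ :: W1, rfl, ?_⟩
    show (⟨k.mp f, i'⟩ : Pc β) :: mp f W1 = ⟨k', i'⟩ :: W
    rw [h3, show k.mp f = k' from h4]

private theorem rot_mpU {α β : Type} (f : α → β) (k : Kd α) (h : k.mp f = .U) : k = .U := by
  cases k
  · rfl
  · cases h
  · cases h

private theorem rot_mpN {α β : Type} (f : α → β) (k : Kd α) (h : k.mp f = .N) : k = .N := by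
  cases k
  · cases h
  · rfl
  · cases h

private theorem rot_lift {α β : Type} (f : α → β) (W : Wd β) (v : Wd α)
    (h : mp f v = rtW W) : ∃ W1, v = rtW W1 ∧ mp f W1 = W := by
  rcases v with _ | ⟨⟨k, i⟩, v⟩
  · cases h
  have h1 : (⟨k.mp f, i⟩ : Pc β) = cU 0 := (List.cons.inj h).1
  have h2 : mp f v = shd 1 W ++ [cN 0] := (List.cons.inj h).2
  injection h1 with h4 h5
  obtain ⟨v1, v2, rfl, h6, h7⟩ := List.map_eq_append_iff.1 h2
  obtain ⟨W1, rfl, h8⟩ := rot_lift_sh f W v1 h6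
  rcases v2 with _ | ⟨⟨k', i'⟩, v2⟩
  · cases h7
  have h9 : (⟨k'.mp f, i'⟩ : Pc β) = cN 0 := (List.cons.inj h7).1
  have h10 : v2 = [] := List.map_eq_nil_iff.1 (List.cons.inj h7).2
  injection h9 with h11 h12
  have e1 := rot_mpU f k h4
  have e2 := rot_mpN f k' h11
  have e3 : i = 0 := h5
  have e4 : i' = 0 := h12
  subst e1 e2 e3 e4 h10
  exact ⟨W1, rfl, h8⟩

private theorem rot_okmp {α β : Type} (f : α → β) : ∀ (W : Wd α) (n m : ℕ), Okd (mp f W) n m →
    Okd W n m := by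
  intro W
  induction W with
  | nil => exact fun n m h => h
  | cons s W ih =>
    intro n m h
    obtain ⟨k, i⟩ := s
    cases k
    · exact ⟨h.1, ih _ _ h.2⟩
    · exact ⟨h.1, ih _ _ h.2⟩
    · exact ⟨h.1, ih _ _ h.2⟩

/-! ### colourings -/

/-- the row of the word inside, from the row of the rotated word -/
private def rot_r {κ : Type} (c : ℕ → κ) : ℕ → κ := fun j => if j = 0 then c 3 else c (j - 1)

private theorem rot_row {κ : Type} (t : κ) (c : ℕ → κ) (j : ℕ) : insC 0 t c (j + 2) = c j := by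
  unfold insC
  rw [if_neg (by omega), if_neg (by omega)]
  rfl

/-- the first and the last gap have the same colour -/
private theorem rot_c4 (hVaC : St_VaC) {κ α : Type}
    (P : κ → κ → κ → κ → α → Prop) (W : Wd α) (hW : Okd W 4 0) (c c' : ℕ → κ)
    (h : Va P c W c') : c 4 = c 0 := by
  obtain ⟨-, g2, -, -, -, g6⟩ := @hVaC κ κ α α
  have h1 : c' 0 = c 4 := g2 P W 4 0 c c' hW h 0
  have h2 := g6 P W c c' h
  rw [← h1, h2]

/-- the colourings of the rotated word -/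
private theorem rot_Va (hVaI : St_VaI) (hVaC : St_VaC) {κ α : Type}
    (P : κ → κ → κ → κ → α → Prop) (W : Wd α) (hW : Okd W 4 0) (c : ℕ → κ) :
    (∃ c'', Va P c (rtW W) c'') ↔ (∃ d, Va P (rot_r c) W d) ∧ c 4 = c 0 := by
  obtain ⟨-, g2, g3, -, -, g6⟩ := @hVaC κ κ α α
  have key : ∀ t, (fun j => insC 0 t c (j + 1)) = fun j => if j = 0 then t else c (j - 1) := by
    intro t
    funext j
    rcases j with _ | j
    · rfl
    · rw [if_neg (by omega)]
      exact rot_row t c j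
  constructor
  · rintro ⟨c'', t, h⟩
    obtain ⟨d, h1, h2, -⟩ := (hVaI.1 P _ _ _ _).1 h
    obtain ⟨⟨d', h3⟩, h4⟩ := (g3 P W 1 4 _ _ hW).1 h1
    rw [key t] at h3
    have h5 := rot_c4 hVaC P W hW _ _ h3
    have h6 : c 3 = t := h5
    subst h6
    refine ⟨⟨d', h3⟩, ?_⟩
    rw [h4] at h2
    have h7 : insC 0 (c 3) c 0 = insC 0 (c 3) c (4 + 2) := h2
    rw [rot_row] at h7
    exact h7.symm
  · rintro ⟨⟨d, h⟩, h4⟩
    refine ⟨_, c 3, (hVaI.1 P _ _ _ _).2 ⟨_, (g3 P W 1 4 _ _ hW).2 ⟨⟨d, ?_⟩, rfl⟩, ?_, rfl⟩⟩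
    · rw [key]
      exact h
    · show insC 0 (c 3) c 0 = insC 0 (c 3) c (4 + 2)
      rw [rot_row]
      exact h4.symm

/-- compare rows -/
private theorem rot_eq (hVaC : St_VaC) {κ α : Type} (P : κ → κ → κ → κ → α → Prop) (W : Wd α)
    (hW : Okd W 4 0) (c d : ℕ → κ) (h : ∀ j ≤ 4, d j = c j) (h' : ∃ c', Va P c W c') :
    ∃ d', Va P d W d' := by
  obtain ⟨-, -, -, g4, -, -⟩ := @hVaC κ κ α α
  obtain ⟨c', h1⟩ := h'
  obtain ⟨d', h2, -⟩ := g4 P W 4 0 c d c' hW h h1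
  exact ⟨d', h2⟩

private theorem rot_rc {κ : Type} (c : ℕ → κ) (h : c 4 = c 0) : ∀ j ≤ 4, rot_r (crt c) j = c j := by
  intro j hj
  unfold rot_r crt
  rcases j with _ | j
  · exact h
  · have h1 : j ≤ 3 := by omega
    simp [h1]

/-! ### the statement -/

theorem thm_Rot (hVaI : St_VaI) (hVaC : St_VaC) (hMp : St_Mp) (hSC : St_SC) : St_Rot := by
  intro κ e pr c W hD
  have hc4 : c 4 = c 0 := by
    obtain ⟨c', h⟩ := hD.vl
    exact rot_c4 hVaC _ W hD.ok _ _ h
  have hP : ∀ j ≤ 4, pr (c j) = decide (j % 2 = 0) := hD.pc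
  refine ⟨?_, ?_, rot_Lt W, ?_, ?_, hc4⟩
  · refine ⟨rot_okd W hD.ok, ?_, ?_, ?_, ?_⟩
    · refine (rot_Va hVaI hVaC _ W hD.ok _).2 ⟨?_, rfl⟩
      exact rot_eq hVaC _ W hD.ok c _ (rot_rc c hc4) hD.vl
    · intro i a h
      obtain ⟨i', rfl, h1⟩ := (rot_lt W i a).1 h
      have h2 := hD.al i' a h1
      have h3 : (a.p = !e ↔ ¬ a.p = e) := by
        cases a.p <;> cases e <;> simp
      rw [h3, h2]
      omega
    · intro a h
      obtain ⟨h1, h2, h3, h4⟩ := hD.gl a ((rot_Lt W a).1 h)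
      have h5 : decide (a.p = !e) = !decide (a.p = e) := by
        cases a.p <;> cases e <;> rfl
      unfold Gl
      simp only [h1, h2, h3, h4, h5, Bool.not_not, and_self]
    · intro j hj
      unfold crt
      by_cases h : j ≤ 3
      · simp only [h, if_true]
        rw [hP (j + 1) (by omega)]
        have : j = 0 ∨ j = 1 ∨ j = 2 ∨ j = 3 := by omega
        rcases this with rfl | rfl | rfl | rfl <;> rfl
      · have h1 : j = 4 := by omega
        subst h1
        simp only [show ¬ (4 ≤ 3) from by omega, if_false]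
        rw [hP 1 (by omega)]
        rfl
  · intro x hF c1 w1 h1 h2 h3
    obtain ⟨W1, rfl, h4⟩ := rot_lift _ W w1 h2
    have hW1 : Okd W1 4 0 := by
      have h5 := hD.ok
      rw [← h4] at h5
      exact rot_okmp _ W1 4 0 h5
    obtain ⟨h6, h7⟩ := (rot_Va hVaI hVaC _ W1 hW1 c1).1 h3
    have h8 := rot_eq hVaC _ W1 hW1 (rot_r c1)
      (fun j => if j ≤ 4 then rot_r c1 j else (c j, false)) (fun j hj => by simp [hj]) h6
    have hrow : ∀ j, ((fun j => if j ≤ 4 then rot_r c1 j else (c j, false)) j).1 = c j := by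
      intro j
      by_cases h : j ≤ 4
      · simp only [h, if_true]
        rcases j with _ | j
        · show (c1 3).1 = c 0
          rw [h1, ← hc4]
          rfl
        · show (c1 j).1 = c (j + 1)
          rw [h1]
          unfold crt
          have : j ≤ 3 := by omega
          simp [this]
      · simp only [h, if_false]
    obtain ⟨β, h9, h10⟩ := hF _ W1 hrow h4 h8
    refine ⟨β, fun j hj hx => ?_, fun a ha => h10 a ((rot_Lt W1 a).1 ha)⟩
    by_cases h : j ≤ 3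
    · have hx' : c (j + 1) = x := by
        have : crt c j = c (j + 1) := by unfold crt; simp [h]
        rw [← this]; exact hx
      have h11 := h9 (j + 1) (by omega) hx'
      have h12 : j + 1 ≤ 4 := by omega
      simp only [h12, if_true] at h11
      exact h11
    · have h13 : j = 4 := by omega
      subst h13
      rw [h7]
      exact h9 1 (by omega) hx
  · rw [rot_fgt, rot_nX]
  · intro hS hU
    have hV : Ok (fgt W) 4 0 := (hMp.2.2.1.2.2.1 W 4 0).1 hD.ok
    rw [rot_fgt] at hS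
    have h1 := rot_iso e (fgt W) hV
    have h2 : Un (bracket (toD (IW (!e) ++ rot_w (fgt W)))) :=
      hSC.1 _ _ (rot_okI e _ hV) (by unfold IW; simp) h1.symm hU
    exact h1.symm.trans (hS h2)

end Pool.LSG
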