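import Pool.Agent.LSG.St

/-!
# LS, geometry block: the induction
-/

set_option autoImplicit false

namespace Pool.LSG

open Pool.Agent.ARB Pool.Agent.Helper2 Pool.ALT Pool.LSP

theorem s_ev_symm {κ : Type} {e : Bool} {a : Cr κ} {x y : κ} (h : Ev e a x y) : Ev e a y x := by
  rcases h with ⟨h1, h2⟩ | ⟨h1, h2⟩
  · exact Or.inl ⟨h1, h2.symm⟩
  · exact Or.inr ⟨h1, h2.symm⟩

/-- everything known about a word in the induction -/
private structure SF {κ : Type} (e : Bool) (pr : κ → Bool) (c : ℕ → κ) (W : Wd (Cr κ)) : Prop where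
  d : Dec e pr c 4 W
  f : ∀ z, Fa z c 4 W
  i : ∀ (e0 : Bool) (V0 : Word), Ok V0 4 0 → AltW e0 V0 → nX V0 < nX (fgt W) → S4 e0 V0

private theorem s_rot (hRot : St_Rot) {κ : Type} {e : Bool} {pr : κ → Bool} {c : ℕ → κ}
    {W : Wd (Cr κ)} (h : SF e pr c W) : SF (!e) (fun x => !pr x) (crt c) (rtW W) := by
  obtain ⟨h1, h2, _, h4, _, _⟩ := hRot e pr c W h.d
  refine ⟨h1, fun z => h2 z (h.f z), ?_⟩
  rw [h4]
  exact h.i

/-- the case of `St_Cor` in which the letter is at the corner between the gaps 1 and 2 -/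
private def SC1 {κ : Type} (e : Bool) (c : ℕ → κ) (W : Wd (Cr κ)) (x y : κ) (r a p : Cr κ) : Prop :=
  c 0 ≠ c 2 ∧ c 1 ≠ c 3 ∧ y ≠ c 0 ∧ y ≠ c 2 ∧ x ≠ c 1 ∧ x ≠ c 3 ∧ Lt r W ∧ Lt a W ∧ Lt p W ∧
    Ev e r (c 0) y ∧ Ev e a y (c 2) ∧ Ev (!e) a (c 1) x ∧ Ev (!e) p x (c 3)

private theorem s_tg (hTg : St_Tg) {κ : Type} {e : Bool} {pr : κ → Bool} {c : ℕ → κ}
    {W : Wd (Cr κ)} (h : SF e pr c W) {x y : κ} {r a p : Cr κ} (h' : SC1 e c W x y r a p) :
    S4 e (fgt W) := by
  obtain ⟨h1, h2, h3, h4, h5, h6, h7, h8, h9, h10, h11, h12, h13⟩ := h'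
  exact hTg e pr c W x y r a p h.d h.f h1 h2 h3 h4 h5 h6 h7 h8 h9 h10 h11 h12 h13 h.i

private theorem s_main (hCor : St_Cor) (hTg : St_Tg) (hRot : St_Rot) {κ : Type} {e : Bool}
    {pr : κ → Bool} {c : ℕ → κ} {W : Wd (Cr κ)} (h : SF e pr c W) {x y : κ} {r q s p : Cr κ}
    (h1 : c 0 ≠ c 2) (h2 : c 1 ≠ c 3) (h3 : y ≠ c 0) (h4 : y ≠ c 2) (h5 : x ≠ c 1) (h6 : x ≠ c 3)
    (hr : Lt r W) (hq : Lt q W) (hs : Lt s W) (hp : Lt p W) (er : Ev e r (c 0) y)
    (eq : Ev e q y (c 2)) (es : Ev (!e) s (c 1) x) (ep : Ev (!e) p x (c 3)) : S4 e (fgt W) := by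
  obtain ⟨a, ha, h7, h8⟩ := hCor e pr c W x y r q s p h.d h.f h1 h2 h3 h4 h5 h6 hr hq hs hp er eq
    es ep
  obtain ⟨_, _, l1, _, t1, c4⟩ := hRot e pr c W h.d
  have g1 := s_rot hRot h
  obtain ⟨_, _, l2, _, t2, _⟩ := hRot _ _ _ _ g1.d
  have g2 := s_rot hRot g1
  obtain ⟨_, _, l3, _, t3, _⟩ := hRot _ _ _ _ g2.d
  have g3 := s_rot hRot g2
  -- the rotated colours
  have a0 : crt c 0 = c 1 := rfl
  have a1 : crt c 1 = c 2 := rfl
  have a2 : crt c 2 = c 3 := rfl
  have a3 : crt c 3 = c 0 := c4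
  have b0 : crt (crt c) 0 = c 2 := rfl
  have b1 : crt (crt c) 1 = c 3 := rfl
  have b2 : crt (crt c) 2 = c 0 := c4
  have b3 : crt (crt c) 3 = c 1 := rfl
  have d0 : crt (crt (crt c)) 0 = c 3 := rfl
  have d1 : crt (crt (crt c)) 1 = c 0 := c4
  have d2 : crt (crt (crt c)) 2 = c 1 := rfl
  have d3 : crt (crt (crt c)) 3 = c 2 := rfl
  rcases h7 with h7 | h7
  · rcases h8 with h8 | h8
    · -- corner of the gaps 0 and 1: three rotations
      refine t1 (t2 (t3 (s_tg hTg g3 (x := y) (y := x) (r := p) (a := a) (p := q) ?_)))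
      unfold SC1
      rw [d0, d1, d2, d3, l3, l2, l1, l3, l2, l1, l3, l2, l1, Bool.not_not]
      refine ⟨h2.symm, h1, h6, h5, h3, h4, hp, ha, hq, s_ev_symm ep, s_ev_symm h8, ?_, ?_⟩
      · rw [Bool.not_not]
        exact h7
      · rw [Bool.not_not]
        exact eq
    · -- corner of the gaps 3 and 0: two rotations
      refine t1 (t2 (s_tg hTg g2 (x := x) (y := y) (r := q) (a := a) (p := s) ?_))
      unfold SC1
      rw [b0, b1, b2, b3, l2, l1, l2, l1, l2, l1, Bool.not_not]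
      exact ⟨h1.symm, h2.symm, h4, h3, h6, h5, hq, ha, hs, s_ev_symm eq, s_ev_symm h7,
        s_ev_symm h8, s_ev_symm es⟩
  · rcases h8 with h8 | h8
    · exact s_tg hTg h (x := x) (y := y) (r := r) (a := a) (p := p)
        ⟨h1, h2, h3, h4, h5, h6, hr, ha, hp, er, h7, h8, ep⟩
    · -- corner of the gaps 2 and 3: one rotation
      refine t1 (s_tg hTg g1 (x := y) (y := x) (r := s) (a := a) (p := r) ?_)
      unfold SC1
      rw [a0, a1, a2, a3, l1, l1, l1, Bool.not_not]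
      exact ⟨h2, h1.symm, h5, h6, h4, h3, hs, ha, hr, es, h8, s_ev_symm h7, s_ev_symm er⟩

private theorem s_okI (e : Bool) : Ok (IW e) 0 4 := by
  cases e <;> exact ⟨by decide, by decide, by decide, rfl⟩

private theorem s_ok (e : Bool) {V : Word} (hV : Ok V 4 0) : Ok (IW e ++ V) 0 0 :=
  Ok.append (s_okI e) hV

theorem thm_S (hAA : St_AA) (hSC : St_SC) (hIWN : St_IWN) (hBR : St_BR) (hNL : St_NL)
    (hRed : St_Red) (hAdj : St_Adj) (hAdj2 : St_Adj2) (hRot : St_Rot) (hCor : St_Cor)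
    (hTg : St_Tg) : St_S := by
  have key : ∀ (n : ℕ) (e : Bool) (V : Word), Ok V 4 0 → AltW e V → nX V = n → S4 e V := by
    intro n
    induction n using Nat.strong_induction_on with
    | _ n IH =>
    intro e V hV hA hn hU
    obtain ⟨hok, hiso⟩ := hIWN.1 V hV
    have i1 : Iso 0 (NW ((pU 2 :: pU 3 :: V) ++ [pX 0 (!e)])) (IW e ++ V) := by
      have j1 := hIWN.2.1 (pU 2 :: pU 3 :: V) (!e) hok
      rw [Bool.not_not] at j1
      exact j1.trans (Iso.left (s_okI e) hiso)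
    have hU' := hSC.1 _ _ (s_ok e hV) (by simp [IW]) i1.symm hU
    have hAw : AltW e (pU 2 :: pU 3 :: V) := by
      intro p i hm
      rcases List.mem_cons.1 hm with h | h
      · cases h
      rcases List.mem_cons.1 h with h | h
      · cases h
      exact hA p i h
    obtain ⟨κ, pr, c, W, hW, hD, hF, b1, b2, b3, b4, b5, b6, b7, b8⟩ := hBR.1 e V hV hA hok
    -- the loop case
    have loop : (∃ a e' x, Lt a W ∧ Ev e' a x x) → Iso 0 (IW e ++ V) O1 := by
      intro hl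
      obtain ⟨V', hV', hA', hn', hi⟩ := hNL e pr c 4 W hD hF hl
      rw [hW] at hi hn'
      have i2 : Iso 0 (IW e ++ V) (IW e ++ V') := Iso.left (s_okI e) hi
      have hU2 := hSC.1 _ _ (s_ok e hV) (by simp [IW]) i2 hU
      exact i2.trans (IH (nX V') (by omega) e V' hV' hA' rfl hU2)
    have red : (c 0 = c 2 ∨ c 1 = c 3) → Iso 0 (IW e ++ V) O1 := by
      intro hl
      have h1 := hRed e pr c W hD hF hl
      rw [hW] at h1
      exact h1 hU
    by_cases n02 : c 0 = c 2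
    · exact red (Or.inl n02)
    by_cases n13 : c 1 = c 3
    · exact red (Or.inr n13)
    have adj : (∃ a, Lt a W ∧ Ev e a (c 0) (c 2)) → Iso 0 (IW e ++ V) O1 := by
      intro hl
      have h1 := hAdj e pr c W hD hF n02 hl
      rw [hW] at h1
      exact h1 hU
    have adj2 : (∃ a, Lt a W ∧ Ev (!e) a (c 1) (c 3)) → Iso 0 (IW e ++ V) O1 := by
      intro hl
      have h1 := hAdj2 e pr c W hD hF n13 hl
      rw [hW] at h1
      exact h1 hU
    rcases hAA e _ hok hAw hU' with h | h | h | h | h | h | ⟨hE, hO⟩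
    · exact loop (b1 h)
    · exact loop (b2 h)
    · exact red (Or.inl (b3 h))
    · exact red (Or.inr (b4 h))
    · exact adj (b5 h)
    · exact adj2 (b6 h)
    · obtain ⟨r, q, y, hr, hq, er, eq⟩ := b7 hE
      obtain ⟨s, p, x, hs, hp, es, ep⟩ := b8 hO
      by_cases h3 : y = c 0
      · exact adj ⟨q, hq, h3 ▸ eq⟩
      by_cases h4 : y = c 2
      · exact adj ⟨r, hr, h4 ▸ er⟩
      by_cases h5 : x = c 1
      · exact adj2 ⟨p, hp, h5 ▸ ep⟩
      by_cases h6 : x = c 3
      · exact adj2 ⟨s, hs, h6 ▸ es⟩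
      have hSF : SF e pr c W := ⟨hD, hF, fun e0 V0 o0 a0 l0 =>
        IH (nX V0) (by rw [hW] at l0; omega) e0 V0 o0 a0 rfl⟩
      have h7 := s_main hCor hTg hRot hSF n02 n13 h3 h4 h5 h6 hr hq hs hp er eq es ep
      rw [hW] at h7
      exact h7 hU
  intro e V hV hA
  exact key (nX V) e V hV hA rfl

/-- a crossing and an alternating tangle: the bracket detects the unknot -/
theorem thm_NoBad (hS : St_S) (hK2 : St_K2) (hIWN : St_IWN) (hSC : St_SC) : St_NoBad := by
  intro e w hw hA p hU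
  by_cases hp : p = e
  · subst hp
    have hok : Ok (pU 1 :: (w ++ [pX 0 p, pN 1, pN 0])) 2 0 := by
      refine ⟨by decide, ?_⟩
      refine Ok.append (hw.add 2) ?_
      cases p <;> exact ⟨by decide, by decide, by decide, rfl⟩
    have hal : AltW p (pU 1 :: (w ++ [pX 0 p, pN 1, pN 0])) := by
      intro q i hm
      rcases List.mem_cons.1 hm with h | h
      · cases h
      rcases List.mem_append.1 h with h | h
      · exact hA q i h
      · rcases List.mem_cons.1 h with h | h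
        · cases h
          simp
        rcases List.mem_cons.1 h with h | h
        · cases h
        rcases List.mem_cons.1 h with h | h
        · cases h
        · cases h
    have e1 : NW (w ++ [pX 0 p]) = [pU 0] ++ (pU 1 :: (w ++ [pX 0 p, pN 1, pN 0])) := by
      show pU 0 :: pU 1 :: ((w ++ [pX 0 p]) ++ [pN 1, pN 0]) = _
      rw [List.append_assoc]
      rfl
    rw [e1] at hU ⊢
    have h1 := hK2 p _ hok hal hU
    exact Iso.left (z := [pU 0]) (k := 2) ⟨by decide, rfl⟩ h1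
  · have hp' : p = !e := by
      cases p <;> cases e <;> simp_all
    subst hp'
    have i1 := hIWN.2.1 w (!e) hw
    rw [Bool.not_not] at i1
    have hok : Ok (w ++ [pN 1, pN 0]) 4 0 := Ok.append (hw.add 2) ⟨by decide, by decide, rfl⟩
    have hal : AltW e (w ++ [pN 1, pN 0]) := by
      intro q i hm
      rcases List.mem_append.1 hm with h | h
      · exact hA q i h
      · rcases List.mem_cons.1 h with h | h
        · cases h
        rcases List.mem_cons.1 h with h | h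
        · cases h
        · cases h
    have hokN : Ok (NW (w ++ [pX 0 (!e)])) 0 0 :=
      ok_NW (Ok.append hw ⟨by show 0 + 2 ≤ 2; omega, rfl⟩)
    have hU' := hSC.1 _ _ hokN (by simp [NW]) i1 hU
    exact i1.trans (hS e _ hok hal hU')

end Pool.LSG
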