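import Pool.Agent.LSG.St

/-!
# LS, geometry block: module SL (slicing lemma)
-/

set_option autoImplicit false

namespace Pool.LSG

open Pool.Agent.ARB

variable {α : Type} [Rt α]

/-- the word can be cut along a path joining the gaps `a`, `b` -/
private def sl_Cut (w : Wd α) (N a b : ℕ) : Prop :=
  ∃ A B : Wd α, Okd A (b - a) 0 ∧ Okd B (N - (b - a)) 0 ∧ A.length + B.length = w.length ∧
    PIso N w (shd a A ++ B)

/-- the slicing lemma for the word `w` -/
private def sl_S (w : Wd α) : Prop :=
  ∀ N, Okd w N 0 → ∀ a b, a < b → b ≤ N → Rel w a b → sl_Cut w N a b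

omit [Rt α] in
private theorem sl_okm {A : Wd α} {a m N : ℕ} (h : Okd A m 0) (hN : a + m ≤ N) :
    Okd (shd a A) N (N - m) := by
  have h1 := (h.sh a).add (N - (m + a))
  exact h1.cast (by omega) (by omega)

/-- a piece on the right of `A` -/
private theorem sl_right (s : Pc α) (A : Wd α) (a m N : ℕ) (hA : Okd A m 0) (h1 : a + m ≤ s.i)
    (h2 : s.i + s.k.inn ≤ N) :
    PIso N (s :: shd a A) (shd a A ++ [⟨s.k, s.i - m⟩]) := by
  have hu : Okd (shd a A) (m + a) a := (hA.sh a).cast rfl (by omega)
  have hw : Okd ([⟨s.k, s.i - (m + a)⟩] : Wd α) (N - (m + a))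
      (N - (m + a) - s.k.inn + s.k.out) := by
    refine ⟨?_, rfl⟩
    show s.i - (m + a) + s.k.inn ≤ N - (m + a)
    omega
  have h3 := (PIso.comm (shd a A) [⟨s.k, s.i - (m + a)⟩] _ _ _ _ hu hw).symm
  have e0 : m + a + (N - (m + a)) = N := by omega
  have e1 : s.i - (m + a) + a = s.i - m := by omega
  have e2 : s.i - (m + a) + (m + a) = s.i := by omega
  rw [e0, shd_cons, shd_cons, shd_nil, shd_nil] at h3
  rw [e1, e2] at h3
  exact h3

/-- a piece on the left of `A` -/
private theorem sl_left (s : Pc α) (A : Wd α) (a m N : ℕ) (hA : Okd A m 0)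
    (h1 : s.i + s.k.inn ≤ a) (h2 : a + m ≤ N) :
    PIso N (s :: shd (a - s.k.inn + s.k.out) A) (shd a A ++ [s]) :=
  (PIso.comm_piece s a h1 A m 0 hA).le h2

/-- exchange of two closed blocks -/
private theorem sl_blk (A C : Wd α) (a m p N : ℕ) (hA : Okd A m 0) (hC : Okd C p 0)
    (h : a + m + p ≤ N) :
    PIso N (shd (a + m) C ++ shd a A) (shd a A ++ shd a C) := by
  have hu : Okd (shd a A) (a + m) a := (hA.sh a).cast (by omega) (by omega)
  exact ((PIso.comm (shd a A) C _ _ _ _ hu hC).symm).le h

private theorem sl_cutR (s : Pc α) (w : Wd α) (N a b : ℕ) (hw : Okd (s :: w) N 0) (hab : a ≤ b)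
    (hb : b ≤ s.i) (h : sl_Cut w (N - s.k.inn + s.k.out) a b) : sl_Cut (s :: w) N a b := by
  obtain ⟨A, B, hA, hB, hl, hp⟩ := h
  have h0 := hw.1
  refine ⟨A, ⟨s.k, s.i - (b - a)⟩ :: B, hA, ⟨?_, ?_⟩, ?_, ?_⟩
  · show s.i - (b - a) + s.k.inn ≤ N - (b - a)
    omega
  · exact hB.cast (by show _ = N - (b - a) - s.k.inn + s.k.out; omega) rfl
  · simp only [List.length_cons]
    omega
  · have h1 : PIso N (s :: w) (s :: (shd a A ++ B)) := by
      have h2 : Okd [s] N (N - s.k.inn + s.k.out) := Okd.single h0
      exact PIso.left h2 hp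
    have h3 := (sl_right s A a (b - a) N hA (by omega) h0).right B
    rw [List.append_assoc] at h3
    exact h1.trans h3

private theorem sl_cutL (s : Pc α) (w : Wd α) (N a b : ℕ) (hw : Okd (s :: w) N 0) (hab : a ≤ b)
    (hbN : b ≤ N) (ha : s.i + s.k.inn ≤ a)
    (h : sl_Cut w (N - s.k.inn + s.k.out) (a - s.k.inn + s.k.out) (b - s.k.inn + s.k.out)) :
    sl_Cut (s :: w) N a b := by
  obtain ⟨A, B, hA, hB, hl, hp⟩ := h
  have h0 := hw.1
  have hA' : Okd A (b - a) 0 := hA.cast (by omega) rfl
  refine ⟨A, s :: B, hA', ⟨?_, ?_⟩, ?_, ?_⟩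
  · omega
  · exact hB.cast (by omega) rfl
  · simp only [List.length_cons]
    omega
  · have h1 : PIso N (s :: w) (s :: (shd (a - s.k.inn + s.k.out) A ++ B)) := by
      have h2 : Okd [s] N (N - s.k.inn + s.k.out) := Okd.single h0
      exact PIso.left h2 hp
    have h3 := (sl_left s A a (b - a) N hA' ha (by omega)).right B
    rw [List.append_assoc] at h3
    exact h1.trans h3

private theorem sl_cutI (s : Pc α) (w : Wd α) (N a b : ℕ) (hw : Okd (s :: w) N 0)
    (hbN : b ≤ N) (ha : a ≤ s.i) (hb : s.i + s.k.inn ≤ b)
    (h : sl_Cut w (N - s.k.inn + s.k.out) a (b - s.k.inn + s.k.out)) :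
    sl_Cut (s :: w) N a b := by
  obtain ⟨A, B, hA, hB, hl, hp⟩ := h
  have h0 := hw.1
  refine ⟨⟨s.k, s.i - a⟩ :: A, B, ⟨?_, ?_⟩, ?_, ?_, ?_⟩
  · show s.i - a + s.k.inn ≤ b - a
    omega
  · exact hA.cast (by show _ = b - a - s.k.inn + s.k.out; omega) rfl
  · exact hB.cast (by omega) rfl
  · simp only [List.length_cons]
    omega
  · have h1 : PIso N (s :: w) (s :: (shd a A ++ B)) := by
      have h2 : Okd [s] N (N - s.k.inn + s.k.out) := Okd.single h0
      exact PIso.left h2 hp
    have e : s.i - a + a = s.i := by omega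
    rw [shd_cons]
    rw [e]
    exact h1

/-- chords do not cross -/
private theorem sl_nc (hRel : St_Rel) (hRelI : St_RelI) (hRC : St_RC) (w : Wd α) (h : sl_S w)
    (N : ℕ) (hw : Okd w N 0) (a b c d : ℕ) (hab : a < b) (hbc : b < c) (hcd : c < d) (hd : d ≤ N)
    (h1 : Rel w a c) (h2 : Rel w b d) : Rel w a b := by
  obtain ⟨A, B, hA, hB, hl, hp⟩ := h N hw a c (by omega) (by omega) h1
  obtain ⟨r1, r2, r3⟩ := hRC A B a (c - a) N hA hB (by omega)
  have h3 := (hRelI.2 w _ N hw hp b d (by omega) (by omega)).1 h2
  have h4 := r3 b d (by omega) (by omega) (by omega) (by omega) h3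
  have e : a - a = 0 := by omega
  have h5 := (r1 b a (by omega) (by omega) (by omega) (by omega)).2 (by rw [e]; exact h4)
  have h6 := (hRelI.2 w _ N hw hp b a (by omega) (by omega)).2 h5
  exact (hRel w).2.1 _ _ h6

/-- the gaps `a < i < b` are joined through both sides of the cup `i` -/
private theorem sl_cup2 (hRelI : St_RelI) (hRC : St_RC) (w : Wd α)
    (ih : ∀ v : Wd α, v.length ≤ w.length → sl_S v) (N i a b : ℕ)
    (hw : Okd w (N + 2) 0) (hai : a < i) (hib : i < b) (hbN : b ≤ N)
    (h1 : Rel w a i) (h2 : Rel w (i + 2) (b + 2)) : sl_Cut (cU i :: w) N a b := by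
  obtain ⟨A, B, hA, hB, hl, hp⟩ := ih w le_rfl (N + 2) hw a i hai (by omega) h1
  obtain ⟨r1, r2, r3⟩ := hRC A B a (i - a) (N + 2) hA hB (by omega)
  have h3 := (hRelI.2 w _ (N + 2) hw hp (i + 2) (b + 2) (by omega) (by omega)).1 h2
  have h4 := (r2 (i + 2) (b + 2) (by omega) (by omega) (by omega) (by omega)).1 h3
  have e1 : cl a (i - a) (i + 2) = a + 2 := by
    unfold cl
    rw [if_neg (by omega)]
    omega
  have e2 : cl a (i - a) (b + 2) = b + 2 - (i - a) := by
    unfold cl
    rw [if_neg (by omega)]
  rw [e1, e2] at h4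
  obtain ⟨A2, B2, hA2, hB2, hl2, hp2⟩ := ih B (by omega) _ hB (a + 2) (b + 2 - (i - a))
    (by omega) (by omega) h4
  have hA2' : Okd A2 (b - i) 0 := hA2.cast (by omega) rfl
  have hB2' : Okd B2 (N + 2 - (b - a)) 0 := hB2.cast (by omega) rfl
  refine ⟨A ++ A2, cU a :: B2, ?_, ⟨?_, ?_⟩, ?_, ?_⟩
  · exact ((hA.add (b - i)).cast (by omega) (by omega)).append hA2'
  · show a + 0 ≤ N - (b - a)
    omega
  · exact hB2'.cast (by show _ = N - (b - a) - 0 + 2; omega) rfl
  · simp only [List.length_cons, List.length_append]
    omega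
  · have k1 : PIso N (cU i :: w) (cU i :: (shd a A ++ B)) := by
      have h2 : Okd [(cU i : Pc α)] N (N + 2) := ⟨by show i + 0 ≤ N; omega, rfl⟩
      exact PIso.left h2 hp
    have k2 : PIso N (cU i :: (shd a A ++ B)) (shd a A ++ (cU a :: B)) := by
      have h3 := (sl_right (cU i) A a (i - a) N hA (by show a + (i - a) ≤ i; omega)
        (by show i + 0 ≤ N; omega)).right B
      rw [List.append_assoc] at h3
      have e : i - (i - a) = a := by omega
      have h4 : PIso N (cU i :: (shd a A ++ B)) (shd a A ++ (cU (i - (i - a)) :: B)) := h3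
      rw [e] at h4
      exact h4
    have k3 : PIso (N - (i - a)) (cU a :: B) (shd a A2 ++ (cU a :: B2)) := by
      have q1 : PIso (N - (i - a)) (cU a :: B) (cU a :: (shd (a + 2) A2 ++ B2)) := by
        have q2 : Okd [(cU a : Pc α)] (N - (i - a)) (N + 2 - (i - a)) :=
          ⟨by show a + 0 ≤ N - (i - a); omega, by show N - (i - a) - 0 + 2 = _; omega⟩
        exact PIso.left q2 hp2
      have q3 := (sl_left (cU a) A2 a (b - i) (N - (i - a)) hA2' (by show a + 0 ≤ a; omega)
        (by omega)).right B2
      rw [List.append_assoc] at q3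
      exact q1.trans q3
    have k4 := PIso.left (sl_okm hA (show a + (i - a) ≤ N by omega)) k3
    rw [shd_append, List.append_assoc]
    exact k1.trans (k2.trans k4)

/-- the gaps `a < b < i`, third alternative -/
private theorem sl_cup3 (hRel : St_Rel) (hRelI : St_RelI) (hRC : St_RC) (w : Wd α)
    (ih : ∀ v : Wd α, v.length ≤ w.length → sl_S v) (N i a b : ℕ)
    (hw : Okd w (N + 2) 0) (hab : a < b) (hbi : b < i) (hiN : i ≤ N)
    (h1 : Rel w a (i + 2)) (h2 : Rel w i b) : sl_Cut (cU i :: w) N a b := by
  obtain ⟨A, B, hA, hB, hl, hp⟩ := ih w le_rfl (N + 2) hw a (i + 2) (by omega) (by omega) h1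
  obtain ⟨r1, r2, r3⟩ := hRC A B a (i + 2 - a) (N + 2) hA hB (by omega)
  have h3 := (hRelI.2 w _ (N + 2) hw hp i b (by omega) (by omega)).1 h2
  have h4 := (r1 i b (by omega) (by omega) (by omega) (by omega)).1 h3
  have h5 := (hRel A).2.1 _ _ h4
  obtain ⟨A2, A3, hA2, hA3, hl2, hp2⟩ := ih A (by omega) _ hA (b - a) (i - a)
    (by omega) (by omega) h5
  have hA2' : Okd A2 (i - b) 0 := hA2.cast (by omega) rfl
  have hA3' : Okd A3 (b - a + 2) 0 := hA3.cast (by omega) rfl
  have hC : Okd (cU (b - a) :: A3) (b - a) 0 :=
    ⟨by show b - a + 0 ≤ b - a; omega, hA3'.cast (by show _ = b - a - 0 + 2; omega) rfl⟩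
  refine ⟨cU (b - a) :: A3, shd a A2 ++ B, hC, ?_, ?_, ?_⟩
  · refine (sl_okm hA2' (show a + (i - b) ≤ N - (b - a) by omega)).append ?_
    exact hB.cast (by omega) rfl
  · simp only [List.length_cons, List.length_append, shd_length]
    omega
  · have hc : Okd [(cU i : Pc α)] N (N + 2) := ⟨by show i + 0 ≤ N; omega, rfl⟩
    have k1 : PIso N (cU i :: w) (cU i :: (shd a A ++ B)) := PIso.left hc hp
    have k2 : PIso N (cU i :: (shd a A ++ B)) (cU i :: (shd b A2 ++ (shd a A3 ++ B))) := by
      have q1 := ((hp2.sh a).le (show i + 2 - a + a ≤ N + 2 by omega)).right B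
      rw [shd_append, shd_shd, List.append_assoc] at q1
      have e : a + (b - a) = b := by omega
      rw [e] at q1
      exact PIso.left hc q1
    have k3 : PIso N (cU i :: (shd b A2 ++ (shd a A3 ++ B)))
        (shd b A2 ++ (cU b :: (shd a A3 ++ B))) := by
      have q1 := (sl_right (cU i) A2 b (i - b) N hA2' (by show b + (i - b) ≤ i; omega)
        (by show i + 0 ≤ N; omega)).right (shd a A3 ++ B)
      rw [List.append_assoc] at q1
      have e : i - (i - b) = b := by omega
      have q2 : PIso N (cU i :: (shd b A2 ++ (shd a A3 ++ B)))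
        (shd b A2 ++ (cU (i - (i - b)) :: (shd a A3 ++ B))) := q1
      rw [e] at q2
      exact q2
    have k4 : PIso N (shd b A2 ++ (cU b :: (shd a A3 ++ B)))
        (shd a (cU (b - a) :: A3) ++ (shd a A2 ++ B)) := by
      have q1 := (sl_blk (cU (b - a) :: A3) A2 a (b - a) (i - b) N hC hA2' (by omega)).right B
      have e : a + (b - a) = b := by omega
      have e' : b - a + a = b := by omega
      rw [e, List.append_assoc, List.append_assoc] at q1
      have q2 : shd a (cU (b - a) :: A3) = (cU b :: shd a A3 : Wd α) := by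
        rw [shd_cons]
        show (⟨Kd.U, b - a + a⟩ :: _ : Wd α) = _
        rw [e']
      rw [q2] at q1 ⊢
      exact q1
    exact k1.trans (k2.trans (k3.trans k4))

/-- the gaps `i < a < b`, third alternative -/
private theorem sl_cup4 (hRel : St_Rel) (hRelI : St_RelI) (hRC : St_RC) (w : Wd α)
    (ih : ∀ v : Wd α, v.length ≤ w.length → sl_S v) (N i a b : ℕ)
    (hw : Okd w (N + 2) 0) (hia : i < a) (hab : a < b) (hbN : b ≤ N)
    (h1 : Rel w (a + 2) (i + 2)) (h2 : Rel w i (b + 2)) : sl_Cut (cU i :: w) N a b := by
  obtain ⟨A, B, hA, hB, hl, hp⟩ := ih w le_rfl (N + 2) hw i (b + 2) (by omega) (by omega) h2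
  obtain ⟨r1, r2, r3⟩ := hRC A B i (b + 2 - i) (N + 2) hA hB (by omega)
  have h3 := (hRelI.2 w _ (N + 2) hw hp (a + 2) (i + 2) (by omega) (by omega)).1 h1
  have h4 := (r1 (a + 2) (i + 2) (by omega) (by omega) (by omega) (by omega)).1 h3
  have h5 := (hRel A).2.1 _ _ h4
  have e0 : i + 2 - i = 2 := by omega
  rw [e0] at h5
  obtain ⟨A2, A3, hA2, hA3, hl2, hp2⟩ := ih A (by omega) _ hA 2 (a + 2 - i)
    (by omega) (by omega) h5
  have hA2' : Okd A2 (a - i) 0 := hA2.cast (by omega) rfl
  have hA3' : Okd A3 (b - a + 2) 0 := hA3.cast (by omega) rfl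
  have hC : Okd (cU 0 :: A3) (b - a) 0 :=
    ⟨by show 0 + 0 ≤ b - a; omega, hA3'.cast (by show _ = b - a - 0 + 2; omega) rfl⟩
  refine ⟨cU 0 :: A3, shd i A2 ++ B, hC, ?_, ?_, ?_⟩
  · refine (sl_okm hA2' (show i + (a - i) ≤ N - (b - a) by omega)).append ?_
    exact hB.cast (by omega) rfl
  · simp only [List.length_cons, List.length_append, shd_length]
    omega
  · have hc : Okd [(cU i : Pc α)] N (N + 2) := ⟨by show i + 0 ≤ N; omega, rfl⟩
    have k1 : PIso N (cU i :: w) (cU i :: (shd i A ++ B)) := PIso.left hc hp
    have k2 : PIso N (cU i :: (shd i A ++ B)) (cU i :: (shd (i + 2) A2 ++ (shd i A3 ++ B))) := by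
      have q1 := ((hp2.sh i).le (show b + 2 - i + i ≤ N + 2 by omega)).right B
      rw [shd_append, shd_shd, List.append_assoc] at q1
      exact PIso.left hc q1
    have k3 : PIso N (cU i :: (shd (i + 2) A2 ++ (shd i A3 ++ B)))
        (shd i A2 ++ (cU i :: (shd i A3 ++ B))) := by
      have q1 := (sl_left (cU i) A2 i (a - i) N hA2' (by show i + 0 ≤ i; omega)
        (by omega)).right (shd i A3 ++ B)
      rw [List.append_assoc] at q1
      exact q1
    have k4 : PIso N (shd i A2 ++ (cU i :: (shd i A3 ++ B)))
        (shd a (cU 0 :: A3) ++ (shd i A2 ++ B)) := by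
      have q1 := (sl_blk A2 (cU 0 :: A3) i (a - i) (b - a) N hA2' hC (by omega)).symm.right B
      have e : i + (a - i) = a := by omega
      rw [e, List.append_assoc, List.append_assoc] at q1
      have q2 : shd i (cU 0 :: A3) = (cU i :: shd i A3 : Wd α) := by
        rw [shd_cons]
        show (⟨Kd.U, 0 + i⟩ :: _ : Wd α) = _
        rw [Nat.zero_add]
      rw [q2] at q1
      exact q1
    exact k1.trans (k2.trans (k3.trans k4))

private theorem sl_main (hRel : St_Rel) (hRelI : St_RelI) (hRC : St_RC) :
    ∀ (L : ℕ) (w : Wd α), w.length ≤ L → sl_S w := by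
  intro L
  induction L with
  | zero =>
    intro w hL N hw a b hab hb hR
    have h1 : w = [] := List.eq_nil_of_length_eq_zero (by omega)
    subst h1
    have h2 : a = b := hR
    omega
  | succ L ih =>
    intro w0 hL N hw a b hab hb hR
    cases w0 with
    | nil =>
      have h2 : a = b := hR
      omega
    | cons s w =>
      have hL1 : w.length ≤ L := by
        simp only [List.length_cons] at hL
        omega
      have ihv : ∀ v : Wd α, v.length ≤ w.length → sl_S v := fun v hv => ih v (by omega)
      have ihw : sl_S w := ih w hL1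
      obtain ⟨rf, sy, tr, -, -, -⟩ := hRel w
      obtain ⟨k, i⟩ := s
      cases k with
      | U =>
        have h0 : i ≤ N := hw.1
        have hw1 : Okd w (N + 2) 0 := hw.2
        -- first alternative
        have first : Rel w (up i a) (up i b) → sl_Cut (cU i :: w) N a b := by
          intro h
          by_cases hbi : b ≤ i
          · have e1 : up i a = a := if_pos (by omega)
            have e2 : up i b = b := if_pos hbi
            rw [e1, e2] at h
            exact sl_cutR _ w N a b hw (by omega) hbi (ihw (N + 2) hw1 a b hab (by omega) h)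
          · have e2 : up i b = b + 2 := if_neg hbi
            by_cases hai : a ≤ i
            · have e1 : up i a = a := if_pos hai
              rw [e1, e2] at h
              exact sl_cutI _ w N a b hw hb hai (by show i + 0 ≤ b; omega)
                (ihw (N + 2) hw1 a (b + 2) (by omega) (by omega) h)
            · have e1 : up i a = a + 2 := if_neg hai
              rw [e1, e2] at h
              exact sl_cutL _ w N a b hw (by omega) hb (by show i + 0 ≤ a; omega)
                (ihw (N + 2) hw1 (a + 2) (b + 2) (by omega) (by omega) h)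
        have hR' : Rel w (up i a) (up i b) ∨ (Rel w (up i a) i ∧ Rel w (i + 2) (up i b)) ∨
            (Rel w (up i a) (i + 2) ∧ Rel w i (up i b)) := hR
        rcases hR' with h | ⟨h1, h2⟩ | ⟨h1, h2⟩
        · exact first h
        · by_cases hai : a ≤ i
          · have e1 : up i a = a := if_pos hai
            by_cases hbi : b ≤ i
            · have e2 : up i b = b := if_pos hbi
              apply first
              rw [e1, e2]
              rw [e1] at h1
              rw [e2] at h2
              rcases Nat.eq_or_lt_of_le hbi with h3 | h3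
              · rw [h3]
                exact h1
              · exact sl_nc hRel hRelI hRC w ihw (N + 2) hw1 a b i (i + 2) hab h3 (by omega)
                  (by omega) h1 (sy _ _ h2)
            · have e2 : up i b = b + 2 := if_neg hbi
              rw [e1] at h1
              rw [e2] at h2
              rcases Nat.eq_or_lt_of_le hai with h3 | h3
              · subst h3
                exact sl_cutL _ w N a b hw (by omega) hb (by show a + 0 ≤ a; omega)
                  (ihw (N + 2) hw1 (a + 2) (b + 2) (by omega) (by omega) h2)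
              · exact sl_cup2 hRelI hRC w ihv N i a b hw1 h3 (by omega) hb h1 h2
          · have e1 : up i a = a + 2 := if_neg hai
            have e2 : up i b = b + 2 := if_neg (by omega)
            apply first
            rw [e1, e2]
            rw [e1] at h1
            rw [e2] at h2
            have h3 := sl_nc hRel hRelI hRC w ihw (N + 2) hw1 i (i + 2) (a + 2) (b + 2) (by omega)
              (by omega) (by omega) (by omega) (sy _ _ h1) h2
            exact tr _ _ _ h1 (tr _ _ _ h3 h2)
        · by_cases hai : a ≤ i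
          · have e1 : up i a = a := if_pos hai
            by_cases hbi : b ≤ i
            · have e2 : up i b = b := if_pos hbi
              rw [e1] at h1
              rw [e2] at h2
              rcases Nat.eq_or_lt_of_le hbi with h3 | h3
              · subst h3
                exact sl_cutI _ w N a b hw hb hai (by show b + 0 ≤ b; omega)
                  (ihw (N + 2) hw1 a (b + 2) (by omega) (by omega) h1)
              · exact sl_cup3 hRel hRelI hRC w ihv N i a b hw1 hab h3 h0 h1 h2
            · have e2 : up i b = b + 2 := if_neg hbi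
              apply first
              rw [e1, e2]
              rw [e1] at h1
              rw [e2] at h2
              rcases Nat.eq_or_lt_of_le hai with h3 | h3
              · rw [h3]
                exact h2
              · have h4 := sl_nc hRel hRelI hRC w ihw (N + 2) hw1 a i (i + 2) (b + 2) h3
                  (by omega) (by omega) (by omega) h1 h2
                exact tr _ _ _ h4 h2
          · have e1 : up i a = a + 2 := if_neg hai
            have e2 : up i b = b + 2 := if_neg (by omega)
            rw [e1] at h1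
            rw [e2] at h2
            exact sl_cup4 hRel hRelI hRC w ihv N i a b hw1 (by omega) hab hb h1 h2
      | N =>
        have h0 : i + 2 ≤ N := hw.1
        have hw1 : Okd w (N - 2) 0 := hw.2
        have hR' : a = b ∨ (a ≠ i + 1 ∧ b ≠ i + 1 ∧ Rel w (dn i a) (dn i b)) := hR
        rcases hR' with h | ⟨hai, hbi, h⟩
        · omega
        · by_cases h1 : b ≤ i
          · have e1 : dn i a = a := if_pos (by omega)
            have e2 : dn i b = b := if_pos h1
            rw [e1, e2] at h
            exact sl_cutR _ w N a b hw (by omega) h1 (ihw (N - 2) hw1 a b hab (by omega) h)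
          · have e2 : dn i b = b - 2 := if_neg h1
            by_cases h2 : a ≤ i
            · have e1 : dn i a = a := if_pos h2
              rw [e1, e2] at h
              by_cases h3 : a = b - 2
              · have e3 : i = a := by omega
                have e4 : b = a + 2 := by omega
                subst e3
                subst e4
                refine ⟨[cN 0], w, ⟨?_, ?_⟩, ?_, ?_, ?_⟩
                · show 0 + 2 ≤ i + 2 - i
                  omega
                · show i + 2 - i - 2 + 0 = 0
                  omega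
                · exact hw1.cast (by omega) rfl
                · simp only [List.length_cons, List.length_nil]
                  omega
                · have e5 : shd i [cN 0] = ([cN i] : Wd α) := by
                    rw [shd_cons]
                    show (⟨Kd.N, 0 + i⟩ :: _ : Wd α) = _
                    rw [Nat.zero_add]
                    rfl
                  rw [e5]
                  exact PIso.refl _ _
              · exact sl_cutI _ w N a b hw hb h2 (by show i + 2 ≤ b; omega)
                  (ihw (N - 2) hw1 a (b - 2) (by omega) (by omega) h)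
            · have e1 : dn i a = a - 2 := if_neg h2
              rw [e1, e2] at h
              exact sl_cutL _ w N a b hw (by omega) hb (by show i + 2 ≤ a; omega)
                (ihw (N - 2) hw1 (a - 2) (b - 2) (by omega) (by omega) h)
      | X x =>
        have h0 : i + 2 ≤ N := hw.1
        have hw1 : Okd w (N - 2 + 2) 0 := hw.2
        have hR' : a = b ∨ (a ≠ i + 1 ∧ b ≠ i + 1 ∧ Rel w a b) := hR
        rcases hR' with h | ⟨hai, hbi, h⟩
        · omega
        · have hc := ihw (N - 2 + 2) hw1 a b hab (by omega) h
          by_cases h1 : b ≤ i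
          · exact sl_cutR _ w N a b hw (by omega) h1 hc
          · by_cases h2 : a ≤ i
            · refine sl_cutI _ w N a b hw hb h2 (by show i + 2 ≤ b; omega) ?_
              show sl_Cut w (N - 2 + 2) a (b - 2 + 2)
              have e : b - 2 + 2 = b := by omega
              rw [e]
              exact hc
            · refine sl_cutL _ w N a b hw (by omega) hb (by show i + 2 ≤ a; omega) ?_
              show sl_Cut w (N - 2 + 2) (a - 2 + 2) (b - 2 + 2)
              have e : b - 2 + 2 = b := by omega
              have e' : a - 2 + 2 = a := by omega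
              rw [e, e']
              exact hc

theorem thm_SL (hRel : St_Rel) (hRelI : St_RelI) (hRC : St_RC) : St_SL := by
  refine ⟨?_, ?_⟩
  · intro α _ w N hw a b hab hb hR
    exact sl_main hRel hRelI hRC w.length w le_rfl N hw a b hab hb hR
  · intro α _ w N hw a b c d hab hbc hcd hd h1 h2
    exact sl_nc hRel hRelI hRC w (sl_main hRel hRelI hRC w.length w le_rfl) N hw a b c d hab hbc
      hcd hd h1 h2

end Pool.LSG
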