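import Pool.Agent.LSG.St

/-! # LS, geometry block, module T1: a crossing is pulled to a boundary gap of its region -/

set_option autoImplicit false

namespace Pool.LSG

open Pool.Agent.ARB Pool.Agent.Helper2 Pool.ALT Pool.LSP

namespace T1

variable {κ κ' : Type}

/-! ### rows above a piece -/

/-- `c₁` is a row above the piece `s` with the row `c` below -/
def Ab (c : ℕ → κ) (s : Pc (Cr κ)) (c₁ : ℕ → κ) : Prop :=
  match s.k with
  | .U => ∃ t, c₁ = insC s.i t c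
  | .N => c s.i = c (s.i + 2) ∧ c₁ = delC s.i c
  | .X a => ∃ t, Pd (c s.i) (c (s.i + 1)) (c (s.i + 2)) t a ∧ c₁ = updC (s.i + 1) t c

theorem vl_cons (c : ℕ → κ) (s : Pc (Cr κ)) (w : Wd (Cr κ)) :
    Vl c (s :: w) ↔ ∃ c₁, Ab c s c₁ ∧ Vl c₁ w := by
  obtain ⟨k, i⟩ := s
  cases k with
  | U =>
    constructor
    · rintro ⟨c', t, h⟩
      exact ⟨insC i t c, ⟨t, rfl⟩, c', h⟩
    · rintro ⟨_, ⟨t, rfl⟩, c', h⟩
      exact ⟨c', t, h⟩
  | N =>
    constructor
    · rintro ⟨c', h1, h⟩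
      exact ⟨delC i c, ⟨h1, rfl⟩, c', h⟩
    · rintro ⟨_, ⟨h1, rfl⟩, c', h⟩
      exact ⟨c', h1, h⟩
  | X a =>
    constructor
    · rintro ⟨c', t, h1, h⟩
      exact ⟨updC (i + 1) t c, ⟨t, h1, rfl⟩, c', h⟩
    · rintro ⟨_, ⟨t, h1, rfl⟩, c', h⟩
      exact ⟨c', t, h1, h⟩

/-- apply a function to the colours of the crossings of a piece -/
def pmp (f : κ → κ') (s : Pc (Cr κ)) : Pc (Cr κ') := ⟨s.k.mp (Cr.map f), s.i⟩

theorem mp_cons (f : κ → κ') (s : Pc (Cr κ)) (w : Wd (Cr κ)) :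
    mp (Cr.map f) (s :: w) = pmp f s :: mp (Cr.map f) w := rfl

theorem Ab.map (f : κ → κ') {c c₁ : ℕ → κ} {s : Pc (Cr κ)} (h : Ab c s c₁) :
    Ab (fun j => f (c j)) (pmp f s) (fun j => f (c₁ j)) := by
  obtain ⟨k, i⟩ := s
  cases k with
  | U =>
    obtain ⟨t, rfl⟩ := h
    refine ⟨f t, ?_⟩
    funext j
    show f (if j ≤ i then c j else if j = i + 1 then t else c (j - 2)) =
      (if j ≤ i then f (c j) else if j = i + 1 then f t else f (c (j - 2)))
    split_ifs <;> rfl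
  | N =>
    obtain ⟨h1, rfl⟩ := h
    refine ⟨congrArg f h1, ?_⟩
    funext j
    show f (if j ≤ i then c j else c (j + 2)) = (if j ≤ i then f (c j) else f (c (j + 2)))
    split_ifs <;> rfl
  | X a =>
    obtain ⟨t, ⟨h1, h2, h3, h4⟩, rfl⟩ := h
    refine ⟨f t, ⟨congrArg f h1, congrArg f h2, congrArg f h3, congrArg f h4⟩, ?_⟩
    funext j
    show f (if j = i + 1 then t else c j) = (if j = i + 1 then f t else f (c j))
    split_ifs <;> rfl

theorem Vl.map (f : κ → κ') {w : Wd (Cr κ)} : ∀ {c : ℕ → κ}, Vl c w →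
    Vl (fun j => f (c j)) (mp (Cr.map f) w) := by
  induction w with
  | nil =>
    intro c _
    exact ⟨_, rfl⟩
  | cons s w ih =>
    intro c h
    obtain ⟨c₁, h1, h2⟩ := (vl_cons c s w).1 h
    rw [mp_cons]
    exact (vl_cons _ _ _).2 ⟨_, h1.map f, ih h2⟩

theorem mp_map_comp {κ'' : Type} (f : κ → κ') (g : κ' → κ'') (w : Wd (Cr κ)) :
    mp (Cr.map g) (mp (Cr.map f) w) = mp (Cr.map fun k => g (f k)) w := by
  induction w with
  | nil => rfl
  | cons s w ih =>
    rw [mp_cons, mp_cons, mp_cons, ih]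
    obtain ⟨k, i⟩ := s
    cases k <;> rfl

theorem mp_id (w : Wd (Cr κ)) : mp (Cr.map fun k : κ => k) w = w := by
  induction w with
  | nil => rfl
  | cons s w ih =>
    rw [mp_cons, ih]
    obtain ⟨k, i⟩ := s
    cases k <;> rfl

theorem lt_mp (f : κ → κ') {w : Wd (Cr κ)} {a : Cr κ} (h : Lt a w) :
    Lt (Cr.map f a) (mp (Cr.map f) w) := by
  obtain ⟨i, h⟩ := h
  exact ⟨i, List.mem_map_of_mem (f := fun s : Pc (Cr κ) => (⟨s.k.mp (Cr.map f), s.i⟩ : Pc (Cr κ')))
    h⟩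

/-! ### the condition `FB` -/

/-- in every refinement in which the gaps of colour `x` have the bit false all corners of colour `x`
have the bit false -/
def FB (x : κ) (c : ℕ → κ) (N : ℕ) (w : Wd (Cr κ)) : Prop :=
  ∀ (c1 : ℕ → κ × Bool) (w1 : Wd (Cr (κ × Bool))), (∀ j, (c1 j).1 = c j) →
    mp (Cr.map Prod.fst) w1 = w → Vl c1 w1 → (∀ j ≤ N, c j = x → (c1 j).2 = false) →
    ∀ a, Lt a w1 → CrB x false a

theorem FB.of_Fa {x : κ} {c : ℕ → κ} {N : ℕ} {w : Wd (Cr κ)} (h : Fa x c N w) {g : ℕ} (hg : g ≤ N)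
    (hc : c g = x) : FB x c N w := by
  intro c1 w1 h1 h2 h3 h4 a ha
  obtain ⟨β, h5, h6⟩ := h c1 w1 h1 h2 h3
  have h7 : β = false := (h5 g hg hc).symm.trans (h4 g hg hc)
  rw [← h7]
  exact h6 a ha

theorem crb_rot (x : κ) (β : Bool) (a : Cr (κ × Bool)) : CrB x β (Rt.r a) ↔ CrB x β a := by
  constructor
  · rintro ⟨h1, h2, h3, h4⟩
    exact ⟨h2, h3, h4, h1⟩
  · rintro ⟨h1, h2, h3, h4⟩
    exact ⟨h4, h1, h2, h3⟩

theorem FB.iso (hMp : St_Mp) (hFa : St_Fa) {x : κ} {c : ℕ → κ} {N : ℕ} {w w' : Wd (Cr κ)}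
    (h : FB x c N w) (hI : PIso N w w') : FB x c N w' := by
  intro c1 w1' h1 h2 h3 h4 a ha
  obtain ⟨-, hl⟩ := hMp.1 (Cr.map (Prod.fst : κ × Bool → κ)) (fun a => rfl)
  rw [← h2] at hI
  obtain ⟨w1, h5, h6⟩ := hl N w1' w hI.symm
  have h7 := hFa.1 N w1' w1 h6 c1 h3
  by_contra hn
  obtain ⟨-, -, -, -, hlt, -⟩ := hMp
  obtain ⟨b, hb, hb'⟩ := hlt (fun a => ¬ CrB x false a) (fun a => not_congr (crb_rot x false a))
    N w1' w1 h6 ⟨a, ha, hn⟩
  exact hb' (h c1 w1 h1 h5 h7 h4 b hb)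

theorem FB.tail (hVaC : St_VaC) {x : κ} {c c₁ : ℕ → κ} {N : ℕ} {s : Pc (Cr κ)} {w : Wd (Cr κ)}
    (h : FB x c N (s :: w)) (hs : Ab c s c₁) (hok : Okd (s :: w) N 0) :
    FB x c₁ (N - s.k.inn + s.k.out) w := by
  classical
  intro d1 w1 h1 h2 h3 h4 a ha
  obtain ⟨f, hf⟩ : ∃ f : κ × Bool → κ × Bool, f = fun k => (k.1, k.2 && decide (k.1 = x)) :=
    ⟨_, rfl⟩
  have hf1 : ∀ k, (f k).1 = k.1 := fun k => by rw [hf]
  have h5 := Vl.map f h3
  have h6 : ∀ j ≤ N - s.k.inn + s.k.out, (c₁ j, false) = f (d1 j) := by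
    intro j hj
    rw [hf]
    refine Prod.ext (h1 j).symm ?_
    show false = ((d1 j).2 && decide ((d1 j).1 = x))
    by_cases hx : c₁ j = x
    · rw [h4 j hj hx]
      rfl
    · rw [h1 j, decide_eq_false hx, Bool.and_false]
  obtain ⟨c', h7⟩ := h5
  obtain ⟨-, -, -, hrow, -, -⟩ := hVaC (κ := κ × Bool) (κ' := κ) (α := Cr (κ × Bool)) (β := Cr κ)
  obtain ⟨d', h8, -⟩ := hrow Pd (mp (Cr.map f) w1) _ 0 _ (fun j => (c₁ j, false)) c'
    (by
      have h9 := hok.2
      rw [← h2] at h9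
      have h10 : ∀ (v : Wd (Cr (κ × Bool))) (n : ℕ), Okd (mp (Cr.map (Prod.fst : κ × Bool → κ)) v) n 0 →
          Okd (mp (Cr.map f) v) n 0 := by
        intro v
        induction v with
        | nil => intro n h; exact h
        | cons t v ih =>
          intro n h
          obtain ⟨k, i⟩ := t
          cases k <;> exact ⟨h.1, ih _ h.2⟩
      exact h10 _ _ h9) h6 h7
  have h9 : Vl (fun j => (c j, false)) (pmp (fun k => (k, false)) s :: mp (Cr.map f) w1) :=
    (vl_cons _ _ _).2 ⟨_, hs.map (fun k => (k, false)), d', h8⟩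
  have h10 : mp (Cr.map Prod.fst) (pmp (fun k => (k, false)) s :: mp (Cr.map f) w1) = s :: w := by
    rw [mp_cons, mp_map_comp]
    have e1 : (fun k => (f k).1) = (Prod.fst : κ × Bool → κ) := funext hf1
    rw [e1, h2]
    obtain ⟨k, i⟩ := s
    cases k <;> rfl
  have h11 := h _ _ (fun j => rfl) h10 h9 (fun _ _ _ => rfl) (Cr.map f a) (by
    obtain ⟨i, hi⟩ := lt_mp f ha
    exact ⟨i, List.mem_cons_of_mem _ hi⟩)
  have hfx : ∀ k : κ × Bool, k.1 = x → ((f k).1 = x → (f k).2 = false) → k.2 = false := by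
    intro k hk h12
    have h13 := h12 (by rw [hf1, hk])
    rw [hf] at h13
    have h14 : (k.2 && decide (k.1 = x)) = false := h13
    rw [decide_eq_true hk, Bool.and_true] at h14
    exact h14
  obtain ⟨q1, q2, q3, q4⟩ := h11
  exact ⟨fun h => hfx _ h q1, fun h => hfx _ h q2, fun h => hfx _ h q3, fun h => hfx _ h q4⟩

/-! ### gaps above a cup or a crossing which are not seen from below -/

/-- an isolated gap can be given a bit of its own -/
theorem lone (hRel : St_Rel) (hFa : St_Fa) {c₁ : ℕ → κ} {n m : ℕ} {w : Wd (Cr κ)}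
    (hok : Okd w n 0) (hvl : Vl c₁ w) (hn : ∀ j ≤ n, j ≠ m → ¬ Rel w m j) :
    ∃ w1, mp (Cr.map Prod.fst) w1 = w ∧ Vl (fun j => (c₁ j, decide (j = m))) w1 := by
  obtain ⟨-, hsymm, -, hcomp, -, -⟩ := hRel w
  have h1 : VU (fun j => decide (j = m)) w := by
    refine (hcomp n (fun j => decide (j = m)) hok).2 ?_
    intro x y hx hy h
    by_cases hxm : x = m
    · by_cases hym : y = m
      · rw [hxm, hym]
      · rw [hxm] at h
        exact absurd h (hn y hy hym)
    · by_cases hym : y = m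
      · rw [hym] at h
        exact absurd (hsymm _ _ h) (hn x hx hxm)
      · rw [decide_eq_false hxm, decide_eq_false hym]
  obtain ⟨-, -, -, -, -, href⟩ := hFa
  exact href c₁ (fun j => decide (j = m)) w h1 hvl

theorem hid_X (hRel : St_Rel) (hFa : St_Fa) {x : κ} {c c₁ : ℕ → κ} {N i : ℕ} {a : Cr κ}
    {w : Wd (Cr κ)} (h : FB x c N (cX i a :: w)) (hs : Ab c (cX i a) c₁)
    (hok : Okd (cX i a :: w) N 0) (hvl : Vl c₁ w) (hx : a.t = x) :
    ∃ j ≤ N - 2 + 2, j ≠ i + 1 ∧ Rel w (i + 1) j := by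
  by_contra hn
  push Not at hn
  obtain ⟨w1, h1, h2⟩ := lone hRel hFa (m := i + 1) (n := N - 2 + 2) hok.2 hvl hn
  obtain ⟨t, ⟨e1, e2, e3, e4⟩, rfl⟩ := hs
  have h3 : Vl (fun j => (c j, false))
      (cX i ⟨a.p, (a.l, false), (a.b, false), (a.r, false), (a.t, true)⟩ :: w1) := by
    refine (vl_cons _ _ _).2 ⟨_, ⟨(t, true), ⟨?_, ?_, ?_, ?_⟩, rfl⟩, ?_⟩
    · exact Prod.ext e1 rfl
    · exact Prod.ext e2 rfl
    · exact Prod.ext e3 rfl
    · exact Prod.ext e4 rfl
    · have h4 : updC (i + 1) (t, true) (fun j => (c j, false)) =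
          fun j => (updC (i + 1) t c j, decide (j = i + 1)) := by
        funext j
        show (if j = i + 1 then (t, true) else (c j, false)) =
          ((if j = i + 1 then t else c j), decide (j = i + 1))
        split_ifs with h5
        · rw [decide_eq_true h5]
        · rw [decide_eq_false h5]
      show Vl (updC (i + 1) (t, true) (fun j => (c j, false))) w1
      rw [h4]
      exact h2
  have h4 := h _ _ (fun j => rfl) (by rw [mp_cons, h1]; rfl) h3 (fun _ _ _ => rfl)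
    ⟨a.p, (a.l, false), (a.b, false), (a.r, false), (a.t, true)⟩
    ⟨i, List.mem_cons_self⟩
  have h5 : true = false := h4.2.2.2 hx
  exact absurd h5 (by decide)

theorem hid_U (hRel : St_Rel) (hMp : St_Mp) (hFa : St_Fa) {x : κ} {c c₁ : ℕ → κ} {N i : ℕ}
    {w V : Wd (Cr κ)} {a : Cr κ} (h : FB x c N (cU i :: w)) (hs : Ab c (cU i) c₁)
    (hok : Okd (cU i :: w) N 0) (hvl : Vl c₁ w) (hI : PIso (N - 0 + 2) w (isl (i + 1) a ++ V))
    (hx : a.b = x) :
    ∃ j ≤ N - 0 + 2, j ≠ i + 1 ∧ Rel (isl (i + 1) a ++ V) (i + 1) j := by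
  by_contra hn
  push Not at hn
  have hok' : Okd (isl (i + 1) a ++ V) (N - 0 + 2) 0 := hI.ok hok.2
  have hvl' : Vl c₁ (isl (i + 1) a ++ V) := hFa.1 _ _ _ hI c₁ hvl
  have hFB : FB x c N (cU i :: (isl (i + 1) a ++ V)) :=
    h.iso hMp hFa (PIso.left (z := [cU i]) (k := N - 0 + 2) ⟨hok.1, rfl⟩ hI)
  obtain ⟨w1, h1, h2⟩ := lone hRel hFa (m := i + 1) (n := N - 0 + 2) hok' hvl' hn
  obtain ⟨t, rfl⟩ := hs
  have h3 : Vl (fun j => (c j, false)) (cU i :: w1) := by
    refine (vl_cons _ _ _).2 ⟨_, ⟨(t, true), rfl⟩, ?_⟩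
    have h4 : insC i (t, true) (fun j => (c j, false)) =
        fun j => (insC i t c j, decide (j = i + 1)) := by
      funext j
      show (if j ≤ i then (c j, false) else if j = i + 1 then (t, true) else (c (j - 2), false)) =
        ((if j ≤ i then c j else if j = i + 1 then t else c (j - 2)), decide (j = i + 1))
      split_ifs with h5 h6
      · rw [decide_eq_false (by omega)]
      · rw [decide_eq_true h6]
      · rw [decide_eq_false h6]
    show Vl (insC i (t, true) (fun j => (c j, false))) w1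
    rw [h4]
    exact h2
  have h4 := hFB _ _ (fun j => rfl) (by rw [mp_cons, h1]; rfl) h3 (fun _ _ _ => rfl)
  -- the island in the refinement
  obtain ⟨p1, w2, rfl⟩ : ∃ p1 w2, w1 = p1 :: w2 := by
    cases w1 with
    | nil => exact absurd h1 (by simp [mp, isl])
    | cons p1 w2 => exact ⟨p1, w2, rfl⟩
  obtain ⟨p2, w3, rfl⟩ : ∃ p2 w3, w2 = p2 :: w3 := by
    cases w2 with
    | nil => exact absurd h1 (by simp [mp, isl])
    | cons p1 w2 => exact ⟨p1, w2, rfl⟩
  obtain ⟨p3, w4, rfl⟩ : ∃ p3 w4, w3 = p3 :: w4 := by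
    cases w3 with
    | nil => exact absurd h1 (by simp [mp, isl])
    | cons p1 w2 => exact ⟨p1, w2, rfl⟩
  have h5 : pmp Prod.fst p1 = (cU (i + 1) : Pc (Cr κ)) ∧ pmp Prod.fst p2 = (cU (i + 3) : Pc (Cr κ)) ∧
      pmp Prod.fst p3 = cX (i + 2) a := by
    rw [mp_cons, mp_cons, mp_cons] at h1
    have h6 : pmp Prod.fst p1 :: pmp Prod.fst p2 :: pmp Prod.fst p3 :: mp (Cr.map Prod.fst) w4 =
        (cU (i + 1) : Pc (Cr κ)) :: cU (i + 3) :: cX (i + 2) a :: V := h1
    injection h6 with q1 h6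
    injection h6 with q2 h6
    injection h6 with q3 h6
    exact ⟨q1, q2, q3⟩
  obtain ⟨h6, h7, h8⟩ := h5
  obtain ⟨k1, i1⟩ := p1
  obtain ⟨k2, i2⟩ := p2
  obtain ⟨k3, i3⟩ := p3
  have e1 : i1 = i + 1 := congrArg Pc.i h6
  have e2 : i2 = i + 3 := congrArg Pc.i h7
  have e3 : i3 = i + 2 := congrArg Pc.i h8
  have f1 : k1.mp (Cr.map (Prod.fst : κ × Bool → κ)) = Kd.U := congrArg Pc.k h6
  have f2 : k2.mp (Cr.map (Prod.fst : κ × Bool → κ)) = Kd.U := congrArg Pc.k h7
  have f3 : k3.mp (Cr.map (Prod.fst : κ × Bool → κ)) = Kd.X a := congrArg Pc.k h8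
  subst e1 e2 e3
  cases k1 with
  | N => cases f1
  | X b => cases f1
  | U =>
    cases k2 with
    | N => cases f2
    | X b => cases f2
    | U =>
      cases k3 with
      | U => cases f3
      | N => cases f3
      | X b =>
        have f4 : Cr.map Prod.fst b = a := by
          injection f3
        obtain ⟨r1, ⟨t1, rfl⟩, h9⟩ := (vl_cons _ _ _).1 h2
        obtain ⟨r2, ⟨t2, rfl⟩, h10⟩ := (vl_cons _ _ _).1 h9
        obtain ⟨r3, ⟨t3, ⟨-, hb, -, -⟩, rfl⟩, h11⟩ := (vl_cons _ _ _).1 h10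
        have h12 : b.b = (insC i t c (i + 1), true) := by
          rw [hb]
          show (if i + 2 + 1 ≤ i + 3 then (if i + 2 + 1 ≤ i + 1 then
            (insC i t c (i + 2 + 1), decide (i + 2 + 1 = i + 1)) else
              if i + 2 + 1 = i + 1 + 1 then t1 else
                (insC i t c (i + 2 + 1 - 2), decide (i + 2 + 1 - 2 = i + 1))) else _) = _
          rw [if_pos (by omega), if_neg (by omega), if_neg (by omega),
            show i + 2 + 1 - 2 = i + 1 by omega, decide_eq_true rfl]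
        have h13 : b.b.1 = x := by
          have h14 : (Cr.map Prod.fst b).b = a.b := congrArg Cr.b f4
          exact h14.trans hx
        have h14 := (h4 b ⟨i + 2, by simp⟩).2.1 h13
        rw [h12] at h14
        have h15 : true = false := h14
        exact absurd h15 (by decide)

/-! ### islands -/

theorem isl_ok {g N : ℕ} (a : Cr κ) (h : g ≤ N) : Okd (isl g a) N (N + 4) :=
  ⟨by show g + 0 ≤ N; omega, by show g + 2 + 0 ≤ N - 0 + 2; omega,
    by show g + 1 + 2 ≤ N - 0 + 2 - 0 + 2; omega,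
    by show N - 0 + 2 - 0 + 2 - 2 + 2 = N + 4; omega⟩

theorem isl_ok' {g N : ℕ} {a : Cr κ} {V : Wd (Cr κ)} (h : g ≤ N) (hV : Okd (isl g a ++ V) N 0) :
    Okd V (N + 4) 0 := by
  obtain ⟨k, h1, h2⟩ := hV.split
  obtain rfl := h1.det (isl_ok a h)
  exact h2

theorem shd_isl (j g : ℕ) (a : Cr κ) : shd j (isl g a) = isl (g + j) a := by
  show [cU (g + j), cU (g + 2 + j), cX (g + 1 + j) a] = [cU (g + j), cU (g + j + 2), cX (g + j + 1) a]
  rw [show g + 2 + j = g + j + 2 by omega, show g + 1 + j = g + j + 1 by omega]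

/-- an island which is not hidden moves below a piece -/
theorem down (hIs : St_Is) {x : κ} {c c₁ : ℕ → κ} {N s₁ : ℕ} {s : Pc (Cr κ)} {w V : Wd (Cr κ)}
    {a : Cr κ} (hs : Ab c s c₁) (hok : s.i + s.k.inn ≤ N) (h1 : s₁ ≤ N - s.k.inn + s.k.out)
    (h2 : s₁ ≤ s.i ∨ s.i + s.k.out ≤ s₁) (hc : c₁ s₁ = x)
    (hI : PIso (N - s.k.inn + s.k.out) w (isl s₁ a ++ V)) :
    ∃ s₂ ≤ N, c s₂ = x ∧ ∃ V', PIso N (s :: w) (isl s₂ a ++ V') := by
  obtain ⟨-, -, -, -, -, -, h7⟩ := hIs (α := Cr κ)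
  obtain ⟨h8, h9⟩ := h7 N s₁ a s hok h1
  have h10 : PIso N (s :: w) ((s :: isl s₁ a) ++ V) :=
    PIso.left (z := [s]) ⟨hok, rfl⟩ hI
  by_cases h3 : s₁ ≤ s.i
  · refine ⟨s₁, by omega, ?_, [⟨s.k, s.i + 4⟩] ++ V, ?_⟩
    · rw [← hc]
      obtain ⟨k, i⟩ := s
      cases k with
      | U =>
        obtain ⟨t, rfl⟩ := hs
        exact (if_pos h3).symm
      | N =>
        obtain ⟨-, rfl⟩ := hs
        exact (if_pos h3).symm
      | X b =>
        obtain ⟨t, -, rfl⟩ := hs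
        have h3' : s₁ ≤ i := h3
        exact (if_neg (by omega)).symm
    · rw [← List.append_assoc]
      exact h10.trans ((h8 h3).right V)
  · have h4 : s.i + s.k.out ≤ s₁ := h2.resolve_left h3
    refine ⟨s₁ - s.k.out + s.k.inn, by omega, ?_, [s] ++ V, ?_⟩
    · rw [← hc]
      obtain ⟨k, i⟩ := s
      cases k with
      | U =>
        obtain ⟨t, rfl⟩ := hs
        have h3' : ¬ s₁ ≤ i := h3
        have h4' : i + 2 ≤ s₁ := h4
        show c (s₁ - 2 + 0) = if s₁ ≤ i then c s₁ else if s₁ = i + 1 then t else c (s₁ - 2)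
        rw [if_neg h3', if_neg (by omega), Nat.add_zero]
      | N =>
        obtain ⟨-, rfl⟩ := hs
        have h3' : ¬ s₁ ≤ i := h3
        show c (s₁ - 0 + 2) = if s₁ ≤ i then c s₁ else c (s₁ + 2)
        rw [if_neg h3', Nat.sub_zero]
      | X b =>
        obtain ⟨t, -, rfl⟩ := hs
        have h3' : ¬ s₁ ≤ i := h3
        have h4' : i + 2 ≤ s₁ := h4
        show c (s₁ - 2 + 2) = if s₁ = i + 1 then t else c s₁
        rw [if_neg (by omega), show s₁ - 2 + 2 = s₁ by omega]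
    · rw [← List.append_assoc]
      exact h10.trans ((h9 h4).right V)

/-- one of the corners has the colour `x` -/
def Co (x : κ) (a : Cr κ) : Prop := a.l = x ∨ a.b = x ∨ a.r = x ∨ a.t = x

/-- `a'` is a rotation of `a` -/
def R4 (a a' : Cr κ) : Prop :=
  a' = a ∨ a' = Rt.r a ∨ a' = Rt.r (Rt.r a) ∨ a' = Rt.r (Rt.r (Rt.r a))

/-- The claim: some gap of colour `x` can be used. -/
theorem claim (hVaC : St_VaC) (hRel : St_Rel) (hRelI : St_RelI) (hSL : St_SL) (hMp : St_Mp)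
    (hFa : St_Fa) (hIs : St_Is) (hTL : St_TL) {x : κ} (w : Wd (Cr κ)) : ∀ (N : ℕ) (c : ℕ → κ),
    Okd w N 0 → Vl c w → FB x c N w → ∀ a, Lt a w → Co x a →
    ∃ s ≤ N, c s = x ∧ ∃ a' V, a'.b = x ∧ R4 a a' ∧ PIso N w (isl s a' ++ V) := by
  induction w with
  | nil =>
    rintro N c - - - a ⟨i, hi⟩ -
    exact absurd hi List.not_mem_nil
  | cons s₀ w₁ ih =>
    intro N c hok hvl hFB a ha hco
    obtain ⟨c₁, hAb, hvl1⟩ := (vl_cons c s₀ w₁).1 hvl
    have hFB1 := hFB.tail hVaC hAb hok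
    have hok0 : s₀.i + s₀.k.inn ≤ N := hok.1
    have hok1 : Okd w₁ (N - s₀.k.inn + s₀.k.out) 0 := hok.2
    have hcol : ∀ g g', g ≤ N - s₀.k.inn + s₀.k.out → g' ≤ N - s₀.k.inn + s₀.k.out →
        Rel w₁ g g' → c₁ g = c₁ g' := by
      obtain ⟨-, -, -, -, h5, -⟩ := hFa
      exact h5 c₁ _ w₁ hok1 hvl1
    by_cases hat : Lt a w₁
    · obtain ⟨s₁, hs1, hc1, a', V, hb, hr, hI⟩ := ih _ c₁ hok1 hvl1 hFB1 a hat hco
      by_cases hcond : s₁ ≤ s₀.i ∨ s₀.i + s₀.k.out ≤ s₁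
      · obtain ⟨s₂, h1, h2, V', h3⟩ := down hIs hAb hok0 hs1 hcond hc1 hI
        exact ⟨s₂, h1, h2, a', V', hb, hr, h3⟩
      · -- the island is hidden above `s₀`
        have hhid : ∃ j ≤ N - s₀.k.inn + s₀.k.out, j ≠ s₁ ∧ Rel (isl s₁ a' ++ V) s₁ j ∧
            (j ≤ s₀.i ∨ s₀.i + s₀.k.out ≤ j) := by
          obtain ⟨k, i⟩ := s₀
          cases k with
          | U =>
            have e1 : s₁ = i + 1 := by
              have h1 : ¬ (s₁ ≤ i ∨ i + 2 ≤ s₁) := hcond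
              omega
            subst e1
            obtain ⟨j, h1, h2, h3⟩ := hid_U hRel hMp hFa hFB hAb hok hvl1 hI hb
            refine ⟨j, h1, h2, h3, ?_⟩
            show j ≤ i ∨ i + 2 ≤ j
            omega
          | N =>
            exfalso
            apply hcond
            show s₁ ≤ i ∨ i + 0 ≤ s₁
            omega
          | X a₀ =>
            have e1 : s₁ = i + 1 := by
              have h1 : ¬ (s₁ ≤ i ∨ i + 2 ≤ s₁) := hcond
              omega
            subst e1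
            have hx : a₀.t = x := by
              obtain ⟨t, ⟨-, -, -, h4⟩, rfl⟩ := hAb
              rw [h4, ← hc1]
              exact (if_pos rfl).symm
            obtain ⟨j, h1, h2, h3⟩ := hid_X hRel hFa hFB hAb hok hvl1 hx
            refine ⟨j, h1, h2, ?_, ?_⟩
            · exact (hRelI.2 _ _ _ hok1 hI _ _ hs1 h1).1 h3
            · show j ≤ i ∨ i + 2 ≤ j
              omega
        obtain ⟨j, h1, -, h3, h4⟩ := hhid
        have hV : Okd V (N - s₀.k.inn + s₀.k.out + 4) 0 := isl_ok' hs1 (hI.ok hok1)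
        obtain ⟨V', -, h6⟩ := hTL V _ s₁ j a' hV hs1 h1 h3
        have h7 : c₁ j = x := by
          have h8 : Rel w₁ s₁ j := (hRelI.2 _ _ _ hok1 hI _ _ hs1 h1).2 h3
          rw [← hcol s₁ j hs1 h1 h8, hc1]
        obtain ⟨s₂, g1, g2, V'', g3⟩ := down hIs hAb hok0 h1 h4 h7 (hI.trans h6)
        exact ⟨s₂, g1, g2, a', V'', hb, hr, g3⟩
    · -- the letter is the first piece
      obtain ⟨i, hi⟩ := ha
      rcases List.mem_cons.1 hi with hi | hi
      swap
      · exact absurd ⟨i, hi⟩ hat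
      subst hi
      have hok0' : i + 2 ≤ N := hok0
      obtain ⟨⟨i1, i2, i3⟩, -⟩ : ((PIso N [cX i a] (isl (i + 1) a ++ [cN i, cN (i + 2)]) ∧
          PIso N [cX i a] (isl i (Rt.r a) ++ [cN (i + 3), cN (i + 2)]) ∧
          PIso N [cX i a] (isl (i + 2) (Rt.r (Rt.r (Rt.r a))) ++ [cN (i + 1), cN i]))) ∧ True :=
        ⟨(hIs (α := Cr κ)).1 N i a hok0', trivial⟩
      obtain ⟨t, ⟨hl, hb, hr, ht⟩, rfl⟩ := hAb
      have hmem : ∀ {s' : ℕ} {a' : Cr κ} {X : Wd (Cr κ)}, PIso N [cX i a] (isl s' a' ++ X) →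
          PIso N (cX i a :: w₁) (isl s' a' ++ (X ++ w₁)) := by
        intro s' a' X h
        have h1 := h.right w₁
        rw [List.append_assoc] at h1
        exact h1
      rcases hco with h | h | h | h
      · exact ⟨i, by omega, hl.symm.trans h, Rt.r a, _, h, Or.inr (Or.inl rfl), hmem i2⟩
      · exact ⟨i + 1, by omega, hb.symm.trans h, a, _, h, Or.inl rfl, hmem i1⟩
      · exact ⟨i + 2, by omega, hr.symm.trans h, Rt.r (Rt.r (Rt.r a)), _, h,
          Or.inr (Or.inr (Or.inr rfl)), hmem i3⟩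
      · obtain ⟨j, h1, h2, h3⟩ := hid_X hRel hFa hFB ⟨t, ⟨hl, hb, hr, ht⟩, rfl⟩ hok hvl1 h
        have hok2 : Okd w₁ (N - 2 + 2) 0 := hok1
        have h4 : updC (i + 1) t c j = x := by
          have h5 := hcol (i + 1) j (by show i + 1 ≤ N - 2 + 2; omega) h1 h3
          rw [← h5, ← h, ht]
          exact if_pos rfl
        have h5 : c j = x := by
          have h6 : updC (i + 1) t c j = c j := if_neg h2
          rw [← h6]
          exact h4
        obtain ⟨-, -, is3, is4, -⟩ := hIs (α := Cr κ)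
        by_cases hj : j ≤ i
        · have h6 : Rel w₁ j (i + 1) := (hRel w₁).2.1 _ _ h3
          obtain ⟨A, B, hA, -, -, hI⟩ := hSL.1 w₁ _ hok2 j (i + 1) (by omega) (by omega) h6
          obtain ⟨C, hC, hC'⟩ := is3 (i - j) a A (hA.cast (by omega) rfl)
          refine ⟨j, by omega, h5, Rt.r (Rt.r a), shd j C ++ B, h, Or.inr (Or.inr (Or.inl rfl)), ?_⟩
          have h7 := (hC'.sh j).le (show i - j + 2 + j ≤ N by omega)
          have e1 : shd j (cX (i - j) a :: A) = cX i a :: shd j A := by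
            rw [shd_cons]
            show (⟨Kd.X a, i - j + j⟩ : Pc (Cr κ)) :: _ = _
            rw [show i - j + j = i by omega]
          rw [e1, shd_append, shd_isl, Nat.zero_add] at h7
          have h8 : PIso N (cX i a :: w₁) (cX i a :: (shd j A ++ B)) :=
            PIso.left (z := [cX i a]) (k := N - 2 + 2) ⟨hok0', rfl⟩ hI
          have h9 := h7.right B
          rw [List.append_assoc] at h9
          exact h8.trans h9
        · have h6 : Rel w₁ (i + 1) j := h3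
          obtain ⟨A, B, hA, -, -, hI⟩ := hSL.1 w₁ _ hok2 (i + 1) j (by omega) (by omega) h6
          obtain ⟨C, hC, hC'⟩ := is4 (j - i - 2) a A (hA.cast (by omega) rfl)
          refine ⟨j, by omega, h5, Rt.r (Rt.r a), shd i C ++ B, h, Or.inr (Or.inr (Or.inl rfl)), ?_⟩
          have h7 := (hC'.sh i).le (show j - i - 2 + 2 + i ≤ N by omega)
          have e1 : shd i (cX 0 a :: shd 1 A) = cX i a :: shd (i + 1) A := by
            rw [shd_cons, shd_shd]
            show (⟨Kd.X a, 0 + i⟩ : Pc (Cr κ)) :: _ = _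
            rw [Nat.zero_add]
          rw [e1, shd_append, shd_isl, show j - i - 2 + 2 + i = j by omega] at h7
          have h8 : PIso N (cX i a :: w₁) (cX i a :: (shd (i + 1) A ++ B)) :=
            PIso.left (z := [cX i a]) (k := N - 2 + 2) ⟨hok0', rfl⟩ hI
          have h9 := h7.right B
          rw [List.append_assoc] at h9
          exact h8.trans h9

end T1

/-- [T1] -/
theorem thm_T1 (hVaC : St_VaC) (hRel : St_Rel) (hRelI : St_RelI) (hSL : St_SL) (hMp : St_Mp)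
    (hFa : St_Fa) (hIs : St_Is) (hTL : St_TL) : St_T1 := by
  intro κ w N c x hok hvl hF g hg hc a ha hco
  obtain ⟨s, hs, hcs, a', V, hb, hr, hI⟩ := T1.claim hVaC hRel hRelI hSL hMp hFa hIs hTL w N c hok
    hvl (T1.FB.of_Fa hF hg hc) a ha hco
  have h1 : Rel w s g := by
    obtain ⟨-, -, -, h4, -, -⟩ := hFa
    exact h4 x c N w hok hvl hF s g hs hg hcs hc
  have h2 := (hRelI.2 _ _ _ hok hI _ _ hs hg).1 h1
  obtain ⟨V', h3, h4⟩ := hTL V N s g a' (T1.isl_ok' hs (hI.ok hok)) hs hg h2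
  exact ⟨a', V', hb, hr, h3, hI.trans h4⟩

end Pool.LSG
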