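import Pool.Agent.LSG.St

/-!
# LS, geometry block, module TL: an island moves to any other gap of its region
-/

set_option autoImplicit false

namespace Pool.LSG

open Pool.Agent.ARB

variable {α : Type}

private theorem tl_isl_ok (g n : ℕ) (a : α) (h : g ≤ n) : Okd (isl g a) n (n + 4) := by
  refine ⟨by show g + 0 ≤ n; omega, by show g + 2 + 0 ≤ n - 0 + 2; omega,
    by show g + 1 + 2 ≤ n - 0 + 2 - 0 + 2; omega, ?_⟩
  show n - 0 + 2 - 0 + 2 - 2 + 2 = n + 4
  omega

private theorem tl_isl_shd (g j : ℕ) (a : α) : shd j (isl g a) = isl (g + j) a := by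
  have e1 : g + 2 + j = g + j + 2 := by omega
  have e2 : g + 1 + j = g + j + 1 := by omega
  show [(⟨Kd.U, g + j⟩ : Pc α), ⟨Kd.U, g + 2 + j⟩, ⟨Kd.X a, g + 1 + j⟩] = _
  rw [e1, e2]
  rfl

/-- the relation at an island -/
private theorem tl_rel (i g : ℕ) (a : α) (V : Wd α) (hR : ∀ x, Rel V x x)
    (h : Rel (isl i a ++ V) i g) :
    i = g ∨ (i < g ∧ (Rel V i (g + 4) ∨ Rel V (i + 4) (g + 4))) ∨
      (g < i ∧ (Rel V i g ∨ Rel V (i + 4) g)) := by
  have hX : ∀ x y, Rel (cX (i + 1) a :: V) x y →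
      x = y ∨ (x ≠ i + 2 ∧ y ≠ i + 2 ∧ Rel V x y) := by
    intro x y h
    exact h
  have hU : ∀ x y, Rel (cU (i + 2) :: cX (i + 1) a :: V) x y →
      Rel (cX (i + 1) a :: V) (up (i + 2) x) (up (i + 2) y) ∨
      (Rel (cX (i + 1) a :: V) (up (i + 2) x) (i + 2) ∧
        Rel (cX (i + 1) a :: V) (i + 2 + 2) (up (i + 2) y)) ∨
      (Rel (cX (i + 1) a :: V) (up (i + 2) x) (i + 2 + 2) ∧
        Rel (cX (i + 1) a :: V) (i + 2) (up (i + 2) y)) := by
    intro x y h
    exact h
  have h0 : Rel (cU (i + 2) :: cX (i + 1) a :: V) (up i i) (up i g) ∨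
      (Rel (cU (i + 2) :: cX (i + 1) a :: V) (up i i) i ∧
        Rel (cU (i + 2) :: cX (i + 1) a :: V) (i + 2) (up i g)) ∨
      (Rel (cU (i + 2) :: cX (i + 1) a :: V) (up i i) (i + 2) ∧
        Rel (cU (i + 2) :: cX (i + 1) a :: V) i (up i g)) := h
  have hii : up i i = i := by simp [up]
  rw [hii] at h0
  rcases lt_trichotomy i g with hlt | heq | hgt
  · right; left
    refine ⟨hlt, ?_⟩
    have hg : up i g = g + 2 := by
      unfold up
      rw [if_neg (by omega)]
    rw [hg] at h0
    have e1 : up (i + 2) (g + 2) = g + 4 := by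
      unfold up
      rw [if_neg (by omega)]
    have e2 : up (i + 2) i = i := by
      unfold up
      rw [if_pos (by omega)]
    have e3 : up (i + 2) (i + 2) = i + 2 := by
      unfold up
      rw [if_pos (by omega)]
    have k1 : Rel (cU (i + 2) :: cX (i + 1) a :: V) i (g + 2) → Rel V i (g + 4) := by
      intro h1
      have h2 := hU _ _ h1
      rw [e1, e2] at h2
      rcases h2 with h3 | ⟨h3, _⟩ | ⟨_, h3⟩
      · rcases hX _ _ h3 with h4 | ⟨_, _, h4⟩
        · omega
        · exact h4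
      · rcases hX _ _ h3 with h4 | ⟨_, h4, _⟩
        · omega
        · exact absurd rfl h4
      · rcases hX _ _ h3 with h4 | ⟨h4, _⟩
        · omega
        · exact absurd rfl h4
    rcases h0 with h1 | ⟨_, h1⟩ | ⟨_, h1⟩
    · exact Or.inl (k1 h1)
    · right
      have h2 := hU _ _ h1
      rw [e1, e3] at h2
      rcases h2 with h3 | ⟨_, h3⟩ | ⟨h3, _⟩
      · rcases hX _ _ h3 with h4 | ⟨h4, _⟩
        · omega
        · exact absurd rfl h4
      · rcases hX _ _ h3 with h4 | ⟨_, _, h4⟩
        · have h5 : i + 4 = g + 4 := by omega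
          rw [h5]
          exact hR _
        · exact h4
      · rcases hX _ _ h3 with h4 | ⟨h4, _⟩
        · omega
        · exact absurd rfl h4
    · exact Or.inl (k1 h1)
  · exact Or.inl heq
  · right; right
    refine ⟨hgt, ?_⟩
    have hg : up i g = g := by
      unfold up
      rw [if_pos (by omega)]
    rw [hg] at h0
    have e1 : up (i + 2) g = g := by
      unfold up
      rw [if_pos (by omega)]
    have e2 : up (i + 2) i = i := by
      unfold up
      rw [if_pos (by omega)]
    have e3 : up (i + 2) (i + 2) = i + 2 := by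
      unfold up
      rw [if_pos (by omega)]
    have k1 : Rel (cU (i + 2) :: cX (i + 1) a :: V) i g → Rel V i g := by
      intro h1
      have h2 := hU _ _ h1
      rw [e1, e2] at h2
      rcases h2 with h3 | ⟨h3, _⟩ | ⟨_, h3⟩
      · rcases hX _ _ h3 with h4 | ⟨_, _, h4⟩
        · omega
        · exact h4
      · rcases hX _ _ h3 with h4 | ⟨_, h4, _⟩
        · omega
        · exact absurd rfl h4
      · rcases hX _ _ h3 with h4 | ⟨h4, _⟩
        · omega
        · exact absurd rfl h4
    rcases h0 with h1 | ⟨_, h1⟩ | ⟨_, h1⟩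
    · exact Or.inl (k1 h1)
    · right
      have h2 := hU _ _ h1
      rw [e1, e3] at h2
      rcases h2 with h3 | ⟨_, h3⟩ | ⟨h3, _⟩
      · rcases hX _ _ h3 with h4 | ⟨h4, _⟩
        · omega
        · exact absurd rfl h4
      · rcases hX _ _ h3 with h4 | ⟨_, _, h4⟩
        · omega
        · exact h4
      · rcases hX _ _ h3 with h4 | ⟨h4, _⟩
        · omega
        · exact absurd rfl h4
    · exact Or.inl (k1 h1)

variable [Rt α]

/-- an island right of a word without strands above it moves to its left side -/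
private theorem tl_comm (i m n : ℕ) (a : α) (A : Wd α) (hA : Okd A m 0) (hn : i + m ≤ n) :
    PIso n (isl (i + m) a ++ shd i A) (isl i a ++ shd (i + 4) A) := by
  have h1 : PIso (i + m) (isl i a ++ shd (i + 4) A) (shd i A ++ isl i a) :=
    PIso.comm (isl i a) A i (i + 4) m 0 (tl_isl_ok i i a le_rfl) hA
  have h2 : Okd (shd i A) (i + m) i := (hA.sh i).cast (by omega) (by omega)
  have h3 := PIso.comm (shd i A) (isl 0 a) (i + m) i 0 4 h2 ((tl_isl_ok 0 0 a le_rfl).cast rfl rfl)
  rw [tl_isl_shd, tl_isl_shd] at h3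
  have e1 : 0 + i = i := by omega
  have e2 : 0 + (i + m) = i + m := by omega
  rw [e1, e2] at h3
  have h4 : PIso (i + m) (isl (i + m) a ++ shd i A) (isl i a ++ shd (i + 4) A) :=
    (h1.trans h3).symm
  exact h4.le hn

theorem thm_TL (hRel : St_Rel) (hSL : St_SL) (hIs : St_Is) : St_TL := by
  intro α _ V N i g a hV hi hg hr
  obtain ⟨hrefl, hsym, -, -, -, -⟩ := hRel V
  obtain ⟨-, -, -, -, hIs5, hIs6, -⟩ := hIs (α := α)
  obtain ⟨hSL1, -⟩ := hSL
  rcases tl_rel i g a V hrefl hr with heq | ⟨hlt, h | h⟩ | ⟨hgt, h | h⟩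
  · subst heq
    exact ⟨V, hV, PIso.refl _ _⟩
  · -- `i < g`, `Rel V i (g + 4)`
    obtain ⟨A, B, hA, hB, -, hAB⟩ := hSL1 V (N + 4) hV i (g + 4) (by omega) (by omega) h
    obtain ⟨A', hA', hiso⟩ := hIs5 (g - i) a A (hA.cast (by omega) rfl)
    have h1 := hiso.sh i
    rw [shd_append, shd_append, tl_isl_shd, tl_isl_shd] at h1
    have e1 : 0 + i = i := by omega
    have e2 : g - i + i = g := by omega
    rw [e1, e2] at h1
    have hA2 : Okd (shd i A') (N + 4) (N + 4 - (g + 4 - i)) :=
      ((hA'.sh i).add (N - g)).cast (by omega) (by omega)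
    refine ⟨shd i A' ++ B, hA2.append hB, ?_⟩
    have h2 : PIso N (isl i a ++ V) (isl i a ++ (shd i A ++ B)) :=
      PIso.left (tl_isl_ok i N a hi) hAB
    have h3 : PIso N ((isl i a ++ shd i A) ++ B) ((isl g a ++ shd i A') ++ B) :=
      (h1.le hg).right B
    rw [List.append_assoc, List.append_assoc] at h3
    exact h2.trans h3
  · -- `i < g`, `Rel V (i + 4) (g + 4)`
    obtain ⟨A, B, hA, hB, -, hAB⟩ := hSL1 V (N + 4) hV (i + 4) (g + 4) (by omega) (by omega) h
    have hA0 : Okd A (g - i) 0 := hA.cast (by omega) rfl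
    have hA2 : Okd (shd i A) (N + 4) (N + 4 - (g + 4 - (i + 4))) :=
      ((hA0.sh i).add (N + 4 - g)).cast (by omega) (by omega)
    refine ⟨shd i A ++ B, hA2.append hB, ?_⟩
    have h2 : PIso N (isl i a ++ V) (isl i a ++ (shd (i + 4) A ++ B)) :=
      PIso.left (tl_isl_ok i N a hi) hAB
    have h1 := tl_comm i (g - i) N a A hA0 (by omega)
    have e2 : i + (g - i) = g := by omega
    rw [e2] at h1
    have h3 := (h1.symm).right B
    rw [List.append_assoc, List.append_assoc] at h3
    exact h2.trans h3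
  · -- `g < i`, `Rel V i g`
    obtain ⟨A, B, hA, hB, -, hAB⟩ := hSL1 V (N + 4) hV g i (by omega) (by omega) (hsym _ _ h)
    have hA2 : Okd (shd (g + 4) A) (N + 4) (N + 4 - (i - g)) :=
      ((hA.sh (g + 4)).add (N - i)).cast (by omega) (by omega)
    refine ⟨shd (g + 4) A ++ B, hA2.append hB, ?_⟩
    have h2 : PIso N (isl i a ++ V) (isl i a ++ (shd g A ++ B)) :=
      PIso.left (tl_isl_ok i N a hi) hAB
    have h1 := tl_comm g (i - g) N a A hA (by omega)
    have e2 : g + (i - g) = i := by omega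
    rw [e2] at h1
    have h3 := h1.right B
    rw [List.append_assoc, List.append_assoc] at h3
    exact h2.trans h3
  · -- `g < i`, `Rel V (i + 4) g`
    obtain ⟨A, B, hA, hB, -, hAB⟩ := hSL1 V (N + 4) hV g (i + 4) (by omega) (by omega) (hsym _ _ h)
    obtain ⟨A', hA', hiso⟩ := hIs6 (i - g) a A (hA.cast (by omega) rfl)
    have h1 := hiso.sh g
    rw [shd_append, shd_append, tl_isl_shd, tl_isl_shd] at h1
    have e1 : 0 + g = g := by omega
    have e2 : i - g + g = i := by omega
    rw [e1, e2] at h1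
    have hA2 : Okd (shd g A') (N + 4) (N + 4 - (i + 4 - g)) :=
      ((hA'.sh g).add (N - i)).cast (by omega) (by omega)
    refine ⟨shd g A' ++ B, hA2.append hB, ?_⟩
    have h2 : PIso N (isl i a ++ V) (isl i a ++ (shd g A ++ B)) :=
      PIso.left (tl_isl_ok i N a hi) hAB
    have h3 : PIso N ((isl i a ++ shd g A) ++ B) ((isl g a ++ shd g A') ++ B) :=
      (h1.le hi).right B
    rw [List.append_assoc, List.append_assoc] at h3
    exact h2.trans h3

end Pool.LSG
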