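import Pool.Agent.LSG.Cor

/-!
# LS, geometry block: the tongue
-/

set_option autoImplicit false

namespace Pool.LSG

open Pool.Agent.ARB Pool.Agent.Helper2 Pool.ALT Pool.LSP

/-! ### pulling a crossing -/

theorem tg_step (hMp : St_Mp) (hFa : St_Fa) (hIsl : St_Isl) (hT1 : St_T1) {κ : Type} (e : Bool)
    (pr : κ → Bool) (c : ℕ → κ) (N g : ℕ) (w : Wd (Cr κ)) (z u : κ) (a : Cr κ) (f : Bool)
    (hD : Dec e pr c N w) (hg : g ≤ N) (hc : c g = z) (hF : Fa z c N w) (ha : Lt a w)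
    (hE : Ev f a z u) (hu : u ≠ z)
    (hf : (f = e ∧ (g + 1) % 2 ≠ 0) ∨ (f = !e ∧ (g + 1) % 2 = 0)) :
    ∃ (a' : Cr κ) (V : Wd (Cr κ)), a'.b = z ∧ a'.t = u ∧ a'.p ≠ f ∧
      Dec e pr (isc g a' c) (N + 4) V ∧
      (∀ z', z' ≠ z → Fa z' c N w → Fa z' (isc g a' c) (N + 4) V) ∧
      PIso N w (isl g a' ++ V) ∧
      (∀ P : Cr κ → Prop, (∀ b, P (Rt.r b) ↔ P b) → P a → P a') ∧
      (∀ P : Cr κ → Prop, (∀ b, P (Rt.r b) ↔ P b) → ¬ P a' → (∃ b, Lt b w ∧ P b) →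
        ∃ b, Lt b V ∧ P b) := by
  obtain ⟨a', V, hb, hrot, hV, hI⟩ := hT1 w N c z hD.ok hD.vl hF g hg hc a ha (cor_corner hE)
  have hE' : Ev f a' z u := cor_rot (fun b => Ev f b z u) (fun b => cor_ev f z u b) hrot hE
  obtain ⟨hDV, hb', hG, hpos⟩ := hIsl.2.1 e pr c N g a' V hg (hFa.2.1 e pr c N w _ hI hD)
  have hp : a'.p ≠ f := by
    rcases hf with ⟨h1, h2⟩ | ⟨h1, h2⟩
    · intro h3
      exact h2 (hpos.1 (h3.trans h1))
    · intro h3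
      have h4 := hpos.2 h2
      rw [h1, h4] at h3
      cases e <;> simp at h3
  refine ⟨a', V, hb, cor_opp hp hb hE' hu, hp, hDV, ?_, hI, ?_, ?_⟩
  · intro z' hz hF'
    refine hIsl.2.2.1 z' c N g a' V hg hV (hFa.2.2.1 z' c N w _ hI hF') hb' ?_
    rw [hb]
    exact hz.symm
  · intro P hP h
    exact cor_rot P hP hrot h
  · intro P hP hn hex
    obtain ⟨b, h1, h2⟩ := hMp.2.2.2.2.1 P hP N w _ hI hex
    rcases cor_lt h1 with h3 | h3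
    · rw [h3] at h2
      exact absurd h2 hn
    · exact ⟨b, h3, h2⟩

/-! ### alternating words -/

theorem tg_app {e : Bool} {u v : Word} (h1 : AltW e u) (h2 : AltW e v) : AltW e (u ++ v) :=
  fun p i hm => (List.mem_append.1 hm).elim (h1 p i) (h2 p i)

theorem tg_U {e : Bool} {v : Word} (j : ℕ) (h : AltW e v) : AltW e (pU j :: v) := by
  intro p i hm
  rcases List.mem_cons.1 hm with h1 | h1
  · exact absurd h1 (by simp [pX, pU])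
  · exact h p i h1

theorem tg_N {e : Bool} {v : Word} (j : ℕ) (h : AltW e v) : AltW e (pN j :: v) := by
  intro p i hm
  rcases List.mem_cons.1 hm with h1 | h1
  · exact absurd h1 (by simp [pX, pN])
  · exact h p i h1

theorem tg_X {e : Bool} {v : Word} (h : AltW e v) : AltW e (pX 2 e :: v) := by
  intro p i hm
  rcases List.mem_cons.1 hm with h1 | h1
  · simp only [pX, Piece.mk.injEq, Kind.X.injEq] at h1
    obtain ⟨h2, h3⟩ := h1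
    subst h2
    subst h3
    simp
  · exact h p i h1

theorem tg_mem {u : Word} {i j : ℕ} {p : Bool} (h : pX i p ∈ Pool.Agent.ARB.sh j u) :
    ∃ i', i = i' + j ∧ pX i' p ∈ u := by
  obtain ⟨s, h1, h2⟩ := List.mem_map.1 h
  obtain ⟨k, i0⟩ := s
  simp only [pX, Piece.mk.injEq] at h2
  obtain ⟨h3, h4⟩ := h2
  subst h3
  exact ⟨i0, h4.symm, h1⟩

theorem tg_sh0 {e : Bool} {u : Word} {j : ℕ} (hj : j % 2 = 0) (h : AltW e u) :
    AltW e (Pool.Agent.ARB.sh j u) := by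
  intro p i hm
  obtain ⟨i', h1, h2⟩ := tg_mem hm
  rw [h p i' h2]
  omega

theorem tg_sh1 {e : Bool} {u : Word} {j : ℕ} (hj : j % 2 = 1) (h : AltW (!e) u) :
    AltW e (Pool.Agent.ARB.sh j u) := by
  intro p i hm
  obtain ⟨i', h1, h2⟩ := tg_mem hm
  have h3 := h p i' h2
  have h4 : p = e ↔ ¬ (p = !e) := by cases p <;> cases e <;> simp
  rw [h4, h3]
  omega

/-- the decorated word is alternating -/
def tg_A {κ : Type} (e : Bool) (V : Wd (Cr κ)) : Prop :=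
  ∀ (i : ℕ) (a : Cr κ), cX i a ∈ V → (a.p = e ↔ i % 2 = 0)

theorem tg_alt0 (hMp : St_Mp) {κ : Type} {e : Bool} {X : Wd (Cr κ)} {j : ℕ} (hj : j % 2 = 0)
    (h : tg_A e (shd j X)) : AltW e (fgt X) := by
  intro p i hm
  obtain ⟨a, ha, hb⟩ := ((hMp.2.2.1 (κ := κ)).2.2.2.2 X p i).1 hm
  have h1 : cX (i + j) a ∈ shd j X := List.mem_map.2 ⟨_, hb, rfl⟩
  have h2 := h (i + j) a h1
  rw [← ha, h2]
  omega

theorem tg_alt1 (hMp : St_Mp) {κ : Type} {e : Bool} {X : Wd (Cr κ)} {j : ℕ} (hj : j % 2 = 1)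
    (h : tg_A e (shd j X)) : AltW (!e) (fgt X) := by
  intro p i hm
  obtain ⟨a, ha, hb⟩ := ((hMp.2.2.1 (κ := κ)).2.2.2.2 X p i).1 hm
  have h1 : cX (i + j) a ∈ shd j X := List.mem_map.2 ⟨_, hb, rfl⟩
  have h2 := h (i + j) a h1
  have h4 : p = !e ↔ ¬ (p = e) := by cases p <;> cases e <;> simp
  rw [h4, ← ha, h2]
  omega

theorem tg_nXa (u v : Word) : nX (u ++ v) = nX u + nX v := by
  induction u with
  | nil => simp [nX]
  | cons s u ih =>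
    obtain ⟨k, i⟩ := s
    cases k with
    | U => exact ih
    | N => exact ih
    | X p =>
      show nX (u ++ v) + 1 = nX u + 1 + nX v
      rw [ih]
      omega

theorem tg_nXs (j : ℕ) (u : Word) : nX (Pool.Agent.ARB.sh j u) = nX u := by
  induction u with
  | nil => rfl
  | cons s u ih =>
    obtain ⟨k, i⟩ := s
    cases k with
    | U => exact ih
    | N => exact ih
    | X p =>
      show nX (Pool.Agent.ARB.sh j u) + 1 = nX u + 1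
      rw [ih]

theorem tg_ne {p f : Bool} (h : p ≠ f) : p = !f := by cases p <;> cases f <;> simp_all

theorem tg_ne' {p f : Bool} (h : p ≠ !f) : p = f := by cases p <;> cases f <;> simp_all

theorem tg_okisl {α : Type} {g N : ℕ} (a : α) (h : g ≤ N) : Okd (isl g a) N (N + 4) := by
  refine ⟨?_, ?_, ?_, ?_⟩
  · show g + 0 ≤ N
    omega
  · show g + 2 + 0 ≤ N - 0 + 2
    omega
  · show g + 1 + 2 ≤ N - 0 + 2 - 0 + 2
    omega
  · show N - 0 + 2 - 0 + 2 - 2 + 2 = N + 4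
    omega

theorem tg_ok2 {V : Word} (h : Ok V 4 0) : Ok (pU 2 :: pU 3 :: V) 2 2 :=
  ⟨Nat.le_refl 2, by show 3 + 0 ≤ 4; omega, h.add 2⟩

/-- the shape of the word -/
theorem tg_shape (hRelI : St_RelI) (hRC : St_RC) (hSL : St_SL) {κ : Type} (W₃ : Wd (Cr κ))
    (hok : Okd W₃ 16 0) (a1 : Rel W₃ 9 13) (a2 : Rel W₃ 5 7) (a3 : Rel W₃ 2 8) :
    ∃ X I Y Z : Wd (Cr κ), Okd X 4 0 ∧ Okd I 2 0 ∧ Okd Y 4 0 ∧ Okd Z 6 0 ∧
      PIso 16 W₃ (shd 9 X ++ (shd 5 I ++ (shd 2 Y ++ Z))) := by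
  obtain ⟨X, B₁, hX, hB₁, -, J1⟩ := hSL.1 W₃ 16 hok 9 13 (by omega) (by omega) a1
  have b2 : Rel B₁ 5 7 := by
    have h1 := (hRelI.2 W₃ (shd 9 X ++ B₁) 16 hok J1 5 7 (by omega) (by omega)).1 a2
    have h2 := ((hRC X B₁ 9 4 16 hX hB₁ (by omega)).2.1 5 7 (Or.inl (by omega))
      (Or.inl (by omega)) (by omega) (by omega)).1 h1
    simpa [cl] using h2
  have b3 : Rel B₁ 2 8 := by
    have h1 := (hRelI.2 W₃ (shd 9 X ++ B₁) 16 hok J1 2 8 (by omega) (by omega)).1 a3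
    have h2 := ((hRC X B₁ 9 4 16 hX hB₁ (by omega)).2.1 2 8 (Or.inl (by omega))
      (Or.inl (by omega)) (by omega) (by omega)).1 h1
    simpa [cl] using h2
  obtain ⟨I, B₂, hI, hB₂, -, J2⟩ := hSL.1 B₁ 12 hB₁ 5 7 (by omega) (by omega) b2
  have b4 : Rel B₂ 2 6 := by
    have h1 := (hRelI.2 B₁ (shd 5 I ++ B₂) 12 hB₁ J2 2 8 (by omega) (by omega)).1 b3
    have h2 := ((hRC I B₂ 5 2 12 hI hB₂ (by omega)).2.1 2 8 (Or.inl (by omega))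
      (Or.inr (by omega)) (by omega) (by omega)).1 h1
    simpa [cl] using h2
  obtain ⟨Y, Z, hY, hZ, -, J3⟩ := hSL.1 B₂ 10 hB₂ 2 6 (by omega) (by omega) b4
  have o1 : Okd (shd 9 X) 16 12 := (hX.sh 9).add 3
  have o2 : Okd (shd 5 I) 12 10 := (hI.sh 5).add 5
  exact ⟨X, I, Y, Z, hX, hI, hY, hZ, J1.trans (PIso.left o1 (J2.trans (PIso.left o2 J3)))⟩

theorem tg_V0 (hFl : St_Fl) (e : Bool) (X Y Z : Word) (hX : Ok X 4 0) (hY : Ok Y 4 0)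
    (hZ : Ok Z 6 0) (aX : AltW (!e) X) (aY : AltW e Y) (aZ : AltW e Z) :
    Ok (([pU 0, pU 1] ++ Pool.Agent.ARB.sh 2 (flw 2 (pU 2 :: pU 3 :: Y))) ++
      ([pU 8, pN 3, pN 5] ++ (pX 2 e :: (Pool.Agent.ARB.sh 3 (flw 2 (pU 2 :: pU 3 :: X)) ++ Z))))
      4 0 ∧
    AltW e (([pU 0, pU 1] ++ Pool.Agent.ARB.sh 2 (flw 2 (pU 2 :: pU 3 :: Y))) ++
      ([pU 8, pN 3, pN 5] ++ (pX 2 e :: (Pool.Agent.ARB.sh 3 (flw 2 (pU 2 :: pU 3 :: X)) ++ Z)))) ∧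
    nX (([pU 0, pU 1] ++ Pool.Agent.ARB.sh 2 (flw 2 (pU 2 :: pU 3 :: Y))) ++
      ([pU 8, pN 3, pN 5] ++ (pX 2 e :: (Pool.Agent.ARB.sh 3 (flw 2 (pU 2 :: pU 3 :: X)) ++ Z)))) =
      nX Y + nX X + nX Z + 1 := by
  obtain ⟨x1, x2, -, x4, -⟩ := hFl _ 2 2 (tg_ok2 hX)
  obtain ⟨y1, y2, -, y4, -⟩ := hFl _ 2 2 (tg_ok2 hY)
  refine ⟨?_, ?_, ?_⟩
  · have o1 : Ok [pU 0, pU 1] 4 8 := ⟨by show 0 ≤ 4; omega, by show 1 ≤ 6; omega, rfl⟩
    have o2 : Ok (Pool.Agent.ARB.sh 2 (flw 2 (pU 2 :: pU 3 :: Y))) 8 8 := (y1.sh 2).add 4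
    have o3 : Ok [pU 8, pN 3, pN 5] 8 6 :=
      ⟨by show 8 ≤ 8; omega, by show 5 ≤ 10; omega, by show 7 ≤ 8; omega, rfl⟩
    have o4 : Ok [pX 2 e] 6 6 := ⟨by show 4 ≤ 6; omega, rfl⟩
    have o5 : Ok (Pool.Agent.ARB.sh 3 (flw 2 (pU 2 :: pU 3 :: X))) 6 6 := (x1.sh 3).add 1
    exact (o1.append o2).append (o3.append (o4.append (o5.append hZ)))
  · have a1 : AltW e [] := fun p i h => absurd h (List.not_mem_nil)
    have a2 : AltW e ([pU 0, pU 1] ++ Pool.Agent.ARB.sh 2 (flw 2 (pU 2 :: pU 3 :: Y))) :=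
      tg_U 0 (tg_U 1 (tg_sh0 rfl (y4 rfl e (tg_U 2 (tg_U 3 aY)))))
    have a3 : AltW e (Pool.Agent.ARB.sh 3 (flw 2 (pU 2 :: pU 3 :: X)) ++ Z) :=
      tg_app (tg_sh1 rfl (x4 rfl (!e) (tg_U 2 (tg_U 3 aX)))) aZ
    exact tg_app a2 (tg_U 8 (tg_N 3 (tg_N 5 (tg_X a3))))
  · have h1 : ∀ V : Word, nX (pU 2 :: pU 3 :: V) = nX V := fun V => rfl
    rw [tg_nXa, tg_nXa, tg_nXs, y2, h1]
    show 0 + nX Y + (nX (Pool.Agent.ARB.sh 3 (flw 2 (pU 2 :: pU 3 :: X)) ++ Z) + 1) = _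
    rw [tg_nXa, tg_nXs, x2, h1]
    omega

theorem tg_fin (hMp : St_Mp) (hFl : St_Fl) (hSC : St_SC) (hK2 : St_K2) (hTgw : St_Tgw) {κ : Type}
    (e : Bool) (W X I Y Z : Wd (Cr κ)) (r q p : Cr κ) (hr : r.p = !e) (hq : q.p = !e)
    (hp : p.p = e) (hW : Okd W 4 0) (hX : Okd X 4 0) (hI : Okd I 2 0) (hY : Okd Y 4 0)
    (hZ : Okd Z 6 0)
    (hiso : PIso 4 W (isl 0 r ++ (isl 6 q ++ (isl 11 p ++ (shd 9 X ++ (shd 5 I ++
      (shd 2 Y ++ Z)))))))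
    (hal : tg_A e (shd 9 X ++ (shd 5 I ++ (shd 2 Y ++ Z))))
    (IH : ∀ (e0 : Bool) (V0 : Word), Ok V0 4 0 → AltW e0 V0 → nX V0 < nX (fgt W) → S4 e0 V0) :
    S4 e (fgt W) := by
  intro hu
  obtain ⟨f1, f2, f3, f4, -⟩ := hMp.2.2.1 (κ := κ)
  have oW : Ok (fgt W) 4 0 := (f3 W 4 0).1 hW
  have oX : Ok (fgt X) 4 0 := (f3 X 4 0).1 hX
  have oI : Ok (fgt I) 2 0 := (f3 I 2 0).1 hI
  have oY : Ok (fgt Y) 4 0 := (f3 Y 4 0).1 hY
  have oZ : Ok (fgt Z) 6 0 := (f3 Z 6 0).1 hZ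
  have aX : AltW (!e) (fgt X) := tg_alt1 hMp (j := 9) rfl
    (fun i a h => hal i a (List.mem_append.2 (Or.inl h)))
  have aI : AltW (!e) (fgt I) := tg_alt1 hMp (j := 5) rfl
    (fun i a h => hal i a (List.mem_append.2 (Or.inr (List.mem_append.2 (Or.inl h)))))
  have aY : AltW e (fgt Y) := tg_alt0 hMp (j := 2) rfl
    (fun i a h => hal i a (List.mem_append.2 (Or.inr (List.mem_append.2 (Or.inr
      (List.mem_append.2 (Or.inl h)))))))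
  have aZ : AltW e (fgt Z) := tg_alt0 hMp (j := 0) rfl
    (fun i a h => hal i a (List.mem_append.2 (Or.inr (List.mem_append.2 (Or.inr
      (List.mem_append.2 (Or.inr (by rw [shd_zero] at h; exact h))))))))
  have hfg : fgt (isl 0 r ++ (isl 6 q ++ (isl 11 p ++ (shd 9 X ++ (shd 5 I ++
      (shd 2 Y ++ Z)))))) = [pU 0, pU 2, pX 1 (!e), pU 6, pU 8, pX 7 (!e), pU 11, pU 13, pX 12 e] ++
      (Pool.Agent.ARB.sh 9 (fgt X) ++ (Pool.Agent.ARB.sh 5 (fgt I) ++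
        (Pool.Agent.ARB.sh 2 (fgt Y) ++ fgt Z))) := by
    rw [f1, f1, f1, f1, f1, f1, f2, f2, f2]
    have g0 : ∀ (g : ℕ) (a : Cr κ), fgt (isl g a) = [pU g, pU (g + 2), pX (g + 1) a.p] :=
      fun g a => rfl
    rw [g0, g0, g0, hr, hq, hp]
    rfl
  have i0 := hMp.2.1 4 W _ hiso
  rw [hfg] at i0
  have oIW : Ok (IW e) 0 4 := ⟨by show 0 ≤ 0; omega, by show 2 ≤ 2; omega, by show 3 ≤ 4; omega, rfl⟩
  have i1 := Iso.left oIW i0
  have oK : Ok [pU 0, pU 2, pX 1 (!e), pU 6, pU 8, pX 7 (!e), pU 11, pU 13, pX 12 e] 4 16 :=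
    ⟨by show 0 ≤ 4; omega, by show 2 ≤ 6; omega, by show 3 ≤ 8; omega, by show 6 ≤ 8; omega,
      by show 8 ≤ 10; omega, by show 9 ≤ 12; omega, by show 11 ≤ 12; omega,
      by show 13 ≤ 14; omega, by show 14 ≤ 16; omega, rfl⟩
  have hne : IW e ++ fgt W ≠ [] := by
    show pU 0 :: _ ≠ []
    exact List.cons_ne_nil _ _
  have oD : Ok (IW e ++ fgt W) 0 0 := oIW.append oW
  have u1 := hSC.1 _ _ oD hne i1 hu
  have oX9 : Ok (Pool.Agent.ARB.sh 9 (fgt X)) 16 12 := (oX.sh 9).add 3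
  have oY2 : Ok (Pool.Agent.ARB.sh 2 (fgt Y)) 10 6 := (oY.sh 2).add 4
  have ou : Ok (IW e ++ ([pU 0, pU 2, pX 1 (!e), pU 6, pU 8, pX 7 (!e), pU 11, pU 13, pX 12 e] ++
      Pool.Agent.ARB.sh 9 (fgt X))) 0 12 := oIW.append (oK.append oX9)
  have hassoc : ∀ v : Word, IW e ++ ([pU 0, pU 2, pX 1 (!e), pU 6, pU 8, pX 7 (!e), pU 11, pU 13,
      pX 12 e] ++ (Pool.Agent.ARB.sh 9 (fgt X) ++ v)) = (IW e ++ ([pU 0, pU 2, pX 1 (!e), pU 6,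
      pU 8, pX 7 (!e), pU 11, pU 13, pX 12 e] ++ Pool.Agent.ARB.sh 9 (fgt X))) ++ v := by
    intro v
    simp only [List.append_assoc]
  have u2 := u1
  rw [hassoc] at u2
  have uI := (hSC.2.1 _ _ (fgt I) 5 12 ou (by omega) oI (oY2.append oZ) u2).1
  have kI := hK2 (!e) (fgt I) oI aI uI
  have kI5 : Iso 12 (Pool.Agent.ARB.sh 5 (fgt I)) [pN 5] := (kI.sh 5).le (by omega)
  have i2 := Iso.mid _ (Pool.Agent.ARB.sh 2 (fgt Y) ++ fgt Z) ou kI5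
  rw [← hassoc, ← hassoc] at i2
  have i3 := hTgw e (fgt X) (fgt Y) (fgt Z) oX oY oZ
  have i4 := (i1.trans i2).trans i3
  obtain ⟨v1, v2, v3⟩ := tg_V0 hFl e (fgt X) (fgt Y) (fgt Z) oX oY oZ aX aY aZ
  have hn : nX (fgt W) = nX (fgt X) + nX (fgt I) + nX (fgt Y) + nX (fgt Z) + 3 := by
    rw [f4 W, hMp.2.2.2.2.2 4 W _ hiso, ← f4, hfg, tg_nXa, tg_nXa, tg_nXa, tg_nXa, tg_nXs, tg_nXs,
      tg_nXs]
    show 3 + _ = _
    omega
  exact i4.trans (IH e _ v1 v2 (by rw [v3, hn]; omega) (hSC.1 _ _ oD hne i4 hu))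

theorem thm_Tg (_hRel : St_Rel) (hRelI : St_RelI) (hRC : St_RC) (hSL : St_SL) (hMp : St_Mp)
    (hFa : St_Fa) (hIsl : St_Isl) (hT1 : St_T1) (hFl : St_Fl) (hSC : St_SC) (hK2 : St_K2)
    (hTgw : St_Tgw) : St_Tg := by
  intro κ e pr c W x y r q p hD hF h02 h13 hy0 hy2 hx1 hx3 hr hq hp Er Eq1 Eq2 Ep IH
  have py : pr y = true := ((cor_par (hD.gl r hr)).1 Er).2
  have px : pr x = false := ((cor_par (hD.gl p hp)).2 Ep).1
  have p0 : pr (c 0) = true := by have := hD.pc 0 (by omega); simpa using this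
  have p1 : pr (c 1) = false := by have := hD.pc 1 (by omega); simpa using this
  have p2 : pr (c 2) = true := by have := hD.pc 2 (by omega); simpa using this
  have p3 : pr (c 3) = false := by have := hD.pc 3 (by omega); simpa using this
  have ne : ∀ u v : κ, pr u = true → pr v = false → u ≠ v := by
    intro u v h1 h2 h3
    rw [h3, h2] at h1
    exact absurd h1 (by simp)
  -- r at gap 0
  obtain ⟨r', W₁, rb, rt, rp, D1, F1, I1, -, L1⟩ := tg_step hMp hFa hIsl hT1 e pr c 4 0 W (c 0) y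
    r e hD (by omega) rfl (hF _) hr Er hy0 (Or.inl ⟨rfl, by omega⟩)
  have Pq : ∀ b : Cr κ, (Ev e (Rt.r b) y (c 2) ∧ Ev (!e) (Rt.r b) (c 1) x) ↔
      (Ev e b y (c 2) ∧ Ev (!e) b (c 1) x) := by
    intro b
    rw [cor_ev, cor_ev]
  obtain ⟨q₁, hq₁, Eq₁, Eq₁'⟩ := L1 (fun b => Ev e b y (c 2) ∧ Ev (!e) b (c 1) x) Pq
    (fun h => cor_no rp rb hy0 h02.symm h.1) ⟨q, hq, Eq1, Eq2⟩
  -- q at gap 6
  obtain ⟨q', W₂, qb, qt, qp, D2, F2, I2, R2, L2⟩ := tg_step hMp hFa hIsl hT1 e pr (isc 0 r' c) 8 6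
    W₁ (c 2) y q₁ e D1 (by omega) (by simp [isc]) (F1 _ h02.symm (hF _)) hq₁ (cor_comm Eq₁) hy2
    (Or.inl ⟨rfl, by omega⟩)
  have Eq' : Ev (!e) q' (c 1) x := R2 (fun b => Ev (!e) b (c 1) x)
    (fun b => cor_ev (!e) (c 1) x b) Eq₁'
  have rel2 : ∀ z, z ≠ c 0 → z ≠ c 2 → ∀ g g', g ≤ 12 → g' ≤ 12 →
      isc 6 q' (isc 0 r' c) g = z → isc 6 q' (isc 0 r' c) g' = z → Rel W₂ g g' :=
    fun z h0 h2 => hFa.2.2.2.1 z _ 12 W₂ D2.ok D2.vl (F2 z h2 (F1 z h0 (hF z)))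
  have NC2 := hSL.2 W₂ 12 D2.ok
  have col2 := hFa.2.2.2.2.1 _ 12 W₂ D2.ok D2.vl
  have c10 : c 1 ≠ c 0 := (ne _ _ p0 p1).symm
  have c12 : c 1 ≠ c 2 := (ne _ _ p2 p1).symm
  have c30 : c 3 ≠ c 0 := (ne _ _ p0 p3).symm
  have c32 : c 3 ≠ c 2 := (ne _ _ p2 p3).symm
  have x0 : x ≠ c 0 := (ne _ _ p0 px).symm
  have x2 : x ≠ c 2 := (ne _ _ p2 px).symm
  have rel28 : Rel W₂ 2 8 := rel2 y hy0 hy2 2 8 (by omega) (by omega) (by simp [isc, rt])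
    (by simp [isc, qt])
  have hq' : q'.l = c 1 ∧ q'.r = x := by
    rcases Eq' with ⟨_, h | h⟩ | ⟨h0, _⟩
    · exact h
    · exfalso
      have a1 := rel2 (c 1) c10 c12 5 9 (by omega) (by omega) (by simp [isc]) (by simp [isc, h.2])
      have a3 := NC2 2 5 8 9 (by omega) (by omega) (by omega) (by omega) rel28 a1
      have a4 := col2 2 5 (by omega) (by omega) a3
      exact ne _ _ py p1 (by simpa [isc, rt] using a4)
    · exact absurd (tg_ne qp) h0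
  have nr : ¬ Ev (!e) r' x (c 3) := by
    rintro (⟨_, h | h⟩ | ⟨h0, _⟩)
    · have a1 := rel2 x x0 x2 1 9 (by omega) (by omega) (by simp [isc, h.1]) (by simp [isc, hq'.2])
      have a2 := rel2 (c 3) c30 c32 3 11 (by omega) (by omega) (by simp [isc, h.2]) (by simp [isc])
      have a3 := NC2 1 3 9 11 (by omega) (by omega) (by omega) (by omega) a1 a2
      have a4 := col2 1 3 (by omega) (by omega) a3
      exact hx3 (by simpa [isc, h.1, h.2] using a4)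
    · have a1 := rel2 x x0 x2 3 9 (by omega) (by omega) (by simp [isc, h.2]) (by simp [isc, hq'.2])
      have a3 := NC2 2 3 8 9 (by omega) (by omega) (by omega) (by omega) rel28 a1
      have a4 := col2 2 3 (by omega) (by omega) a3
      exact ne _ _ py px (by simpa [isc, rt, h.2] using a4)
    · exact h0 (tg_ne rp)
  have nq : ¬ Ev (!e) q' x (c 3) := by
    rintro (⟨_, h | h⟩ | ⟨h0, _⟩)
    · exact hx1 (h.1.symm.trans hq'.1)
    · exact h13 (hq'.1.symm.trans h.1)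
    · exact h0 (tg_ne qp)
  obtain ⟨p₁, hp₁, Ep₁⟩ := L2 (fun b => Ev (!e) b x (c 3)) (fun b => cor_ev (!e) x (c 3) b) nq
    (L1 (fun b => Ev (!e) b x (c 3)) (fun b => cor_ev (!e) x (c 3) b) nr ⟨p, hp, Ep⟩)
  -- p at gap 11
  obtain ⟨p', W₃, pb, pt, pp, D3, F3, I3, -, -⟩ := tg_step hMp hFa hIsl hT1 e pr
    (isc 6 q' (isc 0 r' c)) 12 11 W₂ (c 3) x p₁ (!e) D2 (by omega) (by simp [isc])
    (F2 _ c32 (F1 _ c30 (hF _))) hp₁ (cor_comm Ep₁) hx3 (Or.inr ⟨rfl, by omega⟩)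
  have rel3 : ∀ z, z ≠ c 0 → z ≠ c 2 → z ≠ c 3 → ∀ g g', g ≤ 16 → g' ≤ 16 →
      isc 11 p' (isc 6 q' (isc 0 r' c)) g = z → isc 11 p' (isc 6 q' (isc 0 r' c)) g' = z →
      Rel W₃ g g' :=
    fun z h0 h2 h3 => hFa.2.2.2.1 z _ 16 W₃ D3.ok D3.vl (F3 z h3 (F2 z h2 (F1 z h0 (hF z))))
  have a1 : Rel W₃ 9 13 := rel3 x x0 x2 hx3 9 13 (by omega) (by omega) (by simp [isc, hq'.2])
    (by simp [isc, pt])
  have a2 : Rel W₃ 5 7 := rel3 (c 1) c10 c12 h13 5 7 (by omega) (by omega) (by simp [isc])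
    (by simp [isc, hq'.1])
  have a3 : Rel W₃ 2 8 := rel3 y hy0 hy2 (ne _ _ py p3) 2 8 (by omega) (by omega)
    (by simp [isc, rt]) (by simp [isc, qt])
  obtain ⟨X, I, Y, Z, hX, hI, hY, hZ, J⟩ := tg_shape hRelI hRC hSL W₃ D3.ok a1 a2 a3
  have D3' := hFa.2.1 e pr _ 16 W₃ _ J D3
  have hiso : PIso 4 W (isl 0 r' ++ (isl 6 q' ++ (isl 11 p' ++ (shd 9 X ++ (shd 5 I ++
      (shd 2 Y ++ Z)))))) :=
    I1.trans (PIso.left (tg_okisl r' (by omega)) (I2.trans (PIso.left (tg_okisl q' (by omega))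
      (I3.trans (PIso.left (tg_okisl p' (by omega)) J)))))
  exact tg_fin hMp hFl hSC hK2 hTgw e W X I Y Z r' q' p' (tg_ne rp) (tg_ne qp) (tg_ne' pp) hD.ok
    hX hI hY hZ hiso (fun i a h => D3'.al i a h) IH

end Pool.LSG
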