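import Pool.Agent.LSG.St

/-!
# LS, geometry block: the explicit isotopy of the tongue
-/

set_option autoImplicit false

namespace Pool.LSG

open Pool.Agent.ARB Pool.ALT Pool.LSP

private theorem tgw_comm {n : ℕ} (u w : Word) (a b c d : ℕ) (hu : Ok u a b) (hw : Ok w c d)
    (hn : a + c = n) :
    Iso n (u ++ Pool.Agent.ARB.sh b w) (Pool.Agent.ARB.sh a w ++ u) := by
  subst hn
  exact thm_Comm u w a b c d hu hw

/-- the word `M1` -/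
private def tgM1 (e : Bool) : Word :=
  [pU 0, pU 2, pX 1 e, pU 2, pU 4, pX 3 (!e), pU 7, pU 9, pX 8 e, pN 1]

/-- the word `M2` -/
private def tgM2 (e : Bool) : Word :=
  [pU 0, pU 1, pU 4, pX 3 e, pX 2 e, pU 5, pU 6, pX 7 (!e)]

/-- the word in the middle -/
private def tgM3 (e : Bool) : Word :=
  [pU 0, pU 2, pX 1 e, pU 2, pX 1 (!e), pU 5, pU 7, pX 6 e]

private theorem tgw_M1 (e : Bool) : Iso 0 (tgM1 e) (tgM3 e) := by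
  have h1 : Iso 0 (tgM1 e)
      [pU 0, pU 2, pX 1 e, pU 2, pU 2, pX 3 (!e), pU 7, pU 9, pX 8 e, pN 1] :=
    Iso.mid [pU 0, pU 2, pX 1 e] [pX 3 (!e), pU 7, pU 9, pX 8 e, pN 1] (k := 4)
      (by simp [Ok, Kind.inn, Kind.out])
      (Iso.swap (n := 4) Kind.U Kind.U 2 2 (by simp [Kind.inn]) (by simp [Kind.inn]))
  have h2 : Iso 0 [pU 0, pU 2, pX 1 e, pU 2, pU 2, pX 3 (!e), pU 7, pU 9, pX 8 e, pN 1]
      [pU 0, pU 2, pX 1 e, pU 2, pU 2, pX 3 (!e), pU 7, pU 9, pN 1, pX 6 e] :=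
    Iso.mid [pU 0, pU 2, pX 1 e, pU 2, pU 2, pX 3 (!e), pU 7, pU 9] [] (k := 12)
      (by simp [Ok, Kind.inn, Kind.out])
      (Iso.swap (n := 12) Kind.N (Kind.X e) 1 8 (by simp [Kind.inn]) (by simp [Kind.inn])).symm
  have h3 : Iso 0 [pU 0, pU 2, pX 1 e, pU 2, pU 2, pX 3 (!e), pU 7, pU 9, pN 1, pX 6 e]
      [pU 0, pU 2, pX 1 e, pU 2, pU 2, pX 3 (!e), pU 7, pN 1, pU 7, pX 6 e] :=
    Iso.mid [pU 0, pU 2, pX 1 e, pU 2, pU 2, pX 3 (!e), pU 7] [pX 6 e] (k := 10)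
      (by simp [Ok, Kind.inn, Kind.out])
      (Iso.swap (n := 10) Kind.N Kind.U 1 9 (by simp [Kind.inn]) (by simp [Kind.inn])).symm
  have h4 : Iso 0 [pU 0, pU 2, pX 1 e, pU 2, pU 2, pX 3 (!e), pU 7, pN 1, pU 7, pX 6 e]
      [pU 0, pU 2, pX 1 e, pU 2, pU 2, pX 3 (!e), pN 1, pU 5, pU 7, pX 6 e] :=
    Iso.mid [pU 0, pU 2, pX 1 e, pU 2, pU 2, pX 3 (!e)] [pU 7, pX 6 e] (k := 8)
      (by simp [Ok, Kind.inn, Kind.out])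
      (Iso.swap (n := 8) Kind.N Kind.U 1 7 (by simp [Kind.inn]) (by simp [Kind.inn])).symm
  have h5 : Iso 0 [pU 0, pU 2, pX 1 e, pU 2, pU 2, pX 3 (!e), pN 1, pU 5, pU 7, pX 6 e]
      [pU 0, pU 2, pX 1 e, pU 2, pU 2, pN 1, pX 1 (!e), pU 5, pU 7, pX 6 e] :=
    Iso.mid [pU 0, pU 2, pX 1 e, pU 2, pU 2] [pU 5, pU 7, pX 6 e] (k := 8)
      (by simp [Ok, Kind.inn, Kind.out])
      (Iso.swap (n := 8) Kind.N (Kind.X (!e)) 1 3 (by simp [Kind.inn]) (by simp [Kind.inn])).symm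
  have h6 : Iso 0 [pU 0, pU 2, pX 1 e, pU 2, pU 2, pN 1, pX 1 (!e), pU 5, pU 7, pX 6 e]
      (tgM3 e) :=
    Iso.mid [pU 0, pU 2, pX 1 e, pU 2] [pX 1 (!e), pU 5, pU 7, pX 6 e] (k := 6)
      (by simp [Ok, Kind.inn, Kind.out]) (Iso.zag (n := 6) (i := 1) (by omega))
  exact ((((h1.trans h2).trans h3).trans h4).trans h5).trans h6

private theorem tgw_M2 (e : Bool) : Iso 0 (tgM2 e) (tgM3 e) := by
  have h1 : Iso 0 (tgM2 e) [pU 0, pU 2, pU 1, pX 3 e, pX 2 e, pU 5, pU 6, pX 7 (!e)] :=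
    Iso.mid [pU 0] [pX 3 e, pX 2 e, pU 5, pU 6, pX 7 (!e)] (k := 2)
      (by simp [Ok, Kind.inn, Kind.out])
      (Iso.swap (n := 2) Kind.U Kind.U 1 2 (by simp [Kind.inn]) (by simp [Kind.inn]))
  have h2 : Iso 0 [pU 0, pU 2, pU 1, pX 3 e, pX 2 e, pU 5, pU 6, pX 7 (!e)]
      [pU 0, pU 2, pX 1 e, pU 1, pX 2 e, pU 5, pU 6, pX 7 (!e)] :=
    Iso.mid [pU 0, pU 2] [pX 2 e, pU 5, pU 6, pX 7 (!e)] (k := 4)
      (by simp [Ok, Kind.inn, Kind.out])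
      (Iso.swap (n := 4) Kind.U (Kind.X e) 1 1 (by simp [Kind.inn]) (by simp [Kind.inn]))
  have h3 : Iso 0 [pU 0, pU 2, pX 1 e, pU 1, pX 2 e, pU 5, pU 6, pX 7 (!e)]
      [pU 0, pU 2, pX 1 e, pU 2, pX 1 (!e), pU 5, pU 6, pX 7 (!e)] := by
    have h := Iso.slU (n := 4) (i := 1) (!e) (by omega)
    rw [Bool.not_not] at h
    exact Iso.mid [pU 0, pU 2, pX 1 e] [pU 5, pU 6, pX 7 (!e)] (k := 4)
      (by simp [Ok, Kind.inn, Kind.out]) h.symm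
  have h4 : Iso 0 [pU 0, pU 2, pX 1 e, pU 2, pX 1 (!e), pU 5, pU 6, pX 7 (!e)] (tgM3 e) :=
    Iso.mid [pU 0, pU 2, pX 1 e, pU 2, pX 1 (!e), pU 5] [] (k := 8)
      (by simp [Ok, Kind.inn, Kind.out]) (Iso.slU (n := 8) (i := 6) e (by omega)).symm
  exact ((h1.trans h2).trans h3).trans h4

private theorem tgw_M (e : Bool) : Iso 0 (tgM1 e) (tgM2 e) := (tgw_M1 e).trans (tgw_M2 e).symm

/-- a crossing is an island with two caps -/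
private theorem tgw_isl (e : Bool) : Iso 6 [pX 3 e] [pU 4, pU 6, pX 5 e, pN 3, pN 5] := by
  have h1 : Iso 6 [pU 4, pU 6, pX 5 e, pN 3, pN 5] [pU 4, pU 6, pN 3, pX 3 e, pN 5] :=
    Iso.mid [pU 4, pU 6] [pN 5] (k := 10) (by simp [Ok, Kind.inn, Kind.out])
      (Iso.swap (n := 10) Kind.N (Kind.X e) 3 5 (by simp [Kind.inn]) (by simp [Kind.inn])).symm
  have h2 : Iso 6 [pU 4, pU 6, pN 3, pX 3 e, pN 5] [pU 4, pN 3, pU 4, pX 3 e, pN 5] :=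
    Iso.mid [pU 4] [pX 3 e, pN 5] (k := 8) (by simp [Ok, Kind.inn, Kind.out])
      (Iso.swap (n := 8) Kind.N Kind.U 3 6 (by simp [Kind.inn]) (by simp [Kind.inn])).symm
  have h3 : Iso 6 [pU 4, pN 3, pU 4, pX 3 e, pN 5] [pU 4, pX 3 e, pN 5] :=
    Iso.mid [] [pU 4, pX 3 e, pN 5] (k := 6) (by simp [Ok])
      (Iso.zag (n := 6) (i := 3) (by omega))
  have h4 : Iso 6 [pU 4, pX 3 e, pN 5] [pU 4, pN 5, pX 3 e] :=
    Iso.mid [pU 4] [] (k := 8) (by simp [Ok, Kind.inn, Kind.out])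
      (Iso.swap (n := 8) (Kind.X e) Kind.N 3 5 (by simp [Kind.inn]) (by simp [Kind.inn]))
  have h5 : Iso 6 [pU 4, pN 5, pX 3 e] [pX 3 e] :=
    Iso.mid [] [pX 3 e] (k := 6) (by simp [Ok]) (Iso.zig (n := 6) (i := 4) (by omega))
  exact ((((h1.trans h2).trans h3).trans h4).trans h5).symm

/-- the five crossings -/
private theorem tgw_r3 (e : Bool) :
    Iso 4 [pX 2 e, pU 4, pX 3 e, pX 2 e, pX 3 (!e)] [pU 4, pX 3 e, pX 2 e] := by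
  have h1 : Iso 4 [pX 2 e, pU 4, pX 3 e, pX 2 e, pX 3 (!e)]
      [pU 4, pX 2 e, pX 3 e, pX 2 e, pX 3 (!e)] :=
    Iso.mid [] [pX 3 e, pX 2 e, pX 3 (!e)] (k := 4) (by simp [Ok])
      (Iso.swap (n := 4) (Kind.X e) Kind.U 2 4 (by simp [Kind.inn]) (by simp [Kind.inn]))
  have h2 : Iso 4 [pU 4, pX 2 e, pX 3 e, pX 2 e, pX 3 (!e)]
      [pU 4, pX 3 e, pX 2 e, pX 3 e, pX 3 (!e)] :=
    Iso.mid [pU 4] [pX 3 (!e)] (k := 6) (by simp [Ok, Kind.inn, Kind.out])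
      (Iso.r3 (n := 6) (i := 2) e (by omega))
  have h3 : Iso 4 [pU 4, pX 3 e, pX 2 e, pX 3 e, pX 3 (!e)] [pU 4, pX 3 e, pX 2 e] :=
    Iso.mid [pU 4, pX 3 e, pX 2 e] [] (k := 6) (by simp [Ok, Kind.inn, Kind.out])
      (Iso.r2 (n := 6) (i := 3) e (by omega))
  exact (h1.trans h2).trans h3

/-- first part: the words below `X` and `Y` -/
private theorem tgw_A (e : Bool) (X Y Z : Word) (hX : Ok X 4 0) (hY : Ok Y 4 0) :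
    Iso 0 (IW e ++ ([pU 0, pU 2, pX 1 (!e), pU 6, pU 8, pX 7 (!e), pU 11, pU 13, pX 12 e] ++
      (Pool.Agent.ARB.sh 9 X ++ (pN 5 :: (Pool.Agent.ARB.sh 2 Y ++ Z)))))
      ([pU 0, pU 1, pX 2 e, pU 4, pU 5] ++ (Pool.Agent.ARB.sh 2 Y ++
        ([pU 4, pX 3 e, pX 2 e, pU 5, pU 6] ++ (Pool.Agent.ARB.sh 3 X ++ ([pX 3 (!e)] ++ Z))))) := by
  have hX7 : Ok X 7 3 := hX.add 3
  have hX3 : Ok (Pool.Agent.ARB.sh 3 X) 7 3 := hX.sh 3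
  have hY2 : Ok (Pool.Agent.ARB.sh 2 Y) 6 2 := hY.sh 2
  have hY7 : Ok (Pool.Agent.ARB.sh 2 Y) 7 3 := hY2.add 1
  -- the island goes to the bottom
  have h1 : Iso 0 (IW e ++ ([pU 0, pU 2, pX 1 (!e), pU 6, pU 8, pX 7 (!e), pU 11, pU 13, pX 12 e] ++
      (Pool.Agent.ARB.sh 9 X ++ (pN 5 :: (Pool.Agent.ARB.sh 2 Y ++ Z)))))
      ([pU 0, pU 2, pX 1 (!e), pU 4, pU 6, pX 5 e, pU 6, pU 8, pX 7 (!e), pU 11, pU 13, pX 12 e] ++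
      (Pool.Agent.ARB.sh 9 X ++ (pN 5 :: (Pool.Agent.ARB.sh 2 Y ++ Z)))) :=
    Iso.right (tgw_comm [pU 0, pU 2, pX 1 (!e)] [pU 0, pU 2, pX 1 e] 0 4 0 4
      (by simp [Ok, Kind.inn, Kind.out]) (by simp [Ok, Kind.inn, Kind.out]) rfl).symm
      ([pU 6, pU 8, pX 7 (!e), pU 11, pU 13, pX 12 e] ++
      (Pool.Agent.ARB.sh 9 X ++ (pN 5 :: (Pool.Agent.ARB.sh 2 Y ++ Z))))
  have h2 : Iso 0 ([pU 0, pU 2, pX 1 (!e), pU 4, pU 6, pX 5 e, pU 6, pU 8, pX 7 (!e), pU 11, pU 13,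
        pX 12 e] ++ (Pool.Agent.ARB.sh 9 X ++ (pN 5 :: (Pool.Agent.ARB.sh 2 Y ++ Z))))
      ([pU 0, pU 1, pX 2 e, pU 4, pU 6, pX 5 e, pU 6, pU 8, pX 7 (!e), pU 11, pU 13,
        pX 12 e] ++ (Pool.Agent.ARB.sh 9 X ++ (pN 5 :: (Pool.Agent.ARB.sh 2 Y ++ Z)))) := by
    have h := Iso.slU (n := 2) (i := 1) (!e) (by omega)
    rw [Bool.not_not] at h
    exact Iso.mid [pU 0] ([pU 4, pU 6, pX 5 e, pU 6, pU 8, pX 7 (!e), pU 11, pU 13,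
      pX 12 e] ++ (Pool.Agent.ARB.sh 9 X ++ (pN 5 :: (Pool.Agent.ARB.sh 2 Y ++ Z)))) (k := 2)
      (by simp [Ok, Kind.inn, Kind.out]) h
  -- the cap goes down
  have h3 : Iso 0 ([pU 0, pU 1, pX 2 e, pU 4, pU 6, pX 5 e, pU 6, pU 8, pX 7 (!e), pU 11, pU 13,
        pX 12 e] ++ (Pool.Agent.ARB.sh 9 X ++ (pN 5 :: (Pool.Agent.ARB.sh 2 Y ++ Z))))
      ([pU 0, pU 1, pX 2 e, pU 4, pU 6, pX 5 e, pU 6, pU 8, pX 7 (!e), pU 11, pU 13,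
        pX 12 e] ++ (pN 5 :: (Pool.Agent.ARB.sh 7 X ++ (Pool.Agent.ARB.sh 2 Y ++ Z)))) := by
    have h := (tgw_comm (n := 16) [pN 5] X 9 7 7 3 (by simp [Ok, Kind.inn, Kind.out]) hX7
      rfl).symm
    have h' := Iso.mid [pU 0, pU 1, pX 2 e, pU 4, pU 6, pX 5 e, pU 6, pU 8, pX 7 (!e), pU 11, pU 13,
      pX 12 e] (Pool.Agent.ARB.sh 2 Y ++ Z) (n := 0) (k := 16)
      (by simp [Ok, Kind.inn, Kind.out]) h
    rw [List.append_assoc (Pool.Agent.ARB.sh 9 X)] at h'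
    exact h'
  have h4 : Iso 0 ([pU 0, pU 1, pX 2 e, pU 4, pU 6, pX 5 e, pU 6, pU 8, pX 7 (!e), pU 11, pU 13,
        pX 12 e] ++ (pN 5 :: (Pool.Agent.ARB.sh 7 X ++ (Pool.Agent.ARB.sh 2 Y ++ Z))))
      ([pU 0, pU 1, pX 2 e, pU 4, pU 5, pU 8, pX 7 e, pX 6 e, pU 9, pU 10, pX 11 (!e)] ++
        (Pool.Agent.ARB.sh 7 X ++ (Pool.Agent.ARB.sh 2 Y ++ Z))) :=
    Iso.mid [pU 0, pU 1, pX 2 e] (Pool.Agent.ARB.sh 7 X ++ (Pool.Agent.ARB.sh 2 Y ++ Z)) (n := 0)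
      (k := 4) (by simp [Ok, Kind.inn, Kind.out]) ((tgw_M e).sh 4)
  -- `Y` goes down
  have h5 : Iso 0 ([pU 0, pU 1, pX 2 e, pU 4, pU 5, pU 8, pX 7 e, pX 6 e, pU 9, pU 10,
        pX 11 (!e)] ++ (Pool.Agent.ARB.sh 7 X ++ (Pool.Agent.ARB.sh 2 Y ++ Z)))
      ([pU 0, pU 1, pX 2 e, pU 4, pU 5, pU 8, pX 7 e, pX 6 e, pU 9, pU 10,
        pX 11 (!e)] ++ (Pool.Agent.ARB.sh 2 Y ++ (Pool.Agent.ARB.sh 3 X ++ Z))) := by
    have h := (tgw_comm (n := 14) (Pool.Agent.ARB.sh 2 Y) X 7 3 7 3 hY7 hX7 rfl).symm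
    have h' := Iso.mid [pU 0, pU 1, pX 2 e, pU 4, pU 5, pU 8, pX 7 e, pX 6 e, pU 9, pU 10,
      pX 11 (!e)] Z (n := 0) (k := 14) (by simp [Ok, Kind.inn, Kind.out]) h
    rw [List.append_assoc (Pool.Agent.ARB.sh 7 X), List.append_assoc (Pool.Agent.ARB.sh 2 Y)] at h'
    exact h'
  have h6 : Iso 0 ([pU 0, pU 1, pX 2 e, pU 4, pU 5, pU 8, pX 7 e, pX 6 e, pU 9, pU 10,
        pX 11 (!e)] ++ (Pool.Agent.ARB.sh 2 Y ++ (Pool.Agent.ARB.sh 3 X ++ Z)))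
      ([pU 0, pU 1, pX 2 e, pU 4, pU 5] ++ (Pool.Agent.ARB.sh 2 Y ++
        ([pU 4, pX 3 e, pX 2 e, pU 5, pU 6, pX 7 (!e)] ++ (Pool.Agent.ARB.sh 3 X ++ Z)))) := by
    have h := (tgw_comm (n := 8) (Pool.Agent.ARB.sh 2 Y) [pU 2, pX 1 e, pX 0 e, pU 3, pU 4, pX 5 (!e)]
      6 2 2 8 hY2 (by simp [Ok, Kind.inn, Kind.out]) rfl).symm
    have h' := Iso.mid [pU 0, pU 1, pX 2 e, pU 4, pU 5] (Pool.Agent.ARB.sh 3 X ++ Z) (n := 0) (k := 8)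
      (by simp [Ok, Kind.inn, Kind.out]) h
    rw [List.append_assoc (Pool.Agent.ARB.sh 2 Y)] at h'
    exact h'
  have h7 : Iso 0 ([pU 0, pU 1, pX 2 e, pU 4, pU 5] ++ (Pool.Agent.ARB.sh 2 Y ++
        ([pU 4, pX 3 e, pX 2 e, pU 5, pU 6, pX 7 (!e)] ++ (Pool.Agent.ARB.sh 3 X ++ Z))))
      ([pU 0, pU 1, pX 2 e, pU 4, pU 5] ++ (Pool.Agent.ARB.sh 2 Y ++
        ([pU 4, pX 3 e, pX 2 e, pU 5, pU 6] ++ (Pool.Agent.ARB.sh 3 X ++ ([pX 3 (!e)] ++ Z))))) := by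
    have h := (tgw_comm (n := 10) (Pool.Agent.ARB.sh 3 X) [pX 0 (!e)] 7 3 3 3 hX3
      (by simp [Ok, Kind.inn, Kind.out]) rfl).symm
    have h' := Iso.mid [pU 4, pX 3 e, pX 2 e, pU 5, pU 6] Z (n := 4) (k := 10)
      (by simp [Ok, Kind.inn, Kind.out]) h
    rw [List.append_assoc (Pool.Agent.ARB.sh 3 X)] at h'
    have hY8 : Ok (Pool.Agent.ARB.sh 2 Y) 8 4 := hY2.add 2
    exact Iso.left (k := 8) (by simp [Ok, Kind.inn, Kind.out]) (Iso.left hY8 h')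
  exact (((((h1.trans h2).trans h3).trans h4).trans h5).trans h6).trans h7

theorem thm_Tgw (hFl : St_Fl) : St_Tgw := by
  intro e X Y Z hX hY hZ
  have hY22 : Ok (pU 2 :: pU 3 :: Y) 2 2 := by
    have h := hY.add 2
    exact ⟨by simp [Kind.inn], by simp [Kind.inn, Kind.out], h⟩
  have hX22 : Ok (pU 2 :: pU 3 :: X) 2 2 := by
    have h := hX.add 2
    exact ⟨by simp [Kind.inn], by simp [Kind.inn, Kind.out], h⟩
  obtain ⟨hYf, -, hYY, -, -⟩ := hFl _ _ _ hY22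
  obtain ⟨hXf, -, -, -, hXi⟩ := hFl _ _ _ hX22
  have hYi := (hFl _ _ _ hYf).2.2.2.2 (by omega) (by omega) e
  rw [hYY] at hYi
  have hXi' := hXi (by omega) (by omega) (!e)
  generalize hF : flw 2 (pU 2 :: pU 3 :: Y) = F at *
  generalize hG : flw 2 (pU 2 :: pU 3 :: X) = G at *
  -- `Fl` for `Y`
  have hA := tgw_A e X Y Z hX hY
  have hYi2 : Iso 2 ([pX 0 e] ++ (pU 2 :: pU 3 :: Y)) (F ++ [pX 0 e]) := hYi.symm
  have hXi2 : Iso 2 ((pU 2 :: pU 3 :: X) ++ [pX 0 (!e)]) ([pX 0 (!e)] ++ G) := hXi'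
  have hF2 : Ok (Pool.Agent.ARB.sh 2 F) 4 4 := hYf.sh 2
  have hG3 : Ok (Pool.Agent.ARB.sh 3 G) 6 6 := by
    have h := (hXf.sh 3).add 1
    exact h
  have h1 : Iso 0 ([pU 0, pU 1, pX 2 e, pU 4, pU 5] ++ (Pool.Agent.ARB.sh 2 Y ++
        ([pU 4, pX 3 e, pX 2 e, pU 5, pU 6] ++ (Pool.Agent.ARB.sh 3 X ++ ([pX 3 (!e)] ++ Z)))))
      ([pU 0, pU 1] ++ (Pool.Agent.ARB.sh 2 F ++ ([pX 2 e] ++
        ([pU 4, pX 3 e, pX 2 e, pU 5, pU 6] ++ (Pool.Agent.ARB.sh 3 X ++ ([pX 3 (!e)] ++ Z)))))) := by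
    have h := hYi2.sh 2
    rw [sh_append, sh_append] at h
    have h' := Iso.mid [pU 0, pU 1] ([pU 4, pX 3 e, pX 2 e, pU 5, pU 6] ++
      (Pool.Agent.ARB.sh 3 X ++ ([pX 3 (!e)] ++ Z))) (n := 0) (k := 4)
      (by simp [Ok, Kind.inn, Kind.out]) h
    rw [List.append_assoc (Pool.Agent.ARB.sh 2 F)] at h'
    exact h'
  have h2 : Iso 0 ([pU 0, pU 1] ++ (Pool.Agent.ARB.sh 2 F ++ ([pX 2 e] ++
        ([pU 4, pX 3 e, pX 2 e, pU 5, pU 6] ++ (Pool.Agent.ARB.sh 3 X ++ ([pX 3 (!e)] ++ Z))))))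
      ([pU 0, pU 1] ++ (Pool.Agent.ARB.sh 2 F ++ ([pX 2 e, pU 4, pX 3 e, pX 2 e, pX 3 (!e)] ++
        (Pool.Agent.ARB.sh 3 G ++ Z)))) := by
    have h := (hXi2.sh 3).add 1
    rw [sh_append, sh_append] at h
    have h' := Iso.mid [pX 2 e, pU 4, pX 3 e, pX 2 e] Z (n := 4) (k := 6)
      (by simp [Ok, Kind.inn, Kind.out]) h
    have h'' := Iso.left (n := 0) (k := 4) (z := [pU 0, pU 1])
      (by simp [Ok, Kind.inn, Kind.out]) (Iso.left hF2 h')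
    have e1 : Pool.Agent.ARB.sh 3 (pU 2 :: pU 3 :: X) ++ Pool.Agent.ARB.sh 3 [pX 0 (!e)] ++ Z =
        [pU 5, pU 6] ++ (Pool.Agent.ARB.sh 3 X ++ ([pX 3 (!e)] ++ Z)) := by
      rw [List.append_assoc]
      rfl
    rw [e1, List.append_assoc (Pool.Agent.ARB.sh 3 [pX 0 (!e)])] at h''
    exact h''
  have h3 : Iso 0 ([pU 0, pU 1] ++ (Pool.Agent.ARB.sh 2 F ++ ([pX 2 e, pU 4, pX 3 e, pX 2 e,
        pX 3 (!e)] ++ (Pool.Agent.ARB.sh 3 G ++ Z))))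
      ([pU 0, pU 1] ++ (Pool.Agent.ARB.sh 2 F ++ ([pU 4, pX 3 e, pX 2 e] ++
        (Pool.Agent.ARB.sh 3 G ++ Z)))) :=
    Iso.left (n := 0) (k := 4) (by simp [Ok, Kind.inn, Kind.out])
      (Iso.left hF2 ((tgw_r3 e).right _))
  have h4 : Iso 0 ([pU 0, pU 1] ++ (Pool.Agent.ARB.sh 2 F ++ ([pU 4, pX 3 e, pX 2 e] ++
        (Pool.Agent.ARB.sh 3 G ++ Z))))
      ([pU 0, pU 1] ++ (Pool.Agent.ARB.sh 2 F ++ ([pU 4, pU 4, pU 6, pX 5 e, pN 3, pN 5, pX 2 e] ++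
        (Pool.Agent.ARB.sh 3 G ++ Z)))) :=
    Iso.left (n := 0) (k := 4) (by simp [Ok, Kind.inn, Kind.out])
      (Iso.left hF2 (Iso.mid [pU 4] ([pX 2 e] ++ (Pool.Agent.ARB.sh 3 G ++ Z)) (n := 4) (k := 6)
        (by simp [Ok, Kind.inn, Kind.out]) (tgw_isl e)))
  have h5 : Iso 0 ([pU 0, pU 1] ++ (Pool.Agent.ARB.sh 2 F ++ ([pU 4, pU 4, pU 6, pX 5 e, pN 3, pN 5,
        pX 2 e] ++ (Pool.Agent.ARB.sh 3 G ++ Z))))
      ([pU 0, pU 1] ++ (Pool.Agent.ARB.sh 2 F ++ ([pU 4, pU 6, pX 5 e, pU 8, pN 3, pN 5,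
        pX 2 e] ++ (Pool.Agent.ARB.sh 3 G ++ Z)))) := by
    have h := (tgw_comm (n := 4) [pU 4, pU 6, pX 5 e] [pU 0] 4 8 0 2
      (by simp [Ok, Kind.inn, Kind.out]) (by simp [Ok, Kind.inn, Kind.out]) rfl).symm
    exact Iso.left (n := 0) (k := 4) (by simp [Ok, Kind.inn, Kind.out])
      (Iso.left hF2 (h.right ([pN 3, pN 5, pX 2 e] ++ (Pool.Agent.ARB.sh 3 G ++ Z))))
  have h6 : Iso 0 ([pU 0, pU 1] ++ (Pool.Agent.ARB.sh 2 F ++ ([pU 4, pU 6, pX 5 e, pU 8, pN 3, pN 5,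
        pX 2 e] ++ (Pool.Agent.ARB.sh 3 G ++ Z))))
      (IW e ++ (([pU 0, pU 1] ++ Pool.Agent.ARB.sh 2 F) ++
        ([pU 8, pN 3, pN 5] ++ (pX 2 e :: (Pool.Agent.ARB.sh 3 G ++ Z))))) := by
    have hok : Ok ([pU 0, pU 1] ++ Pool.Agent.ARB.sh 2 F) 0 4 :=
      Ok.append (k := 4) (by simp [Ok, Kind.inn, Kind.out]) hF2
    have h := tgw_comm (n := 0) ([pU 0, pU 1] ++ Pool.Agent.ARB.sh 2 F) (IW e) 0 4 0 4 hok
      (by simp [IW, Ok, Kind.inn, Kind.out]) rfl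
    have h' := h.right ([pU 8, pN 3, pN 5] ++ (pX 2 e :: (Pool.Agent.ARB.sh 3 G ++ Z)))
    rw [sh_zero, List.append_assoc (IW e), List.append_assoc ([pU 0, pU 1] ++ _),
      List.append_assoc [pU 0, pU 1]] at h'
    exact h'
  exact (((((hA.trans h1).trans h2).trans h3).trans h4).trans h5).trans h6

end Pool.LSG
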