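import Pool.Agent.LSG.St

/-!
# LS, geometry block: colourings and shifts (module VaC)
-/

set_option autoImplicit false

namespace Pool.LSG

open Pool.Agent.ARB

/-! ### rows of colours -/

theorem vac_insC_sh {κ : Type} (i a : ℕ) (t : κ) (c : ℕ → κ) :
    (fun j => insC (i + a) t c (j + a)) = insC i t (fun j => c (j + a)) := by
  funext j
  unfold insC
  by_cases h1 : j ≤ i
  · rw [if_pos h1, if_pos (by omega)]
  · rw [if_neg h1, if_neg (by omega)]
    by_cases h2 : j = i + 1
    · rw [if_pos h2, if_pos (by omega)]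
    · rw [if_neg h2, if_neg (by omega)]
      have e : j + a - 2 = j - 2 + a := by omega
      rw [e]

theorem vac_delC_sh {κ : Type} (i a : ℕ) (c : ℕ → κ) :
    (fun j => delC (i + a) c (j + a)) = delC i (fun j => c (j + a)) := by
  funext j
  unfold delC
  by_cases h1 : j ≤ i
  · rw [if_pos h1, if_pos (by omega)]
  · rw [if_neg h1, if_neg (by omega)]
    have e : j + a + 2 = j + 2 + a := by omega
    rw [e]

theorem vac_updC_sh {κ : Type} (i a : ℕ) (t : κ) (c : ℕ → κ) :
    (fun j => updC (i + a) t c (j + a)) = updC i t (fun j => c (j + a)) := by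
  funext j
  unfold updC
  by_cases h1 : j = i
  · rw [if_pos h1, if_pos (by omega)]
  · rw [if_neg h1, if_neg (by omega)]

theorem vac_insC_le {κ : Type} {i j : ℕ} (t : κ) (c : ℕ → κ) (h : j ≤ i) : insC i t c j = c j :=
  if_pos h

theorem vac_insC_ge {κ : Type} {i j : ℕ} (t : κ) (c : ℕ → κ) (h : i + 2 ≤ j) :
    insC i t c j = c (j - 2) := by
  unfold insC
  rw [if_neg (by omega), if_neg (by omega)]

theorem vac_delC_le {κ : Type} {i j : ℕ} (c : ℕ → κ) (h : j ≤ i) : delC i c j = c j := if_pos h

theorem vac_delC_gt {κ : Type} {i j : ℕ} (c : ℕ → κ) (h : i < j) : delC i c j = c (j + 2) :=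
  if_neg (by omega)

theorem vac_updC_ne {κ : Type} {i j : ℕ} (t : κ) (c : ℕ → κ) (h : j ≠ i) : updC i t c j = c j :=
  if_neg h

theorem vac_insC_map {κ κ' : Type} (f : κ → κ') (i : ℕ) (t : κ) (c : ℕ → κ) :
    (fun j => f (insC i t c j)) = insC i (f t) (fun j => f (c j)) := by
  funext j
  unfold insC
  by_cases h1 : j ≤ i
  · rw [if_pos h1, if_pos h1]
  · rw [if_neg h1, if_neg h1]
    by_cases h2 : j = i + 1
    · rw [if_pos h2, if_pos h2]
    · rw [if_neg h2, if_neg h2]

theorem vac_delC_map {κ κ' : Type} (f : κ → κ') (i : ℕ) (c : ℕ → κ) :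
    (fun j => f (delC i c j)) = delC i (fun j => f (c j)) := by
  funext j
  unfold delC
  by_cases h1 : j ≤ i
  · rw [if_pos h1, if_pos h1]
  · rw [if_neg h1, if_neg h1]

theorem vac_updC_map {κ κ' : Type} (f : κ → κ') (i : ℕ) (t : κ) (c : ℕ → κ) :
    (fun j => f (updC i t c j)) = updC i (f t) (fun j => f (c j)) := by
  funext j
  unfold updC
  by_cases h1 : j = i
  · rw [if_pos h1, if_pos h1]
  · rw [if_neg h1, if_neg h1]

theorem vac_insC_agree {κ : Type} {n : ℕ} (i : ℕ) (t : κ) {c d : ℕ → κ} (h : ∀ j ≤ n, d j = c j) :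
    ∀ j ≤ n + 2, i ≤ n → insC i t d j = insC i t c j := by
  intro j hj hi
  unfold insC
  by_cases h1 : j ≤ i
  · rw [if_pos h1, if_pos h1]
    exact h j (by omega)
  · rw [if_neg h1, if_neg h1]
    by_cases h2 : j = i + 1
    · rw [if_pos h2, if_pos h2]
    · rw [if_neg h2, if_neg h2]
      exact h (j - 2) (by omega)

/-! ### the six claims -/

/-- colourings of a shifted word -/
theorem vac_1 {κ α : Type} (P : κ → κ → κ → κ → α → Prop) (A : Wd α) (a : ℕ) (c c' : ℕ → κ) :
    Va P c (shd a A) c' ↔
      Va P (fun j => c (j + a)) A (fun j => c' (j + a)) ∧ ∀ j ≤ a, c' j = c j := by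
  induction A generalizing c with
  | nil =>
    show c = c' ↔ (fun j => c (j + a)) = (fun j => c' (j + a)) ∧ ∀ j ≤ a, c' j = c j
    constructor
    · intro h
      subst h
      exact ⟨rfl, fun _ _ => rfl⟩
    · rintro ⟨h1, h2⟩
      funext j
      rcases Nat.lt_or_ge j a with h3 | h3
      · exact (h2 j (by omega)).symm
      · have h4 := congrFun h1 (j - a)
        have e : j - a + a = j := by omega
        rw [e] at h4
        exact h4
  | cons s A ih =>
    obtain ⟨k, i⟩ := s
    cases k with
    | U =>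
      show (∃ t, Va P (insC (i + a) t c) (shd a A) c') ↔
        (∃ t, Va P (insC i t (fun j => c (j + a))) A (fun j => c' (j + a))) ∧
          ∀ j ≤ a, c' j = c j
      constructor
      · rintro ⟨t, h⟩
        rw [ih, vac_insC_sh] at h
        refine ⟨⟨t, h.1⟩, fun j hj => ?_⟩
        rw [h.2 j hj]
        exact vac_insC_le t c (by omega)
      · rintro ⟨⟨t, h⟩, h2⟩
        refine ⟨t, ?_⟩
        rw [ih, vac_insC_sh]
        refine ⟨h, fun j hj => ?_⟩
        rw [h2 j hj]
        exact (vac_insC_le t c (by omega)).symm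
    | N =>
      show (c (i + a) = c (i + a + 2) ∧ Va P (delC (i + a) c) (shd a A) c') ↔
        (c (i + a) = c (i + 2 + a) ∧
          Va P (delC i (fun j => c (j + a))) A (fun j => c' (j + a))) ∧ ∀ j ≤ a, c' j = c j
      have e : i + 2 + a = i + a + 2 := by omega
      rw [e, ih, vac_delC_sh]
      constructor
      · rintro ⟨h1, h2, h3⟩
        refine ⟨⟨h1, h2⟩, fun j hj => ?_⟩
        rw [h3 j hj]
        exact vac_delC_le c (by omega)
      · rintro ⟨⟨h1, h2⟩, h3⟩
        refine ⟨h1, h2, fun j hj => ?_⟩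
        rw [h3 j hj]
        exact (vac_delC_le c (by omega)).symm
    | X b =>
      show (∃ t, P (c (i + a)) (c (i + a + 1)) (c (i + a + 2)) t b ∧
          Va P (updC (i + a + 1) t c) (shd a A) c') ↔
        (∃ t, P (c (i + a)) (c (i + 1 + a)) (c (i + 2 + a)) t b ∧
          Va P (updC (i + 1) t (fun j => c (j + a))) A (fun j => c' (j + a))) ∧
            ∀ j ≤ a, c' j = c j
      have e1 : i + a + 1 = i + 1 + a := by omega
      have e2 : i + a + 2 = i + 2 + a := by omega
      rw [e1, e2]
      constructor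
      · rintro ⟨t, h1, h⟩
        rw [ih, vac_updC_sh] at h
        refine ⟨⟨t, h1, h.1⟩, fun j hj => ?_⟩
        rw [h.2 j hj]
        exact vac_updC_ne t c (by omega)
      · rintro ⟨⟨t, h1, h⟩, h2⟩
        refine ⟨t, h1, ?_⟩
        rw [ih, vac_updC_sh]
        refine ⟨h, fun j hj => ?_⟩
        rw [h2 j hj]
        exact (vac_updC_ne t c (by omega)).symm

/-- right of the word nothing changes -/
theorem vac_2 {κ α : Type} (P : κ → κ → κ → κ → α → Prop) (A : Wd α) (n m : ℕ) (c c' : ℕ → κ)
    (hA : Okd A n m) (h : Va P c A c') : ∀ j, c' (m + j) = c (n + j) := by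
  induction A generalizing n c with
  | nil =>
    intro j
    have h1 : n = m := hA
    have h2 : c = c' := h
    subst h1
    subst h2
    rfl
  | cons s A ih =>
    obtain ⟨k, i⟩ := s
    intro j
    cases k with
    | U =>
      obtain ⟨t, h2⟩ := h
      have h3 : i + 0 ≤ n := hA.1
      have h4 : Okd A (n - 0 + 2) m := hA.2
      rw [ih _ _ h4 h2 j, vac_insC_ge t c (by omega)]
      have e : n - 0 + 2 + j - 2 = n + j := by omega
      rw [e]
    | N =>
      obtain ⟨h1, h2⟩ := h
      have h3 : i + 2 ≤ n := hA.1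
      have h4 : Okd A (n - 2 + 0) m := hA.2
      rw [ih _ _ h4 h2 j]
      rcases Nat.lt_or_ge i (n - 2 + 0 + j) with h5 | h5
      · rw [vac_delC_gt c h5]
        have e : n - 2 + 0 + j + 2 = n + j := by omega
        rw [e]
      · rw [vac_delC_le c h5]
        have e1 : n - 2 + 0 + j = i := by omega
        have e2 : n + j = i + 2 := by omega
        rw [e1, e2]
        exact h1
    | X b =>
      obtain ⟨t, _, h2⟩ := h
      have h3 : i + 2 ≤ n := hA.1
      have h4 : Okd A (n - 2 + 2) m := hA.2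
      rw [ih _ _ h4 h2 j, vac_updC_ne t c (by omega)]
      have e : n - 2 + 2 + j = n + j := by omega
      rw [e]

/-- the colour of the gap `0` does not change -/
theorem vac_6 {κ α : Type} (P : κ → κ → κ → κ → α → Prop) (A : Wd α) (c c' : ℕ → κ)
    (h : Va P c A c') : c' 0 = c 0 := by
  induction A generalizing c with
  | nil =>
    have h2 : c = c' := h
    subst h2
    rfl
  | cons s A ih =>
    obtain ⟨k, i⟩ := s
    cases k with
    | U =>
      obtain ⟨t, h2⟩ := h
      rw [ih _ h2]
      exact vac_insC_le t c (Nat.zero_le _)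
    | N =>
      obtain ⟨_, h2⟩ := h
      rw [ih _ h2]
      exact vac_delC_le c (Nat.zero_le _)
    | X b =>
      obtain ⟨t, _, h2⟩ := h
      rw [ih _ h2]
      exact vac_updC_ne t c (by omega)

/-- colourings of a shifted word without strands above it -/
theorem vac_3 {κ α : Type} (P : κ → κ → κ → κ → α → Prop) (A : Wd α) (a m : ℕ) (c c' : ℕ → κ)
    (hA : Okd A m 0) :
    Va P c (shd a A) c' ↔ (∃ d', Va P (fun j => c (j + a)) A d') ∧
      c' = fun j => if j ≤ a then c j else c (j + m) := by
  rw [vac_1]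
  constructor
  · rintro ⟨h1, h2⟩
    refine ⟨⟨_, h1⟩, ?_⟩
    funext j
    by_cases h3 : j ≤ a
    · rw [if_pos h3]
      exact h2 j h3
    · rw [if_neg h3]
      have h4 : c' (0 + (j - a) + a) = c (m + (j - a) + a) := vac_2 P A m 0 _ _ hA h1 (j - a)
      have e1 : 0 + (j - a) + a = j := by omega
      have e2 : m + (j - a) + a = j + m := by omega
      rw [e1, e2] at h4
      exact h4
  · rintro ⟨⟨d', h1⟩, h2⟩
    have h5 : d' 0 = c (0 + a) := vac_6 P A _ _ h1
    have h3 : d' = fun j => c' (j + a) := by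
      funext j
      have h4 : d' (0 + j) = c (m + j + a) := vac_2 P A m 0 _ _ hA h1 j
      have e1 : 0 + j = j := by omega
      rw [e1] at h4
      rw [h2]
      show d' j = if j + a ≤ a then c (j + a) else c (j + a + m)
      by_cases h6 : j + a ≤ a
      · rw [if_pos h6]
        have h7 : j = 0 := by omega
        subst h7
        exact h5
      · rw [if_neg h6, h4]
        have e2 : m + j + a = j + a + m := by omega
        rw [e2]
    refine ⟨?_, fun j hj => ?_⟩
    · rw [← h3]
      exact h1
    · rw [h2]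
      exact if_pos hj

/-- only the values at `0, ..., n` matter -/
theorem vac_4 {κ α : Type} (P : κ → κ → κ → κ → α → Prop) (A : Wd α) (n m : ℕ)
    (c d c' : ℕ → κ) (hA : Okd A n m) (hd : ∀ j ≤ n, d j = c j) (h : Va P c A c') :
    ∃ d', Va P d A d' ∧ ∀ j ≤ m, d' j = c' j := by
  induction A generalizing n c d with
  | nil =>
    have h1 : n = m := hA
    have h2 : c = c' := h
    subst h1
    subst h2
    exact ⟨d, rfl, hd⟩
  | cons s A ih =>
    obtain ⟨k, i⟩ := s
    cases k with
    | U =>
      obtain ⟨t, h2⟩ := h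
      have h3 : i + 0 ≤ n := hA.1
      have h4 : Okd A (n - 0 + 2) m := hA.2
      obtain ⟨d', h5, h6⟩ := ih (n - 0 + 2) (insC i t c) (insC i t d) h4
        (fun j hj => vac_insC_agree i t hd j (by omega) (by omega)) h2
      exact ⟨d', ⟨t, h5⟩, h6⟩
    | N =>
      obtain ⟨h1, h2⟩ := h
      have h3 : i + 2 ≤ n := hA.1
      have h4 : Okd A (n - 2 + 0) m := hA.2
      obtain ⟨d', h5, h6⟩ := ih (n - 2 + 0) (delC i c) (delC i d) h4 (by
        intro j hj
        rcases Nat.lt_or_ge i j with h7 | h7
        · rw [vac_delC_gt c h7, vac_delC_gt d h7]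
          exact hd _ (by omega)
        · rw [vac_delC_le c h7, vac_delC_le d h7]
          exact hd _ (by omega)) h2
      refine ⟨d', ⟨?_, h5⟩, h6⟩
      rw [hd i (by omega), hd (i + 2) (by omega)]
      exact h1
    | X b =>
      obtain ⟨t, h1, h2⟩ := h
      have h3 : i + 2 ≤ n := hA.1
      have h4 : Okd A (n - 2 + 2) m := hA.2
      obtain ⟨d', h5, h6⟩ := ih (n - 2 + 2) (updC (i + 1) t c) (updC (i + 1) t d) h4 (by
        intro j hj
        by_cases h7 : j = i + 1
        · subst h7
          show (if i + 1 = i + 1 then t else d (i + 1)) = if i + 1 = i + 1 then t else c (i + 1)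
          rw [if_pos rfl, if_pos rfl]
        · rw [vac_updC_ne t c h7, vac_updC_ne t d h7]
          exact hd _ (by omega)) h2
      refine ⟨d', ⟨t, ?_, h5⟩, h6⟩
      rw [hd i (by omega), hd (i + 1) (by omega), hd (i + 2) (by omega)]
      exact h1

/-- apply a function to the colours -/
theorem vac_5 {κ κ' α β : Type} (P : κ → κ → κ → κ → α → Prop)
    (P' : κ' → κ' → κ' → κ' → β → Prop) (f : κ → κ') (g : α → β)
    (hP : ∀ l b r t a, P l b r t a → P' (f l) (f b) (f r) (f t) (g a)) (A : Wd α)
    (c c' : ℕ → κ) (h : Va P c A c') :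
    Va P' (fun j => f (c j)) (mp g A) (fun j => f (c' j)) := by
  induction A generalizing c with
  | nil =>
    have h2 : c = c' := h
    subst h2
    rfl
  | cons s A ih =>
    obtain ⟨k, i⟩ := s
    cases k with
    | U =>
      obtain ⟨t, h2⟩ := h
      have h3 := ih _ h2
      rw [vac_insC_map] at h3
      exact ⟨f t, h3⟩
    | N =>
      obtain ⟨h1, h2⟩ := h
      have h3 := ih _ h2
      rw [vac_delC_map] at h3
      exact ⟨congrArg f h1, h3⟩
    | X b =>
      obtain ⟨t, h1, h2⟩ := h
      have h3 := ih _ h2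
      rw [vac_updC_map] at h3
      exact ⟨f t, hP _ _ _ _ _ h1, h3⟩

theorem thm_VaC : St_VaC := by
  intro κ κ' α β
  exact ⟨vac_1, vac_2, vac_3, vac_4, vac_5, vac_6⟩

end Pool.LSG
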