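import Pool.Agent.LSG.VaI
import Pool.Agent.LSG.VaC
import Pool.Agent.LSG.Rel
import Pool.Agent.LSG.RelI
import Pool.Agent.LSG.RC
import Pool.Agent.LSG.SL
import Pool.Agent.LSG.Mp
import Pool.Agent.LSG.Fa
import Pool.Agent.LSG.Isl
import Pool.Agent.LSG.Is
import Pool.Agent.LSG.TL
import Pool.Agent.LSG.T1
import Pool.Agent.LSG.Fl
import Pool.Agent.LSG.SC
import Pool.Agent.LSG.NX
import Pool.Agent.LSG.IWN
import Pool.Agent.LSG.BR
import Pool.Agent.LSG.NL
import Pool.Agent.LSG.K2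
import Pool.Agent.LSG.Red
import Pool.Agent.LSG.Adj
import Pool.Agent.LSG.Adj2
import Pool.Agent.LSG.Rot
import Pool.Agent.LSG.Cor
import Pool.Agent.LSG.Tgw
import Pool.Agent.LSG.Tg
import Pool.Agent.LSG.S
import Pool.Agent.LSP.A14
import Pool.Agent.LSP.A15

/-!
# LS: a crossing and an alternating tangle, without hypotheses
-/

set_option autoImplicit false

namespace Pool.LSG

open Pool.Agent.ARB Pool.Agent.Helper2 Pool.ALT Pool.LSP

theorem all_RelI : St_RelI := thm_RelI thm_VaI thm_Rel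

theorem all_RC : St_RC := thm_RC thm_VaI thm_VaC thm_Rel all_RelI

theorem all_SL : St_SL := thm_SL thm_Rel all_RelI all_RC

theorem all_Fa : St_Fa := thm_Fa thm_VaI thm_Rel thm_Mp

theorem all_Isl : St_Isl := thm_Isl thm_VaC thm_Rel all_Fa

theorem all_TL : St_TL := thm_TL thm_Rel all_SL thm_Is

theorem all_T1 : St_T1 := thm_T1 thm_VaC thm_Rel all_RelI all_SL thm_Mp all_Fa thm_Is all_TL

theorem all_NX : St_NX := thm_NX thm_SC

theorem all_BR : St_BR := thm_BR thm_VaC

theorem all_NL : St_NL := thm_NL thm_VaC all_SL thm_Mp all_Fa all_Isl thm_Is all_T1 thm_Fl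

theorem all_K2 : St_K2 := thm_K2 thm_AK all_BR all_NL all_NX thm_SC thm_IWN

theorem all_Red : St_Red := thm_Red all_SL thm_Mp all_Fa thm_Fl thm_SC all_K2

theorem all_Adj : St_Adj := thm_Adj all_SL thm_Mp all_Fa all_Isl all_T1 thm_Fl thm_SC all_K2

theorem all_Adj2 : St_Adj2 := thm_Adj2 all_SL thm_Mp all_Fa all_Isl all_T1 thm_Fl thm_SC all_K2

theorem all_Rot : St_Rot := thm_Rot thm_VaI thm_VaC thm_Mp thm_SC

theorem all_Cor : St_Cor := thm_Cor thm_Rel all_RelI all_SL thm_Mp all_Fa all_Isl all_T1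

theorem all_Tgw : St_Tgw := thm_Tgw thm_Fl

theorem all_Tg : St_Tg := thm_Tg thm_Rel all_RelI all_RC all_SL thm_Mp all_Fa all_Isl all_T1 thm_Fl
  thm_SC all_K2 all_Tgw

theorem all_S : St_S := thm_S thm_AA thm_SC thm_IWN all_BR all_NL all_Red all_Adj all_Adj2 all_Rot
  all_Cor all_Tg

/-- a crossing and an alternating tangle with a unit bracket are the unknot -/
theorem all_NoBad : St_NoBad := thm_NoBad all_S all_K2 thm_IWN thm_SC

/-- there are no bad leaves -/
theorem not_BadX (w : Word) (hw : IsLeaf w) : ¬ BadX w := by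
  rintro ⟨p, hU, hI⟩
  obtain ⟨e, he⟩ := hw.alt
  exact hI (all_NoBad e w hw.ok he p hU)

end Pool.LSG
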