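import Pool.Agent.LSG.Defs

/-!
# LS, geometry block: basic facts on words and planar isotopies
-/

set_option autoImplicit false

namespace Pool.LSG

open Pool.Agent.ARB

variable {α : Type}

/-! ### words -/

theorem shd_nil (j : ℕ) : shd j ([] : Wd α) = [] := rfl

theorem shd_cons (j : ℕ) (s : Pc α) (w : Wd α) : shd j (s :: w) = ⟨s.k, s.i + j⟩ :: shd j w := rfl

theorem shd_append (j : ℕ) (u v : Wd α) : shd j (u ++ v) = shd j u ++ shd j v := List.map_append

theorem shd_length (j : ℕ) (u : Wd α) : (shd j u).length = u.length := List.length_map _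

theorem shd_shd (i j : ℕ) (w : Wd α) : shd i (shd j w) = shd (i + j) w := by
  induction w with
  | nil => rfl
  | cons s w ih =>
    rw [shd_cons, shd_cons, shd_cons, ih]
    have h1 : s.i + j + i = s.i + (i + j) := by omega
    show (⟨s.k, s.i + j + i⟩ : Pc α) :: _ = _
    rw [h1]

theorem shd_zero (w : Wd α) : shd 0 w = w := by
  induction w with
  | nil => rfl
  | cons s w ih => rw [shd_cons, ih]; rfl

theorem Okd.append {u v : Wd α} {n k m : ℕ} (h : Okd u n k) (h' : Okd v k m) : Okd (u ++ v) n m := by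
  induction u generalizing n with
  | nil =>
    have h1 : n = k := h
    subst h1
    exact h'
  | cons s u ih => exact ⟨h.1, ih h.2⟩

theorem Okd.split {u v : Wd α} {n m : ℕ} (h : Okd (u ++ v) n m) : ∃ k, Okd u n k ∧ Okd v k m := by
  induction u generalizing n with
  | nil => exact ⟨n, rfl, h⟩
  | cons s u ih =>
    obtain ⟨k, h1, h2⟩ := ih h.2
    exact ⟨k, ⟨h.1, h1⟩, h2⟩

theorem Okd.det {w : Wd α} {n m m' : ℕ} (h : Okd w n m) (h' : Okd w n m') : m = m' := by
  induction w generalizing n with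
  | nil =>
    have h1 : n = m := h
    have h2 : n = m' := h'
    omega
  | cons s w ih => exact ih h.2 h'.2

/-- more strands on the right -/
theorem Okd.add {w : Wd α} {n m : ℕ} (h : Okd w n m) (j : ℕ) : Okd w (n + j) (m + j) := by
  induction w generalizing n with
  | nil =>
    have h1 : n = m := h
    subst h1
    rfl
  | cons s w ih =>
    have h1 := h.1
    refine ⟨by omega, ?_⟩
    have h2 := ih h.2
    have h3 : n + j - s.k.inn + s.k.out = n - s.k.inn + s.k.out + j := by omega
    rw [h3]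
    exact h2

/-- more strands on the left -/
theorem Okd.sh {w : Wd α} {n m : ℕ} (h : Okd w n m) (j : ℕ) : Okd (shd j w) (n + j) (m + j) := by
  induction w generalizing n with
  | nil =>
    have h1 : n = m := h
    subst h1
    rfl
  | cons s w ih =>
    have h1 := h.1
    refine ⟨by show s.i + j + s.k.inn ≤ n + j; omega, ?_⟩
    have h2 := ih h.2
    have h3 : n + j - s.k.inn + s.k.out = n - s.k.inn + s.k.out + j := by omega
    show Okd (shd j w) (n + j - s.k.inn + s.k.out) (m + j)
    rw [h3]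
    exact h2

theorem Okd.single {s : Pc α} {n : ℕ} (h : s.i + s.k.inn ≤ n) :
    Okd [s] n (n - s.k.inn + s.k.out) := ⟨h, rfl⟩

/-- the word fits between the given numbers of strands, up to arithmetic -/
theorem Okd.cast {w : Wd α} {n m n' m' : ℕ} (h : Okd w n m) (hn : n = n') (hm : m = m') :
    Okd w n' m' := by
  subst hn
  subst hm
  exact h

variable [Rt α]

/-! ### planar isotopies -/

theorem PL.sh {a b : Wd α} (h : PL a b) (j : ℕ) : PL (shd j a) (shd j b) := by
  cases h with
  | swap s t i k =>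
    have h1 := PL.swap s t (i + j) k
    have e1 : i + j + s.out + k = i + s.out + k + j := by omega
    have e2 : i + j + s.inn + k = i + s.inn + k + j := by omega
    rw [e1, e2] at h1
    exact h1
  | zig i =>
    have h1 := PL.zig (α := α) (i + j)
    have e1 : i + j + 1 = i + 1 + j := by omega
    rw [e1] at h1
    exact h1
  | zag i =>
    have h1 := PL.zag (α := α) (i + j)
    have e1 : i + j + 1 = i + 1 + j := by omega
    rw [e1] at h1
    exact h1
  | slU i p =>
    have h1 := PL.slU (i + j) p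
    have e1 : i + j + 1 = i + 1 + j := by omega
    rw [e1] at h1
    exact h1
  | slN i p =>
    have h1 := PL.slN (i + j) p
    have e1 : i + j + 1 = i + 1 + j := by omega
    rw [e1] at h1
    exact h1

theorem PStep.symm {n : ℕ} {w w' : Wd α} (h : PStep n w w') : PStep n w' w := by
  obtain ⟨u, a, b, v, k, l, h1, h2, h3, h4, h5, h6⟩ := h
  exact ⟨u, b, a, v, k, l, h2, h1, h3, h5, h4, h6.symm⟩

theorem PIso.refl (n : ℕ) (w : Wd α) : PIso n w w := Relation.ReflTransGen.refl

theorem PIso.trans {n : ℕ} {w w' w'' : Wd α} (h : PIso n w w') (h' : PIso n w' w'') :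
    PIso n w w'' := Relation.ReflTransGen.trans h h'

theorem PIso.symm {n : ℕ} {w w' : Wd α} (h : PIso n w w') : PIso n w' w := by
  induction h with
  | refl => exact PIso.refl n w
  | tail _ hs ih => exact Relation.ReflTransGen.head hs.symm ih

/-- a local move is an isotopy -/
theorem PIso.of_loc {n m : ℕ} {a b : Wd α} (h : PL a b) (ha : Okd a n m) (hb : Okd b n m) :
    PIso n a b :=
  Relation.ReflTransGen.single ⟨[], a, b, [], n, m, by simp, by simp, rfl, ha, hb, Or.inl h⟩

theorem PStep.right {n : ℕ} {w w' : Wd α} (h : PStep n w w') (z : Wd α) :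
    PStep n (w ++ z) (w' ++ z) := by
  obtain ⟨u, a, b, v, k, l, rfl, rfl, h3, h4, h5, h6⟩ := h
  exact ⟨u, a, b, v ++ z, k, l, by simp, by simp, h3, h4, h5, h6⟩

theorem PStep.left {n k : ℕ} {w w' z : Wd α} (hz : Okd z n k) (h : PStep k w w') :
    PStep n (z ++ w) (z ++ w') := by
  obtain ⟨u, a, b, v, k', l, rfl, rfl, h3, h4, h5, h6⟩ := h
  exact ⟨z ++ u, a, b, v, k', l, by simp, by simp, hz.append h3, h4, h5, h6⟩

theorem PIso.right {n : ℕ} {w w' : Wd α} (h : PIso n w w') (z : Wd α) :
    PIso n (w ++ z) (w' ++ z) := by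
  induction h with
  | refl => exact PIso.refl _ _
  | tail _ hs ih => exact Relation.ReflTransGen.tail ih (hs.right z)

theorem PIso.left {n k : ℕ} {w w' z : Wd α} (hz : Okd z n k) (h : PIso k w w') :
    PIso n (z ++ w) (z ++ w') := by
  induction h with
  | refl => exact PIso.refl _ _
  | tail _ hs ih => exact Relation.ReflTransGen.tail ih (hs.left hz)

/-- isotopy of the middle part of a word -/
theorem PIso.mid {n k : ℕ} {a b : Wd α} (u v : Wd α) (hu : Okd u n k) (h : PIso k a b) :
    PIso n (u ++ (a ++ v)) (u ++ (b ++ v)) := PIso.left hu (h.right v)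

theorem PStep.ok {n m : ℕ} {w w' : Wd α} (h : PStep n w w') (hw : Okd w n m) : Okd w' n m := by
  obtain ⟨u, a, b, v, k, l, rfl, rfl, h3, h4, h5, h6⟩ := h
  obtain ⟨k', h7, h8⟩ := hw.split
  obtain rfl := h3.det h7
  obtain ⟨l', h9, h10⟩ := h8.split
  obtain rfl := h4.det h9
  exact h3.append (h5.append h10)

theorem PIso.ok {n m : ℕ} {w w' : Wd α} (h : PIso n w w') (hw : Okd w n m) : Okd w' n m := by
  induction h with
  | refl => exact hw
  | tail _ hs ih => exact hs.ok ih

theorem PStep.add {n : ℕ} {w w' : Wd α} (h : PStep n w w') (j : ℕ) : PStep (n + j) w w' := by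
  obtain ⟨u, a, b, v, k, l, h1, h2, h3, h4, h5, h6⟩ := h
  exact ⟨u, a, b, v, k + j, l + j, h1, h2, h3.add j, h4.add j, h5.add j, h6⟩

/-- more strands on the right -/
theorem PIso.add {n : ℕ} {w w' : Wd α} (h : PIso n w w') (j : ℕ) : PIso (n + j) w w' := by
  induction h with
  | refl => exact PIso.refl _ _
  | tail _ hs ih => exact Relation.ReflTransGen.tail ih (hs.add j)

theorem PStep.sh {n : ℕ} {w w' : Wd α} (h : PStep n w w') (j : ℕ) :
    PStep (n + j) (shd j w) (shd j w') := by
  obtain ⟨u, a, b, v, k, l, rfl, rfl, h3, h4, h5, h6⟩ := h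
  refine ⟨shd j u, shd j a, shd j b, shd j v, k + j, l + j, by simp [shd_append],
    by simp [shd_append], h3.sh j, h4.sh j, h5.sh j, ?_⟩
  exact h6.imp (fun h => h.sh j) (fun h => h.sh j)

/-- more strands on the left -/
theorem PIso.sh {n : ℕ} {w w' : Wd α} (h : PIso n w w') (j : ℕ) :
    PIso (n + j) (shd j w) (shd j w') := by
  induction h with
  | refl => exact PIso.refl _ _
  | tail _ hs ih => exact Relation.ReflTransGen.tail ih (hs.sh j)

/-- the same for words which fit on at least the given number of strands -/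
theorem PIso.le {n n' : ℕ} {w w' : Wd α} (h : PIso n w w') (hn : n ≤ n') : PIso n' w w' := by
  obtain ⟨j, rfl⟩ := Nat.exists_eq_add_of_le hn
  exact h.add j

/-! ### single moves in arbitrary position -/

theorem PIso.zig {n i : ℕ} (h : i + 1 ≤ n) : PIso n ([cU i, cN (i + 1)] : Wd α) [] := by
  refine PIso.of_loc (m := n) (PL.zig i) ⟨by show i + 0 ≤ n; omega, ?_⟩ rfl
  exact ⟨by show i + 1 + 2 ≤ n - 0 + 2; omega, by show n - 0 + 2 - 2 + 0 = n; omega⟩

theorem PIso.zag {n i : ℕ} (h : i + 1 ≤ n) : PIso n ([cU (i + 1), cN i] : Wd α) [] := by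
  refine PIso.of_loc (m := n) (PL.zag i) ⟨by show i + 1 + 0 ≤ n; omega, ?_⟩ rfl
  exact ⟨by show i + 2 ≤ n - 0 + 2; omega, by show n - 0 + 2 - 2 + 0 = n; omega⟩

theorem PIso.slU {n i : ℕ} (a : α) (h : i + 1 ≤ n) :
    PIso n [cU (i + 1), cX i a] [cU i, cX (i + 1) (Rt.r a)] := by
  refine PIso.of_loc (m := n + 2) (PL.slU i a) ⟨by show i + 1 + 0 ≤ n; omega, ?_⟩
    ⟨by show i + 0 ≤ n; omega, ?_⟩
  · exact ⟨by show i + 2 ≤ n - 0 + 2; omega, by show n - 0 + 2 - 2 + 2 = n + 2; omega⟩
  · exact ⟨by show i + 1 + 2 ≤ n - 0 + 2; omega, by show n - 0 + 2 - 2 + 2 = n + 2; omega⟩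

theorem PIso.slN {n i : ℕ} (a : α) (h : i + 3 ≤ n) :
    PIso n [cX i (Rt.r a), cN (i + 1)] [cX (i + 1) a, cN i] := by
  refine PIso.of_loc (m := n - 2) (PL.slN i a) ⟨by show i + 2 ≤ n; omega, ?_⟩
    ⟨by show i + 1 + 2 ≤ n; omega, ?_⟩
  · exact ⟨by show i + 1 + 2 ≤ n - 2 + 2; omega, by show n - 2 + 2 - 2 + 0 = n - 2; omega⟩
  · exact ⟨by show i + 2 ≤ n - 2 + 2; omega, by show n - 2 + 2 - 2 + 0 = n - 2; omega⟩

/-- interchange of two pieces; `s` is at the position `i`, `t` on the right of it -/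
theorem PIso.swap {n : ℕ} (s t : Kd α) (i j : ℕ) (h1 : i + s.inn ≤ j) (h2 : j + t.inn ≤ n) :
    PIso n [⟨s, i⟩, ⟨t, j - s.inn + s.out⟩] [⟨t, j⟩, ⟨s, i⟩] := by
  have h3 := PL.swap s t i (j - i - s.inn)
  have e1 : i + s.out + (j - i - s.inn) = j - s.inn + s.out := by omega
  have e2 : i + s.inn + (j - i - s.inn) = j := by omega
  rw [e1, e2] at h3
  refine PIso.of_loc (m := n - s.inn + s.out - t.inn + t.out) h3 ⟨by show i + s.inn ≤ n; omega, ?_⟩
    ⟨h2, ?_⟩
  · exact ⟨by show j - s.inn + s.out + t.inn ≤ n - s.inn + s.out; omega, rfl⟩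
  · exact ⟨by show i + s.inn ≤ n - t.inn + t.out; omega,
      by show n - t.inn + t.out - s.inn + s.out = n - s.inn + s.out - t.inn + t.out; omega⟩

/-! ### distant parts of a word can be interchanged -/

theorem PIso.comm_piece (s : Pc α) (a : ℕ) (hs : s.i + s.k.inn ≤ a) (w : Wd α) :
    ∀ c d : ℕ, Okd w c d →
      PIso (a + c) (s :: shd (a - s.k.inn + s.k.out) w) (shd a w ++ [s]) := by
  induction w with
  | nil => intro c d _; exact PIso.refl _ _
  | cons t w ih =>
    intro c d h
    have h1 := h.1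
    have e1 : t.i + a - s.k.inn + s.k.out = t.i + (a - s.k.inn + s.k.out) := by omega
    have h2 : PIso (a + c) [s, ⟨t.k, t.i + (a - s.k.inn + s.k.out)⟩] [⟨t.k, t.i + a⟩, s] := by
      have h3 := PIso.swap (n := a + c) s.k t.k s.i (t.i + a) (by omega) (by omega)
      rw [e1] at h3
      exact h3
    have h4 : PIso (a + c) ([s, ⟨t.k, t.i + (a - s.k.inn + s.k.out)⟩] ++
        shd (a - s.k.inn + s.k.out) w)
        ([⟨t.k, t.i + a⟩, s] ++ shd (a - s.k.inn + s.k.out) w) := h2.right _
    have h5 := ih _ _ h.2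
    have e2 : a + (c - t.k.inn + t.k.out) = a + c - t.k.inn + t.k.out := by omega
    rw [e2] at h5
    have h6 : Okd [(⟨t.k, t.i + a⟩ : Pc α)] (a + c) (a + c - t.k.inn + t.k.out) :=
      ⟨by show t.i + a + t.k.inn ≤ a + c; omega, rfl⟩
    exact h4.trans (PIso.left h6 h5)

/-- `u` on the left, `w` on the right -/
theorem PIso.comm (u w : Wd α) (a b c d : ℕ) (hu : Okd u a b) (hw : Okd w c d) :
    PIso (a + c) (u ++ shd b w) (shd a w ++ u) := by
  induction u generalizing a with
  | nil =>
    have h1 : a = b := hu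
    subst h1
    show PIso (a + c) (shd a w) (shd a w ++ [])
    rw [List.append_nil]
    exact PIso.refl _ _
  | cons s u ih =>
    have h1 := hu.1
    have h2 := ih _ hu.2
    have h3 : Okd [s] (a + c) (a - s.k.inn + s.k.out + c) := by
      refine ⟨by omega, ?_⟩
      show a + c - s.k.inn + s.k.out = a - s.k.inn + s.k.out + c
      omega
    have h4 : PIso (a + c) ([s] ++ (u ++ shd b w))
        ([s] ++ (shd (a - s.k.inn + s.k.out) w ++ u)) := PIso.left h3 h2
    have h5 := (PIso.comm_piece s a h1 w c d hw).right u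
    rw [List.append_assoc] at h5
    exact h4.trans h5

end Pool.LSG
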