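import Pool.Agent.LSP.A0

/-!
# LS, geometry block: words with decorated crossings, planar isotopies, colourings of the regions

A piece is a cup, a cap or a crossing which carries a decoration from a type `α` on which the rotation
by 90 degrees (counterclockwise) acts. Planar isotopies (`PIso`) do not use Reidemeister moves.
-/

set_option autoImplicit false

namespace Pool.LSG

open Pool.Agent.ARB

/-! ### words -/

/-- kinds of pieces -/
inductive Kd (α : Type) where
  | U
  | N
  | X (a : α)

/-- number of strands entering a piece from below -/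
def Kd.inn {α : Type} : Kd α → ℕ
  | .U => 0
  | .N => 2
  | .X _ => 2

/-- number of strands leaving a piece above -/
def Kd.out {α : Type} : Kd α → ℕ
  | .U => 2
  | .N => 0
  | .X _ => 2

/-- a piece with `i` strands to the left of it -/
structure Pc (α : Type) where
  k : Kd α
  i : ℕ

/-- cup at `i` -/
abbrev cU {α : Type} (i : ℕ) : Pc α := ⟨.U, i⟩
/-- cap at `i` -/
abbrev cN {α : Type} (i : ℕ) : Pc α := ⟨.N, i⟩
/-- crossing at `i` -/
abbrev cX {α : Type} (i : ℕ) (a : α) : Pc α := ⟨.X a, i⟩

/-- words, read from bottom to top -/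
abbrev Wd (α : Type) := List (Pc α)

/-- the word fits on `n` strands and has `m` strands above it -/
def Okd {α : Type} : Wd α → ℕ → ℕ → Prop
  | [], n, m => n = m
  | s :: w, n, m => s.i + s.k.inn ≤ n ∧ Okd w (n - s.k.inn + s.k.out) m

/-- put `j` more strands on the left -/
def shd {α : Type} (j : ℕ) (w : Wd α) : Wd α := w.map fun s => ⟨s.k, s.i + j⟩

/-- `a` is the decoration of a crossing of `w` -/
def Lt {α : Type} (a : α) (w : Wd α) : Prop := ∃ i, cX i a ∈ w

/-- number of crossings -/
def nXd {α : Type} : Wd α → ℕ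
  | [] => 0
  | ⟨.X _, _⟩ :: w => nXd w + 1
  | ⟨.U, _⟩ :: w => nXd w
  | ⟨.N, _⟩ :: w => nXd w

/-- apply a function to the decorations -/
def Kd.mp {α β : Type} (f : α → β) : Kd α → Kd β
  | .U => .U
  | .N => .N
  | .X a => .X (f a)

/-- apply a function to the decorations -/
def mp {α β : Type} (f : α → β) (w : Wd α) : Wd β := w.map fun s => ⟨s.k.mp f, s.i⟩

/-! ### planar isotopy -/

/-- the rotation by 90 degrees, counterclockwise -/
class Rt (α : Type) where
  r : α → α
  r4 : ∀ a, r (r (r (r a))) = a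

/-- the planar moves -/
inductive PL {α : Type} [Rt α] : Wd α → Wd α → Prop
  | swap (s t : Kd α) (i k : ℕ) : PL [⟨s, i⟩, ⟨t, i + s.out + k⟩] [⟨t, i + s.inn + k⟩, ⟨s, i⟩]
  | zig (i : ℕ) : PL [cU i, cN (i + 1)] []
  | zag (i : ℕ) : PL [cU (i + 1), cN i] []
  | slU (i : ℕ) (a : α) : PL [cU (i + 1), cX i a] [cU i, cX (i + 1) (Rt.r a)]
  | slN (i : ℕ) (a : α) : PL [cX i (Rt.r a), cN (i + 1)] [cX (i + 1) a, cN i]

/-- one planar move inside a word on `n` strands -/
def PStep {α : Type} [Rt α] (n : ℕ) (w w' : Wd α) : Prop :=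
  ∃ (u a b v : Wd α) (k l : ℕ), w = u ++ (a ++ v) ∧ w' = u ++ (b ++ v) ∧ Okd u n k ∧ Okd a k l ∧
    Okd b k l ∧ (PL a b ∨ PL b a)

/-- planar isotopy of words on `n` strands -/
def PIso {α : Type} [Rt α] (n : ℕ) : Wd α → Wd α → Prop := Relation.ReflTransGen (PStep n)

instance : Rt Bool where
  r := not
  r4 := by intro a; cases a <;> rfl

/-! ### crossings with coloured corners -/

/-- a crossing (sign `p` as for `pX i p`) and the colours of its left, bottom, right, top corner -/
structure Cr (κ : Type) where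
  p : Bool
  l : κ
  b : κ
  r : κ
  t : κ

/-- rotation by 90 degrees, counterclockwise -/
def Cr.rot {κ : Type} (a : Cr κ) : Cr κ := ⟨!a.p, a.t, a.l, a.b, a.r⟩

instance instRtCr {κ : Type} : Rt (Cr κ) where
  r := Cr.rot
  r4 := by
    intro a
    obtain ⟨p, l, b, r, t⟩ := a
    cases p <;> rfl

/-- apply a function to the colours -/
def Cr.map {κ κ' : Type} (f : κ → κ') (a : Cr κ) : Cr κ' := ⟨a.p, f a.l, f a.b, f a.r, f a.t⟩

/-- forget the colours -/
def fgt {κ : Type} (w : Wd (Cr κ)) : Word := w.map fun s => match s.k with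
  | .U => pU s.i
  | .N => pN s.i
  | .X a => pX s.i a.p

/-! ### colourings

At a height with `n` strands there are `n + 1` regions `0, ..., n`; a row of colours is a function on
`ℕ` of which only the values at `0, ..., n` matter. -/

/-- insert a region `i + 1` of colour `t` into region `i` -/
def insC {κ : Type} (i : ℕ) (t : κ) (c : ℕ → κ) : ℕ → κ :=
  fun j => if j ≤ i then c j else if j = i + 1 then t else c (j - 2)

/-- delete the regions `i + 1`, `i + 2` -/
def delC {κ : Type} (i : ℕ) (c : ℕ → κ) : ℕ → κ := fun j => if j ≤ i then c j else c (j + 2)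

/-- change the colour of region `i` -/
def updC {κ : Type} (i : ℕ) (t : κ) (c : ℕ → κ) : ℕ → κ := fun j => if j = i then t else c j

/-- `c` below the word and `c'` above extend to a colouring of the regions such that every crossing
`a` with the colours `l`, `b`, `r`, `t` at its corners satisfies `P l b r t a` -/
def Va {κ α : Type} (P : κ → κ → κ → κ → α → Prop) : (ℕ → κ) → Wd α → (ℕ → κ) → Prop
  | c, [], c' => c = c'
  | c, ⟨.U, i⟩ :: w, c' => ∃ t, Va P (insC i t c) w c'
  | c, ⟨.N, i⟩ :: w, c' => c i = c (i + 2) ∧ Va P (delC i c) w c'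
  | c, ⟨.X a, i⟩ :: w, c' => ∃ t, P (c i) (c (i + 1)) (c (i + 2)) t a ∧
      Va P (updC (i + 1) t c) w c'

/-- the row `c` extends to a colouring -/
def VU {κ α : Type} (c : ℕ → κ) (w : Wd α) : Prop := ∃ c', Va (fun _ _ _ _ _ => True) c w c'

/-- the colours of the corners are the given ones -/
def Pd {κ : Type} (l b r t : κ) (a : Cr κ) : Prop := a.l = l ∧ a.b = b ∧ a.r = r ∧ a.t = t

/-- the colours of the corners, together with the row `c` below, are a colouring of the regions -/
def Vl {κ : Type} (c : ℕ → κ) (w : Wd (Cr κ)) : Prop := ∃ c', Va Pd c w c'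

/-- all corners of `a` of colour `x` carry the bit `β` -/
def CrB {κ : Type} (x : κ) (β : Bool) (a : Cr (κ × Bool)) : Prop :=
  (a.l.1 = x → a.l.2 = β) ∧ (a.b.1 = x → a.b.2 = β) ∧ (a.r.1 = x → a.r.2 = β) ∧
    (a.t.1 = x → a.t.2 = β)

/-- The regions of colour `x` are one region: in every refinement of the colouring by bits all corners
and boundary gaps of colour `x` have the same bit. -/
def Fa {κ : Type} (x : κ) (c : ℕ → κ) (N : ℕ) (w : Wd (Cr κ)) : Prop :=
  ∀ (c1 : ℕ → κ × Bool) (w1 : Wd (Cr (κ × Bool))), (∀ j, (c1 j).1 = c j) →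
    mp (Cr.map Prod.fst) w1 = w → Vl c1 w1 →
    ∃ β : Bool, (∀ j ≤ N, c j = x → (c1 j).2 = β) ∧ ∀ a, Lt a w1 → CrB x β a

/-! ### the relation of the boundary gaps of a word without strands above it -/

/-- the gap above a cup at `i` -/
def up (i x : ℕ) : ℕ := if x ≤ i then x else x + 2

/-- the gap above a cap at `i` -/
def dn (i x : ℕ) : ℕ := if x ≤ i then x else x - 2

/-- the gaps `x`, `y` below the word are in the same region -/
def Rel {α : Type} : Wd α → ℕ → ℕ → Prop
  | [], x, y => x = y
  | ⟨.U, i⟩ :: w, x, y => Rel w (up i x) (up i y) ∨ (Rel w (up i x) i ∧ Rel w (i + 2) (up i y)) ∨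
      (Rel w (up i x) (i + 2) ∧ Rel w i (up i y))
  | ⟨.N, i⟩ :: w, x, y => x = y ∨ (x ≠ i + 1 ∧ y ≠ i + 1 ∧ Rel w (dn i x) (dn i y))
  | ⟨.X _, i⟩ :: w, x, y => x = y ∨ (x ≠ i + 1 ∧ y ≠ i + 1 ∧ Rel w x y)

/-- the gap `x` after deleting the gaps `a + 1, ..., a + m` -/
def cl (a m x : ℕ) : ℕ := if x ≤ a then x else x - m

/-- a crossing in the gap `g`: its ends are the strands `g, ..., g + 3` above, its bottom corner is in
the gap `g`, the left, top, right corners are the gaps `g + 1`, `g + 2`, `g + 3` above -/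
def isl {α : Type} (g : ℕ) (a : α) : Wd α := [cU g, cU (g + 2), cX (g + 1) a]

/-- the colours above `isl g a` -/
def isc {κ : Type} (g : ℕ) (a : Cr κ) (c : ℕ → κ) : ℕ → κ := fun j =>
  if j ≤ g then c j else if j = g + 1 then a.l else if j = g + 2 then a.t else
    if j = g + 3 then a.r else c (j - 4)

/-! ### alternating words and the two parities of regions -/

/-- `{x, y}` are the colours of the regions of parity `e` (for letters of a word alternating with `e`:
the even regions) at the crossing `a` -/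
def Ev {κ : Type} (e : Bool) (a : Cr κ) (x y : κ) : Prop :=
  (a.p = e ∧ ((a.l = x ∧ a.r = y) ∨ (a.l = y ∧ a.r = x))) ∨
    (a.p ≠ e ∧ ((a.b = x ∧ a.t = y) ∨ (a.b = y ∧ a.t = x)))

/-- the parities of the colours at the corners -/
def Gl {κ : Type} (e : Bool) (pr : κ → Bool) (a : Cr κ) : Prop :=
  pr a.l = decide (a.p = e) ∧ pr a.r = decide (a.p = e) ∧ pr a.b = !decide (a.p = e) ∧
    pr a.t = !decide (a.p = e)

/-- An alternating word on `N` strands, without strands above it, with a colouring `c` of its regions;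
`pr` is the parity of the colours. -/
structure Dec {κ : Type} (e : Bool) (pr : κ → Bool) (c : ℕ → κ) (N : ℕ) (w : Wd (Cr κ)) : Prop where
  ok : Okd w N 0
  vl : Vl c w
  al : ∀ (i : ℕ) (a : Cr κ), cX i a ∈ w → (a.p = e ↔ i % 2 = 0)
  gl : ∀ a : Cr κ, Lt a w → Gl e pr a
  pc : ∀ j ≤ N, pr (c j) = decide (j % 2 = 0)

/-! ### words without decorations -/

/-- rotation of a word on `n` strands around a vertical axis -/
def flw : ℕ → Word → Word
  | _, [] => []
  | n, s :: w => ⟨s.k, n - s.k.inn - s.i⟩ :: flw (n - s.k.inn + s.k.out) w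

/-- the half twist on at most two strands -/
def dl2 (p : Bool) (n : ℕ) : Word := if n = 2 then [pX 0 p] else []

/-- the crossing below a word on four strands -/
def IW (e : Bool) : Word := [pU 0, pU 2, pX 1 e]

/-- The statement to be proved about words `V` on four strands, alternating with `e` (the crossing of
`IW e` has the wrong sign). -/
def S4 (e : Bool) (V : Word) : Prop :=
  Pool.LSP.Un (Pool.Agent.Helper2.bracket (Pool.ALT.toD (IW e ++ V))) → Iso 0 (IW e ++ V) O1

end Pool.LSG
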