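import Pool.Agent.LSG.St

/-!
# LS, geometry block: alternating words on two strands with a unit bracket
-/

set_option autoImplicit false

namespace Pool.LSG

open Pool.Agent.ARB Pool.Agent.Helper2 Pool.ALT Pool.LSP

theorem thm_K2 (hAK : St_AK) (hBR : St_BR) (hNL : St_NL) (hNX : St_NX) (hSC : St_SC)
    (hIWN : St_IWN) : St_K2 := by
  have key : ∀ (n : ℕ) (e : Bool) (A : Word), Ok A 2 0 → AltW e A →
      Un (bracket (toD (pU 0 :: A))) → nX A = n → Iso 2 A [pN 0] := by
    intro n
    induction n using Nat.strong_induction_on with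
    | _ n IH =>
    intro e A hA hal hU hn
    by_cases h0 : nX A = 0
    · exact hNX A hA h0 hU
    obtain ⟨hok, hiso⟩ := hIWN.2.2 A hA
    have hokU : Ok (pU 0 :: A) 0 0 := ⟨by decide, hA⟩
    have hU' := hSC.1 _ _ hokU (by simp) hiso.symm hU
    have hAw : AltW e (pU 1 :: A) := by
      intro p i hm
      rcases List.mem_cons.1 hm with h | h
      · cases h
      · exact hal p i h
    obtain ⟨κ, pr, c, W, hW, hD, hF, hb⟩ := hBR.2 e A hA hal hok
    have h1 : 1 ≤ nX (pU 1 :: A) := by
      have h2 : nX (pU 1 :: A) = nX A := rfl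
      omega
    obtain ⟨V', hV', hA', hn', hi⟩ := hNL e pr c 2 W hD hF (hb (hAK e _ hok hAw h1 hU'))
    rw [hW] at hi hn'
    have i2 : Iso 0 (pU 0 :: A) (pU 0 :: V') := Iso.left (z := [pU 0]) (k := 2) ⟨by decide, rfl⟩ hi
    exact hi.trans (IH (nX V') (by omega) e V' hV' hA' (hSC.1 _ _ hokU (by simp) i2 hU) rfl)
  intro e A hA hal hU
  exact key (nX A) e A hA hal hU rfl

end Pool.LSG
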