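import Pool.Agent.LSG.Basic
import Pool.Agent.ARB.TopAll

/-!
# LS, geometry block: statements with proofs in the docstrings

Notation in the proofs: `U i`, `N i`, `X i a` for `cU i`, `cN i`, `cX i a` (or `pU i`, ...), `~` is
planar isotopy (`PIso`) or isotopy (`Iso`). A module `M` proves `theorem thm_M : St_M` from the
statements named in its offer as hypotheses. Helper lemmas for `Wd`: `Basic.lean` (same names as in
`ARB/Basic.lean`: `Okd.append`, `PIso.mid`, `PIso.comm`, ...).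
-/

set_option autoImplicit false

namespace Pool.LSG

open Pool.Agent.ARB Pool.Agent.Helper2 Pool.ALT Pool.LSP

/-! ### colourings (modules VaI, VaC, Rel, RelI, RC) -/

/-- `P` is compatible with rotations -/
def RotP {κ α : Type} [Rt α] (P : κ → κ → κ → κ → α → Prop) : Prop :=
  ∀ l b r t a, P l b r t a ↔ P t l b r (Rt.r a)

/-- [VaI] Colourings are invariant under planar isotopy.
PROOF. Induction on the isotopy; one move: `Va` of `u ++ (a ++ v)` splits (`Va_append`, first induction: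
`Va P c (u ++ v) c'' ↔ ∃ c', Va P c u c' ∧ Va P c' v c''`), so compare `Va P c a c'` and `Va P c b c'` for
`PL a b`, as identities of functions on `ℕ` (`funext`, `split_ifs`, `omega`).
`zig`: `insC i t c (i+1) = insC i t c (i+3)` iff `t = c (i+1)`, then `delC (i+1) (insC i t c) = c`. `zag`:
`t = c i`, `delC i (insC (i+1) t c) = c`. `slU`, with `P l b r t a`: below and above `X i a`: `l = c i`,
`b = c (i+1)`, `r = t₁` (colour of the cup), top `t₂`; result `.., c i, t₂, t₁, c (i+1), ..`; other side: cup `t₂`,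
`X (i+1) (r a)` with `l = t₂`, `b = c i`, `r = c (i+1)`, top `t₁`: `RotP`. `slN`: both sides say
`P (c i) (c (i+1)) (c (i+2)) (c (i+3)) (r a)`, `P (c (i+1)) (c (i+2)) (c (i+3)) (c i) a`. `swap`: nine cases. -/
def St_VaI : Prop := (∀ {κ α : Type} (P : κ → κ → κ → κ → α → Prop) (u v : Wd α) (c c'' : ℕ → κ),
    Va P c (u ++ v) c'' ↔ ∃ c', Va P c u c' ∧ Va P c' v c'') ∧
  ∀ {κ α : Type} [Rt α] (P : κ → κ → κ → κ → α → Prop), RotP P → ∀ (n : ℕ) (w w' : Wd α),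
    PIso n w w' → ∀ c c' : ℕ → κ, Va P c w c' ↔ Va P c w' c'

/-- [VaC] Colourings and shifts, all by induction on `A`.
(1) `shd a A`: `(insC (i+a) t c) (j+a) = insC i t (fun j => c (j+a)) j` etc., colours `≤ a` do not change.
(2) right of the word nothing changes: `c' (m + j) = c (n + j)` for `Okd A n m`.
(3) for `A` without strands above, (1) and (2): above `shd a A` the gaps `a+1, ..., a+m` are deleted.
(4) only the values at `0, ..., n` of `c` matter.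
(5) apply a function to the colours; `P` may change to `P'`.
(6) the colour of gap `0` does not change. -/
def St_VaC : Prop := ∀ {κ κ' α β : Type},
  (∀ (P : κ → κ → κ → κ → α → Prop) (A : Wd α) (a : ℕ) (c c' : ℕ → κ),
    Va P c (shd a A) c' ↔ Va P (fun j => c (j + a)) A (fun j => c' (j + a)) ∧ ∀ j ≤ a, c' j = c j) ∧
  (∀ (P : κ → κ → κ → κ → α → Prop) (A : Wd α) (n m : ℕ) (c c' : ℕ → κ), Okd A n m →
    Va P c A c' → ∀ j, c' (m + j) = c (n + j)) ∧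
  (∀ (P : κ → κ → κ → κ → α → Prop) (A : Wd α) (a m : ℕ) (c c' : ℕ → κ), Okd A m 0 →
    (Va P c (shd a A) c' ↔ (∃ d', Va P (fun j => c (j + a)) A d') ∧
      c' = fun j => if j ≤ a then c j else c (j + m))) ∧
  (∀ (P : κ → κ → κ → κ → α → Prop) (A : Wd α) (n m : ℕ) (c d c' : ℕ → κ), Okd A n m →
    (∀ j ≤ n, d j = c j) → Va P c A c' → ∃ d', Va P d A d' ∧ ∀ j ≤ m, d' j = c' j) ∧
  (∀ (P : κ → κ → κ → κ → α → Prop) (P' : κ' → κ' → κ' → κ' → β → Prop) (f : κ → κ') (g : α → β),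
    (∀ l b r t a, P l b r t a → P' (f l) (f b) (f r) (f t) (g a)) →
    ∀ (A : Wd α) (c c' : ℕ → κ), Va P c A c' →
      Va P' (fun j => f (c j)) (mp g A) (fun j => f (c' j))) ∧
  ∀ (P : κ → κ → κ → κ → α → Prop) (A : Wd α) (c c' : ℕ → κ), Va P c A c' → c' 0 = c 0

/-- [Rel] The relation of the boundary gaps.
PROOF. Equivalence relation: induction on `w`; transitivity at a cup: nine combinations of the three
alternatives, each gives one of the three by the induction hypothesis (e.g. second and second: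
`x' ~ i`, `i+2 ~ y'`, `y' ~ i`, `i+2 ~ z'` give `i ~ i+2`, so `x' ~ z'`).
Completeness: induction on `w`. Cup: if `c` respects `Rel (U i :: w)` let `t = c g` if the gap `i + 1` of `w` is
related (in `w`) to some gap `y ≠ i+1`, `y ≤ N+2`, where `g = y` for `y ≤ i` and `g = y - 2` for `y ≥ i+2`,
and any colour otherwise; then `insC i t c` respects `Rel w`: for `x`, `y` different from `i+1` in `w`
with gaps `g`, `g'` below (`y = up i g`, or `y = i + 2`, `g = i`), `Rel w x y` implies `Rel (U i :: w) g g'`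
(first alternative, or the second or third with `Rel w i i`, `Rel w (i+2) (i+2)`). Conversely
`insC i t c` respects `Rel w` and has the same colour at `i`, `i+2`. Cap: `c` respects `Rel (N i :: w)` iff
`c i = c (i+2)` and `delC i c` respects `Rel w` (`i`, `i+2` are related since `dn i i = dn i (i+2)`).
Crossing: like the cup, `t` is the colour of a gap related to `i+1` in `w`.
`Rel w 0 N`: induction (`up i 0 = 0`, `up i N = N + 2`, ...). Range: induction. -/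
def St_Rel : Prop := ∀ {α : Type} (w : Wd α),
  (∀ x, Rel w x x) ∧ (∀ x y, Rel w x y → Rel w y x) ∧
  (∀ x y z, Rel w x y → Rel w y z → Rel w x z) ∧
  (∀ {κ : Type} (N : ℕ) (c : ℕ → κ), Okd w N 0 →
    (VU c w ↔ ∀ x y, x ≤ N → y ≤ N → Rel w x y → c x = c y)) ∧
  (∀ N, Okd w N 0 → Rel w 0 N) ∧ ∀ N x y, Okd w N 0 → Rel w x y → x ≤ N → y ≤ N

/-- [RelI] (from Rel, VaI, VaC). (1) `Rel` by colourings with two colours (`Prop`): completeness, and for
the converse take `c z = Rel w x z`. (2) so `Rel` is invariant under planar isotopy (`VU` is, by VaI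
with `P = True`; both words fit). -/
def St_RelI : Prop :=
  (∀ {α : Type} (w : Wd α) (N x y : ℕ), Okd w N 0 → x ≤ N → y ≤ N →
    (Rel w x y ↔ ∀ c : ℕ → Prop, VU c w → c x = c y)) ∧
  ∀ {α : Type} [Rt α] (w w' : Wd α) (N : ℕ), Okd w N 0 → PIso N w w' → ∀ x y, x ≤ N → y ≤ N →
    (Rel w x y ↔ Rel w' x y)

/-- [RC] Regions of a composite (from Rel, RelI, VaC).
PROOF. By VaC (3) `VU c (shd a A ++ B)` iff `VU (fun j => c (j+a)) A` and
`VU (fun j => if j ≤ a then c j else c (j+m)) B`. Now use RelI (1) and completeness. (1) `→`: a colouring `d` of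
`A` has `d 0 = d m` (`Rel A 0 m`); extend it by the constant `d 0` outside. `←`: restrict. (2) `→`: a
colouring `d` of `B` extends: the gaps `a, ..., a+m` get `d a` (constant colourings are valid, by
completeness). `←`: restrict. (3) if not, take the colouring `z ↦ Rel A (x-a) z` of `A`, which is false at `0`
and `m`, extended by false: `x` is true, `y` is false. -/
def St_RC : Prop := ∀ {α : Type} (A B : Wd α) (a m N : ℕ), Okd A m 0 → Okd B (N - m) 0 → a + m ≤ N →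
  (∀ x y, a ≤ x → x ≤ a + m → a ≤ y → y ≤ a + m →
    (Rel (shd a A ++ B) x y ↔ Rel A (x - a) (y - a))) ∧
  (∀ x y, (x ≤ a ∨ a + m ≤ x) → (y ≤ a ∨ a + m ≤ y) → x ≤ N → y ≤ N →
    (Rel (shd a A ++ B) x y ↔ Rel B (cl a m x) (cl a m y))) ∧
  ∀ x y, a ≤ x → x ≤ a + m → (y ≤ a ∨ a + m ≤ y) → y ≤ N → Rel (shd a A ++ B) x y →
    Rel A (x - a) 0

/-! ### slicing (module SL) -/

/-- [SL] Slicing lemma: if the gaps `a < b` are in the same region, the word can be cut along a path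
joining them. (from Rel, RelI, RC)
PROOF. Strong induction on the length of `w`; the lemma for words of length `< L` gives [NC] (below) for
words of length `< L`, by RC (3): `w ~ shd a A ++ B` along the chord `(a, c)`, `Rel w b d`, `d` outside, so
`Rel A (b-a) 0`, so `Rel w b a` by RC (1) (and RelI). Let `R = Rel w₁`, `w = s :: w₁`.
Cap `N i`: `a, b ≠ i+1`, `R (dn a) (dn b)`. If `dn a = dn b` then `a = i`, `b = i+2`: `A = [N 0]`, `B = w₁`. Otherwise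
`w₁ ~ shd (dn a) A₁ ++ B₁`; `b ≤ i`: `N i` is right of `A₁`: `A = A₁`, `B = N (i-(b-a)) :: B₁` (`PIso.comm`);
`i+2 ≤ a`: `A = A₁`, `B = N i :: B₁`; `a ≤ i`, `i+2 ≤ b`: `A = N (i-a) :: A₁`, `B = B₁`.
Crossing: the same (`a, b ≠ i+1`, or `a = b`).
Cup `U i`, first alternative `R a' b'` (`a' = up i a`): `w₁ ~ shd a' A₁ ++ B₁`; `i < a`: `B = U i :: B₁`; `b ≤ i` and not
`a ≤ i < b`: `B = U (i-(b-a)) :: B₁`; `a ≤ i < b`: `A = U (i-a) :: A₁`.
Second alternative `R a' i`, `R (i+2) b'`. `a < i < b`: chords `(a,i)` and `(i+2,b+2)`: `w₁ ~ shd a A₁ ++ B₁`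
(`A₁` on `i-a` strands), by RC (2) `Rel B₁ (a+2) (b+2-(i-a))`, so by the induction hypothesis for `B₁`
(its length is at most that of `w₁`) `B₁ ~ shd (a+2) A₂ ++ B₂`, and `w ~ shd a (A₁ ++ A₂) ++ (U a :: B₂)`. `a = i`: the
chord `(i+2,b+2)` alone, `w ~ shd i A₂ ++ U i :: B₂`. `i < a`: `(i,a+2)` and `(i+2,b+2)` cross: by [NC] all four gaps
are related, `R a' b'`. `b = i`: `R a i`, so `R a' b'`. `b < i`: `(a,i)`, `(b,i+2)` cross, `R a' b'`.
Third alternative `R a' (i+2)`, `R i b'`. `b ≤ i`: nested: `w₁ ~ shd a A₁ ++ B₁` along `(a,i+2)`, in `A₁` the chord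
`(b-a,i-a)` (RC (1)), if `b < i` then `A₁ ~ shd (b-a) A₂ ++ A₃`,
`w ~ U i :: shd b A₂ ++ shd a A₃ ++ B₁ ~ shd a (U (b-a) :: A₃) ++ (shd a A₂ ++ B₁)`; `b = i`: `A = U (i-a) :: A₁`.
`a < i < b`: `(a,i+2)`, `(i,b+2)` cross: `R a' b'`; `a = i`: `R i (b+2)`. `i < a`: nested: `(i,b+2)` around `(i+2,a+2)`:
`w₁ ~ shd i A₁ ++ B₁`, `A₁ ~ shd 2 A₂ ++ A₃`, `w ~ shd a (U 0 :: A₃) ++ (shd i A₂ ++ B₁)`. -/
def St_SL : Prop :=
  (∀ {α : Type} [Rt α] (w : Wd α) (N : ℕ), Okd w N 0 → ∀ a b, a < b → b ≤ N → Rel w a b →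
    ∃ A B, Okd A (b - a) 0 ∧ Okd B (N - (b - a)) 0 ∧ A.length + B.length = w.length ∧
      PIso N w (shd a A ++ B)) ∧
  ∀ {α : Type} [Rt α] (w : Wd α) (N : ℕ), Okd w N 0 → ∀ a b c d, a < b → b < c → c < d → d ≤ N →
    Rel w a c → Rel w b d → Rel w a b

/-! ### functors, letters (module Mp) -/

/-- [Mp] Functions on decorations which commute with the rotation preserve planar isotopies, and
isotopies can be lifted. PROOF. Lift one step: `mp f w1 = u ++ (a ++ v)` gives `w1 = u1 ++ (a1 ++ v1)`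
(`List.map_eq_append_iff`), lift the move (`slU` backwards: `f b = Rt.r a`, take `b = Rt.r b'`,
`b' = Rt.r (Rt.r (Rt.r b))`, `f b' = a` by `r4`). `fgt`: `PL a b` (in `Wd (Cr κ)`) gives `Loc (fgt a) (fgt b)`
(`(Rt.r a).p = !a.p`; `slN`: `Loc.slN` with `!!p`). Letters: one move changes positions by an even number or
rotates a crossing and changes its position by one. -/
def St_Mp : Prop :=
  (∀ {α β : Type} [Rt α] [Rt β] (f : α → β), (∀ a, f (Rt.r a) = Rt.r (f a)) →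
    (∀ (n : ℕ) (w w' : Wd α), PIso n w w' → PIso n (mp f w) (mp f w')) ∧
    ∀ (n : ℕ) (w1 : Wd α) (w' : Wd β), PIso n (mp f w1) w' → ∃ w1', mp f w1' = w' ∧ PIso n w1 w1') ∧
  (∀ {κ : Type} (n : ℕ) (w w' : Wd (Cr κ)), PIso n w w' → Iso n (fgt w) (fgt w')) ∧
  (∀ {κ : Type}, (∀ u v : Wd (Cr κ), fgt (u ++ v) = fgt u ++ fgt v) ∧
    (∀ (j : ℕ) (u : Wd (Cr κ)), fgt (shd j u) = Pool.Agent.ARB.sh j (fgt u)) ∧
    (∀ (u : Wd (Cr κ)) (n m : ℕ), Okd u n m ↔ Ok (fgt u) n m) ∧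
    (∀ u : Wd (Cr κ), nX (fgt u) = nXd u) ∧
    ∀ (u : Wd (Cr κ)) (p : Bool) (i : ℕ), pX i p ∈ fgt u ↔ ∃ a : Cr κ, a.p = p ∧ cX i a ∈ u) ∧
  (∀ {α : Type} [Rt α] (Q : Bool → α → Prop), (∀ b a, Q (!b) (Rt.r a) ↔ Q b a) →
    ∀ (n : ℕ) (w w' : Wd α), PIso n w w' → ((∀ i a, cX i a ∈ w → Q (decide (i % 2 = 0)) a) ↔
      ∀ i a, cX i a ∈ w' → Q (decide (i % 2 = 0)) a)) ∧
  (∀ {α : Type} [Rt α] (P : α → Prop), (∀ a, P (Rt.r a) ↔ P a) →
    ∀ (n : ℕ) (w w' : Wd α), PIso n w w' → (∃ a, Lt a w ∧ P a) → ∃ a, Lt a w' ∧ P a) ∧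
  ∀ {α : Type} [Rt α] (n : ℕ) (w w' : Wd α), PIso n w w' → nXd w = nXd w'

/-! ### decorated words (modules Fa, Isl) -/

/-- [Fa] (from VaI, VaC, Rel, RelI, Mp). (1) `Vl`, `Dec`, `Fa` are invariant: `Pd` is `RotP`;
`al`, `gl` by the letter part of Mp; `Fa`: lift the isotopy `w' ~ w` to the given refinement of `w'`, the
condition `CrB x β` is invariant under rotation (letter part of Mp with `∀`). (2) `Fa` implies `Rel`:
refine by the bits `β j = Rel w g j` (4). (3) `Rel` implies equal colours (`Vl` implies `VU`).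
(4) a colouring and a row of bits which extends (`VU`) give a refinement: induction on `w`. -/
def St_Fa : Prop :=
  (∀ {κ : Type} (n : ℕ) (w w' : Wd (Cr κ)), PIso n w w' → ∀ c : ℕ → κ, Vl c w → Vl c w') ∧
  (∀ {κ : Type} (e : Bool) (pr : κ → Bool) (c : ℕ → κ) (N : ℕ) (w w' : Wd (Cr κ)), PIso N w w' →
    Dec e pr c N w → Dec e pr c N w') ∧
  (∀ {κ : Type} (x : κ) (c : ℕ → κ) (N : ℕ) (w w' : Wd (Cr κ)), PIso N w w' → Fa x c N w →
    Fa x c N w') ∧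
  (∀ {κ : Type} (x : κ) (c : ℕ → κ) (N : ℕ) (w : Wd (Cr κ)), Okd w N 0 → Vl c w → Fa x c N w →
    ∀ g g', g ≤ N → g' ≤ N → c g = x → c g' = x → Rel w g g') ∧
  (∀ {κ : Type} (c : ℕ → κ) (N : ℕ) (w : Wd (Cr κ)), Okd w N 0 → Vl c w →
    ∀ g g', g ≤ N → g' ≤ N → Rel w g g' → c g = c g') ∧
  ∀ {κ : Type} (c : ℕ → κ) (β : ℕ → Bool) (w : Wd (Cr κ)), VU β w → Vl c w →
    ∃ w1, mp (Cr.map Prod.fst) w1 = w ∧ Vl (fun j => (c j, β j)) w1

/-- [Isl] Colours at an island (from VaI, VaC, Rel, RelI, Fa).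
(1) compute. (2) from (1); position `g + 1`. (3) given a refinement of `V` above the island, first make
all bits of colours `≠ x` false (VaC (5)), then the gaps `g` and `g + 4` have the same bit (equal colour
`a.b ≠ x`, or both false), and it extends to a refinement of `isl g a ++ V` in which the corner `b` of the
island has the bit false. (4) if neither holds, the bits `β j = Rel V (g+2) j` (`VU` by completeness;
false at `g`, `g+4`) refine `V` and extend to a refinement of `isl g a ++ V`, where the corner `t` has the bit true and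
the corner `b` and the gap `g` have the bit false. -/
def St_Isl : Prop :=
  (∀ {κ : Type} (g : ℕ) (a : Cr κ) (c : ℕ → κ) (V : Wd (Cr κ)),
    Vl c (isl g a ++ V) ↔ a.b = c g ∧ Vl (isc g a c) V) ∧
  (∀ {κ : Type} (e : Bool) (pr : κ → Bool) (c : ℕ → κ) (N g : ℕ) (a : Cr κ) (V : Wd (Cr κ)), g ≤ N →
    Dec e pr c N (isl g a ++ V) → Dec e pr (isc g a c) (N + 4) V ∧ a.b = c g ∧ Gl e pr a ∧
      (a.p = e ↔ (g + 1) % 2 = 0)) ∧
  (∀ {κ : Type} (x : κ) (c : ℕ → κ) (N g : ℕ) (a : Cr κ) (V : Wd (Cr κ)), g ≤ N →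
    Okd V (N + 4) 0 → Fa x c N (isl g a ++ V) → a.b = c g → a.b ≠ x → Fa x (isc g a c) (N + 4) V) ∧
  ∀ {κ : Type} (x : κ) (c : ℕ → κ) (N g : ℕ) (a : Cr κ) (V : Wd (Cr κ)), g ≤ N →
    Okd V (N + 4) 0 → Vl c (isl g a ++ V) → Fa x c N (isl g a ++ V) → a.b = x → a.t = x →
    Rel V g (g + 2) ∨ Rel V (g + 2) (g + 4)

/-! ### moving crossings (modules Is, TL, T1) -/

/-- [Is] explicit isotopies with one crossing.
(1) `X i a` as an island in its bottom, left, right corner. (2) other forms of an island.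
(3) the crossing is below `A` with its upper left end: `X (m-1) a :: A ~ isl 0 (r r a) ++ C` with
`C = U (m+3) :: shd 4 A ++ [N 3, N 2, N 1]`. PROOF. `isl 0` commutes with `U (m-1) :: A` (comm):
`isl 0 b ++ C ~ U (m-1) :: (A ++ isl 0 b ++ [N 3, N 2, N 1])`, on three strands
`isl 0 (r (r a)) ++ [N 3, N 2, N 1] ~ [X 1 a, N 0]`; then `X 1 a` goes down through `A` and the cup:
`X (m-1) a :: U (m-1) :: (A ++ [N 0]) ~ X (m-1) a :: [U (m-1), N m] ++ A ~ X (m-1) a :: A` (`zig`).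
(4) the mirror image: `X 0 a :: shd 1 A ~ isl (m+1) (r r a) ++ C'`.
(5) an island moves from the left to the right of the strands of `A` and back:
`isl 0 a ++ A ~ isl m a ++ A'`, `A' = cups ++ shd 4 A ++ caps`, `cups = [U 0, U 1, U 2, U 3]`,
`caps = [N 3, N 2, N 1, N 0]`. PROOF. `isl m a ++ cups ++ shd 4 A ++ caps ~ cups ++ shd 4 A ++ shd 4 (isl 0 a) ++ caps ~
cups ++ (shd 4 (isl 0 a) ++ caps) ++ A` (`shd 4 (isl 0 a) ++ caps` acts on the four left legs of the cups), and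
`cups ++ shd 4 (isl 0 a) ++ caps ~ isl 0 a` (explicit, on no strands; use `slU`, `slN`, `r4`, `zig`, `zag`).
(6) the mirror image: `isl m a ++ A ~ isl 0 a ++ A'`, `A' = shd (m+4) cups ++ shd 4 A ++ caps`.
(7) an island passes a piece. -/
def St_Is : Prop := ∀ {α : Type} [Rt α],
  (∀ (n i : ℕ) (a : α), i + 2 ≤ n → PIso n [cX i a] (isl (i + 1) a ++ [cN i, cN (i + 2)]) ∧
    PIso n [cX i a] (isl i (Rt.r a) ++ [cN (i + 3), cN (i + 2)]) ∧
    PIso n [cX i a] (isl (i + 2) (Rt.r (Rt.r (Rt.r a))) ++ [cN (i + 1), cN i])) ∧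
  (∀ (n g : ℕ) (a : α), g ≤ n → PIso n (isl g a) [cU g, cU (g + 1), cX (g + 2) (Rt.r a)] ∧
    PIso n (isl g (Rt.r a)) [cU g, cU (g + 1), cX g a]) ∧
  (∀ (m : ℕ) (a : α) (A : Wd α), Okd A (m + 1) 0 → ∃ C, Okd C (m + 2 + 4) 1 ∧
    PIso (m + 2) (cX m a :: A) (isl 0 (Rt.r (Rt.r a)) ++ C)) ∧
  (∀ (m : ℕ) (a : α) (A : Wd α), Okd A (m + 1) 0 → ∃ C, Okd C (m + 2 + 4) 1 ∧
    PIso (m + 2) (cX 0 a :: shd 1 A) (isl (m + 2) (Rt.r (Rt.r a)) ++ C)) ∧
  (∀ (m : ℕ) (a : α) (A : Wd α), Okd A (m + 4) 0 → ∃ A', Okd A' (m + 4) 0 ∧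
    PIso m (isl 0 a ++ A) (isl m a ++ A')) ∧
  (∀ (m : ℕ) (a : α) (A : Wd α), Okd A (m + 4) 0 → ∃ A', Okd A' (m + 4) 0 ∧
    PIso m (isl m a ++ A) (isl 0 a ++ A')) ∧
  ∀ (n g : ℕ) (a : α) (s : Pc α), s.i + s.k.inn ≤ n → g ≤ n - s.k.inn + s.k.out →
    (g ≤ s.i → PIso n (s :: isl g a) (isl g a ++ [⟨s.k, s.i + 4⟩])) ∧
    (s.i + s.k.out ≤ g → PIso n (s :: isl g a) (isl (g - s.k.out + s.k.inn) a ++ [s]))

/-- [TL] An island moves to any other gap of its region (from Rel, RelI, RC, SL, Is).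
PROOF. `i = g` trivial. `i < g`: by definition of `Rel (isl i a ++ V)`: `Rel V i (g+4)` or `Rel V (i+4) (g+4)`
(simplest by RelI (1): a colouring of `V` with equal colours at `i`, `i+4` extends, so the equivalence
relation generated by `Rel V` and `i ~ i+4` relates `i`, `g+4`). Second case: SL: `V ~ shd (i+4) A ++ B`, then
`isl i a ++ shd (i+4) A ~ shd i A ++ isl i a ~ isl g a ++ shd i A` (`PIso.comm`). First case: `V ~ shd i A ++ B`, `A`
on `g-i+4` strands, Is (5) shifted by `i`. `g < i`: `Rel V g i` (comm) or `Rel V g (i+4)` (Is (6)). -/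
def St_TL : Prop := ∀ {α : Type} [Rt α] (V : Wd α) (N i g : ℕ) (a : α), Okd V (N + 4) 0 → i ≤ N →
  g ≤ N → Rel (isl i a ++ V) i g → ∃ V', Okd V' (N + 4) 0 ∧
    PIso N (isl i a ++ V) (isl g a ++ V')

/-- [T1] A crossing with a corner in the region `x` can be pulled to any boundary gap `g` of this region
(from Rel, RelI, SL, Mp, Fa, Is, TL).
PROOF. Let `FB x c N w`: in every refinement (`c1`, `w1`) of `w` in which all gaps `j ≤ N` of colour `x` have the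
bit false, all corners of colour `x` have the bit false. `Fa` and `c g = x` imply `FB`. `FB` is invariant
under planar isotopy (like `Fa`). CLAIM: `Okd w N 0`, `Vl c w`, `FB x c N w`, `a` a letter with a corner `x`: there are
`s ≤ N`, `c s = x` and a rotation `a'` of `a`, `a'.b = x`, with `w ~ isl s a' ++ V`. Then TL moves the island from `s`
to `g` (`Rel` by Fa (2)). Proof of the claim: induction on `w = s₀ :: w₁`, `c₁` the colours above `s₀`.
`FB` holds for `w₁`: a refinement of `w₁` with bits false at the gaps `x`; make all bits of colours `≠ x`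
false, then it extends to `w`. HIDDEN GAP: if `s₀ = U i` or `X i _`, and the gap `i+1` of `w₁` has colour `x`
and (`s₀ = U i` and some `w₁' ~ w₁` has a letter with the corner `b` on gap `i+1`, i.e. `w₁' = isl (i+1) a' ++ _`; or
`s₀ = X i a₀`, `a₀.t = x`) then there is a gap `s₂ ≠ i+1` of `w₁` with `Rel w₁ (i+1) s₂`: otherwise the bits
`β j = (j = i+1)` are `VU` for `w₁`, refine `w₁'` (Fa (4)), extend to `s₀ :: w₁'` (the cup or the top corner gets
the bit true), all gaps below have the bit false, but there is a corner `x` with bit true.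
`a` a letter of `w₁`: by induction `w₁ ~ isl s₁ a' ++ V₁`. If `s₁` is not hidden, Is (7) moves the island below `s₀`
(new gap `s` of the same colour). If `s₁ = i+1` is hidden, TL moves it to `s₂` first.
`a` the head, `s₀ = X i a`: corners `b`, `l`, `r`: Is (1). Corner `t`: `s₂` with `Rel w₁ (i+1) s₂`; `s₂ ≤ i`: SL:
`w₁ ~ shd s₂ A ++ B`, `A` on `i+1-s₂ ≥ 1` strands, Is (3) shifted by `s₂`; `s₂ ≥ i+2`:
`w₁ ~ shd (i+1) A ++ B`, Is (4) shifted by `i`. The colours: `c s₂ = x`. -/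
def St_T1 : Prop := ∀ {κ : Type} (w : Wd (Cr κ)) (N : ℕ) (c : ℕ → κ) (x : κ), Okd w N 0 → Vl c w →
  Fa x c N w → ∀ g ≤ N, c g = x → ∀ a, Lt a w → (a.l = x ∨ a.b = x ∨ a.r = x ∨ a.t = x) →
  ∃ a' V, a'.b = x ∧ (a' = a ∨ a' = Rt.r a ∨ a' = Rt.r (Rt.r a) ∨ a' = Rt.r (Rt.r (Rt.r a))) ∧
    Okd V (N + 4) 0 ∧ PIso N w (isl g a' ++ V)

/-! ### words without decorations (modules Fl, SC, NX, IWN) -/

/-- [Fl] Rotation around a vertical axis. `Δ 0 = []`, `Δ (n+1) = ov p n ++ Δ n` (half twist; `Δ 2 = [X 0 p]`).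
CLAIM: `T ++ Δ m ~ Δ n ++ flw n T` for `Ok T n m` (all `n`, `m`); by induction on `T` for one piece `s` on `n`
strands, induction on `n`; position `i ≥ 1`: `St_Nat` (`all_Nat`): `sh 1 s' ++ ov p k' ~ ov p k ++ s'`. Position
`0`: (X) `X 0 q :: ov n ++ ov (n-1) ~ ov n ++ ov (n-1) ++ [X (n-1) q]`, induction with
`ov n ++ ov (n-1) ~ ov (n-1) ++ ov (n-2) ++ [X (n-1) p, X (n-2) p]` and
`[X (n-2) q, X (n-1) p, X (n-2) p] ~ [X (n-1) p, X (n-2) p, X (n-1) q]` (`r3`, `r2`), and `X (n-1) q` commutes with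
`Δ (n-1)`. (U) `U 0 :: ov (n+2) ++ ov (n+1) ~ [U (n+1)]`: first `[U 0, X 0 p] ~ [U 0]`, then
`U 0 :: sh 1 (ov n) ++ ov n ~ [U n]` by induction (`[U n, X (n+1) p, X n p] ~ [U (n+1), X n !p, X n p] ~ [U (n+1)]`).
(N) `ov (n+2) ++ ov (n+1) ++ [N (n+1)] ~ [N 0]` (induction, `[X (n+1) p, X n p, N (n+1)] ~ [X (n+1) p, X (n+1) !p, N n] ~
[N n]`, end: `[X 0 p, N 0] ~ [N 0]`). The other parts of the statement: induction on `T`. -/
def St_Fl : Prop := ∀ (T : Word) (n m : ℕ), Ok T n m →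
  Ok (flw n T) n m ∧ nX (flw n T) = nX T ∧ flw n (flw n T) = T ∧
  (n % 2 = 0 → ∀ e, AltW e T → AltW e (flw n T)) ∧
  (n ≤ 2 → m ≤ 2 → ∀ p, Iso n (T ++ dl2 p m) (dl2 p n ++ flw n T))

/-- [SC] The bracket. (1) from `thm_Inv`, `thm_BrRun`, `thm_Vert` (units `± A ^ k`; `loopVal` is not a zero
divisor; `forget (toD D) = D`). (2) `A` on two strands acts in every good model as
`s • M.cap 0` for a Laurent polynomial `s` (states: `A` without crossings is `δ ^ k • cap`, see `St_NF`,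
`BrRun_states`), so `bracket (u ++ sh j A ++ v) = s * bracket (u ++ [N j] ++ v)`, `bracket (U 0 :: A) = s`; divisors
of a unit are units, and the units of `ℤ[A, A⁻¹]` are `± A ^ k`. (3) a small circle is the factor `loopVal`, which
is not a unit (put `A = 1`: `-2`). -/
def St_SC : Prop :=
  (∀ D D' : Word, Ok D 0 0 → D ≠ [] → Iso 0 D D' → Un (bracket (toD D)) → Un (bracket (toD D'))) ∧
  (∀ (u v A : Word) (j n : ℕ), Ok u 0 n → j + 2 ≤ n → Ok A 2 0 → Ok v (n - 2) 0 →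
    Un (bracket (toD (u ++ (Pool.Agent.ARB.sh j A ++ v)))) →
      Un (bracket (toD (pU 0 :: A))) ∧ Un (bracket (toD (u ++ (pN j :: v))))) ∧
  ∀ (u v : Word) (n i : ℕ), Ok u 0 n → i ≤ n → Ok v n 0 → u ++ v ≠ [] →
    ¬ Un (bracket (toD (u ++ (pU i :: pN i :: v))))

/-- [NX] Words without crossings (from SC). PROOF. Strong induction on the length: if `A` has no cup it
is `[N 0]`. Otherwise take the last cup, above it there are only caps; move it up (`Iso.swap`) until it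
meets a cap: `[U i, N (i+1)]`, `[U (i+1), N i]` cancel (shorter word), `[U i, N i]` contradicts SC (3) (use SC (1)). -/
def St_NX : Prop := ∀ A : Word, Ok A 2 0 → nX A = 0 → Un (bracket (toD (pU 0 :: A))) →
  Iso 2 A [pN 0]

/-- [IWN] `V ~ (U 2 :: U 3 :: V) ++ [N 1, N 0]` on four strands; `NW (w ++ [X 0 p])` with the crossing moved
below; `DW (U 1 :: A) ~ U 0 :: A`. PROOF. `V` (`4 → 0`) commutes with the caps, `[U 2, U 3, N 5, N 4] ~ []`;
`[X 0 p, N 1, N 0] ~ [X 2 p, N 1, N 0]` (see `fl_top` in `ARB/V/FL.lean`), `X 2 p` goes down through `w`,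
`[U 0, U 1, X 2 p] ~ [U 0, U 2, X 1 !p]` (`slU`, `swap`). `DW (U 1 :: A) = [U 0, U 1] ++ A ++ [N 0] ~
[U 0, U 1, N 2] ++ A`. -/
def St_IWN : Prop :=
  (∀ V : Word, Ok V 4 0 → Ok (pU 2 :: pU 3 :: V) 2 2 ∧
    Iso 4 ((pU 2 :: pU 3 :: V) ++ [pN 1, pN 0]) V) ∧
  (∀ (w : Word) (p : Bool), Ok w 2 2 →
    Iso 0 (NW (w ++ [pX 0 p])) (IW (!p) ++ (w ++ [pN 1, pN 0]))) ∧
  ∀ A : Word, Ok A 2 0 → Ok (pU 1 :: A) 2 2 ∧ Iso 0 (DW (pU 1 :: A)) (pU 0 :: A)

/-! ### from graphs to colourings (module BR) -/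

/-- [BR] The canonical colourings. For a row `n`, a word `w` and `f : Loc n w → κ` let `dec n w f : Wd (Cr κ)` be
`w` with the corners of each crossing `X i` coloured by `f` (`bo i`, `bo (i+1)`, `bo (i+2)` below and
`bo (i+1)` above). If `f x = f y` for `R0 n w x y` then `Vl (fun j => f (bo n w (min j n))) (dec n w f)`, and
every colouring of a word `W` with `fgt W = w` arises in this way (induction on `w`). The letter `k` has
`Ev e a (f (ed true n w k).1) (f (ed true n w k).2)` and `Ev (!e) a (f (ed false n w k).1) _` if `w` is alternating with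
`e`. FIRST PART: `w = U 2 :: U 3 :: V`, `κ = Quotient (gs 2 w)`, `f = Quotient.mk`, `pr` = parity (`pa_gs`), `W` = the part
of `dec` above `V` (a row on four strands: `c 0, ..., c 3` are the classes `left`, `bottom`, `right`, `top` of `w`:
above `V` the row on six strands is `c 0, c 1, c 2, c 3, c 4 = c 0, c 3, c 2`). `Fa x`: a
refinement of `W` extends to one of `dec 2 w f` (with the same row of bits `0, ..., 4, 3, 2`), which comes from a
`f1 : Loc 2 w → κ × Bool` respecting `R0`, so the bit only depends on the class. SECOND PART: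
`w = U 1 :: A`, row above `U 1`: `c 0, c 1, c 2 = c 0, c 1, ρ` with `ρ = c_w 2` the right region; it can get any bit,
so no crossing of `A` touches it (a refinement with all bits false except `ρ`). -/
def St_BR : Prop :=
  (∀ (e : Bool) (V : Word), Ok V 4 0 → AltW e V → ∀ h : Ok (pU 2 :: pU 3 :: V) 2 2,
    ∃ (κ : Type) (pr : κ → Bool) (c : ℕ → κ) (W : Wd (Cr κ)), fgt W = V ∧ Dec e pr c 4 W ∧
      (∀ x, Fa x c 4 W) ∧
      ((∃ k, (gE _ h).u k = (gE _ h).v k) → ∃ a e' x, Lt a W ∧ Ev e' a x x) ∧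
      ((∃ k, (gO _ h).u k = (gO _ h).v k) → ∃ a e' x, Lt a W ∧ Ev e' a x x) ∧
      ((gE _ h).a = (gE _ h).b → c 0 = c 2) ∧ ((gO _ h).a = (gO _ h).b → c 1 = c 3) ∧
      ((∃ k, Jn (gE _ h) k (gE _ h).a (gE _ h).b) → ∃ a, Lt a W ∧ Ev e a (c 0) (c 2)) ∧
      ((∃ k, Jn (gO _ h) k (gO _ h).a (gO _ h).b) → ∃ a, Lt a W ∧ Ev (!e) a (c 1) (c 3)) ∧
      (Com (gE _ h) → ∃ r q y, Lt r W ∧ Lt q W ∧ Ev e r (c 0) y ∧ Ev e q y (c 2)) ∧
      (Com (gO _ h) → ∃ s p x, Lt s W ∧ Lt p W ∧ Ev (!e) s (c 1) x ∧ Ev (!e) p x (c 3))) ∧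
  ∀ (e : Bool) (A : Word), Ok A 2 0 → AltW e A → ∀ h : Ok (pU 1 :: A) 2 2,
    ∃ (κ : Type) (pr : κ → Bool) (c : ℕ → κ) (W : Wd (Cr κ)), fgt W = A ∧ Dec e pr c 2 W ∧
      (∀ x, Fa x c 2 W) ∧
      ((∃ k, (gE _ h).u k = (gE _ h).v k ∨ Jn (gE _ h) k (gE _ h).a (gE _ h).b) ∨
        (∃ k, (gO _ h).u k = (gO _ h).v k) → ∃ a e' x, Lt a W ∧ Ev e' a x x)

/-! ### nugatory crossings (modules NL, K2) -/

/-- [NL] A nugatory crossing can be removed (from Rel, RelI, SL, Mp, Fa, Isl, Is, T1, Fl).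
PROOF. (A) There are `w = u ++ v`, `Okd u N k`, a row `d` with `Vl d v`, `Okd v k 0`, `Dec e pr d k v`, `Fa x d k v`, a gap
`g ≤ k`, `d g = x`, and the letter `a` is in `v`: induction on `w`; if `x` is the colour of a gap of `w` take
`v = w`. Otherwise the first piece is not the letter `a` and `Fa x` holds above the first piece (refinement
above: make the bits of colours `≠ x` false, extend; no gap of `w` has colour `x`).
(B) T1: `v ~ isl g a' ++ V`, `a'.b = x`, and `a'.t = x` (`Ev e' a' x x` is invariant under rotation; `l` and `b` have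
different parities by `Gl`). Isl (4): `Rel V g (g+2)` or `Rel V (g+2) (g+4)`.
(C) First case: SL: `V ~ shd g A ++ B`, `A` on two strands. Forget the colours:
`isl g p ++ sh g A ++ B ~ [U g, U (g+1), X (g+2) !p] ++ sh g A ++ B ~ sh g (J ++ [X 0 !p]) ++ B`, `J = U 0 :: U 1 :: A` (`0 → 2`),
`J ++ [X 0 q] ~ flw 0 J` (Fl). Second case: `V ~ shd (g+2) A ++ B`, `isl g p ++ sh (g+2) A ++ B ~
sh g (J ++ [X 0 !p]) ++ B`, `J = U 0 :: U 1 :: sh 2 A` (Is (2): `isl g p ~ [U g, U (g+1), X g !p]`). Result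
`V' = fgt u ++ sh g (flw 0 J) ++ B`, alternating (parities of positions), one crossing less. -/
def St_NL : Prop := ∀ {κ : Type} (e : Bool) (pr : κ → Bool) (c : ℕ → κ) (N : ℕ) (w : Wd (Cr κ)),
  Dec e pr c N w → (∀ x, Fa x c N w) → (∃ a e' x, Lt a w ∧ Ev e' a x x) →
  ∃ V' : Word, Ok V' N 0 ∧ AltW e V' ∧ nX V' + 1 = nX (fgt w) ∧ Iso N (fgt w) V'

/-- [K2] An alternating word on two strands with a unit bracket is a cap (from `St_AK`, BR, NL, NX, SC, IWN).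
PROOF. Induction on `nX A`. `0`: NX. Otherwise `w = U 1 :: A`, `DW w ~ U 0 :: A`, so `Un (bracket (toD (DW w)))`;
`St_AK` and BR give a letter with equal opposite corners, NL a word `A'` with fewer crossings. -/
def St_K2 : Prop := ∀ (e : Bool) (A : Word), Ok A 2 0 → AltW e A → Un (bracket (toD (pU 0 :: A))) →
  Iso 2 A [pN 0]

/-! ### the cases of the induction (modules Red, Adj, Adj2, Rot, Cor, Tg, S) -/

/-- [Red] (from SL, Mp, Fa, Fl, SC, K2). `c 0 = c 2`: `Rel W 0 2`, `W ~ A ++ B`, both on two strands;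
`IW e ++ A ++ B ~ [U 0, U 1, X 2 !e] ++ A ++ B ~ [U 0, U 1] ++ A ++ [X 0 !e] ++ B ~ [U 0, U 1] ++ A ++ flw 2 B`
(Fl with `T = flw 2 B`, `m = 0`). SC (2) and K2: `A ~ N 0`, `[U 0, U 1, N 0] ~ [U 0]`, `flw 2 B ~ N 0`.
`c 1 = c 3`: `Rel W 1 3`, `W ~ sh 1 A ++ B`, `IW e ++ sh 1 A ++ B ~ [U 0, U 2] ++ sh 1 (X 0 e :: A) ++ B`,
`X 0 e :: A ~ flw 2 A`, SC (2) and K2 (`A` is alternating with `!e`): `flw 2 A ~ N 0`, `[U 0, U 2, N 1] ~ [U 0]`. -/
def St_Red : Prop := ∀ {κ : Type} (e : Bool) (pr : κ → Bool) (c : ℕ → κ) (W : Wd (Cr κ)),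
  Dec e pr c 4 W → (∀ x, Fa x c 4 W) → (c 0 = c 2 ∨ c 1 = c 3) → S4 e (fgt W)

/-- [Adj] (from SL, Mp, Fa, Isl, T1, Fl, SC, K2, Is). T1 at gap 2: `W ~ isl 2 a' ++ V`, `a'.b = c 2`, position 3, so
`a'.p = !e`, `a'.t = c 0`. In `V` (`8 → 0`) the gaps 0 and 4 have the colour `c 0`, `Fa (c 0)` holds (Isl (3)), so
`Rel V 0 4`, `V ~ A ++ B`, both on four strands. Forget the colours:
`[U 0, U 2, X 1 e, U 2, U 4, X 3 !e] ++ A ++ B ~ [U 0, U 1, X 0 !e, U 2, U 3, X 4 e] ++ A ++ B` (Is (2), twice)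
`~ [U 0, U 1] ++ ([X 0 !e] ++ A2 ++ [X 0 e]) ++ B`, `A2 = U 2 :: U 3 :: A` (`2 → 2`), and `[X 0 !e] ++ A2 ++ [X 0 e] ~
flw 2 A2 ++ [X 0 !e, X 0 e] ~ flw 2 A2` (Fl, `r2`). Now `U 1 :: (flw 2 A2 ++ B)` is alternating, `2 → 0`: K2, SC (1). -/
def St_Adj : Prop := ∀ {κ : Type} (e : Bool) (pr : κ → Bool) (c : ℕ → κ) (W : Wd (Cr κ)),
  Dec e pr c 4 W → (∀ x, Fa x c 4 W) → c 0 ≠ c 2 → (∃ a, Lt a W ∧ Ev e a (c 0) (c 2)) → S4 e (fgt W)

/-- [Adj2] (from the same). T1 at gap 1: `W ~ isl 1 a' ++ V`, `a'.b = c 1`, position 2, `a'.p = e`, `a'.t = c 3`. In `V` the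
gaps 3 and 7 have the colour `c 3`: `Rel V 3 7`, `V ~ sh 3 A ++ B`, `A` on four strands. Forget:
`[U 0, U 2, X 1 e, U 1, U 3, X 2 e] ++ sh 3 A ++ B ~ [U 0, U 2, X 1 e, U 1, U 2, X 1 !e] ++ sh 3 A ++ B` (Is (2))
`~ [U 0, U 2] ++ sh 1 (X 0 e :: (T ++ [X 0 !e])) ++ B`, `T = U 0 :: U 1 :: sh 2 A` (`2 → 2`), `~ [U 0, U 2] ++ sh 1 (flw 2 T) ++ B`.
Now `U 2 :: (sh 1 (flw 2 T) ++ B)` is alternating with `e`, `2 → 0`: K2. -/
def St_Adj2 : Prop := ∀ {κ : Type} (e : Bool) (pr : κ → Bool) (c : ℕ → κ) (W : Wd (Cr κ)),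
  Dec e pr c 4 W → (∀ x, Fa x c 4 W) → c 1 ≠ c 3 → (∃ a, Lt a W ∧ Ev (!e) a (c 1) (c 3)) →
    S4 e (fgt W)

/-- rotation of a word on four strands: the first strand becomes the last -/
def rtW {α : Type} (W : Wd α) : Wd α := cU 0 :: (shd 1 W ++ [cN 0])

/-- the colours after the rotation -/
def crt {κ : Type} (c : ℕ → κ) : ℕ → κ := fun j => if j ≤ 3 then c (j + 1) else c 1

/-- [Rot] (from VaI, VaC, Mp, Fa, `all_BO`). The word `rtW W` has the colours `c 1, c 2, c 3, c 4 = c 0, c 1`; the cup has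
inside the colour `c 1` and left of it `c 0`... (row above `U 0`: `c 1, c 0, c 1, c 2, c 3, c 4, c 1`; `shd 1 W` acts on
the strands `1, ..., 4`, i.e. on the row `c 0, ..., c 4`; then `N 0`). Refinements of `rtW W` restrict to
refinements of `W`. `S4`: `Iso 0 (IW e ++ V) (IW (!e) ++ rtW V)`: the right side is
`[U 0, U 2, X 1 !e, U 0] ++ sh 1 V ++ [N 0] ~ [U 0, U 1, X 0 e, U 0] ++ sh 1 V ++ [N 0] = DW T` with
`T = [U 1, X 0 e, U 0] ++ sh 1 V` (`1 → 1`), by `all_BO` `~ U 0 :: (sh 1 T ++ [N 0]) =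
[U 0, U 2, X 1 e, U 1] ++ sh 2 V ++ [N 0] ~ [U 0, U 2, X 1 e, U 1, N 0] ++ V ~ IW e ++ V` (`zag`). SC (1). -/
def St_Rot : Prop := ∀ {κ : Type} (e : Bool) (pr : κ → Bool) (c : ℕ → κ) (W : Wd (Cr κ)),
  Dec e pr c 4 W → (Dec (!e) (fun x => !pr x) (crt c) 4 (rtW W) ∧
    (∀ x, Fa x c 4 W → Fa x (crt c) 4 (rtW W)) ∧ (∀ a, Lt a (rtW W) ↔ Lt a W) ∧
    nX (fgt (rtW W)) = nX (fgt W) ∧ (S4 (!e) (fgt (rtW W)) → S4 e (fgt W)) ∧ c 4 = c 0)

/-- [Cor] (from SL, Mp, Fa, Isl, T1). PROOF. Suppose not. `y` is even (`pr y = true`, by `Gl`), `x` is odd. T1 for `r`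
at gap 0: `W ~ isl 0 r' ++ W₁`, `r'.b = c 0`, `r'.t = y` (position 1: `r'.p = !e`). There is a letter `q₁` with
`Ev e q₁ y (c 2)` in `isl 0 r' ++ W₁` (Mp), it is not `r'` (`c 0 ≠ c 2`, `y ≠ c 2`), so it is in `W₁`; T1 at gap 6:
`W₁ ~ isl 6 q' ++ W₂`, `q'.b = c 2`, `q'.t = y`. `Fa z` for `W₂` holds for `z ≠ c 0, c 2` (Isl (3)). By assumption `r'` and
`q'` do not satisfy `Ev (!e) _ (c 1) x` or `Ev (!e) _ x (c 3)`, so there are letters `s₁`, `p₁` of `W₂` which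
satisfy the first and the second. T1 for `s₁` at gap 5 (colour `c 1`): `W₂ ~ isl 5 s' ++ W₃`, `s'.b = c 1`, `s'.t = x`
(position 6: `s'.p = e`); `s'` does not satisfy `Ev (!e) _ x (c 3)`. T1 for `p₁` at gap 15 (colour `c 3`):
`W₃ ~ isl 15 p' ++ W₄`, `p'.t = x`. In `W₄` (`20 → 0`) the gaps 2 and 12 have the colour `y`, 7 and 17 the colour `x`:
`Rel W₄ 2 12`, `Rel W₄ 7 17`, so `Rel W₄ 2 7` by NC, `y = x`: contradiction to the parities. -/
def St_Cor : Prop := ∀ {κ : Type} (e : Bool) (pr : κ → Bool) (c : ℕ → κ) (W : Wd (Cr κ)) (x y : κ)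
  (r q s p : Cr κ), Dec e pr c 4 W → (∀ z, Fa z c 4 W) → c 0 ≠ c 2 → c 1 ≠ c 3 → y ≠ c 0 → y ≠ c 2 →
  x ≠ c 1 → x ≠ c 3 → Lt r W → Lt q W → Lt s W → Lt p W → Ev e r (c 0) y → Ev e q y (c 2) →
  Ev (!e) s (c 1) x → Ev (!e) p x (c 3) →
  ∃ a, Lt a W ∧ (Ev e a (c 0) y ∨ Ev e a y (c 2)) ∧ (Ev (!e) a (c 1) x ∨ Ev (!e) a x (c 3))

/-- [Tgw] The explicit isotopy of the tongue (undecorated words; from Fl). Let
`M1 = [U 0, U 2, X 1 e, U 2, U 4, X 3 !e, U 7, U 9, X 8 e, N 1]`, `M2 = [U 0, U 1, U 4, X 3 e, X 2 e, U 5, U 6, X 7 !e]`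
(`0 → 10`). Path from `M1`: `sw 3` (`U 4` past `U 2`: `U 2, U 2`), then `N 1` goes down: `X 8 → X 6`, `U 9 → U 7`, `U 7 → U 5`,
`X 3 → X 1`, `[U 2, N 1]` cancels (`zag`): `U 0 U 2 X1e U 2 X1!e U 5 U 7 X6e`; from `M2`: `U 0 U 1 U 4 .. ~ U 0 U 2 U 1 X3e X2e ..`
(`swap`), `[U 1, .. X 3 e]`: `slU` backwards twice and `swap`; see /team-store/LS_pl.txt for the list of words (found by
computer). The island `r`: `isl 0 (!e) ~ [U 0, U 1, X 2 e]`.
CLAIM: for `X`, `Y` (`4 → 0`) and `Z` (`6 → 0`)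
`IW e ++ [U 0, U 2, X 1 !e] ++ [U 6, U 8, X 7 !e] ++ [U 11, U 13, X 12 e] ++ sh 9 X ++ [N 5] ++ sh 2 Y ++ Z
~ IW e ++ V0`, `V0 = P ++ [U 8, N 3, N 5] ++ Q`, `P = [U 0, U 1] ++ sh 2 (flw 2 Y2)`, `Q = [X 2 e] ++ sh 3 (flw 2 X2) ++ Z`,
`Y2 = [U 2, U 3] ++ Y`, `X2 = [U 2, U 3] ++ X`. PROOF. The islands commute: the word below `sh 9 X` is
`~ [U 0, U 1, X 2 e] ++ sh 4 ([U 0, U 2, X 1 e] ++ [U 2, U 4, X 3 !e] ++ [U 7, U 9, X 8 e])`; `N 5` commutes with `sh 9 X`; so by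
`M1 ~ M2` everything is `~ [U 0, U 1, X 2 e, U 4, U 5, U 8, X 7 e, X 6 e, U 9, U 10, X 11 !e] ++ sh 7 X ++ sh 2 Y ++ Z ~
[U 0, U 1] ++ sh 2 ([X 0 e] ++ Y2) ++ [U 4, X 3 e, X 2 e] ++ sh 3 (X2 ++ [X 0 !e]) ++ Z` (comm) `~`
`[U 0, U 1] ++ sh 2 (flw 2 Y2) ++ [X 2 e, U 4, X 3 e, X 2 e, X 3 !e] ++ sh 3 (flw 2 X2) ++ Z` (Fl) and
`[X 2 e, U 4, X 3 e, X 2 e, X 3 !e] ~ [U 4, X 3 e, X 2 e, X 3 e, X 3 !e] ~ [U 4, X 3 e, X 2 e]` (`swap`, `r3`, `r2`). Now
`[X 3 e] ~ isl 4 e ++ [N 3, N 5]` (Is (1) for `Bool`, or directly), and the island moves down: it commutes with `U 4` and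
with `P`. -/
def St_Tgw : Prop := ∀ (e : Bool) (X Y Z : Word), Ok X 4 0 → Ok Y 4 0 → Ok Z 6 0 →
  Iso 0 (IW e ++ ([pU 0, pU 2, pX 1 (!e), pU 6, pU 8, pX 7 (!e), pU 11, pU 13, pX 12 e] ++
      (Pool.Agent.ARB.sh 9 X ++ (pN 5 :: (Pool.Agent.ARB.sh 2 Y ++ Z)))))
    (IW e ++ (([pU 0, pU 1] ++ Pool.Agent.ARB.sh 2 (flw 2 (pU 2 :: pU 3 :: Y))) ++
      ([pU 8, pN 3, pN 5] ++ (pX 2 e :: (Pool.Agent.ARB.sh 3 (flw 2 (pU 2 :: pU 3 :: X)) ++ Z)))))

/-- [Tg] The tongue (from SL, RC, Mp, Fa, Isl, T1, Fl, SC, K2, Tgw). PROOF. `y` is even, `x` is odd. T1 for `r` at gap 0: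
`W ~ isl 0 r' ++ W₁`, `r'.b = c 0`, `r'.p = !e`, `r'.t = y`. The letter `q₁` of `W₁` with the properties of `q` (`r'` does
not have them), T1 at gap 6 (colour `c 2`): `W₁ ~ isl 6 q' ++ W₂`, `q'.b = c 2`, position 7, `q'.p = !e`, `q'.t = y`,
`{q'.l, q'.r} = {c 1, x}`. Colours of `W₂` (`12 → 0`): `c0, r'.l, y, r'.r, c0, c1, c2, q'.l, y, q'.r, c2, c3, c0`; `Fa z` for
`z ≠ c 0, c 2`. If `q'.r = c 1`: `Rel 5 9`, `Rel 2 8`, NC: `Rel 2 5`, `y = c 1`, contradiction. So `q'.l = c 1`, `q'.r = x`.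
`r'` does not have `Ev (!e) r' x (c 3)`: if `r'.r = x` then `Rel 3 9` and `Rel 2 8` cross (`y = x`), if `r'.l = x`, `r'.r = c 3`
then `Rel 1 9`, `Rel 3 11` cross (`x = c 3`). `q'` does not have it (`c 1 ≠ c 3`). So there is such a letter `p₁` in `W₂`, T1 at
gap 11 (colour `c 3`): `W₂ ~ isl 11 p' ++ W₃`, `p'.b = c 3`, position 12, `p'.p = e`, `p'.t = x`. In `W₃` (`16 → 0`):
`Rel 9 13` (`x`), `Rel 5 7` (`c 1`), `Rel 2 8` (`y`). SL three times (RC (2)): `W₃ ~ sh 9 X ++ sh 5 I ++ sh 2 Y ++ Z`.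
Forget the colours. SC (2) and K2 for `I` (alternating with `!e`; the letters of `W₃` by Mp): `I ~ N 0`. Tgw. The word
`V0` is alternating with `e` (parities), `nX V0 = nX W - 2 - nX I`. Induction hypothesis, SC (1). -/
def St_Tg : Prop := ∀ {κ : Type} (e : Bool) (pr : κ → Bool) (c : ℕ → κ) (W : Wd (Cr κ)) (x y : κ)
  (r q p : Cr κ), Dec e pr c 4 W → (∀ z, Fa z c 4 W) → c 0 ≠ c 2 → c 1 ≠ c 3 → y ≠ c 0 → y ≠ c 2 →
  x ≠ c 1 → x ≠ c 3 → Lt r W → Lt q W → Lt p W → Ev e r (c 0) y → Ev e q y (c 2) →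
  Ev (!e) q (c 1) x → Ev (!e) p x (c 3) →
  (∀ (e0 : Bool) (V0 : Word), Ok V0 4 0 → AltW e0 V0 → nX V0 < nX (fgt W) → S4 e0 V0) →
  S4 e (fgt W)

/-- [S] (from `St_AA`, SC, IWN, BR, NL, Red, Adj, Adj2, Rot, Cor, Tg). PROOF. Strong induction on `nX V`. Let
`w = U 2 :: U 3 :: V`; `NW (w ++ [X 0 !e]) ~ IW e ++ (w ++ [N 1, N 0]) ~ IW e ++ V`, so `St_AA` applies to `w`; BR. Loops: NL
gives `V'` with one crossing less and `Iso 4 V V'`. Otherwise Red, Adj, Adj2, or `Com` twice: `y = c 0` or `y = c 2`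
is Adj, `x = c 1` or `x = c 3` is Adj2; otherwise Cor gives a letter `a`: `Ev e a y (c 2)` and `Ev (!e) a (c 1) x`: Tg.
The three other cases by Rot (once, twice, three times): `Ev e a y (c 2)`, `Ev (!e) a x (c 3)`: after one rotation
(`c' = c1, c2, c3, c0`, `e' = !e`) `a` has `Ev e' a x (c' 2)` and `Ev (!e') a (c' 1) y`, `r' = s`, `p' = r`, and so on. -/
def St_S : Prop := ∀ (e : Bool) (V : Word), Ok V 4 0 → AltW e V → S4 e V

/-- [NoBad] (from S, K2, IWN, SC). `p = !e`: IWN and `St_S` for `V = w ++ [N 1, N 0]`. `p = e`: `NW (w ++ [X 0 e]) = U 0 :: A`,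
`A = U 1 :: (w ++ [X 0 e, N 1, N 0])` is alternating: K2. -/
def St_NoBad : Prop := ∀ (e : Bool) (w : Word), Ok w 2 2 → AltW e w → ∀ p : Bool,
  Un (bracket (toD (NW (w ++ [pX 0 p])))) → Iso 0 (NW (w ++ [pX 0 p])) O1

end Pool.LSG
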