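import Pool.Agent.LSG.St

/-!
# LS, geometry block: colourings are invariant under planar isotopy
-/

set_option autoImplicit false

namespace Pool.LSG

open Pool.Agent.ARB

theorem vai_append {κ α : Type} (P : κ → κ → κ → κ → α → Prop) (u v : Wd α) (c c'' : ℕ → κ) :
    Va P c (u ++ v) c'' ↔ ∃ c', Va P c u c' ∧ Va P c' v c'' := by
  induction u generalizing c with
  | nil =>
    constructor
    · intro h
      exact ⟨c, rfl, h⟩
    · rintro ⟨c', h1, h2⟩
      have h3 : c = c' := h1
      rw [h3]
      exact h2
  | cons s u ih =>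
    obtain ⟨k, i⟩ := s
    cases k with
    | U =>
      constructor
      · rintro ⟨t, h⟩
        obtain ⟨c', h1, h2⟩ := (ih _).1 h
        exact ⟨c', ⟨t, h1⟩, h2⟩
      · rintro ⟨c', ⟨t, h1⟩, h2⟩
        exact ⟨t, (ih _).2 ⟨c', h1, h2⟩⟩
    | N =>
      constructor
      · rintro ⟨h0, h⟩
        obtain ⟨c', h1, h2⟩ := (ih _).1 h
        exact ⟨c', ⟨h0, h1⟩, h2⟩
      · rintro ⟨c', ⟨h0, h1⟩, h2⟩
        exact ⟨h0, (ih _).2 ⟨c', h1, h2⟩⟩
    | X a =>
      constructor
      · rintro ⟨t, h0, h⟩
        obtain ⟨c', h1, h2⟩ := (ih _).1 h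
        exact ⟨c', ⟨t, h0, h1⟩, h2⟩
      · rintro ⟨c', ⟨t, h0, h1⟩, h2⟩
        exact ⟨t, h0, (ih _).2 ⟨c', h1, h2⟩⟩

section loc

variable {κ : Type} (c : ℕ → κ) (i k : ℕ) (x y : κ)

/-! ### identities of rows -/

private theorem ins_lo {i j : ℕ} (h : j ≤ i) : insC i x c j = c j := if_pos h

private theorem ins_mid {i j : ℕ} (h : j = i + 1) : insC i x c j = x := by
  unfold insC
  rw [if_neg (by omega), if_pos h]

private theorem ins_hi {i j : ℕ} (h : i + 1 < j) : insC i x c j = c (j - 2) := by
  unfold insC
  rw [if_neg (by omega), if_neg (by omega)]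

private theorem del_lo {i j : ℕ} (h : j ≤ i) : delC i c j = c j := if_pos h

private theorem del_hi {i j : ℕ} (h : i < j) : delC i c j = c (j + 2) := if_neg (by omega)

private theorem upd_eq {i j : ℕ} (h : j = i) : updC i x c j = x := if_pos h

private theorem upd_ne {i j : ℕ} (h : j ≠ i) : updC i x c j = c j := if_neg h

private theorem ins_ins : insC (i + 2 + k) y (insC i x c) = insC i x (insC (i + k) y c) := by
  funext j
  simp only [insC]
  split_ifs <;> first | rfl | omega | (exact congrArg c (by omega))

private theorem del_ins : delC (i + 2 + k) (insC i x c) = insC i x (delC (i + k) c) := by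
  funext j
  simp only [insC, delC]
  split_ifs <;> first | rfl | omega | (exact congrArg c (by omega))

private theorem upd_ins : updC (i + 2 + k + 1) y (insC i x c) = insC i x (updC (i + k + 1) y c) := by
  funext j
  simp only [insC, updC]
  split_ifs <;> first | rfl | omega | (exact congrArg c (by omega))

private theorem ins_del (h : c i = c (i + 2)) :
    insC (i + k) y (delC i c) = delC i (insC (i + 2 + k) y c) := by
  funext j
  by_cases hj : j = i + 2 ∧ k = 0
  · obtain ⟨rfl, rfl⟩ := hj
    simp only [insC, delC]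
    rw [if_neg (by omega), if_neg (by omega), if_pos (by omega), if_neg (by omega),
      if_neg (by omega), if_neg (by omega)]
    have e1 : i + 2 - 2 = i := by omega
    have e2 : i + 2 + 2 - 2 = i + 2 := by omega
    rw [e1, e2]
    exact h
  · simp only [insC, delC]
    split_ifs <;> first | rfl | omega | (exact congrArg c (by omega))

private theorem del_del : delC (i + k) (delC i c) = delC i (delC (i + 2 + k) c) := by
  funext j
  simp only [delC]
  split_ifs <;> first | rfl | omega | (exact congrArg c (by omega))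

private theorem upd_del : updC (i + k + 1) y (delC i c) = delC i (updC (i + 2 + k + 1) y c) := by
  funext j
  simp only [delC, updC]
  split_ifs <;> first | rfl | omega | (exact congrArg c (by omega))

private theorem ins_upd : insC (i + 2 + k) y (updC (i + 1) x c) =
    updC (i + 1) x (insC (i + 2 + k) y c) := by
  funext j
  simp only [insC, updC]
  split_ifs <;> first | rfl | omega | (exact congrArg c (by omega))

private theorem del_upd : delC (i + 2 + k) (updC (i + 1) x c) =
    updC (i + 1) x (delC (i + 2 + k) c) := by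
  funext j
  simp only [delC, updC]
  split_ifs <;> first | rfl | omega | (exact congrArg c (by omega))

private theorem upd_upd : updC (i + 2 + k + 1) y (updC (i + 1) x c) =
    updC (i + 1) x (updC (i + 2 + k + 1) y c) := by
  funext j
  simp only [updC]
  split_ifs <;> first | rfl | omega | (exact congrArg c (by omega))

end loc

private theorem vai_swap {κ α : Type} (P : κ → κ → κ → κ → α → Prop) (s t : Kd α) (i k : ℕ)
    (c c' : ℕ → κ) : Va P c [⟨s, i⟩, ⟨t, i + s.out + k⟩] c' ↔
      Va P c [⟨t, i + s.inn + k⟩, ⟨s, i⟩] c' := by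
  cases s with
  | U =>
    cases t with
    | U =>
      show (∃ x, ∃ y, insC (i + 2 + k) y (insC i x c) = c') ↔
        (∃ y, ∃ x, insC i x (insC (i + k) y c) = c')
      constructor
      · rintro ⟨x, y, h⟩
        exact ⟨y, x, by rw [← ins_ins]; exact h⟩
      · rintro ⟨y, x, h⟩
        exact ⟨x, y, by rw [ins_ins]; exact h⟩
    | N =>
      show (∃ x, insC i x c (i + 2 + k) = insC i x c (i + 2 + k + 2) ∧
          delC (i + 2 + k) (insC i x c) = c') ↔
        (c (i + k) = c (i + k + 2) ∧ ∃ x, insC i x (delC (i + k) c) = c')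
      have e1 : ∀ x, insC i x c (i + 2 + k) = c (i + k) := by
        intro x
        rw [ins_hi c x (by omega)]
        exact congrArg c (by omega)
      have e2 : ∀ x, insC i x c (i + 2 + k + 2) = c (i + k + 2) := by
        intro x
        rw [ins_hi c x (by omega)]
        exact congrArg c (by omega)
      constructor
      · rintro ⟨x, h, h'⟩
        rw [e1, e2] at h
        exact ⟨h, x, by rw [← del_ins]; exact h'⟩
      · rintro ⟨h, x, h'⟩
        exact ⟨x, by rw [e1, e2]; exact h, by rw [del_ins]; exact h'⟩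
    | X a =>
      show (∃ x, ∃ y, P (insC i x c (i + 2 + k)) (insC i x c (i + 2 + k + 1))
          (insC i x c (i + 2 + k + 2)) y a ∧ updC (i + 2 + k + 1) y (insC i x c) = c') ↔
        (∃ y, P (c (i + k)) (c (i + k + 1)) (c (i + k + 2)) y a ∧
          ∃ x, insC i x (updC (i + k + 1) y c) = c')
      have e1 : ∀ x, insC i x c (i + 2 + k) = c (i + k) := by
        intro x
        rw [ins_hi c x (by omega)]
        exact congrArg c (by omega)
      have e2 : ∀ x, insC i x c (i + 2 + k + 1) = c (i + k + 1) := by
        intro x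
        rw [ins_hi c x (by omega)]
        exact congrArg c (by omega)
      have e3 : ∀ x, insC i x c (i + 2 + k + 2) = c (i + k + 2) := by
        intro x
        rw [ins_hi c x (by omega)]
        exact congrArg c (by omega)
      constructor
      · rintro ⟨x, y, h, h'⟩
        rw [e1, e2, e3] at h
        exact ⟨y, h, x, by rw [← upd_ins]; exact h'⟩
      · rintro ⟨y, h, x, h'⟩
        exact ⟨x, y, by rw [e1, e2, e3]; exact h, by rw [upd_ins]; exact h'⟩
  | N =>
    cases t with
    | U =>
      show (c i = c (i + 2) ∧ ∃ y, insC (i + k) y (delC i c) = c') ↔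
        (∃ y, insC (i + 2 + k) y c i = insC (i + 2 + k) y c (i + 2) ∧
          delC i (insC (i + 2 + k) y c) = c')
      have e1 : ∀ y, insC (i + 2 + k) y c i = c i := fun y => ins_lo c y (by omega)
      have e2 : ∀ y, insC (i + 2 + k) y c (i + 2) = c (i + 2) := fun y => ins_lo c y (by omega)
      constructor
      · rintro ⟨h, y, h'⟩
        exact ⟨y, by rw [e1, e2]; exact h, by rw [← ins_del c i k y h]; exact h'⟩
      · rintro ⟨y, h, h'⟩
        rw [e1, e2] at h
        exact ⟨h, y, by rw [ins_del c i k y h]; exact h'⟩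
    | N =>
      show (c i = c (i + 2) ∧ delC i c (i + k) = delC i c (i + k + 2) ∧
          delC (i + k) (delC i c) = c') ↔
        (c (i + 2 + k) = c (i + 2 + k + 2) ∧ delC (i + 2 + k) c i = delC (i + 2 + k) c (i + 2) ∧
          delC i (delC (i + 2 + k) c) = c')
      have e1 : delC (i + 2 + k) c i = c i := del_lo c (by omega)
      have e2 : delC (i + 2 + k) c (i + 2) = c (i + 2) := del_lo c (by omega)
      have e3 : delC i c (i + k + 2) = c (i + 2 + k + 2) := by
        rw [del_hi c (by omega)]
        exact congrArg c (by omega)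
      rw [e1, e2, e3, del_del]
      rcases Nat.eq_zero_or_pos k with rfl | hk
      · have e4 : delC i c (i + 0) = c i := del_lo c (by omega)
        rw [e4]
        constructor
        · rintro ⟨h1, h2, h3⟩
          exact ⟨h1.symm.trans h2, h1, h3⟩
        · rintro ⟨h1, h2, h3⟩
          exact ⟨h2, h2.trans h1, h3⟩
      · have e4 : delC i c (i + k) = c (i + 2 + k) := by
          rw [del_hi c (by omega)]
          exact congrArg c (by omega)
        rw [e4]
        constructor
        · rintro ⟨h1, h2, h3⟩
          exact ⟨h2, h1, h3⟩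
        · rintro ⟨h1, h2, h3⟩
          exact ⟨h2, h1, h3⟩
    | X a =>
      show (c i = c (i + 2) ∧ ∃ y, P (delC i c (i + k)) (delC i c (i + k + 1))
          (delC i c (i + k + 2)) y a ∧ updC (i + k + 1) y (delC i c) = c') ↔
        (∃ y, P (c (i + 2 + k)) (c (i + 2 + k + 1)) (c (i + 2 + k + 2)) y a ∧
          updC (i + 2 + k + 1) y c i = updC (i + 2 + k + 1) y c (i + 2) ∧
          delC i (updC (i + 2 + k + 1) y c) = c')
      have e1 : ∀ y, updC (i + 2 + k + 1) y c i = c i := fun y => upd_ne c y (by omega)
      have e2 : ∀ y, updC (i + 2 + k + 1) y c (i + 2) = c (i + 2) := fun y => upd_ne c y (by omega)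
      have e3 : delC i c (i + k + 2) = c (i + 2 + k + 2) := by
        rw [del_hi c (by omega)]
        exact congrArg c (by omega)
      have e4 : delC i c (i + k + 1) = c (i + 2 + k + 1) := by
        rw [del_hi c (by omega)]
        exact congrArg c (by omega)
      have e5 : c i = c (i + 2) → delC i c (i + k) = c (i + 2 + k) := by
        intro h
        rcases Nat.eq_zero_or_pos k with rfl | hk
        · exact (del_lo c (by omega)).trans h
        · rw [del_hi c (by omega)]
          exact congrArg c (by omega)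
      constructor
      · rintro ⟨h, y, h', h''⟩
        rw [e3, e4, e5 h] at h'
        exact ⟨y, h', by rw [e1, e2]; exact h, by rw [← upd_del]; exact h''⟩
      · rintro ⟨y, h', h, h''⟩
        rw [e1, e2] at h
        exact ⟨h, y, by rw [e3, e4, e5 h]; exact h', by rw [upd_del]; exact h''⟩
  | X b =>
    cases t with
    | U =>
      show (∃ x, P (c i) (c (i + 1)) (c (i + 2)) x b ∧
          ∃ y, insC (i + 2 + k) y (updC (i + 1) x c) = c') ↔
        (∃ y, ∃ x, P (insC (i + 2 + k) y c i) (insC (i + 2 + k) y c (i + 1))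
          (insC (i + 2 + k) y c (i + 2)) x b ∧ updC (i + 1) x (insC (i + 2 + k) y c) = c')
      have e1 : ∀ y, insC (i + 2 + k) y c i = c i := fun y => ins_lo c y (by omega)
      have e2 : ∀ y, insC (i + 2 + k) y c (i + 1) = c (i + 1) := fun y => ins_lo c y (by omega)
      have e3 : ∀ y, insC (i + 2 + k) y c (i + 2) = c (i + 2) := fun y => ins_lo c y (by omega)
      constructor
      · rintro ⟨x, h, y, h'⟩
        exact ⟨y, x, by rw [e1, e2, e3]; exact h, by rw [← ins_upd]; exact h'⟩
      · rintro ⟨y, x, h, h'⟩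
        rw [e1, e2, e3] at h
        exact ⟨x, h, y, by rw [ins_upd]; exact h'⟩
    | N =>
      show (∃ x, P (c i) (c (i + 1)) (c (i + 2)) x b ∧
          updC (i + 1) x c (i + 2 + k) = updC (i + 1) x c (i + 2 + k + 2) ∧
          delC (i + 2 + k) (updC (i + 1) x c) = c') ↔
        (c (i + 2 + k) = c (i + 2 + k + 2) ∧ ∃ x, P (delC (i + 2 + k) c i)
          (delC (i + 2 + k) c (i + 1)) (delC (i + 2 + k) c (i + 2)) x b ∧
          updC (i + 1) x (delC (i + 2 + k) c) = c')
      have e1 : delC (i + 2 + k) c i = c i := del_lo c (by omega)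
      have e2 : delC (i + 2 + k) c (i + 1) = c (i + 1) := del_lo c (by omega)
      have e3 : delC (i + 2 + k) c (i + 2) = c (i + 2) := del_lo c (by omega)
      have e4 : ∀ x, updC (i + 1) x c (i + 2 + k) = c (i + 2 + k) := fun x =>
        upd_ne c x (by omega)
      have e5 : ∀ x, updC (i + 1) x c (i + 2 + k + 2) = c (i + 2 + k + 2) := fun x =>
        upd_ne c x (by omega)
      rw [e1, e2, e3]
      constructor
      · rintro ⟨x, h, h', h''⟩
        rw [e4, e5] at h'
        exact ⟨h', x, h, by rw [← del_upd]; exact h''⟩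
      · rintro ⟨h', x, h, h''⟩
        exact ⟨x, h, by rw [e4, e5]; exact h', by rw [del_upd]; exact h''⟩
    | X a =>
      show (∃ x, P (c i) (c (i + 1)) (c (i + 2)) x b ∧ ∃ y, P (updC (i + 1) x c (i + 2 + k))
          (updC (i + 1) x c (i + 2 + k + 1)) (updC (i + 1) x c (i + 2 + k + 2)) y a ∧
          updC (i + 2 + k + 1) y (updC (i + 1) x c) = c') ↔
        (∃ y, P (c (i + 2 + k)) (c (i + 2 + k + 1)) (c (i + 2 + k + 2)) y a ∧
          ∃ x, P (updC (i + 2 + k + 1) y c i) (updC (i + 2 + k + 1) y c (i + 1))
          (updC (i + 2 + k + 1) y c (i + 2)) x b ∧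
          updC (i + 1) x (updC (i + 2 + k + 1) y c) = c')
      have e1 : ∀ x, updC (i + 1) x c (i + 2 + k) = c (i + 2 + k) := fun x =>
        upd_ne c x (by omega)
      have e2 : ∀ x, updC (i + 1) x c (i + 2 + k + 1) = c (i + 2 + k + 1) := fun x =>
        upd_ne c x (by omega)
      have e3 : ∀ x, updC (i + 1) x c (i + 2 + k + 2) = c (i + 2 + k + 2) := fun x =>
        upd_ne c x (by omega)
      have e4 : ∀ y, updC (i + 2 + k + 1) y c i = c i := fun y => upd_ne c y (by omega)
      have e5 : ∀ y, updC (i + 2 + k + 1) y c (i + 1) = c (i + 1) := fun y =>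
        upd_ne c y (by omega)
      have e6 : ∀ y, updC (i + 2 + k + 1) y c (i + 2) = c (i + 2) := fun y =>
        upd_ne c y (by omega)
      constructor
      · rintro ⟨x, h, y, h', h''⟩
        rw [e1, e2, e3] at h'
        exact ⟨y, h', x, by rw [e4, e5, e6]; exact h, by rw [← upd_upd]; exact h''⟩
      · rintro ⟨y, h', x, h, h''⟩
        rw [e4, e5, e6] at h
        exact ⟨x, h, y, by rw [e1, e2, e3]; exact h', by rw [upd_upd]; exact h''⟩

private theorem vai_loc {κ α : Type} [Rt α] (P : κ → κ → κ → κ → α → Prop) (hP : RotP P)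
    (a b : Wd α) (h : PL a b) (c c' : ℕ → κ) : Va P c a c' ↔ Va P c b c' := by
  cases h with
  | swap s t i k => exact vai_swap P s t i k c c'
  | zig i =>
    show (∃ t, insC i t c (i + 1) = insC i t c (i + 1 + 2) ∧
      delC (i + 1) (insC i t c) = c') ↔ c = c'
    have e1 : ∀ t, insC i t c (i + 1) = t := fun t => ins_mid c t rfl
    have e2 : ∀ t, insC i t c (i + 1 + 2) = c (i + 1) := by
      intro t
      rw [ins_hi c t (by omega)]
      exact congrArg c (by omega)
    have e3 : delC (i + 1) (insC i (c (i + 1)) c) = c := by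
      funext j
      simp only [insC, delC]
      split_ifs <;>
        first | rfl | omega | (exact congrArg c (by omega))
    constructor
    · rintro ⟨t, h1, h2⟩
      rw [e1, e2] at h1
      rw [h1, e3] at h2
      exact h2
    · intro h
      exact ⟨c (i + 1), by rw [e1, e2], by rw [e3]; exact h⟩
  | zag i =>
    show (∃ t, insC (i + 1) t c i = insC (i + 1) t c (i + 2) ∧
      delC i (insC (i + 1) t c) = c') ↔ c = c'
    have e1 : ∀ t, insC (i + 1) t c i = c i := fun t => ins_lo c t (by omega)
    have e2 : ∀ t, insC (i + 1) t c (i + 2) = t := fun t => ins_mid c t rfl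
    have e3 : ∀ t, delC i (insC (i + 1) t c) = c := by
      intro t
      funext j
      simp only [insC, delC]
      split_ifs <;>
        first | rfl | omega | (exact congrArg c (by omega))
    constructor
    · rintro ⟨t, h1, h2⟩
      rw [e3] at h2
      exact h2
    · intro h
      exact ⟨c i, by rw [e1, e2], by rw [e3]; exact h⟩
  | slU i a =>
    show (∃ x, ∃ y, P (insC (i + 1) x c i) (insC (i + 1) x c (i + 1)) (insC (i + 1) x c (i + 2))
        y a ∧ updC (i + 1) y (insC (i + 1) x c) = c') ↔
      (∃ y, ∃ x, P (insC i y c (i + 1)) (insC i y c (i + 1 + 1)) (insC i y c (i + 1 + 2))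
        x (Rt.r a) ∧ updC (i + 1 + 1) x (insC i y c) = c')
    have e1 : ∀ x, insC (i + 1) x c i = c i := fun x => ins_lo c x (by omega)
    have e2 : ∀ x, insC (i + 1) x c (i + 1) = c (i + 1) := fun x => ins_lo c x (by omega)
    have e3 : ∀ x, insC (i + 1) x c (i + 2) = x := fun x => ins_mid c x rfl
    have e4 : ∀ y, insC i y c (i + 1) = y := fun y => ins_mid c y rfl
    have e5 : ∀ y, insC i y c (i + 1 + 1) = c i := by
      intro y
      rw [ins_hi c y (by omega)]
      exact congrArg c (by omega)
    have e6 : ∀ y, insC i y c (i + 1 + 2) = c (i + 1) := by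
      intro y
      rw [ins_hi c y (by omega)]
      exact congrArg c (by omega)
    have e7 : ∀ x y, updC (i + 1) y (insC (i + 1) x c) = updC (i + 1 + 1) x (insC i y c) := by
      intro x y
      funext j
      simp only [insC, updC]
      split_ifs <;> first | rfl | omega | (exact congrArg c (by omega))
    constructor
    · rintro ⟨x, y, h1, h2⟩
      rw [e1, e2, e3] at h1
      exact ⟨y, x, by rw [e4, e5, e6]; exact (hP _ _ _ _ _).1 h1, by rw [← e7]; exact h2⟩
    · rintro ⟨y, x, h1, h2⟩
      rw [e4, e5, e6] at h1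
      exact ⟨x, y, by rw [e1, e2, e3]; exact (hP _ _ _ _ _).2 h1, by rw [e7]; exact h2⟩
  | slN i a =>
    show (∃ x, P (c i) (c (i + 1)) (c (i + 2)) x (Rt.r a) ∧
        updC (i + 1) x c (i + 1) = updC (i + 1) x c (i + 1 + 2) ∧
        delC (i + 1) (updC (i + 1) x c) = c') ↔
      (∃ y, P (c (i + 1)) (c (i + 1 + 1)) (c (i + 1 + 2)) y a ∧
        updC (i + 1 + 1) y c i = updC (i + 1 + 1) y c (i + 2) ∧
        delC i (updC (i + 1 + 1) y c) = c')
    have e1 : ∀ x, updC (i + 1) x c (i + 1) = x := fun x => upd_eq c x rfl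
    have e2 : ∀ x, updC (i + 1) x c (i + 1 + 2) = c (i + 1 + 2) := fun x => upd_ne c x (by omega)
    have e3 : ∀ y, updC (i + 1 + 1) y c i = c i := fun y => upd_ne c y (by omega)
    have e4 : ∀ y, updC (i + 1 + 1) y c (i + 2) = y := fun y => upd_eq c y rfl
    have e5 : ∀ y, delC (i + 1) (updC (i + 1) (c (i + 1 + 2)) c) =
        delC i (updC (i + 1 + 1) y c) := by
      intro y
      funext j
      simp only [delC, updC]
      split_ifs <;> first | rfl | omega | (exact congrArg c (by omega))
    constructor
    · rintro ⟨x, h1, h2, h3⟩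
      rw [e1, e2] at h2
      rw [h2] at h1 h3
      exact ⟨c i, (hP _ _ _ _ _).2 h1, by rw [e3, e4], by rw [← e5]; exact h3⟩
    · rintro ⟨y, h1, h2, h3⟩
      rw [e3, e4] at h2
      rw [← h2] at h1
      exact ⟨c (i + 1 + 2), (hP _ _ _ _ _).1 h1, by rw [e1, e2], by rw [e5 y]; exact h3⟩

theorem thm_VaI : St_VaI := by
  refine ⟨fun P u v c c'' => vai_append P u v c c'', ?_⟩
  intro κ α _ P hP n w w' hw
  have hstep : ∀ w w' : Wd α, PStep n w w' → ∀ c c' : ℕ → κ, Va P c w c' ↔ Va P c w' c' := by
    rintro w w' ⟨u, a, b, v, k, l, rfl, rfl, -, -, -, h6⟩ c c'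
    have h7 : ∀ c c' : ℕ → κ, Va P c a c' ↔ Va P c b c' := by
      intro c c'
      rcases h6 with h6 | h6
      · exact vai_loc P hP a b h6 c c'
      · exact (vai_loc P hP b a h6 c c').symm
    rw [vai_append, vai_append]
    refine exists_congr fun c₁ => and_congr_right fun _ => ?_
    rw [vai_append, vai_append]
    exact exists_congr fun c₂ => and_congr_left fun _ => h7 c₁ c₂
  induction hw with
  | refl => exact fun c c' => Iff.rfl
  | tail _ hs ih => exact fun c c' => (ih c c').trans (hstep _ _ hs c c')

end Pool.LSG
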